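import Pool.Agent.Run7.h72.Tower
import Pool.Agent.W619.Y.Parts
import Pool.Agent.Y172.UpA

/-!
Pull-back of sections; the Kodaira dimension of images of small degree.
-/

set_option autoImplicit false
set_option linter.overlappingInstances false
set_option linter.unusedSectionVars false
set_option maxHeartbeats 4000000
set_option synthInstance.maxHeartbeats 400000

open FF Module
open Pool.Agent.W602.GT Pool.Agent.W603.LV Pool.Agent.W619.PQ Pool.Agent.Y172

namespace Run7.h72

section

variable {k K : Type} [Field k] [CharZero k] [Field K] [Algebra k K] {n : ℕ}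

theorem derReg_of_log' {P : Place k K} {D : Derivation k K K} (h : DerLog P D) : DerReg P D := by
  intro f hf
  by_cases h0 : f = 0
  · rw [h0, map_zero]
    exact P.reg_zero
  · have h3 := P.reg_mul (h f) hf
    rwa [div_mul_cancel₀ _ h0] at h3

theorem dom_one {v : Place k K} {f : K} :
    Pool.Agent.W619.TW.Dom v {1} 0 f ↔ v.Reg f := by
  constructor
  · rintro (h | ⟨s, -, -, h⟩)
    · exact Or.inl h
    · right
      simpa using h
  · rintro (h | h)
    · exact Or.inl h
    · right
      exact ⟨1, Finset.mem_singleton_self _, one_ne_zero, by simpa using h⟩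

theorem logSec_iff {m : ℕ} {B : Place k K → Prop} {ω : (Fin n → Derivation k K K) → K} :
    LogSec k K n m B ω ↔ Pool.Agent.W619.TW.IsSec k K n B {1} m 0 ω := by
  constructor
  · rintro ⟨h1, h2, h3⟩
    exact ⟨h1, fun v hv hB D hD => dom_one.2 (h3 v hv hB D hD),
      fun v hv _ D hD => dom_one.2 (h2 v hv D hD)⟩
  · rintro ⟨h1, h2, h3⟩
    refine ⟨h1, fun v hv D hD => ?_, fun v hv hB D hD => dom_one.1 (h2 v hv hB D hD)⟩
    by_cases hB : B v
    · exact dom_one.1 (h3 v hv hB D hD)
    · exact dom_one.1 (h2 v hv hB D fun l => derReg_of_log' (hD l))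

end

section

variable {k K L : Type} [Field k] [CharZero k] [Field K] [Field L] [Algebra k K] [Algebra k L]
  [Algebra K L] [IsScalarTower k K L] [FiniteDimensional K L] {n : ℕ}

open scoped Classical in
/-- pull-back of sections -/
theorem pull_sec [Algebra.EssFiniteType k K] (hn : Algebra.trdeg k K = n)
    (B : Place k K → Prop) (S : Finset K) (m j : ℕ) {y : Fin n → K}
    {E : Fin n → Derivation k K K} (hy : IsTranscendenceBasis k y)
    (hE : ∀ i j, E i (y j) = if i = j then 1 else 0) (ω : (Fin n → Derivation k K K) → K)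
    (hω : Pool.Agent.W619.TW.IsSec k K n B S m j ω) :
    Pool.Agent.W619.TW.IsSec k L n (Pool.Agent.W619.Y.BdUp B) (S.image (algebraMap K L)) m j
        (fun D => (Matrix.of fun a b => D a (algebraMap K L (y b))).det ^ m *
          algebraMap K L (ω E)) :=
  Pool.Agent.W619.Y.pPULL k K L n hn (fun _ hz => fd_basis hz) B S m j y E hy hE ω hω

theorem det_lift {y : Fin n → K} {E : Fin n → Derivation k K K}
    (hE : ∀ i j, E i (y j) = if i = j then 1 else 0) {E' : Fin n → Derivation k L L}
    (hE' : ∀ i f, E' i (algebraMap K L f) = algebraMap K L (E i f)) :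
    (Matrix.of fun a b => E' a (algebraMap K L (y b))).det = 1 := by
  have h1 : (Matrix.of fun a b => E' a (algebraMap K L (y b))) = 1 := by
    ext a b
    rw [Matrix.of_apply, Matrix.one_apply]
    exact lift_dual hE hE' a b
  rw [h1, Matrix.det_one]

/-- the Kodaira dimension does not drop upstairs -/
theorem kodGe_up [Algebra.EssFiniteType k K] (hn : Algebra.trdeg k K = n)
    {B : Place k K → Prop} {h : ℕ} (hk : KodGe k K n B h) :
    KodGe k L n (Pool.Agent.W619.Y.BdUp B) h := by
  classical
  obtain ⟨y, E, hy, hE⟩ := exists_crd hn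
  choose E' hE' using fun i => exists_lift (L := L) hn (E i)
  have hdet := det_lift (L := L) hE hE'
  obtain ⟨N, hN, ω, hω, D, hD, hind⟩ := hk
  refine ⟨N, hN, fun l D' => (Matrix.of fun a b => D' a (algebraMap K L (y b))).det ^ N *
          algebraMap K L (ω l E), fun l => ?_, E', ?_, ?_⟩
  · have h1 := pull_sec (L := L) hn B {1} N 0 hy hE (ω l) (logSec_iff.1 (hω l))
    rw [Finset.image_singleton, map_one] at h1
    exact logSec_iff.2 h1
  · change (Matrix.of fun a b => E' a (algebraMap K L (y b))).det ^ N *
          algebraMap K L (ω 0 E) ≠ 0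
    rw [hdet, one_pow, one_mul]
    intro h1
    rw [map_eq_zero] at h1
    apply hD
    rw [pluri_coord hy hE (hω 0).1, h1, mul_zero]
  · have hd : (Matrix.of fun i j => D i (y j)).det ^ N ≠ 0 := by
      intro h1
      apply hD
      rw [pluri_coord hy hE (hω 0).1, h1, zero_mul]
    have e1 : (fun i : Fin h => ω i.succ D / ω 0 D) = fun i : Fin h => ω i.succ E / ω 0 E := by
      funext i
      rw [pluri_coord hy hE (hω i.succ).1 D, pluri_coord hy hE (hω 0).1 D,
        mul_div_mul_left _ _ hd]
    rw [e1] at hind
    have h2 := hind.map' (f := IsScalarTower.toAlgHom k K L) (algebraMap K L).injective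
    have e2 : (fun i : Fin h => ((Matrix.of fun a b => E' a (algebraMap K L (y b))).det ^ N *
          algebraMap K L (ω i.succ E)) / ((Matrix.of fun a b =>
            E' a (algebraMap K L (y b))).det ^ N * algebraMap K L (ω 0 E))) =
        (IsScalarTower.toAlgHom k K L) ∘ fun i : Fin h => ω i.succ E / ω 0 E := by
      funext i
      rw [hdet, one_pow, one_mul, one_mul]
      change _ = algebraMap K L _
      rw [map_div₀]
    change AlgebraicIndependent k (fun i : Fin h => ((Matrix.of fun a b =>
      E' a (algebraMap K L (y b))).det ^ N *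
          algebraMap K L (ω i.succ E)) / ((Matrix.of fun a b =>
            E' a (algebraMap K L (y b))).det ^ N * algebraMap K L (ω 0 E)))
    rw [e2]
    exact h2

open scoped Classical in
/-- linearly independent sections upstairs -/
theorem indep_up [Algebra.EssFiniteType k K] (hn : Algebra.trdeg k K = n)
    (B : Place k K → Prop) (S : Finset K) {m j N : ℕ}
    (hI : Pool.Agent.W619.TW.HasIndep k K n N (Pool.Agent.W619.TW.IsSec k K n B S m j)) :
    Pool.Agent.W619.TW.HasIndep k L n N
      (Pool.Agent.W619.TW.IsSec k L n (Pool.Agent.W619.Y.BdUp B) (S.image (algebraMap K L)) m j) := by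
  obtain ⟨y, E, hy, hE⟩ := exists_crd hn
  choose E' hE' using fun i => exists_lift (L := L) hn (E i)
  have hdet := det_lift (L := L) hE hE'
  obtain ⟨ω, hli, hω⟩ := hI
  refine ⟨fun l D' => (Matrix.of fun a b => D' a (algebraMap K L (y b))).det ^ m *
          algebraMap K L (ω l E), ?_, fun l => pull_sec hn B S m j hy hE (ω l) (hω l)⟩
  rw [Fintype.linearIndependent_iff] at hli ⊢
  intro c hc
  apply hli
  have h1 : ∑ l, c l • ω l E = 0 := by
    have h2 := congrFun hc E'
    rw [Finset.sum_apply] at h2
    simp only [Pi.smul_apply, Pi.zero_apply, hdet, one_pow, one_mul] at h2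
    have h3 : algebraMap K L (∑ l, c l • ω l E) = 0 := by
      rw [← h2, map_sum]
      refine Finset.sum_congr rfl fun l _ => ?_
      rw [Algebra.smul_def, Algebra.smul_def, map_mul, ← IsScalarTower.algebraMap_apply k K L]
    exact (map_eq_zero _).1 h3
  funext D
  rw [Finset.sum_apply]
  simp only [Pi.smul_apply, Pi.zero_apply]
  have h4 : ∀ l, c l • ω l D = (Matrix.of fun i j => D i (y j)).det ^ m * (c l • ω l E) := by
    intro l
    rw [pluri_coord hy hE (hω l).1 D, mul_smul_comm]
  rw [Finset.sum_congr rfl fun l _ => h4 l, ← Finset.mul_sum, h1, mul_zero]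

end

end Run7.h72
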