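import Mathlib

/-!
The norm of the derivative of the minimal polynomial at a generator, under `t ↦ 1 / (t - c)`.
-/

set_option autoImplicit false
set_option linter.overlappingInstances false
set_option linter.unusedSectionVars false

open Polynomial Module

namespace Run7.h72

section

variable {L K : Type*} [Field L] [Field K] [Algebra L K] [FiniteDimensional L K]

theorem gen_iff {u : K} : IntermediateField.adjoin L {u} = ⊤ ↔ Algebra.adjoin L {u} = ⊤ := by
  rw [← IntermediateField.adjoin_simple_toSubalgebra_of_isAlgebraic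
    (Algebra.IsAlgebraic.isAlgebraic (R := L) u), ← IntermediateField.top_toSubalgebra,
    IntermediateField.toSubalgebra_inj]

theorem natDegree_gen {u : K} (hu : Algebra.adjoin L {u} = ⊤) :
    (minpoly L u).natDegree = finrank L K := by
  let pb := PowerBasis.ofAdjoinEqTop (Algebra.IsIntegral.isIntegral (R := L) u) hu
  have h1 : pb.gen = u := PowerBasis.ofAdjoinEqTop_gen _ _
  rw [pb.finrank, ← pb.natDegree_minpoly, h1]

/-- the reciprocal polynomial -/
noncomputable def rcp (r : ℕ) (p : L[X]) : L[X] :=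
  ∑ i ∈ Finset.range (r + 1), C (p.coeff i) * X ^ (r - i)

theorem coeff_rcp_top (r : ℕ) (p : L[X]) : (rcp r p).coeff r = p.coeff 0 := by
  unfold rcp
  rw [finsetSum_coeff, Finset.sum_eq_single 0]
  · simp
  · intro i hi hi0
    rw [coeff_C_mul, coeff_X_pow, if_neg, mul_zero]
    have := Finset.mem_range.1 hi
    omega
  · intro h
    exact absurd (Finset.mem_range.2 (Nat.succ_pos r)) h

theorem natDegree_rcp_le (r : ℕ) (p : L[X]) : (rcp r p).natDegree ≤ r := by
  unfold rcp
  refine natDegree_sum_le_of_forall_le _ _ fun i _ => ?_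
  exact (natDegree_C_mul_X_pow_le _ _).trans (Nat.sub_le r i)

theorem aeval_rcp (r : ℕ) (p : L[X]) (hp : p.natDegree ≤ r) {u : K} (hu : u ≠ 0) :
    u ^ r * aeval u⁻¹ (rcp r p) = aeval u p := by
  unfold rcp
  rw [map_sum, Finset.mul_sum, aeval_eq_sum_range' (Nat.lt_succ_of_le hp)]
  refine Finset.sum_congr rfl fun i hi => ?_
  have hi' : i ≤ r := Nat.lt_succ_iff.1 (Finset.mem_range.1 hi)
  rw [map_mul, aeval_C, map_pow, aeval_X, Algebra.smul_def]
  have h1 : u ^ r = u ^ i * u ^ (r - i) := by rw [← pow_add]; congr 1; omega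
  rw [h1, inv_pow]
  have h2 : u ^ (r - i) ≠ 0 := pow_ne_zero _ hu
  field_simp

theorem aeval_deriv_rcp (r : ℕ) (hr : 1 ≤ r) (p : L[X]) (hp : p.natDegree ≤ r) {u : K} (hu : u ≠ 0) :
    u ^ (r - 1) * aeval u⁻¹ (derivative (rcp r p)) =
      r * aeval u p - u * aeval u (derivative p) := by
  unfold rcp
  rw [derivative_sum, map_sum, Finset.mul_sum, aeval_eq_sum_range' (Nat.lt_succ_of_le hp),
    Finset.mul_sum]
  have h0 : u * aeval u (derivative p) =
      ∑ i ∈ Finset.range (r + 1), (i : K) * (p.coeff i • u ^ i) := by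
    have h1 : p = ∑ i ∈ Finset.range (r + 1), C (p.coeff i) * X ^ i := by
      conv_lhs => rw [p.as_sum_range_C_mul_X_pow' (Nat.lt_succ_of_le hp)]
    conv_lhs => rw [h1]
    rw [derivative_sum, map_sum, Finset.mul_sum]
    refine Finset.sum_congr rfl fun i _ => ?_
    rw [derivative_C_mul_X_pow, map_mul, aeval_C, map_mul, map_pow, aeval_X, Algebra.smul_def]
    rcases Nat.eq_zero_or_pos i with rfl | hi
    · simp
    · have h2 : u ^ i = u * u ^ (i - 1) := by rw [← pow_succ']; congr 1; omega
      rw [h2]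
      simp only [map_natCast]
      ring
  rw [h0, ← Finset.sum_sub_distrib]
  refine Finset.sum_congr rfl fun i hi => ?_
  have hi' : i ≤ r := Nat.lt_succ_iff.1 (Finset.mem_range.1 hi)
  rw [derivative_C_mul_X_pow, map_mul, aeval_C, map_mul, map_pow, aeval_X, Algebra.smul_def]
  simp only [map_natCast]
  rcases Nat.lt_or_ge i r with hlt | hge
  · have h1 : u ^ (r - 1) = u ^ i * u ^ (r - i - 1) := by rw [← pow_add]; congr 1; omega
    have h2 : u ^ (r - i - 1) ≠ 0 := pow_ne_zero _ hu
    have h3 : ((r - i : ℕ) : K) = r - i := by push_cast [Nat.cast_sub hi']; ring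
    rw [h1, h3, inv_pow]
    field_simp
  · have h1 : i = r := le_antisymm hi' hge
    subst h1
    simp

/-- the minimal polynomial of the inverse of a generator -/
theorem minpoly_inv {u : K} (hu0 : u ≠ 0) (hu : Algebra.adjoin L {u} = ⊤) :
    (minpoly L u).coeff 0 ≠ 0 ∧ rcp (finrank L K) (minpoly L u) =
      C ((minpoly L u).coeff 0) * minpoly L u⁻¹ := by
  have hint : IsIntegral L u := Algebra.IsIntegral.isIntegral u
  have hint' : IsIntegral L u⁻¹ := Algebra.IsIntegral.isIntegral u⁻¹
  have ha0 : (minpoly L u).coeff 0 ≠ 0 := minpoly.coeff_zero_ne_zero hint hu0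
  refine ⟨ha0, ?_⟩
  set r := finrank L K with hr
  have hdeg : (minpoly L u).natDegree = r := natDegree_gen hu
  -- the root
  have hroot : aeval u⁻¹ (rcp r (minpoly L u)) = 0 := by
    have h1 := aeval_rcp r (minpoly L u) hdeg.le hu0
    rw [minpoly.aeval] at h1
    exact (mul_eq_zero.1 h1).resolve_left (pow_ne_zero _ hu0)
  obtain ⟨q, hq⟩ := minpoly.dvd L u⁻¹ hroot
  -- the degree
  have hdeg' : (minpoly L u⁻¹).natDegree = r := by
    apply natDegree_gen
    have h1 : IntermediateField.adjoin L {u} = ⊤ := gen_iff.2 hu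
    have h2 : IntermediateField.adjoin L {u⁻¹} = ⊤ := by
      rw [eq_top_iff, ← h1, IntermediateField.adjoin_simple_le_iff]
      have := IntermediateField.mem_adjoin_simple_self L u⁻¹
      simpa using inv_mem this
    exact gen_iff.1 h2
  have htop := coeff_rcp_top r (minpoly L u)
  have hne : rcp r (minpoly L u) ≠ 0 := by
    intro h
    rw [h, coeff_zero] at htop
    exact ha0 htop.symm
  have hq0 : q ≠ 0 := by
    rintro rfl
    rw [mul_zero] at hq
    exact hne hq
  have hqdeg : q.natDegree = 0 := by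
    have h1 := natDegree_rcp_le r (minpoly L u)
    rw [hq, natDegree_mul (minpoly.ne_zero hint') hq0, hdeg'] at h1
    omega
  obtain ⟨a, ha⟩ : ∃ a, q = C a := ⟨q.coeff 0, eq_C_of_natDegree_eq_zero hqdeg⟩
  rw [hq, ha] at htop
  rw [coeff_mul_C, ← hdeg', (minpoly.monic hint').coeff_natDegree, one_mul] at htop
  rw [hq, ha, htop, mul_comm]

/-- **The derivatives of the minimal polynomials** of a generator and of its inverse. -/
theorem deriv_inv {u : K} (hu0 : u ≠ 0) (hu : Algebra.adjoin L {u} = ⊤) :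
    u * aeval u (derivative (minpoly L u)) = -(algebraMap L K ((minpoly L u).coeff 0)) *
      u ^ (finrank L K - 1) * aeval u⁻¹ (derivative (minpoly L u⁻¹)) := by
  obtain ⟨-, h1⟩ := minpoly_inv hu0 hu
  have h2 := aeval_deriv_rcp (finrank L K) finrank_pos (minpoly L u) (natDegree_gen hu).le hu0
  rw [h1, minpoly.aeval, mul_zero, zero_sub, derivative_C_mul, map_mul, aeval_C] at h2
  linear_combination h2

theorem norm_gen {u : K} (hu : Algebra.adjoin L {u} = ⊤) :
    Algebra.norm L u = (-1) ^ finrank L K * (minpoly L u).coeff 0 := by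
  let pb := PowerBasis.ofAdjoinEqTop (Algebra.IsIntegral.isIntegral (R := L) u) hu
  have h1 : pb.gen = u := PowerBasis.ofAdjoinEqTop_gen _ _
  have h2 := Algebra.PowerBasis.norm_gen_eq_coeff_zero_minpoly pb
  rw [h1] at h2
  rw [h2, pb.finrank]

/-- **The norms of the derivatives.** -/
theorem norm_deriv_inv {u : K} (hu0 : u ≠ 0) (hu : Algebra.adjoin L {u} = ⊤) :
    ∃ ε : L, ε ^ 2 = 1 ∧ Algebra.norm L (aeval u (derivative (minpoly L u))) =
      ε * Algebra.norm L (u ^ (2 * (finrank L K - 1)) *
        aeval u⁻¹ (derivative (minpoly L u⁻¹))) := by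
  have h1 := congrArg (Algebra.norm L) (deriv_inv hu0 hu)
  have h2 : (minpoly L u).coeff 0 = (-1) ^ finrank L K * Algebra.norm L u := by
    rw [norm_gen hu, ← mul_assoc, ← mul_pow]
    simp
  have hn0 : Algebra.norm L u ≠ 0 := Algebra.norm_ne_zero_iff.2 hu0
  rw [map_mul, map_mul, map_mul, ← map_neg, Algebra.norm_algebraMap, map_pow, h2] at h1
  refine ⟨(-1) ^ (finrank L K) * (-1) ^ (finrank L K * finrank L K), ?_, ?_⟩
  · rw [mul_pow, ← pow_mul, ← pow_mul, mul_comm _ 2, mul_comm _ 2, pow_mul, pow_mul]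
    simp
  · rw [map_mul, map_pow]
    have hr : 1 ≤ finrank L K := finrank_pos
    obtain ⟨m, hm⟩ : ∃ m, finrank L K = m + 1 := ⟨finrank L K - 1, by omega⟩
    apply mul_left_cancel₀ hn0
    rw [h1, hm, Nat.add_sub_cancel, neg_pow, mul_pow, ← pow_mul]
    ring

/-- translation by an element of the base field -/
theorem deriv_sub (t : K) (c : L) :
    aeval (t - algebraMap L K c) (derivative (minpoly L (t - algebraMap L K c))) =
      aeval t (derivative (minpoly L t)) := by
  rw [minpoly.sub_algebraMap, derivative_comp]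
  simp [aeval_comp]

end

end Run7.h72
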