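import Pool.Agent.Run7.h72.TowerI

/-!
Sections of pairs under finite extensions: pull-back and norms.
-/

set_option autoImplicit false
set_option linter.overlappingInstances false
set_option linter.unusedSectionVars false
set_option maxHeartbeats 4000000
set_option synthInstance.maxHeartbeats 400000

open FF Polynomial Module
open Pool.Agent.W602.GT Pool.Agent.W603.LV Pool.Agent.W619.PQ Pool.Agent.Y172

namespace Run7.h72

section

variable {k K : Type} [Field k] [CharZero k] [Field K] [Algebra k K] {n : ℕ}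

theorem sa {T : Type} (m : ℕ) (Δ A : T → ℚ) (P : T) : (m • Δ + A) P = m * Δ P + A P := by
  rw [Pi.add_apply, Pi.smul_apply, nsmul_eq_mul]

theorem sb {T : Type} (m : ℕ) (Δ : T → ℚ) (P : T) : (m • Δ) P = m * Δ P := by
  rw [Pi.smul_apply, nsmul_eq_mul]

theorem det_pluri (f : Fin n → K) (m : ℕ) (c : K) :
    IsPluri m (fun D : Fin n → Derivation k K K =>
      (Matrix.of fun a b => D a (f b)).det ^ m * c) := by
  intro A D
  have e1 : (Matrix.of fun a b => (∑ j, A a j • D j) (f b)) =
      A * Matrix.of fun a b => D a (f b) := by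
    ext a b
    rw [Matrix.of_apply, Matrix.mul_apply, sum_smul_app]
    rfl
  change (Matrix.of fun a b => (∑ j, A a j • D j) (f b)).det ^ m * _ = _
  rw [e1, Matrix.det_mul, mul_pow, mul_assoc]

theorem OGe.mono {P : Place k K} {ω : (Fin n → Derivation k K K) → K} {c c' : ℚ}
    (h : OGe P ω c) (hc : c' ≤ c) : OGe P ω c' := fun G hG => Qe.mono (h G hG) hc

theorem OGe.mul {P : Place k K} {ω ω' : (Fin n → Derivation k K K) → K} {c c' : ℚ}
    (h : OGe P ω c) (h' : OGe P ω' c') : OGe P (fun D => ω D * ω' D) (c + c') :=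
  fun G hG => Qe.mul (h G hG) (h' G hG)

theorem OGe.pow {P : Place k K} {ω : (Fin n → Derivation k K K) → K} {c : ℚ}
    (h : OGe P ω c) (m : ℕ) : OGe P (fun D => ω D ^ m) (m * c) :=
  fun G hG => Qe.pow (h G hG) m

theorem HasSec.mono {X : Set (Place k K)} {m : ℕ} {D D' : Place k K → ℚ} {h : ℕ}
    (hs : HasSec X n m D h) (hD : ∀ P ∈ X, D P ≤ D' P) : HasSec X n m D' h := by
  obtain ⟨ω, h1, h2⟩ := hs
  exact ⟨ω, h1, fun l => ⟨(h2 l).1, fun P hP => ((h2 l).2 P hP).mono (neg_le_neg (hD P hP))⟩⟩

theorem hasSec_zero (X : Set (Place k K)) (m : ℕ) (D : Place k K → ℚ) : HasSec X n m D 0 :=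
  ⟨Fin.elim0, linearIndependent_empty_type, fun l => l.elim0⟩

theorem hz_le {K' : Type} [Field K'] [Algebra k K'] {X : Set (Place k K)} {X' : Set (Place k K')}
    {m m' : ℕ} {D : Place k K → ℚ} {D' : Place k K' → ℚ}
    (h : ∀ r, HasSec X n m D r → HasSec X' n m' D' r) : hz X n m D ≤ hz X' n m' D' := by
  refine iSup₂_le fun r hr => ?_
  exact le_iSup₂_of_le (f := fun (r : ℕ) (_ : HasSec X' n m' D' r) => (r : ℕ∞)) r (h r hr) le_rfl

end

section

variable {k K L : Type} [Field k] [CharZero k] [Field K] [Field L] [Algebra k K]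
  [Algebra k L] [Algebra K L] [IsScalarTower k K L] [FiniteDimensional K L] {n : ℕ}

/-- pull-back of forms, with orders -/
theorem oge_up [Algebra.EssFiniteType k K] (hn : Algebra.trdeg k K = n) {P : Place k K}
    (hP : Divisorial n P) {Q : Place k L} {e : ℕ} (hQ : Over Q P e) {z : Fin n → K}
    (hz : IsTranscendenceBasis k z) {E : Fin n → Derivation k K K}
    (hE : ∀ i j, E i (z j) = if i = j then 1 else 0) {m : ℕ}
    {ω : (Fin n → Derivation k K K) → K} (hω : IsPluri m ω) {c : ℚ} (h : OGe P ω c) :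
    OGe Q (fun D : Fin n → Derivation k L L =>
      (Matrix.of fun a b => D a (algebraMap K L (z b))).det ^ m * algebraMap K L (ω E))
      (m * ((e : ℚ) - 1) + e * c) := by
  obtain ⟨y, EP, i0, hl⟩ := exists_loc hn hP
  choose EP' hEP' using fun i => exists_lift (L := L) hn (EP i)
  intro D hD
  have h1 := pluri_coord (hl.bas.algebraMap_comp (A := L)) (lift_dual hl.dual hEP')
    (det_pluri (k := k) (fun b => algebraMap K L (z b)) m (algebraMap K L (ω E))) D
  have h2 : (Matrix.of fun a b => EP' a (algebraMap K L (z b))).det ^ m * algebraMap K L (ω E) =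
      algebraMap K L (ω EP) := by
    rw [pluri_coord hz hE hω EP, map_mul, map_pow, RingHom.map_det]
    congr 3
    ext a b
    rw [Matrix.of_apply, hEP']
    rfl
  change Qe Q _ ((Matrix.of fun a b => D a (algebraMap K L (z b))).det ^ m *
    algebraMap K L (ω E))
  rw [h1, h2]
  rcases h EP hl.pres with h0 | h0
  · left
    rw [h0, map_zero, mul_zero]
  have h3 := pull_reg hQ hl hD (m := m) (ω := ω) (b := P.ord (ω EP)) (Or.inr le_rfl)
  have h4 := Qe.of_ge h3
  refine Qe.mono h4 ?_
  push_cast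
  have h5 : (e : ℚ) * c ≤ e * P.ord (ω EP) := mul_le_mul_of_nonneg_left h0 (by positivity)
  linarith

/-- **Pull-back of sections.** -/
theorem hasSec_up [Algebra.EssFiniteType k K] (hn : Algebra.trdeg k K = n)
    {X : Set (Place k K)} (hX : ∀ P ∈ X, Divisorial n P) {Δ A : Place k K → ℚ}
    {Γ B : Place k L → ℚ}
    (hΓ : ∀ P ∈ X, ∀ (Q : Place k L) (e : ℕ), Over Q P e → 1 - e * (1 - Δ P) ≤ Γ Q)
    (hB : ∀ P ∈ X, ∀ (Q : Place k L) (e : ℕ), Over Q P e → e * A P ≤ B Q) {m r : ℕ}
    (h : HasSec X n m (m • Δ + A) r) : HasSec (Ov L X) n m (m • Γ + B) r := by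
  obtain ⟨z, E, hz, hE⟩ := exists_crd hn
  choose E' hE' using fun i => exists_lift (L := L) hn (E i)
  have hdet : (Matrix.of fun a b => E' a (algebraMap K L (z b))).det = 1 := by
    have h1 : (Matrix.of fun a b => E' a (algebraMap K L (z b))) = 1 := by
      ext a b
      rw [Matrix.of_apply, Matrix.one_apply]
      exact lift_dual hE hE' a b
    rw [h1, Matrix.det_one]
  obtain ⟨ω, hli, hω⟩ := h
  refine ⟨fun l D' => (Matrix.of fun a b => D' a (algebraMap K L (z b))).det ^ m *
          algebraMap K L (ω l E), ?_, fun l => ⟨det_pluri _ _ _, ?_⟩⟩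
  · rw [Fintype.linearIndependent_iff] at hli ⊢
    intro c hc
    apply hli
    have h1 : ∑ l, c l • ω l E = 0 := by
      have h2 := congrFun hc E'
      rw [Finset.sum_apply] at h2
      simp only [Pi.smul_apply, Pi.zero_apply, hdet, one_pow, one_mul] at h2
      have h3 : algebraMap K L (∑ l, c l • ω l E) = 0 := by
        rw [← h2, map_sum]
        refine Finset.sum_congr rfl fun l _ => ?_
        rw [Algebra.smul_def, Algebra.smul_def, map_mul, ← IsScalarTower.algebraMap_apply k K L]
      exact (map_eq_zero _).1 h3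
    funext D
    rw [Finset.sum_apply]
    simp only [Pi.smul_apply, Pi.zero_apply]
    have h4 : ∀ l, c l • ω l D = (Matrix.of fun i j => D i (z j)).det ^ m * (c l • ω l E) := by
      intro l
      rw [pluri_coord hz hE (hω l).1 D, mul_smul_comm]
    rw [Finset.sum_congr rfl fun l _ => h4 l, ← Finset.mul_sum, h1, mul_zero]
  · rintro Q ⟨P, hP, e, hQ⟩
    refine (oge_up hn (hX P hP) hQ hz hE (hω l).1 ((hω l).2 P hP)).mono ?_
    have h1 := mul_le_mul_of_nonneg_left (hΓ P hP Q e hQ) (Nat.cast_nonneg (α := ℚ) m)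
    have h2 := hB P hP Q e hQ
    rw [sa, sa]
    have h3 : (m : ℚ) * ((e : ℚ) - 1) + e * -(m * Δ P + A P) =
      -(m * (1 - e * (1 - Δ P))) - e * A P := by ring
    rw [h3]
    linarith

end

section

variable {k K L : Type} [Field k] [CharZero k] [IsAlgClosed k] [Field K] [Field L] [Algebra k K]
  [Algebra k L] [Algebra K L] [IsScalarTower k K L] [FiniteDimensional K L] {n : ℕ}

/-- **Norms of sections.** -/
theorem hasSec_down [Algebra.EssFiniteType k K] [Algebra.EssFiniteType k L]
    (hn : Algebra.trdeg k K = n)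
    {X : Set (Place k K)} (hX : ∀ P ∈ X, Divisorial n P) {Δ A : Place k K → ℚ}
    {Γ B : Place k L → ℚ}
    (hΓ : ∀ P ∈ X, ∀ (Q : Place k L) (e : ℕ), Over Q P e → Γ Q ≤ e * Δ P)
    (hB : ∀ P ∈ X, ∀ (Q : Place k L) (e : ℕ), Over Q P e → B Q ≤ e * A P)
    {κ : ℕ} {m : Fin κ → ℕ} (x : ∀ i, Fin (m i + 1) → L) (hx0 : ∀ i, x i 0 = 1)
    (hgen : Lv K x κ = ⊤) {N : ℕ} (M : Fin κ → ℕ)
    (hM : ∀ i : Fin κ, 2 * (finrank K (Lv K x (i + 1)) - finrank K (Lv K x i)) * N <
      M i * finrank K (Lv K x i)) {η : (Fin n → Derivation k L L) → L}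
    (hη : ∀ f, Sec (Ov L X) n N (N • Γ) (fun D => mlt x M f * η D)) (hη0 : ∃ D, η D ≠ 0)
    {j r : ℕ} (h : HasSec (Ov L X) n j (j • Γ + B) r) :
    HasSec X n (finrank K L * (1 + 2 * finrank K L * N) * j)
      ((finrank K L * (1 + 2 * finrank K L * N) * j) • Δ + finrank K L • A) r := by
  classical
  obtain ⟨ω, hli, hω⟩ := h
  obtain ⟨s, hs⟩ : ∃ s, s = 2 * finrank K L * j := ⟨_, rfl⟩
  -- the form is a pluricanonical form
  have hηp : IsPluri N η := by
    have h1 := (hη fun _ => 0).1
    have e1 : (fun D => mlt x M (fun _ => 0) * η D) = η := by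
      funext D
      unfold mlt
      rw [Finset.prod_eq_one (fun i _ => by rw [hx0, one_pow]), one_mul]
    rwa [e1] at h1
  have hnL : Algebra.trdeg k L = n := trdeg_up (K := K) hn
  obtain ⟨z, E, hz, hE⟩ := exists_crd hnL
  have hηE : η E ≠ 0 := by
    intro h0
    obtain ⟨D, hD⟩ := hη0
    apply hD
    rw [pluri_coord hz hE hηp, h0, mul_zero]
  have hle : ∀ i, finrank K (Lv K x i) ≤ finrank K L := fun i =>
    Submodule.finrank_le (Subalgebra.toSubmodule (Lv K x i).toSubalgebra)
  obtain ⟨ξ, hξ1, hξ2, hξ3⟩ := tower_ind κ hn X hX (fun P => (j + N * s) * Δ P + A P) m x hx0 hgen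
    (j + N * s) (fun i => M i * s) (fun i => by
      have h1 := Nat.succ_le_of_lt (hM i)
      have h2 : finrank K (Lv K x (i + 1)) - finrank K (Lv K x i) ≤ finrank K L :=
        (Nat.sub_le _ _).trans (hle _)
      have h3 := Nat.mul_le_mul_right s h1
      have h4 : 2 * (finrank K (Lv K x (i + 1)) - finrank K (Lv K x i)) * j ≤ s := by
        rw [hs]
        exact Nat.mul_le_mul_right _ (Nat.mul_le_mul_left _ h2)
      calc 2 * (finrank K (Lv K x (i + 1)) - finrank K (Lv K x i)) * (j + N * s)
          = 2 * (finrank K (Lv K x (i + 1)) - finrank K (Lv K x i)) * j +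
            2 * (finrank K (Lv K x (i + 1)) - finrank K (Lv K x i)) * N * s := by ring
        _ ≤ s + 2 * (finrank K (Lv K x (i + 1)) - finrank K (Lv K x i)) * N * s :=
            Nat.add_le_add_right h4 _
        _ = (2 * (finrank K (Lv K x (i + 1)) - finrank K (Lv K x i)) * N).succ * s := by
            rw [Nat.succ_eq_add_one]; ring
        _ ≤ M i * finrank K (Lv K x i) * s := h3
        _ = M i * s * finrank K (Lv K x i) := by ring) r (fun l D => ω l D * η D ^ s)
    (fun l => by
      have h1 := pluri_mul (hω l).1 (pluri_pow hηp s)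
      exact h1)
    (fun l f P hP Q e hQ => by
      have h1 := ((hω l).2 Q ⟨P, hP, e, hQ⟩).mul (((hη f).2 Q ⟨P, hP, e, hQ⟩).pow s)
      have e1 : (fun D : Fin n → Derivation k L L => ω l D * (mlt x M f * η D) ^ s) =
          fun D => mlt x (fun i => M i * s) f * (ω l D * η D ^ s) := by
        funext D
        have h2 : mlt x (fun i => M i * s) f = mlt x M f ^ s := by
          unfold mlt
          rw [← Finset.prod_pow]
          exact Finset.prod_congr rfl fun i _ => pow_mul _ _ _
        rw [h2]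
        ring
      rw [e1] at h1
      refine h1.mono ?_
      have h3 := hΓ P hP Q e hQ
      have h4 := hB P hP Q e hQ
      rw [sa, sb]
      have h5 : (j : ℚ) * Γ Q ≤ j * (e * Δ P) := mul_le_mul_of_nonneg_left h3 (by positivity)
      have h6 : (s : ℚ) * (N * Γ Q) ≤ s * (N * (e * Δ P)) :=
        mul_le_mul_of_nonneg_left (mul_le_mul_of_nonneg_left h3 (by positivity)) (by positivity)
      nlinarith)
    (by
      have h1 : LinearIndependent k fun l => ω l E := by
        rw [Fintype.linearIndependent_iff] at hli ⊢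
        intro c hc
        apply hli
        funext D
        rw [Finset.sum_apply]
        simp only [Pi.smul_apply, Pi.zero_apply]
        have h4 : ∀ l, c l • ω l D = (Matrix.of fun i j => D i (z j)).det ^ j * (c l • ω l E) := by
          intro l
          rw [pluri_coord hz hE (hω l).1 D, mul_smul_comm]
        rw [Finset.sum_congr rfl fun l _ => h4 l, ← Finset.mul_sum, hc, mul_zero]
      have h2 : LinearIndependent k fun l => ω l E * η E ^ s := by
        have h3 := h1.map' (LinearMap.mulRight k (η E ^ s)) (by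
          rw [LinearMap.ker_eq_bot]
          exact fun a b hab => mul_right_cancel₀ (pow_ne_zero _ hηE) hab)
        exact h3
      exact LinearIndependent.of_comp (LinearMap.proj E) h2)
  have hw : (j + N * s) * finrank K L = finrank K L * (1 + 2 * finrank K L * N) * j := by
    rw [hs]
    ring
  refine ⟨ξ, hξ3, fun l => ⟨by rw [← hw]; exact hξ1 l, fun P hP => (hξ2 l P hP).mono ?_⟩⟩
  rw [sa, sb]
  rw [← hw]
  push_cast
  apply le_of_eq
  ring

end

end Run7.h72
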