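import Pool.Agent.Run7.h72.Deg

/-!
Correspondences in an ambient field.
-/

set_option autoImplicit false
set_option linter.overlappingInstances false
set_option linter.unusedSectionVars false
set_option linter.unusedVariables false
set_option maxHeartbeats 4000000
set_option synthInstance.maxHeartbeats 400000

open Polynomial FF IntermediateField Module

namespace Run7.h72

open Pool.Agent.W603.LV Pool.Agent.W619.PQ Pool.Agent.Y172
open Pool.Agent.W602.GT (Divisorial RegAt IsPluri DerReg DerLog LogAt KodGe LogSec)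
open Pool.Agent.W619.Y (BdUp)

/-- **Correspondences of small degree in an ambient field.** -/
theorem corr_amb {E Λ Ω : Type} [Field E] [Field Λ] [Field Ω] [Algebra ℂ E] [Algebra ℂ Λ]
    [Algebra ℂ Ω] [Algebra Λ Ω] [IsScalarTower ℂ Λ Ω] [Algebra.EssFiniteType ℂ E]
    [IsAlgClosed Λ] (R : Type) [Field R] [Algebra Λ R] [Algebra R Ω] [IsScalarTower Λ R Ω]
    [IsFF Λ R] {m N : ℕ}
    (hm : Algebra.trdeg ℂ E = m) (hN : Algebra.trdeg ℂ Λ = N) {κ : ℕ} {mm : Fin κ → ℕ}
    (x : ∀ i, Fin (mm i + 1) → E) (hx0 : ∀ i, x i 0 = 1) {w : ℕ} (hw : 0 < w) (M : Fin κ → ℕ)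
    {ψ : (Fin m → Derivation ℂ E E) → E} (hψ0 : ∃ D, ψ D ≠ 0)
    (hψ : ∀ f, LogSec ℂ E m w (fun _ => False) (fun D => mlt x M f * ψ D)) (φ : E →ₐ[ℂ] Ω)
    [FiniteDimensional R (Lv R (fun i b => φ (x i b)) κ)]
    (hin : ∀ z, φ z ∈ Lv R (fun i b => φ (x i b)) κ)
    (hM : ∀ i : Fin κ, 2 * (finrank R (Lv R (fun i b => φ (x i b)) (i + 1)) -
      finrank R (Lv R (fun i b => φ (x i b)) i)) * w <
      M i * finrank R (Lv R (fun i b => φ (x i b)) i)) :
    (∀ z : E, IsAlgebraic Λ (φ z)) ∨ (KodGe Λ R 1 (fun _ => False) 0 ∧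
      ∀ i b, Transcendental Λ (φ (x i b)) → KodGe Λ R 1 (fun _ => False) 1) := by
  obtain ⟨Ξ, hΞ⟩ : ∃ Ξ, Ξ = Lv R (fun i b => φ (x i b)) κ := ⟨_, rfl⟩
  have hfin : FiniteDimensional R Ξ := by
    rw [hΞ]
    infer_instance
  rw [← hΞ] at hin
  let iR : Algebra ℂ R := ((algebraMap Λ R).comp (algebraMap ℂ Λ)).toAlgebra
  have t0 : IsScalarTower ℂ Λ R := IsScalarTower.of_algebraMap_eq fun c => rfl
  have t1 : IsScalarTower ℂ R Ω := IsScalarTower.of_algebraMap_eq fun c => by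
    rw [IsScalarTower.algebraMap_apply ℂ Λ Ω, IsScalarTower.algebraMap_apply Λ R Ω]
    rfl
  have t2 : IsScalarTower ℂ Λ Ξ := IsScalarTower.of_algebraMap_eq fun c =>
    Subtype.ext (IsScalarTower.algebraMap_apply ℂ Λ Ω c)
  have t3 : IsScalarTower Λ R Ξ := IsScalarTower.of_algebraMap_eq fun c =>
    Subtype.ext (IsScalarTower.algebraMap_apply Λ R Ω c)
  have t5 : IsScalarTower Λ Ξ Ω := IsScalarTower.of_algebraMap_eq fun c => rfl
  let φ1 : E →ₐ[ℂ] Ξ :=
    { toFun := fun f => ⟨φ f, hin f⟩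
      map_one' := Subtype.ext (map_one φ)
      map_mul' := fun a b => Subtype.ext (map_mul φ a b)
      map_zero' := Subtype.ext (map_zero φ)
      map_add' := fun a b => Subtype.ext (map_add φ a b)
      commutes' := fun c => Subtype.ext (φ.commutes c) }
  let iA : Algebra E Ξ := φ1.toRingHom.toAlgebra
  have t4 : IsScalarTower ℂ E Ξ := IsScalarTower.of_algebraMap_eq fun c =>
    Subtype.ext (φ.commutes c).symm
  have hdeg : ∀ i, finrank R (Lv R (fun i b => algebraMap E Ξ (x i b)) i) =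
      finrank R (Lv R (fun i b => φ (x i b)) i) := fun i =>
    finrank_Lv Ξ (fun i b => algebraMap E Ξ (x i b)) i
  have hgen : Lv R (fun i b => algebraMap E Ξ (x i b)) κ = ⊤ := by
    have hinj := IntermediateField.map_injective Ξ.val
    apply hinj
    rw [Lv_map]
    have e1 : Lv R (fun (i : Fin κ) b => ((algebraMap E Ξ (x i b) : Ξ) : Ω)) κ =
      Lv R (fun i b => φ (x i b)) κ := rfl
    rw [e1, ← hΞ]
    ext w
    constructor
    · intro hw
      exact ⟨⟨w, hw⟩, trivial, rfl⟩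
    · rintro ⟨w, -, rfl⟩
      exact w.2
  have hval : ∀ z : E, ((algebraMap E Ξ z : Ξ) : Ω) = φ z := fun z => rfl
  have hal : ∀ z : E, IsAlgebraic Λ (algebraMap E Ξ z) ↔ IsAlgebraic Λ (φ z) := fun z => by
    rw [← hval]
    exact (isAlgebraic_algebraMap_iff (R := Λ) (S := Ξ) (A := Ω)
      (algebraMap Ξ Ω).injective).symm
  rcases corr (R := R) (Ξ := Ξ) hm hN x hx0 hw M hψ0 hψ hgen (fun i => by
    rw [hdeg, hdeg]
    exact hM i) with h | ⟨h1, h2⟩
  · exact Or.inl fun z => (hal z).1 (h z)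
  · exact Or.inr ⟨h1, fun i b hib => h2 i b fun h3 => hib ((hal _).1 h3)⟩

end Run7.h72
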