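import Mathlib

/-!
Norms of linearly independent elements.
-/

set_option autoImplicit false
set_option linter.overlappingInstances false
set_option linter.unusedSectionVars false
set_option maxHeartbeats 4000000
set_option synthInstance.maxHeartbeats 400000

open Module

namespace Run7.h72

/-- points of affine varieties -/
theorem exists_pt {k B : Type} [Field k] [IsAlgClosed k] [CommRing B] [IsDomain B] [Algebra k B]
    [Algebra.FiniteType k B] {b : B} (hb : b ≠ 0) : ∃ ψ : B →ₐ[k] k, ψ b ≠ 0 := by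
  have hJ : IsJacobsonRing B := isJacobsonRing_of_finiteType (A := k)
  have h1 : b ∉ (⊥ : Ideal B).jacobson := by
    rw [IsJacobsonRing.out hJ (Ideal.isPrime_bot (α := B)).isRadical]
    rw [Ideal.mem_bot]
    exact hb
  rw [Ideal.mem_jacobson_bot] at h1
  have h2 : ∃ M : Ideal B, M.IsMaximal ∧ b ∉ M := by
    by_contra hcon
    push Not at hcon
    apply h1
    intro y
    by_contra hu
    obtain ⟨M, hM, hmem⟩ := exists_max_ideal_of_mem_nonunits hu
    apply hM.ne_top
    rw [Ideal.eq_top_iff_one]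
    have h3 := M.mul_mem_right y (hcon M hM)
    have h4 := M.sub_mem hmem h3
    rwa [add_sub_cancel_left] at h4
  obtain ⟨M, hM, hbM⟩ := h2
  letI : Field (B ⧸ M) := Ideal.Quotient.field M
  have hfin : Module.Finite k (B ⧸ M) := finite_of_finite_type_of_isJacobsonRing k (B ⧸ M)
  have halg : Algebra.IsAlgebraic k (B ⧸ M) := Algebra.IsAlgebraic.of_finite k (B ⧸ M)
  let φ : (B ⧸ M) →ₐ[k] k := IsAlgClosed.lift
  refine ⟨φ.comp (Ideal.Quotient.mkₐ k M), fun h => hbM ?_⟩
  change φ (Ideal.Quotient.mk M b) = 0 at h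
  rw [map_eq_zero] at h
  exact Ideal.Quotient.eq_zero_iff_mem.1 h

section

variable {k K L : Type} [Field k] [IsAlgClosed k] [Field K] [Field L] [Algebra k K] [Algebra k L]
  [Algebra K L] [IsScalarTower k K L] [FiniteDimensional K L]

/-- the induction -/
theorem norm_indep_aux (B : Subalgebra k L) [Algebra.FiniteType k B] (b0 : B) (hb0 : b0 ≠ 0)
    (U0 : Submodule k L) (hU0 : ∀ s ∈ U0, s ∈ B)
    (hN0 : ∀ s ∈ U0, algebraMap K L (Algebra.norm K s) ∈ B)
    (hψ : ∀ (s : L) (hs : s ∈ U0) (ψ : B →ₐ[k] k), ψ b0 ≠ 0 → ψ ⟨s, hU0 s hs⟩ = 0 →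
      ψ ⟨_, hN0 s hs⟩ = 0) :
    ∀ (h : ℕ) (U : Submodule k L) (_ : U ≤ U0) (_ : FiniteDimensional k U) (_ : h ≤ finrank k U),
      ∃ s : Fin h → L, (∀ i, s i ∈ U) ∧
        LinearIndependent k fun i => algebraMap K L (Algebra.norm K (s i)) := by
  intro h
  induction h with
  | zero =>
    intro U _ _ _
    exact ⟨Fin.elim0, fun i => i.elim0, linearIndependent_empty_type⟩
  | succ h ih =>
    intro U hU hfd hh
    obtain ⟨s0, hs0U, hs0⟩ : ∃ s ∈ U, s ≠ 0 := by
      by_contra hcon
      push Not at hcon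
      have h1 : U = ⊥ := (Submodule.eq_bot_iff U).2 hcon
      rw [h1, finrank_bot] at hh
      omega
    have hn0 : Algebra.norm K s0 ≠ 0 := Algebra.norm_ne_zero_iff.2 hs0
    have hb : b0 * ⟨_, hN0 s0 (hU hs0U)⟩ ≠ 0 := by
      refine mul_ne_zero hb0 fun h1 => hn0 ?_
      have h2 := congrArg Subtype.val h1
      exact (map_eq_zero _).1 h2
    obtain ⟨ψ, hψ1⟩ := exists_pt (k := k) hb
    rw [map_mul] at hψ1
    have hψb : ψ b0 ≠ 0 := left_ne_zero_of_mul hψ1
    have hψs : ψ ⟨_, hN0 s0 (hU hs0U)⟩ ≠ 0 := right_ne_zero_of_mul hψ1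
    -- the functional
    obtain ⟨g, hg⟩ := LinearMap.exists_extend (p := Subalgebra.toSubmodule B) ψ.toLinearMap
    have hgB : ∀ z : B, g (z : L) = ψ z := fun z =>
      congrArg (fun f : (Subalgebra.toSubmodule B) →ₗ[k] k => f z) hg
    have hfd' : FiniteDimensional k (U ⊓ LinearMap.ker g : Submodule k L) :=
      Submodule.finiteDimensional_of_le inf_le_left
    have hrank : h ≤ finrank k (U ⊓ LinearMap.ker g : Submodule k L) := by
      have h1 := LinearMap.finrank_range_add_finrank_ker (g.domRestrict U)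
      have h2 : finrank k (LinearMap.range (g.domRestrict U)) ≤ 1 := by
        have h3 := Submodule.finrank_le (LinearMap.range (g.domRestrict U))
        rwa [finrank_self] at h3
      have h3 : finrank k (LinearMap.ker (g.domRestrict U)) =
          finrank k (U ⊓ LinearMap.ker g : Submodule k L) := by
        have e1 : (U ⊓ LinearMap.ker g : Submodule k L) =
            (LinearMap.ker (g.domRestrict U)).map U.subtype := by
          ext z
          constructor
          · rintro ⟨h4, h5⟩
            exact ⟨⟨z, h4⟩, h5, rfl⟩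
          · rintro ⟨w, hw, rfl⟩
            exact ⟨w.2, hw⟩
        rw [e1]
        exact (LinearEquiv.finrank_eq (Submodule.equivMapOfInjective U.subtype
          U.injective_subtype _))
      omega
    obtain ⟨s, hsU, hs⟩ := ih _ (inf_le_left.trans hU) hfd' hrank
    refine ⟨Fin.cons s0 s, fun i => ?_, ?_⟩
    · refine Fin.cases hs0U (fun i => ?_) i
      exact (hsU i).1
    · have e1 : (fun i => algebraMap K L (Algebra.norm K ((Fin.cons s0 s : Fin (h + 1) → L) i))) =
          Fin.cons (algebraMap K L (Algebra.norm K s0)) fun i =>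
            algebraMap K L (Algebra.norm K (s i)) := by
        funext i
        refine Fin.cases rfl (fun i => rfl) i
      rw [e1, linearIndependent_fin_cons]
      refine ⟨hs, fun hmem => ?_⟩
      have h1 : Submodule.span k (Set.range fun i => algebraMap K L (Algebra.norm K (s i))) ≤
          LinearMap.ker g := by
        rw [Submodule.span_le]
        rintro _ ⟨i, rfl⟩
        change g _ = 0
        have hsi := hU (hsU i).1
        have h2 : ψ ⟨s i, hU0 _ hsi⟩ = 0 := by
          rw [← hgB]
          exact (hsU i).2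
        have h3 := hψ (s i) hsi ψ hψb h2
        rw [← hgB] at h3
        exact h3
      have h2 : g (algebraMap K L (Algebra.norm K s0)) = 0 := h1 hmem
      apply hψs
      rw [← hgB]
      exact h2

/-- **Norms of linearly independent elements.** -/
theorem norm_indep {h : ℕ} (u : Fin h → L) (hu : LinearIndependent k u) :
    ∃ c : Fin h → Fin h → k, LinearIndependent k fun i =>
      Algebra.norm K (∑ j, algebraMap k L (c i j) * u j) := by
  classical
  let bs := Module.finBasis K L
  have hr : 0 < finrank K L := finrank_pos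
  let i0 : Fin (finrank K L) := ⟨0, hr⟩
  let Mt : L → Matrix (Fin (finrank K L)) (Fin (finrank K L)) K := fun z => Algebra.leftMulMatrix bs z
  let T : Finset L := (Finset.univ.image u) ∪ (Finset.univ.image fun i => bs i) ∪
    (Finset.univ.image fun p : Fin h × Fin (finrank K L) × Fin (finrank K L) =>
      algebraMap K L (Mt (u p.1) p.2.1 p.2.2))
  let B : Subalgebra k L := Algebra.adjoin k (T : Set L)
  have hBft : Algebra.FiniteType k B := (Subalgebra.fg_iff_finiteType B).1 ⟨T, rfl⟩
  have hTB : ∀ z ∈ T, z ∈ B := fun z hz => Algebra.subset_adjoin hz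
  have huB : ∀ i, u i ∈ B := fun i => hTB _ (by
    simp only [T, Finset.mem_union, Finset.mem_image, Finset.mem_univ, true_and]
    exact Or.inl (Or.inl ⟨i, rfl⟩))
  have hbB : ∀ i, bs i ∈ B := fun i => hTB _ (by
    simp only [T, Finset.mem_union, Finset.mem_image, Finset.mem_univ, true_and]
    exact Or.inl (Or.inr ⟨i, rfl⟩))
  have hMB : ∀ l i j, algebraMap K L (Mt (u l) i j) ∈ B := fun l i j => hTB _ (by
    simp only [T, Finset.mem_union, Finset.mem_image, Finset.mem_univ, true_and]
    exact Or.inr ⟨(l, i, j), rfl⟩)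
  let U0 : Submodule k L := Submodule.span k (Set.range u)
  -- the matrices of the elements of the span
  have hMs : ∀ s ∈ U0, s ∈ B ∧ ∀ i j, algebraMap K L (Mt s i j) ∈ B := by
    intro s hs
    refine Submodule.span_induction (p := fun s _ => s ∈ B ∧ ∀ i j, algebraMap K L (Mt s i j) ∈ B)
      ?_ ?_ ?_ ?_ hs
    · rintro _ ⟨l, rfl⟩
      exact ⟨huB l, hMB l⟩
    · refine ⟨B.zero_mem, fun i j => ?_⟩
      simp only [Mt, map_zero, Matrix.zero_apply]
      exact B.zero_mem
    · intro a b _ _ ha hb
      refine ⟨B.add_mem ha.1 hb.1, fun i j => ?_⟩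
      have e1 : Mt (a + b) i j = Mt a i j + Mt b i j := by
        simp only [Mt, map_add, Matrix.add_apply]
      rw [e1, map_add]
      exact B.add_mem (ha.2 i j) (hb.2 i j)
    · intro c a _ ha
      refine ⟨B.smul_mem ha.1 c, fun i j => ?_⟩
      have e1 : Mt (c • a) i j = algebraMap k K c * Mt a i j := by
        have e2 : c • a = algebraMap K L (algebraMap k K c) * a := by
          rw [← IsScalarTower.algebraMap_apply k K L, Algebra.smul_def]
        simp only [Mt]
        rw [e2, map_mul, AlgHom.commutes]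
        rw [Algebra.algebraMap_eq_smul_one, smul_mul_assoc, one_mul, Matrix.smul_apply,
          smul_eq_mul]
      rw [e1, map_mul, ← IsScalarTower.algebraMap_apply k K L]
      exact B.mul_mem (B.algebraMap_mem c) (ha.2 i j)
  have hU0 : ∀ s ∈ U0, s ∈ B := fun s hs => (hMs s hs).1
  have hN0 : ∀ s ∈ U0, algebraMap K L (Algebra.norm K s) ∈ B := by
    intro s hs
    rw [Algebra.norm_eq_matrix_det bs, Matrix.det_apply, map_sum]
    refine B.sum_mem fun σ _ => ?_
    rw [Units.smul_def, map_zsmul, map_prod]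
    exact B.zsmul_mem (B.prod_mem fun i _ => (hMs s hs).2 _ _) _
  have hb0 : (⟨bs i0, hbB i0⟩ : B) ≠ 0 := fun h1 => bs.ne_zero i0 (congrArg Subtype.val h1)
  have hψ : ∀ (s : L) (hs : s ∈ U0) (ψ : B →ₐ[k] k), ψ ⟨bs i0, hbB i0⟩ ≠ 0 →
      ψ ⟨s, hU0 s hs⟩ = 0 → ψ ⟨_, hN0 s hs⟩ = 0 := by
    intro s hs ψ hψb hψs
    let MB : Matrix (Fin (finrank K L)) (Fin (finrank K L)) B := Matrix.of fun i j =>
      ⟨algebraMap K L (Mt s i j), (hMs s hs).2 i j⟩
    have hdet : (⟨_, hN0 s hs⟩ : B) = MB.det := by
      apply Subtype.ext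
      change algebraMap K L (Algebra.norm K s) = B.val MB.det
      rw [Algebra.norm_eq_matrix_det bs, AlgHom.map_det, RingHom.map_det]
      rfl
    rw [hdet, AlgHom.map_det]
    rw [← Matrix.exists_vecMul_eq_zero_iff]
    refine ⟨fun i => ψ ⟨bs i, hbB i⟩, fun h1 => hψb (congrFun h1 i0), ?_⟩
    funext j
    have h1 : s * bs j = ∑ i, algebraMap K L (Mt s i j) * bs i := by
      have h2 := bs.sum_repr (s * bs j)
      conv_lhs => rw [← h2]
      refine Finset.sum_congr rfl fun i _ => ?_
      simp only [Mt]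
      rw [Algebra.leftMulMatrix_eq_repr_mul, Algebra.smul_def]
    have h2 : (⟨s, hU0 s hs⟩ : B) * ⟨bs j, hbB j⟩ = ∑ i, MB i j * ⟨bs i, hbB i⟩ := by
      apply Subtype.ext
      change s * bs j = B.val (∑ i, MB i j * ⟨bs i, hbB i⟩)
      rw [h1, map_sum]
      rfl
    have h3 := congrArg ψ h2
    rw [map_mul, hψs, zero_mul, map_sum] at h3
    simp only [Matrix.vecMul, dotProduct, Pi.zero_apply]
    rw [h3]
    refine Finset.sum_congr rfl fun i _ => ?_
    rw [map_mul, mul_comm]
    rfl
  have hfd : FiniteDimensional k U0 := FiniteDimensional.span_of_finite k (Set.finite_range u)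
  have hrk : h ≤ finrank k U0 := by
    rw [finrank_span_eq_card hu, Fintype.card_fin]
  obtain ⟨s, hsU, hs⟩ := norm_indep_aux (K := K) B ⟨bs i0, hbB i0⟩ hb0 U0 hU0 hN0 hψ h U0 le_rfl
    hfd hrk
  have hc : ∀ i, ∃ c : Fin h → k, ∑ j, c j • u j = s i := fun i =>
    (Submodule.mem_span_range_iff_exists_fun k).1 (hsU i)
  choose c hc using hc
  refine ⟨c, ?_⟩
  have e1 : (fun i => Algebra.norm K (∑ j, algebraMap k L (c i j) * u j)) =
      fun i => Algebra.norm K (s i) := by
    funext i
    rw [← hc i]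
    congr 1
    exact Finset.sum_congr rfl fun j _ => (Algebra.smul_def _ _).symm
  rw [e1]
  exact LinearIndependent.of_comp (IsScalarTower.toAlgHom k K L).toLinearMap hs

end

end Run7.h72
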