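import Pool.Agent.W602.GT.KDefs
import Pool.Agent.Helper386.D5V.Helper399_OverDefs

/-!
Sections of multiples of `K + Δ` for a set of prime divisors, the Kodaira dimension and the numerical
dimension.
-/

set_option autoImplicit false

open FF Pool.Agent.W602.GT Filter

namespace Run7.h72

section

variable {k K : Type} [Field k] [Field K] [Algebra k K] {n : ℕ}

/-- The order of the form `ω` along `P` is at least `c`: on vector fields which are regular at `P`
its values have order at least `c`. -/
def OGe (P : Place k K) (ω : (Fin n → Derivation k K K) → K) (c : ℚ) : Prop :=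
  ∀ G : Fin n → Derivation k K K, (∀ i, DerReg P (G i)) → ω G = 0 ∨ c ≤ P.ord (ω G)

/-- `ω` is a section of `m K_X + D`, where `X` is given by the set of its prime divisors: an
`m`-canonical form with order at least `- D P` along all `P` in `X`. Only the round-down of `D`
matters. -/
def Sec (X : Set (Place k K)) (n m : ℕ) (D : Place k K → ℚ)
    (ω : (Fin n → Derivation k K K) → K) : Prop :=
  IsPluri m ω ∧ ∀ P ∈ X, OGe P ω (-(D P))

/-- There are `h` linearly independent sections of `m K_X + D`. -/
def HasSec (X : Set (Place k K)) (n m : ℕ) (D : Place k K → ℚ) (h : ℕ) : Prop :=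
  ∃ ω : Fin h → (Fin n → Derivation k K K) → K, LinearIndependent k ω ∧ ∀ l, Sec X n m D (ω l)

/-- `h⁰ (X, m K_X + ⌊D⌋)`: the largest number of linearly independent sections. -/
noncomputable def hz (X : Set (Place k K)) (n m : ℕ) (D : Place k K → ℚ) : ℕ∞ :=
  ⨆ (h : ℕ) (_ : HasSec X n m D h), (h : ℕ∞)

open scoped Classical in
/-- The Kodaira dimension of `K_X + Δ`: it is `⊥` if all `h⁰ (⌊m (K_X + Δ)⌋)` with `m ≥ 1` vanish,
and otherwise the largest `k` such that the upper limit of `h⁰ (⌊m (K_X + Δ)⌋) / m ^ k` is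
positive. -/
noncomputable def kap (X : Set (Place k K)) (n : ℕ) (Δ : Place k K → ℚ) : WithBot ℕ∞ :=
  if ∀ m : ℕ, 1 ≤ m → hz X n m (m • Δ) = 0 then ⊥ else
    ((⨆ (j : ℕ) (_ : 0 < limsup (fun m : ℕ => ((hz X n m (m • Δ) : ℕ∞) : ENNReal) /
      (m : ENNReal) ^ j) atTop), (j : ℕ∞) : ℕ∞) : WithBot ℕ∞)

/-- `A` is an effective `ℚ`-divisor on `X` (the values of `A` outside `X` are irrelevant). -/
def Eff (X : Set (Place k K)) (A : Place k K → ℚ) : Prop :=
  (∀ P ∈ X, 0 ≤ A P) ∧ {P | P ∈ X ∧ A P ≠ 0}.Finite

/-- The numerical dimension of `K_X + Δ`: the upper limit of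
`log h⁰ (⌊m (K_X + Δ) + A⌋) / log m`, for large divisors `A` (the supremum over the effective
`A`). -/
noncomputable def nu (X : Set (Place k K)) (n : ℕ) (Δ : Place k K → ℚ) : EReal :=
  ⨆ (A : Place k K → ℚ) (_ : Eff X A), limsup (fun m : ℕ =>
    ENNReal.log ((hz X n m (m • Δ + A) : ℕ∞) : ENNReal) / (Real.log m : EReal)) atTop

end

/-- The places of `L` over the places in `X`: the prime divisors of the normalisation of `X` in
`L`. -/
def Ov {k K : Type} (L : Type) [Field k] [Field K] [Field L] [Algebra k K] [Algebra k L]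
    [Algebra K L] (X : Set (Place k K)) : Set (Place k L) :=
  {Q | ∃ P ∈ X, ∃ e, Over Q P e}

end Run7.h72
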