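import Pool.Agent.Run7.h72.Fam
import Pool.Agent.Run7.h72.NI
import Pool.Agent.Run7.h72.PDefs

/-!
The norm principle with rational coefficients.
-/

set_option autoImplicit false
set_option linter.overlappingInstances false
set_option linter.unusedSectionVars false
set_option maxHeartbeats 4000000
set_option synthInstance.maxHeartbeats 400000

open FF Polynomial Module
open Pool.Agent.W602.GT Pool.Agent.W603.LV Pool.Agent.W619.PQ Pool.Agent.Y172

namespace Run7.h72

section

variable {k K : Type} [Field k] [Field K] [Algebra k K]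

/-- `0` or of order at least the rational number `c` -/
def Qe (P : Place k K) (c : ℚ) (f : K) : Prop := f = 0 ∨ c ≤ P.ord f

theorem Qe.mono {P : Place k K} {c c' : ℚ} {f : K} (h : Qe P c f) (hc : c' ≤ c) : Qe P c' f :=
  h.imp id fun h => hc.trans h

theorem Qe.mul {P : Place k K} {c c' : ℚ} {f g : K} (h : Qe P c f) (h' : Qe P c' g) :
    Qe P (c + c') (f * g) := by
  by_cases hf : f = 0
  · left; rw [hf, zero_mul]
  by_cases hg : g = 0
  · left; rw [hg, mul_zero]
  right
  rw [P.ord_mul hf hg]
  push_cast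
  exact add_le_add (h.resolve_left hf) (h'.resolve_left hg)

theorem Qe.pow {P : Place k K} {c : ℚ} {f : K} (h : Qe P c f) (m : ℕ) : Qe P (m * c) (f ^ m) := by
  by_cases hf : f = 0
  · by_cases hm : m = 0
    · right
      rw [hm, pow_zero, P.ord_one]
      simp
    · left
      rw [hf, zero_pow hm]
  right
  rw [P.ord_pow]
  push_cast
  exact mul_le_mul_of_nonneg_left (h.resolve_left hf) (by positivity)

theorem Qe.add {P : Place k K} {c : ℚ} {f g : K} (h : Qe P c f) (h' : Qe P c g) :
    Qe P c (f + g) := by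
  by_cases hf : f = 0
  · rw [hf, zero_add]; exact h'
  by_cases hg : g = 0
  · rw [hg, add_zero]; exact h
  by_cases hfg : f + g = 0
  · exact Or.inl hfg
  right
  have h1 := P.ord_add hf hg hfg
  have h2 : ((min (P.ord f) (P.ord g) : ℤ) : ℚ) ≤ P.ord (f + g) := by exact_mod_cast h1
  refine le_trans ?_ h2
  rw [Int.cast_min]
  exact le_min (h.resolve_left hf) (h'.resolve_left hg)

theorem Qe.sum {ι : Type*} {P : Place k K} {c : ℚ} (s : Finset ι) (v : ι → K)
    (h : ∀ i ∈ s, Qe P c (v i)) : Qe P c (∑ i ∈ s, v i) := by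
  classical
  induction s using Finset.induction_on with
  | empty => rw [Finset.sum_empty]; exact Or.inl rfl
  | insert b s hb ih =>
    rw [Finset.sum_insert hb]
    exact (h b (Finset.mem_insert_self b s)).add (ih fun i hi => h i (Finset.mem_insert_of_mem hi))

theorem Qe.smul {P : Place k K} {c : ℚ} {f : K} (a : k) (h : Qe P c f) :
    Qe P c (algebraMap k K a * f) := by
  by_cases ha : a = 0
  · left; rw [ha, map_zero, zero_mul]
  have h1 : Qe P 0 (algebraMap k K a) := Or.inr (by rw [P.ord_const ha]; simp)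
  have h2 := h1.mul h
  rwa [zero_add] at h2

theorem Qe.of_ge {P : Place k K} {c : ℤ} {f : K} (h : Ge P c f) : Qe P c f :=
  h.imp id fun h => by exact_mod_cast h

theorem Qe.to_ge {P : Place k K} {c : ℤ} {f : K} (h : Qe P c f) : Ge P c f :=
  h.imp id fun h => by exact_mod_cast h

end

section

variable {k K L : Type} [Field k] [CharZero k] [Field K] [Field L] [Algebra k K] [Algebra k L]
  [Algebra K L] [IsScalarTower k K L] [FiniteDimensional K L] {n : ℕ}

/-- the norm of a twisted element, with rational orders -/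
theorem norm_twist_q (q : Place k K) {t : L} (ht : Algebra.adjoin K {t} = ⊤) (N : ℕ) (w : L)
    (d : ℚ) (hw : ∀ (Q : Place k L) (e : ℕ), Over Q q e → ∀ j ≤ 2 * (finrank K L - 1) * N,
      Qe Q (-(e * d) - N * ((e : ℚ) - 1)) (t ^ j * w)) :
    Qe q (-(finrank K L * d)) (Algebra.norm K (w * aeval t (derivative (minpoly K t)) ^ N)) := by
  by_cases hw0 : w = 0
  · left
    rw [hw0, zero_mul, Algebra.norm_zero]
  obtain ⟨π, hπ0, hπ⟩ := q.surj
  have hb : (0 : ℚ) < d.den := by exact_mod_cast d.den_pos
  have hd : d * d.den = d.num := Rat.mul_den_eq_num d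
  have hπL : algebraMap K L π ≠ 0 := by rw [Ne, map_eq_zero]; exact hπ0
  have key := norm_twist q ht (N * d.den) (w ^ d.den * algebraMap K L π ^ d.num)
    (fun Q e hQ j hj => by
      by_cases ht0 : t ^ j = 0
      · left; rw [ht0, zero_mul]
      right
      have hw1 : w ^ d.den * algebraMap K L π ^ d.num ≠ 0 :=
        mul_ne_zero (pow_ne_zero _ hw0) (zpow_ne_zero _ hπL)
      rw [Q.ord_mul ht0 hw1, Q.ord_mul (pow_ne_zero _ hw0) (zpow_ne_zero _ hπL), Q.ord_pow,
        Q.ord_pow, Q.ord_zpow, hQ.2, hπ, mul_one]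
      have h0 := (hw Q e hQ 0 (Nat.zero_le _))
      rw [pow_zero, one_mul] at h0
      have h0' := h0.resolve_left hw0
      have goal : -(((N * d.den : ℕ) : ℚ) * ((e : ℚ) - 1)) ≤
          (j : ℚ) * Q.ord t + (d.den * Q.ord w + d.num * e) := by
        have h3 : -((e : ℚ) * d.num) - N * d.den * ((e : ℚ) - 1) ≤ d.den * Q.ord w := by
          have := mul_le_mul_of_nonneg_left h0' hb.le
          calc _ = (d.den : ℚ) * (-(e * d) - N * ((e : ℚ) - 1)) := by rw [← hd]; ring
            _ ≤ _ := this
        by_cases hτ : 0 ≤ Q.ord t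
        · have h4 : (0 : ℚ) ≤ (j : ℚ) * Q.ord t := by
            have : (0 : ℚ) ≤ (Q.ord t : ℚ) := by exact_mod_cast hτ
            positivity
          push_cast
          linarith
        · push Not at hτ
          have hτ' : (Q.ord t : ℚ) < 0 := by exact_mod_cast hτ
          by_cases hj0 : j = 0
          · rw [hj0]
            push_cast
            linarith
          have ht1 : t ≠ 0 := fun h => ht0 (by rw [h, zero_pow hj0])
          have h5 := (hw Q e hQ _ le_rfl).resolve_left (mul_ne_zero (pow_ne_zero _ ht1) hw0)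
          rw [Q.ord_mul (pow_ne_zero _ ht1) hw0, Q.ord_pow] at h5
          have h6 := mul_le_mul_of_nonneg_left h5 hb.le
          have h7 : (j : ℚ) ≤ (2 * (finrank K L - 1) * N : ℕ) * d.den := by
            have : ((2 * (finrank K L - 1) * (N * d.den) : ℕ) : ℚ) =
                (2 * (finrank K L - 1) * N : ℕ) * d.den := by push_cast; ring
            rw [← this]
            exact_mod_cast hj
          have h8 := mul_le_mul_of_nonpos_right h7 hτ'.le
          have h9 : (d.den : ℚ) * (-(e * d) - N * ((e : ℚ) - 1)) =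
              -((e : ℚ) * d.num) - N * d.den * ((e : ℚ) - 1) := by rw [← hd]; ring
          rw [h9] at h6
          push_cast at h6 h8 ⊢
          linarith
      have : ((-(((N * d.den : ℕ) : ℤ) * ((e : ℤ) - 1)) : ℤ) : ℚ) ≤
          (((j : ℤ) * Q.ord t + (d.den * Q.ord w + d.num * e) : ℤ) : ℚ) := by
        push_cast
        push_cast at goal
        exact goal
      exact_mod_cast this)
  have hfin : Algebra.norm K (w ^ d.den * algebraMap K L π ^ d.num *
      aeval t (derivative (minpoly K t)) ^ (N * d.den)) =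
      Algebra.norm K (w * aeval t (derivative (minpoly K t)) ^ N) ^ d.den *
        (π ^ d.num) ^ finrank K L := by
    have e1 : w ^ d.den * algebraMap K L π ^ d.num *
      aeval t (derivative (minpoly K t)) ^ (N * d.den) =
      (w * aeval t (derivative (minpoly K t)) ^ N) ^ d.den * algebraMap K L (π ^ d.num) := by
      rw [map_zpow₀, mul_pow, pow_mul]
      ring
    rw [e1, map_mul, map_pow, Algebra.norm_algebraMap]
  rw [hfin] at key
  by_cases h0 : Algebra.norm K (w * aeval t (derivative (minpoly K t)) ^ N) = 0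
  · exact Or.inl h0
  right
  have h1 := key.resolve_left (mul_ne_zero (pow_ne_zero _ h0) (pow_ne_zero _ (zpow_ne_zero _ hπ0)))
  rw [q.ord_mul (pow_ne_zero _ h0) (pow_ne_zero _ (zpow_ne_zero _ hπ0)), q.ord_pow, q.ord_pow,
    q.ord_zpow, hπ, mul_one] at h1
  have h2 : (0 : ℚ) ≤ d.den * q.ord (Algebra.norm K (w * aeval t (derivative (minpoly K t)) ^ N)) +
      finrank K L * d.num := by exact_mod_cast h1
  rw [← hd] at h2
  have h3 : (0 : ℚ) ≤ d.den * (q.ord (Algebra.norm K (w * aeval t (derivative (minpoly K t)) ^ N)) +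
      finrank K L * d) := by
    calc (0 : ℚ) ≤ _ := h2
      _ = _ := by ring
  have h4 := nonneg_of_mul_nonneg_right h3 hb
  linarith

/-- **Criterion.** -/
theorem nf_oge {P : Place k K} {y : Fin n → K} {EP : Fin n → Derivation k K K} {i0 : Fin n}
    (hl : Loc P y EP i0) {EP' : Fin n → Derivation k L L}
    (hEP' : ∀ i f, EP' i (algebraMap K L f) = algebraMap K L (EP i f))
    {z : Fin n → K} (hz : IsTranscendenceBasis k z) {E : Fin n → Derivation k K K}
    (hE : ∀ i j, E i (z j) = if i = j then 1 else 0) {E' : Fin n → Derivation k L L}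
    (hE' : ∀ i f, E' i (algebraMap K L f) = algebraMap K L (E i f)) {N : ℕ}
    {W : (Fin n → Derivation k L L) → L} (hW : IsPluri N W) {x : L} {c : ℚ}
    (h : Qe P c (Algebra.norm K (W EP' * x))) : OGe P (nf z E' N W x) c := by
  intro D hD
  have h1 := pluri_coord hl.bas hl.dual (nf_pluri z E' N W x) D
  rw [h1, nf_lift hz hE hE' hW x hEP']
  have h2 : Ge P 0 (Matrix.of fun i j => D i (y j)).det :=
    Pool.Agent.W619.PQ.ge_det P _ fun a b => hD a _ (hl.reg b)
  have h3 := h2.pow (N * finrank K L)
  rw [mul_zero] at h3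
  have h4 := (Qe.of_ge h3).mul h
  rw [Int.cast_zero, zero_add] at h4
  exact h4

/-- values on lifted vector fields -/
theorem down_q [Algebra.EssFiniteType k L] (hn : Algebra.trdeg k L = n) {P : Place k K}
    {Q : Place k L} {e : ℕ} {y : Fin n → K} {E : Fin n → Derivation k K K} {i0 : Fin n}
    (h : Over Q P e) (hQ : Divisorial n Q) (hl : Loc P y E i0) {E' : Fin n → Derivation k L L}
    (hE' : ∀ i f, E' i (algebraMap K L f) = algebraMap K L (E i f)) {m : ℕ}
    {W : (Fin n → Derivation k L L) → L} (hW : IsPluri m W) {c : ℚ} (hreg : OGe Q W c) :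
    Qe Q (c + m - e * m) (W E') := by
  have h1 := down_ge hn h hQ hl hE' hW (c := (c : ℝ)) fun G hG => by
    rcases hreg G hG with h | h
    · exact Or.inl h
    · exact Or.inr (by exact_mod_cast h)
  rcases h1 with h1 | h1
  · exact Or.inl h1
  · right
    exact_mod_cast h1

/-- **The local norm principle.** -/
theorem step_local [Algebra.EssFiniteType k K] [Algebra.EssFiniteType k L]
    (hn : Algebra.trdeg k K = n) {z : Fin n → K} (hz : IsTranscendenceBasis k z)
    {E : Fin n → Derivation k K K}
    (hE : ∀ i j, E i (z j) = if i = j then 1 else 0) {E' : Fin n → Derivation k L L}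
    (hE' : ∀ i f, E' i (algebraMap K L f) = algebraMap K L (E i f)) {t : L}
    (ht : Algebra.adjoin K {t} = ⊤) {N : ℕ}
    {W : (Fin n → Derivation k L L) → L} (hW : IsPluri N W) {P : Place k K}
    (hP : Divisorial n P) (d : ℚ)
    (hsec : ∀ (Q : Place k L) (e : ℕ), Over Q P e → ∀ j ≤ 2 * (finrank K L - 1) * N,
      OGe Q (fun D => t ^ j * W D) (-(e * d))) :
    OGe P (nf z E' N W (aeval t (derivative (minpoly K t)) ^ N)) (-(finrank K L * d)) := by
  have hnL : Algebra.trdeg k L = n := trdeg_up (K := K) hn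
  obtain ⟨y, EP, i0, hl⟩ := exists_loc hn hP
  choose EP' hEP' using fun i => exists_lift (L := L) hn (EP i)
  refine nf_oge hl hEP' hz hE hE' hW (norm_twist_q P ht N _ d fun Q e hQ j hj => ?_)
  have hQd : Divisorial n Q := divisorial_up hQ hP
  have hWj : IsPluri N (fun D => t ^ j * W D) := by
    intro A D
    change t ^ j * W _ = _
    rw [hW]
    ring
  have h1 := down_q hnL hQ hQd hl hEP' hWj (hsec Q e hQ j hj)
  refine h1.mono (le_of_eq ?_)
  ring

end

/-- The form `ω` on `L` has, along the places over those in `X`, order at least `- D`, where `D` is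
a divisor on `K`. -/
def SU {k K L : Type} [Field k] [Field K] [Field L] [Algebra k K] [Algebra k L] [Algebra K L]
    {n : ℕ} (X : Set (Place k K)) (D : Place k K → ℚ) (ω : (Fin n → Derivation k L L) → L) :
    Prop :=
  ∀ P ∈ X, ∀ (Q : Place k L) (e : ℕ), Over Q P e → OGe Q ω (-(e * D P))

section

variable {k K L : Type} [Field k] [CharZero k] [IsAlgClosed k] [Field K] [Field L] [Algebra k K]
  [Algebra k L] [Algebra K L] [IsScalarTower k K L] [FiniteDimensional K L] {n : ℕ}

/-- powers of a linear combination of the members of a family -/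
theorem qe_tpow {Q : Place k L} {m' M' : ℕ} {y : Fin (m' + 1) → L} (hy0 : y 0 = 1)
    (c : Fin (m' + 1) → k) {v : L} {d : ℚ} (h : ∀ b, Qe Q d (y b ^ M' * v)) {j : ℕ}
    (hj : j ≤ M') : Qe Q d ((∑ b, algebraMap k L (c b) * y b) ^ j * v) := by
  classical
  by_cases hv : v = 0
  · left; rw [hv, mul_zero]
  -- the element of minimal order
  obtain ⟨b0, hb0, hmin⟩ := Finset.exists_min_image
    (Finset.univ.filter fun b => y b ≠ 0) (fun b => Q.ord (y b))
    ⟨0, by rw [Finset.mem_filter]; exact ⟨Finset.mem_univ _, by rw [hy0]; exact one_ne_zero⟩⟩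
  rw [Finset.mem_filter] at hb0
  have ho : Q.ord (y b0) ≤ 0 := by
    have h1 := hmin 0 (by rw [Finset.mem_filter]; exact ⟨Finset.mem_univ _, by
      rw [hy0]; exact one_ne_zero⟩)
    rwa [hy0, Q.ord_one] at h1
  have h1 : Ge Q (Q.ord (y b0)) (∑ b, algebraMap k L (c b) * y b) := by
    refine ge_sum _ _ fun b _ => ge_smul _ ?_
    by_cases hb : y b = 0
    · exact Or.inl hb
    · exact Or.inr (hmin b (by rw [Finset.mem_filter]; exact ⟨Finset.mem_univ _, hb⟩))
  have h2 := (h b0).resolve_left (mul_ne_zero (pow_ne_zero _ hb0.2) hv)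
  rw [Q.ord_mul (pow_ne_zero _ hb0.2) hv, Q.ord_pow] at h2
  have h3 := Qe.of_ge ((h1.pow j).mul (ge_ord Q v))
  refine h3.mono ?_
  have h4 : (j : ℚ) ≤ M' := by exact_mod_cast hj
  have h5 : (Q.ord (y b0) : ℚ) ≤ 0 := by exact_mod_cast ho
  push_cast at h2 ⊢
  nlinarith

/-- **One step**, for linearly independent forms. -/
theorem step_ind [Algebra.EssFiniteType k K] [Algebra.EssFiniteType k L]
    (hn : Algebra.trdeg k K = n) {X : Set (Place k K)} (hX : ∀ P ∈ X, Divisorial n P)
    (D : Place k K → ℚ) {κ : ℕ}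
    {m : Fin κ → ℕ} (x : ∀ i, Fin (m i + 1) → K) (M : Fin κ → ℕ) {m' : ℕ} (y : Fin (m' + 1) → L)
    (hy0 : y 0 = 1) (hy : IntermediateField.adjoin K (Set.range y) = ⊤) {N M' : ℕ}
    (hM' : 2 * (finrank K L - 1) * N ≤ M') {h : ℕ}
    (W : Fin h → (Fin n → Derivation k L L) → L) (hW : ∀ l, IsPluri N (W l))
    (hsec : ∀ l f b, SU X D (fun D => algebraMap K L (mlt x M f) * y b ^ M' * W l D))
    (hli : LinearIndependent k W) :
    ∃ η : Fin h → (Fin n → Derivation k K K) → K,
      (∀ l, IsPluri (N * finrank K L) (η l)) ∧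
      (∀ l f, ∀ P ∈ X, OGe P (fun D => mlt x (fun i => M i * finrank K L) f * η l D)
        (-(finrank K L * D P))) ∧
      LinearIndependent k η := by
  classical
  have hchK : CharZero K := charZero_of_injective_algebraMap (algebraMap k K).injective
  obtain ⟨c, hc⟩ := exists_prim (k := k) y hy
  obtain ⟨t, htdef⟩ : ∃ t, t = ∑ b, algebraMap k L (c b) * y b := ⟨_, rfl⟩
  rw [← htdef] at hc
  obtain ⟨z, E, hz, hE⟩ := exists_crd hn
  choose E' hE' using fun i => exists_lift (L := L) hn (E i)
  obtain ⟨F', hF'⟩ : ∃ F', F' = aeval t (derivative (minpoly K t)) := ⟨_, rfl⟩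
  have hF0 : F' ≠ 0 := by
    rw [hF']
    exact (Algebra.IsSeparable.isSeparable K t).aeval_derivative_ne_zero (minpoly.aeval _ _)
  -- the values on the frame
  have hval : ∀ l D0, W l D0 = (Matrix.of fun i j => D0 i (algebraMap K L (z j))).det ^ N *
      W l E' := fun l D0 =>
    pluri_coord (hz.algebraMap_comp (A := L)) (lift_dual hE hE') (hW l) D0
  have hli' : LinearIndependent k fun l => W l E' := by
    rw [Fintype.linearIndependent_iff] at hli ⊢
    intro a ha
    apply hli
    funext D0
    rw [Finset.sum_apply]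
    simp only [Pi.smul_apply, Pi.zero_apply]
    have h4 : ∀ l, a l • W l D0 = (Matrix.of fun i j => D0 i (algebraMap K L (z j))).det ^ N *
        (a l • W l E') := by
      intro l
      rw [hval l D0, mul_smul_comm]
    rw [Finset.sum_congr rfl fun l _ => h4 l, ← Finset.mul_sum, ha, mul_zero]
  obtain ⟨a, ha⟩ := norm_indep (K := K) _ hli'
  -- the combinations
  let V : Fin h → (Fin n → Derivation k L L) → L := fun i D => ∑ j, algebraMap k L (a i j) * W j D
  have hV : ∀ i, IsPluri N (V i) := by
    intro i A D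
    change ∑ j, algebraMap k L (a i j) * W j _ = _ * ∑ j, algebraMap k L (a i j) * W j D
    rw [Finset.mul_sum]
    refine Finset.sum_congr rfl fun j _ => ?_
    rw [hW]
    ring
  refine ⟨fun i => nf z E' N (V i) (F' ^ N), fun i => nf_pluri _ _ _ _ _, fun i f P hP => ?_, ?_⟩
  · have hV' : IsPluri N (fun D => algebraMap K L (mlt x M f) * V i D) := by
      intro A D
      change algebraMap K L (mlt x M f) * V i _ = _
      rw [hV]
      ring
    have h2 := step_local hn hz hE hE' hc hV' (hX P hP) (D P) fun Q e hQ j hj => by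
      intro G hG
      change Qe Q _ _
      rw [htdef]
      refine qe_tpow hy0 c (M' := M') (fun b => ?_) (hj.trans hM')
      have e1 : y b ^ M' * (algebraMap K L (mlt x M f) * V i G) =
          ∑ j, algebraMap k L (a i j) * (algebraMap K L (mlt x M f) * y b ^ M' * W j G) := by
        change y b ^ M' * (algebraMap K L (mlt x M f) * ∑ j, algebraMap k L (a i j) * W j G) = _
        rw [Finset.mul_sum, Finset.mul_sum]
        exact Finset.sum_congr rfl fun j _ => by ring
      rw [e1]
      refine Qe.sum _ _ fun j _ => Qe.smul _ ?_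
      exact hsec j f b P hP Q e hQ G hG
    rw [← hF'] at h2
    have h3 : (nf z E' N (fun D => algebraMap K L (mlt x M f) * V i D) (F' ^ N)) =
        fun D => mlt x (fun i => M i * finrank K L) f * nf z E' N (V i) (F' ^ N) D := by
      funext D
      rw [nf_smul]
      congr 1
      unfold mlt
      rw [← Finset.prod_pow]
      exact Finset.prod_congr rfl fun i _ => (pow_mul _ _ _).symm
    rwa [h3] at h2
  · have h1 : LinearIndependent k fun i => nf z E' N (V i) (F' ^ N) E := by
      have e1 : (fun i => nf z E' N (V i) (F' ^ N) E) =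
          (LinearMap.mulRight k (Algebra.norm K (F' ^ N))) ∘
            fun i => Algebra.norm K (∑ j, algebraMap k L (a i j) * W j E') := by
        funext i
        rw [nf_lift hz hE hE' (hV i) _ hE', map_mul]
        rfl
      rw [e1]
      refine ha.map' _ ?_
      rw [LinearMap.ker_eq_bot]
      intro u v huv
      exact mul_right_cancel₀ (Algebra.norm_ne_zero_iff.2 (pow_ne_zero _ hF0)) huv
    exact LinearIndependent.of_comp (LinearMap.proj E) h1

end

end Run7.h72
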