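import Pool.Agent.Run7.h72.Main

/-!
Kodaira dimension of images of small degree, in the language of logarithmic sections.
-/

set_option autoImplicit false
set_option linter.overlappingInstances false
set_option linter.unusedSectionVars false
set_option maxHeartbeats 4000000
set_option synthInstance.maxHeartbeats 400000

open FF Module
open Pool.Agent.W602.GT Pool.Agent.W603.LV Pool.Agent.W619.PQ Pool.Agent.Y172
open Pool.Agent.W619.Y (BdUp)

namespace Run7.h72

/-- **Kodaira dimension goes down along maps of small degree.** -/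
theorem kodGe_down {k K L : Type} [Field k] [CharZero k] [Field K] [Field L]
    [Algebra k K] [Algebra k L] [Algebra K L] [IsScalarTower k K L] [FiniteDimensional K L]
    {n : ℕ} [Algebra.EssFiniteType k K] (hn : Algebra.trdeg k K = n) {B : Place k K → Prop}
    {κ : ℕ} {m : Fin κ → ℕ} (x : ∀ i, Fin (m i + 1) → L) (hx0 : ∀ i, x i 0 = 1)
    (hgen : Lv K x κ = ⊤) {N : ℕ}
    (hN : 0 < N) (M : Fin κ → ℕ)
    (hM : ∀ i : Fin κ, 2 * (finrank K (Lv K x (i + 1)) - finrank K (Lv K x i)) * N <
      M i * finrank K (Lv K x i)) {ξ : (Fin n → Derivation k L L) → L} (hξ0 : ∃ D, ξ D ≠ 0)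
    (hξs : ∀ f, LogSec k L n N (BdUp B) (fun D => mlt x M f * ξ D))
    {a : ℕ} (hkod : KodGe k L n (BdUp B) a) : KodGe k K n B a := by
  classical
  have hessL : Algebra.EssFiniteType k L := Algebra.EssFiniteType.comp k K L
  obtain ⟨N1, hN1, ζ, hζ, E1, hζ0, hind⟩ := hkod
  have hξ : LogSec k L n N (BdUp B) ξ := by
    have h1 := hξs fun _ => 0
    have e1 : (fun D => mlt x M (fun _ => 0) * ξ D) = ξ := by
      funext D
      rw [mlt_zero x hx0, one_mul]
    rwa [e1] at h1
  have hnL : Algebra.trdeg k L = n := trdeg_up (K := K) hn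
  -- `ξ E1 ≠ 0`
  have hξE : ξ E1 ≠ 0 := by
    obtain ⟨D, hD⟩ := hξ0
    obtain ⟨z, Z, hz, hZ⟩ := exists_crd (k := k) (K := L) hnL
    intro h0
    have h1 := pluri_coord hz hZ hξ.1 E1
    have h2 := pluri_coord hz hZ (hζ 0).1 E1
    have h3 := pluri_coord hz hZ hξ.1 D
    rw [h0] at h1
    rcases mul_eq_zero.1 h1.symm with h4 | h4
    · apply hζ0
      have h5 : (Matrix.of fun i j => E1 i (z j) : Matrix (Fin n) (Fin n) L).det = 0 :=
        (pow_eq_zero_iff hN.ne').1 h4
      rw [h2, h5, zero_pow hN1.ne', zero_mul]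
    · apply hD
      rw [h3, h4, mul_zero]
  have hlefr : ∀ i, finrank K (Lv K x i) ≤ finrank K L := fun i =>
    Submodule.finrank_le (Subalgebra.toSubmodule (Lv K x i).toSubalgebra)
  obtain ⟨q, hq⟩ : ∃ q, q = 2 * finrank K L * N1 := ⟨_, rfl⟩
  let W : Fin (a + 1) → (Fin n → Derivation k L L) → L := fun l D => ξ D ^ q * ζ l D
  have hWs : ∀ l f, LogSec k L n (N * q + N1) (BdUp B)
      (fun D => mlt x (fun i => M i * q) f * W l D) := by
    intro l f
    have h1 := logSec_mul (logSec_pow (hξs f) q) (hζ l)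
    have e1 : (fun D : Fin n → Derivation k L L => (mlt x M f * ξ D) ^ q * ζ l D) =
        fun D => mlt x (fun i => M i * q) f * W l D := by
      funext D
      have h2 : mlt x (fun i => M i * q) f = mlt x M f ^ q := mlt_pow x M q f
      rw [h2, mul_pow]
      change _ = _ * (ξ D ^ q * ζ l D)
      ring
    rw [e1] at h1
    exact h1
  have hW : ∀ l, IsPluri (N * q + N1) (W l) := by
    intro l A D
    change ξ _ ^ q * ζ l _ = _ * (ξ D ^ q * ζ l D)
    rw [hξ.1, (hζ l).1, pow_add, mul_pow, ← pow_mul]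
    ring
  have hW0' : W 0 E1 ≠ 0 := mul_ne_zero (pow_ne_zero _ hξE) hζ0
  have hWr : (fun s : Fin a => W s.succ E1 / W 0 E1) =
      fun s => ζ s.succ E1 / ζ 0 E1 := by
    funext s
    change ξ E1 ^ q * ζ s.succ E1 / (ξ E1 ^ q * ζ 0 E1) = _
    rw [mul_div_mul_left _ _ (pow_ne_zero _ hξE)]
  have hind' : AlgebraicIndependent k fun s : Fin a => W s.succ E1 / W 0 E1 := by
    rw [hWr]
    exact hind
  obtain ⟨N', hN', η, hη, D', hD', hηi⟩ := tower κ (K := K) (L := L) hn B (BdUp B)
    (fun P Q e hQ hBQ => by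
      obtain ⟨P1, e1, hQ1, hB1⟩ := hBQ
      rwa [(Pool.Agent.Y172.over_unique' hQ1 hQ).1] at hB1) m x hx0 hgen
    (N * q + N1) (fun i => M i * q) (fun i => by
      have h1 := Nat.succ_le_of_lt (hM i)
      have h2 : finrank K (Lv K x (i + 1)) - finrank K (Lv K x i) ≤ finrank K L :=
        (Nat.sub_le _ _).trans (hlefr _)
      have h3 := Nat.mul_le_mul_right q h1
      have h4 : 2 * (finrank K (Lv K x (i + 1)) - finrank K (Lv K x i)) * N1 ≤ q := by
        rw [hq]
        exact Nat.mul_le_mul_right _ (Nat.mul_le_mul_left _ h2)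
      calc 2 * (finrank K (Lv K x (i + 1)) - finrank K (Lv K x i)) * (N * q + N1)
          = 2 * (finrank K (Lv K x (i + 1)) - finrank K (Lv K x i)) * N1 +
            2 * (finrank K (Lv K x (i + 1)) - finrank K (Lv K x i)) * N * q := by ring
        _ ≤ q + 2 * (finrank K (Lv K x (i + 1)) - finrank K (Lv K x i)) * N * q :=
            Nat.add_le_add_right h4 _
        _ = (2 * (finrank K (Lv K x (i + 1)) - finrank K (Lv K x i)) * N).succ * q := by
            rw [Nat.succ_eq_add_one]; ring
        _ ≤ M i * finrank K (Lv K x i) * q := h3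
        _ = M i * q * finrank K (Lv K x i) := by ring) a W hW hWs E1 hW0' hind'
  exact ⟨N', hN' (by positivity), η, hη, D', hD', hηi⟩

end Run7.h72
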