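import Pool.Agent.N145.SX.PullK
import Pool.Agent.N145.SX.Flat
import Pool.Agent.N438.SX.CST1
import Pool.Agent.Run7.h72.TowerK

/-!
Correspondences of small degree between curves of genus at most one and varieties with a very positive
canonical bundle are constant.
-/

set_option autoImplicit false
set_option linter.overlappingInstances false
set_option linter.unusedSectionVars false
set_option linter.unusedVariables false
set_option maxHeartbeats 4000000
set_option synthInstance.maxHeartbeats 400000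

open Polynomial FF IntermediateField Module

namespace Run7.h72

open Pool.Agent.W603.LV Pool.Agent.W619.PQ Pool.Agent.Y172
open Pool.Agent.N145.SX (GLO flat_of_glo core_pluri pluri_of_glo)
open Pool.Agent.N145.PC (exists_D)
open Pool.Agent.W602.GT (Divisorial RegAt IsPluri DerReg DerLog LogAt KodGe LogSec)
open Pool.Agent.W619.Y (BdUp)

section

variable {Λ R : Type} [Field Λ] [Field R] [Algebra Λ R] [CharZero Λ] [IsAlgClosed Λ] [IsFF Λ R]

theorem pluri_smul2 {m : ℕ} {ω : (Fin 1 → Derivation Λ R R) → R}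
    (hω : IsPluri m ω) (u : R) (D : Derivation Λ R R) :
    ω (fun _ => u • D) = u ^ m * ω (fun _ => D) := by
  have h1 := hω (Matrix.of fun _ _ => u) (fun _ => D)
  rw [Matrix.det_unique] at h1
  rw [← show (Matrix.of fun (_ _ : Fin 1) => u) default default = u from rfl, ← h1]
  congr 1
  funext j
  rw [Fin.sum_univ_one]
  rfl

/-- all places of a curve are divisorial -/
theorem div_one' (Q : Place Λ R) : Divisorial 1 Q := by
  change ∃ y : Fin 0 → R, ∀ p : MvPolynomial (Fin 0) Λ, p ≠ 0 →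
    MvPolynomial.aeval y p ≠ 0 ∧ Q.ord (MvPolynomial.aeval y p) = 0
  refine ⟨fun i => i.elim0, fun p hp => ?_⟩
  rw [MvPolynomial.eq_C_of_isEmpty p] at hp ⊢
  have hc : MvPolynomial.coeff 0 p ≠ 0 := by
    intro h
    rw [h, map_zero] at hp
    exact hp rfl
  rw [MvPolynomial.aeval_C]
  exact ⟨by simpa using hc, Q.ord_const hc⟩

/-- the values of a regular form -/
theorem val_ge {m : ℕ} {ω : (Fin 1 → Derivation Λ R R) → R}
    (hω : LogSec Λ R 1 m (fun _ => False) ω) {D : Derivation Λ R R} (hD : D ≠ 0)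
    (Q : Place Λ R) : Ge Q (m * vo Q D) (ω (fun _ => D)) := by
  have hπ := ord_unif Q
  have h0 := der_pi_ne_zero hD Q hπ
  obtain ⟨D1, hD1⟩ : ∃ D1, D1 = (D (unif Q))⁻¹ • D := ⟨_, rfl⟩
  have h1 : D1 (unif Q) = 1 := by
    rw [hD1]
    simp [h0]
  have h2 : D = D (unif Q) • D1 := by
    rw [hD1, smul_smul, mul_inv_cancel₀ h0, one_smul]
  have h3 : Ge Q 0 (ω (fun _ => D1)) := hω.2.2 Q (div_one' Q) (fun h => h) (fun _ => D1)
    fun _ f hf => der_reg Q hπ D1 h1 hf
  have h4 : ω (fun _ => D) = D (unif Q) ^ m * ω (fun _ => D1) := by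
    conv_lhs => rw [h2]
    exact pluri_smul2 hω.1 _ _
  rw [h4]
  have h6 : Ge Q (vo Q D) (D (unif Q)) := Or.inr le_rfl
  have h7 := (h6.pow m).mul h3
  rwa [add_zero] at h7

/-- the line has no pluricanonical forms -/
theorem not_kod_rational {t : R} (ht : Λ⟮t⟯ = ⊤) : ¬ KodGe Λ R 1 (fun _ => False) 0 := by
  classical
  rintro ⟨N, hN, ω, hω, G, hG, -⟩
  have hD := der_ne (k := Λ) (K := R)
  obtain ⟨D, hDd⟩ : ∃ D, D = der Λ R := ⟨_, rfl⟩
  rw [← hDd] at hD
  obtain ⟨u, hu⟩ := der_smul (D' := G 0) hD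
  have hGu : G = fun _ => u • D := funext fun i => by rw [Subsingleton.elim i 0, hu]
  have hf0 : ω 0 (fun _ => D) ≠ 0 := by
    intro h0
    apply hG
    rw [hGu, pluri_smul2 (hω 0).1, h0, mul_zero]
  obtain ⟨f, hf⟩ : ∃ f, f = ω 0 (fun _ => D) := ⟨_, rfl⟩
  have hfQ : ∀ Q : Place Λ R, Ge Q (N * vo Q D) f := fun Q => by
    rw [hf]
    exact val_ge (hω 0) hD Q
  rw [← hf] at hf0
  obtain ⟨T, hT⟩ : ∃ T : Finset (Place Λ R), T = (vo_finite hD).toFinset ∪
    (finite_support (k := Λ) f).toFinset := ⟨_, rfl⟩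
  have h1 := canDeg_finset (k := Λ) hD T (fun P hP => by
    rw [hT, Finset.mem_union, Set.Finite.mem_toFinset]
    exact Or.inl hP)
  have h2 := sum_ord_finset (k := Λ) f T (fun P hP => by
    rw [hT, Finset.mem_union, Set.Finite.mem_toFinset, Set.Finite.mem_toFinset]
    exact Or.inr hP)
  rw [canDeg_rational ht] at h1
  have h3 : ∑ P ∈ T, (N : ℤ) * vo P D ≤ ∑ P ∈ T, P.ord f :=
    Finset.sum_le_sum fun P _ => (hfQ P).resolve_left hf0
  rw [← Finset.mul_sum, h1, h2] at h3
  have h4 : (0 : ℤ) < N := by exact_mod_cast hN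
  linarith

/-- on a curve of genus at most one the pluricanonical forms are proportional -/
theorem not_kod_glo (h : GLO Λ R) : ¬ KodGe Λ R 1 (fun _ => False) 1 := by
  classical
  rintro ⟨N, hN, ω, hω, G, hG, hind⟩
  have hD := der_ne (k := Λ) (K := R)
  obtain ⟨D, hDd⟩ : ∃ D, D = der Λ R := ⟨_, rfl⟩
  rw [← hDd] at hD
  obtain ⟨u, hu⟩ := der_smul (D' := G 0) hD
  have hGu : G = fun _ => u • D := funext fun i => by rw [Subsingleton.elim i 0, hu]
  have hv : ∀ l, ω l G = u ^ N * ω l (fun _ => D) := fun l => by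
    rw [hGu, pluri_smul2 (hω l).1]
  have hu0 : u ^ N ≠ 0 := by
    intro h0
    apply hG
    rw [hv, h0, zero_mul]
  have hf0 : ω 0 (fun _ => D) ≠ 0 := by
    intro h0
    apply hG
    rw [hv, h0, mul_zero]
  obtain ⟨a, b, hab, he⟩ := pluri_of_glo h hD hN (val_ge (hω 1) hD) (val_ge (hω 0) hD)
  have ha : a ≠ 0 := by
    rintro rfl
    rw [map_zero, zero_mul] at he
    rcases mul_eq_zero.1 he.symm with h1 | h1
    · rcases hab with h2 | h2
      · exact h2 rfl
      · exact h2 ((map_eq_zero _).1 h1)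
    · exact hf0 h1
  have h1 : Transcendental Λ (ω 1 G / ω 0 G) :=
    (algebraicIndependent_unique_type_iff (ι := Fin 1)).1 hind
  apply h1
  have h2 : ω 1 G / ω 0 G = algebraMap Λ R (b / a) := by
    rw [hv, hv, mul_div_mul_left _ _ hu0, map_div₀, div_eq_div_iff hf0 (by simpa using ha),
      mul_comm, he, mul_comm]
  rw [h2]
  exact isAlgebraic_algebraMap _

end

/-- **Correspondences of small degree.** -/
theorem corr {E Λ R Ξ : Type} [Field E] [Field Λ] [Field R] [Field Ξ] [Algebra ℂ E] [Algebra ℂ Λ]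
    [Algebra ℂ Ξ] [Algebra Λ R] [Algebra R Ξ] [Algebra Λ Ξ] [IsScalarTower Λ R Ξ] [Algebra E Ξ]
    [IsScalarTower ℂ Λ Ξ] [IsScalarTower ℂ E Ξ] [Algebra.EssFiniteType ℂ E] [IsAlgClosed Λ]
    [IsFF Λ R] [FiniteDimensional R Ξ] {m N : ℕ} (hm : Algebra.trdeg ℂ E = m)
    (hN : Algebra.trdeg ℂ Λ = N) {κ : ℕ} {mm : Fin κ → ℕ} (x : ∀ i, Fin (mm i + 1) → E)
    (hx0 : ∀ i, x i 0 = 1) {w : ℕ} (hw : 0 < w) (M : Fin κ → ℕ)
    {ψ : (Fin m → Derivation ℂ E E) → E} (hψ0 : ∃ D, ψ D ≠ 0)
    (hψ : ∀ f, LogSec ℂ E m w (fun _ => False) (fun D => mlt x M f * ψ D))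
    (hgen : Lv R (fun i b => algebraMap E Ξ (x i b)) κ = ⊤)
    (hM : ∀ i : Fin κ, 2 * (finrank R (Lv R (fun i b => algebraMap E Ξ (x i b)) (i + 1)) -
      finrank R (Lv R (fun i b => algebraMap E Ξ (x i b)) i)) * w <
      M i * finrank R (Lv R (fun i b => algebraMap E Ξ (x i b)) i)) :
    (∀ z : E, IsAlgebraic Λ (algebraMap E Ξ z)) ∨ (KodGe Λ R 1 (fun _ => False) 0 ∧
      ∀ i b, Transcendental Λ (algebraMap E Ξ (x i b)) → KodGe Λ R 1 (fun _ => False) 1) := by
  have hΛ0 : CharZero Λ := charZero_of_injective_algebraMap (algebraMap ℂ Λ).injective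
  have hessR : Algebra.EssFiniteType Λ R := IsFF.ess
  have htrR : Algebra.trdeg Λ R = (1 : ℕ) := by
    rw [IsFF.trdeg (k := Λ) (K := R)]
    simp
  have htrΞ : Algebra.trdeg Λ Ξ = (1 : ℕ) := trdeg_up (K := R) htrR
  have hessΞ : Algebra.EssFiniteType Λ Ξ := Algebra.EssFiniteType.comp Λ R Ξ
  have hFF : IsFF Λ Ξ := ⟨hessΞ, by rw [htrΞ]; simp⟩
  by_cases halg : ∀ z : E, IsAlgebraic Λ (algebraMap E Ξ z)
  · exact Or.inl halg
  right
  obtain ⟨s, hs⟩ := IsFF.exists_transcendental (k := Λ) (K := Ξ)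
  obtain ⟨Ds, hDs⟩ := exists_D (k := Λ) hs
  have hDs0 : Ds ≠ 0 := by
    rintro rfl
    simp at hDs
  obtain ⟨z, D0, hz, hD0⟩ := exists_crd hm
  -- the transcendence basis and the dual vector fields
  obtain ⟨u, Eu, hu, hEu⟩ := Pool.Agent.Y944.NT.exists_crd (k := ℂ) (K := Λ) hN
  obtain ⟨T, hTd⟩ : ∃ T : Fin (N + 1) → Ξ, T = Fin.cons s (fun i => algebraMap Λ Ξ (u i)) :=
    ⟨_, rfl⟩
  have hT : IsTranscendenceBasis ℂ T := by
    rw [hTd]
    exact Pool.Agent.N438.SX.basis_cons hu hs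
  choose δ hδ using fun i : Fin (N + 1) =>
    Pool.Agent.W602.GT.exists_der T hT fun j => if i = j then 1 else 0
  have ha : ∀ y, δ 0 y = Ds y := by
    have h1 : δ 0 = Ds.restrictScalars ℂ := Pool.Agent.Y888.NT.der_ext' T hT fun j => by
      rw [hδ]
      refine Fin.cases ?_ (fun j => ?_) j
      · rw [if_pos rfl, hTd, Fin.cons_zero]
        exact hDs.symm
      · rw [if_neg (Fin.succ_ne_zero j).symm, hTd, Fin.cons_succ]
        exact (Derivation.map_algebraMap Ds (u j)).symm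
    intro y
    rw [h1]
    rfl
  have hb : ∀ (k : Fin (N + 1)) (c : Λ), ∃ c' : Λ, δ k (algebraMap Λ Ξ c) = algebraMap Λ Ξ c' := by
    intro k
    refine Fin.cases (fun c => ⟨0, ?_⟩) (fun k c => ⟨Eu k c, ?_⟩) k
    · rw [ha, Derivation.map_algebraMap, map_zero]
    · have h1 : (δ k.succ).compAlgebraMap Λ = (Algebra.linearMap Λ Ξ).compDer (Eu k) :=
        Pool.Agent.Y888.NT.der_ext' u hu fun j => by
          change δ k.succ (algebraMap Λ Ξ (u j)) = algebraMap Λ Ξ (Eu k (u j))
          have h2 := hδ k.succ j.succ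
          rw [hTd, Fin.cons_succ] at h2
          rw [h2, hEu]
          by_cases h : k = j
          · rw [if_pos h, if_pos (by rw [h]), map_one]
          · rw [if_neg h, if_neg (fun h' => h (Fin.succ_injective _ h')), map_zero]
      exact DFunLike.congr_fun h1 c
  -- the rows
  obtain ⟨mt, hmt⟩ : ∃ mt : Fin (N + 1) → Fin m → Ξ, mt = fun k j => δ k (algebraMap E Ξ (z j)) :=
    ⟨_, rfl⟩
  have hφy : AlgebraicIndependent ℂ (fun j => algebraMap E Ξ (z j)) :=
    hz.1.map' (f := IsScalarTower.toAlgHom ℂ E Ξ) (algebraMap E Ξ).injective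
  have hcol : ∀ c : Fin m → Ξ, (∀ k, ∑ j, c j * mt k j = 0) → c = 0 := by
    intro c hc
    funext i
    obtain ⟨D, hD⟩ := Pool.Agent.Y944.NT.exists_der_indep hφy i
    have h1 := Pool.Agent.Y944.NT.der_expand hT hδ D
    have h2 : ∀ x, D x = ∑ k, D (T k) * δ k x := by
      intro x
      conv_lhs => rw [h1]
      have h3 : (∑ k, D (T k) • δ k) x = ∑ k, (D (T k) • δ k) x :=
        congrFun (map_sum Derivation.coeFnAddMonoidHom (fun k => D (T k) • δ k) Finset.univ |>.trans
          rfl) x |>.trans (Finset.sum_apply _ _ _)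
      rw [h3]
      rfl
    have h4 : ∑ j, c j * D (algebraMap E Ξ (z j)) = 0 := by
      simp only [h2 (algebraMap E Ξ (z _)), Finset.mul_sum]
      rw [Finset.sum_comm]
      refine Finset.sum_eq_zero fun k _ => ?_
      have h5 := hc k
      calc ∑ j, c j * (D (T k) * δ k (algebraMap E Ξ (z j))) = D (T k) * ∑ j, c j * mt k j := by
            rw [Finset.mul_sum]
            exact Finset.sum_congr rfl fun j _ => by rw [hmt]; ring
        _ = 0 := by rw [h5, mul_zero]
    simp only [hD, mul_ite, mul_one, mul_zero, Finset.sum_ite_eq, Finset.mem_univ, if_true] at h4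
    exact h4
  have h0 : mt 0 ≠ 0 := by
    intro h0
    apply halg
    intro z'
    have h1 : (δ 0).compAlgebraMap E = 0 := Pool.Agent.Y888.NT.der_ext' z hz fun j => by
      change δ 0 (algebraMap E Ξ (z j)) = 0
      have := congrFun h0 j
      rw [hmt] at this
      exact this
    have h2 : Ds (algebraMap E Ξ z') = 0 := by
      rw [← ha]
      exact DFunLike.congr_fun h1 z'
    obtain ⟨c, hc⟩ := const_of_der (k := Λ) hDs0 h2
    rw [hc]
    exact isAlgebraic_algebraMap c
  obtain ⟨k, i0, hk0, -, hdet⟩ := Pool.Agent.Y944.NT.rows_ext mt hcol h0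
  obtain ⟨c, hc⟩ : ∃ c, c = (Matrix.of fun i j => mt (k i) j : Matrix (Fin m) (Fin m) Ξ).det :=
    ⟨_, rfl⟩
  rw [← hc] at hdet
  have hψp : IsPluri w ψ := by
    have h1 := (hψ fun _ => 0).1
    have e1 : (fun D => mlt x M (fun _ => 0) * ψ D) = ψ := by
      funext D
      rw [mlt_zero x hx0, one_mul]
    rwa [e1] at h1
  have hψE : ψ D0 ≠ 0 := by
    intro h1
    obtain ⟨D, hD⟩ := hψ0
    apply hD
    rw [pluri_coord hz hD0 hψp D, h1, mul_zero]
  -- the form on the curve
  let x' : ∀ i, Fin (mm i + 1) → Ξ := fun i b => algebraMap E Ξ (x i b)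
  have hx0' : ∀ i, x' i 0 = 1 := fun i => by
    change algebraMap E Ξ (x i 0) = 1
    rw [hx0, map_one]
  have hmlt : ∀ f, mlt x' M f = algebraMap E Ξ (mlt x M f) := by
    intro f
    unfold mlt
    rw [map_prod]
    exact Finset.prod_congr rfl fun i _ => by rw [map_pow]
  obtain ⟨W, hW⟩ : ∃ W : (Fin 1 → Derivation Λ Ξ Ξ) → Ξ, W = fun D =>
    D 0 s ^ w * (c ^ w * algebraMap E Ξ (ψ D0)) := ⟨_, rfl⟩
  have hWs : ∀ f, LogSec Λ Ξ 1 w (fun _ => False) (fun D => mlt x' M f * W D) := by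
    intro f
    have hreg : ∀ (Q : Place Λ Ξ) (D : Fin 1 → Derivation Λ Ξ Ξ), (∀ i, DerReg Q (D i)) →
        Q.Reg (mlt x' M f * W D) := by
      intro Q D hD
      have h1 := core_pluri hm hN hz hD0 (hψ f).1 (fun P hP D' hD' => (hψ f).2.2 P hP (fun h => h)
        D' hD') Ds hDs (fun i => δ (k i)) i0 (fun y => by rw [hk0]; exact ha y)
        (fun i c => hb (k i) c) Q
      have h2 : Ge Q (-vo Q Ds) (D 0 s) := by
        obtain ⟨v, hv⟩ := der_smul (D' := D 0) hDs0
        by_cases hv0 : v = 0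
        · left
          rw [hv, hv0, zero_smul]
          rfl
        right
        have h3 : D 0 s = v := by
          rw [hv, Derivation.smul_apply, hDs, smul_eq_mul, mul_one]
        have h4 : Ge Q 0 (D 0 (unif Q)) := hD 0 _ (Or.inr (by rw [ord_unif]; exact zero_le_one))
        have hD0' : D 0 ≠ 0 := by
          rw [hv]
          exact smul_ne_zero hv0 hDs0
        have h5 : 0 ≤ vo Q (D 0) := h4.resolve_left (der_pi_ne_zero hD0' Q (ord_unif Q))
        rw [hv, vo_smul Q hDs0 hv0] at h5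
        rw [h3]
        linarith
      have h3 := (h2.pow w).mul h1
      have e1 : (w : ℤ) * -vo Q Ds + w * vo Q Ds = 0 := by ring
      rw [e1] at h3
      have e2 : mlt x' M f * W D = D 0 s ^ w *
          ((Matrix.of fun i j => δ (k i) (algebraMap E Ξ (z j)) :
            Matrix (Fin m) (Fin m) Ξ).det ^ w * algebraMap E Ξ (mlt x M f * ψ D0)) := by
        rw [hW, hmlt, hc, hmt, map_mul]
        ring
      rw [e2]
      exact h3
    refine ⟨?_, fun Q _ D hD => hreg Q D fun i => derReg_of_log' (hD i), fun Q _ _ D hD =>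
      hreg Q D hD⟩
    intro A D
    rw [hW]
    change mlt x' M f * ((∑ j, A 0 j • D j) s ^ w * _) = A.det ^ w * (mlt x' M f * (D 0 s ^ w * _))
    rw [Matrix.det_unique, Fin.sum_univ_one, Derivation.smul_apply, smul_eq_mul]
    have h6 : A (default : Fin 1) (default : Fin 1) = A 0 0 := rfl
    rw [h6]
    ring
  have hWD : W (fun _ => Ds) ≠ 0 := by
    rw [hW]
    change Ds s ^ w * _ ≠ 0
    rw [hDs, one_pow, one_mul]
    exact mul_ne_zero (pow_ne_zero _ hdet) (by simpa using hψE)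
  have hbd : (BdUp (fun _ : Place Λ R => False) : Place Λ Ξ → Prop) = fun _ => False := by
    funext Q
    apply propext
    constructor
    · rintro ⟨_, _, _, h⟩
      exact h
    · exact fun h => h.elim
  have hdown : ∀ b : ℕ, KodGe Λ Ξ 1 (fun _ => False) b → KodGe Λ R 1 (fun _ => False) b := by
    intro b hb
    refine kodGe_down (B := fun _ => False) htrR x' hx0' hgen hw M hM (ξ := W) ⟨_, hWD⟩ ?_ ?_
    · rw [hbd]
      exact hWs
    · rw [hbd]
      exact hb
  have hmz : mlt x' M (fun _ => 0) = 1 := mlt_zero x' hx0' M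
  refine ⟨hdown 0 ⟨w, hw, fun _ D => mlt x' M (fun _ => 0) * W D, fun _ => hWs _, fun _ => Ds, ?_,
    ?_⟩, fun i b hib => hdown 1 ?_⟩
  · change mlt x' M (fun _ => 0) * W (fun _ => Ds) ≠ 0
    rw [hmz, one_mul]
    exact hWD
  · exact algebraicIndependent_empty_type_iff.2 (algebraMap Λ Ξ).injective
  · have hMi : M i ≠ 0 := fun h0 => by
      have h3 := hM i
      rw [h0, zero_mul] at h3
      omega
    refine ⟨w, hw, ![fun D => mlt x' M (fun _ => 0) * W D,
      fun D => mlt x' M (Function.update (fun _ => 0) i b) * W D], fun l => ?_, fun _ => Ds, ?_, ?_⟩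
    · fin_cases l
      · exact hWs _
      · exact hWs _
    · change mlt x' M (fun _ => 0) * W (fun _ => Ds) ≠ 0
      rw [hmz, one_mul]
      exact hWD
    · refine (algebraicIndependent_unique_type_iff (ι := Fin 1)).2 ?_
      change Transcendental Λ (mlt x' M (Function.update (fun _ => 0) i b) * W (fun _ => Ds) /
        (mlt x' M (fun _ => 0) * W (fun _ => Ds)))
      rw [hmz, one_mul, mul_div_assoc, div_self hWD, mul_one, mlt_update x' hx0' M i b]
      exact hib.pow (Nat.pos_of_ne_zero hMi)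

end Run7.h72
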