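import Pool.Agent.Run7.h72.Fam

/-!
The norm principle in towers.
-/

set_option autoImplicit false
set_option linter.overlappingInstances false
set_option linter.unusedSectionVars false
set_option maxHeartbeats 4000000
set_option synthInstance.maxHeartbeats 400000

open FF Polynomial Module
open Pool.Agent.W602.GT Pool.Agent.W603.LV Pool.Agent.W619.PQ Pool.Agent.Y172

namespace Run7.h72

/-- the field generated over `K` by the first `i` families -/
noncomputable def Lv (K : Type) {L : Type} [Field K] [Field L] [Algebra K L] {κ : ℕ}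
    {m : Fin κ → ℕ} (x : ∀ i, Fin (m i + 1) → L) (i : ℕ) : IntermediateField K L :=
  IntermediateField.adjoin K {z | ∃ l : Fin κ, l.val < i ∧ z ∈ Set.range (x l)}

theorem over_trans' {k K K' L : Type} [Field k] [Field K] [Field K'] [Field L] [Algebra k K]
    [Algebra k K'] [Algebra k L] [Algebra K K'] [Algebra K' L] [Algebra K L]
    [IsScalarTower K K' L] {Q : Place k L} {Q' : Place k K'} {P : Place k K} {e e' : ℕ}
    (h : Over Q Q' e) (h' : Over Q' P e') : Over Q P (e * e') := by
  refine ⟨Nat.mul_pos h.1 h'.1, fun f => ?_⟩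
  rw [IsScalarTower.algebraMap_apply K K' L, h.2, h'.2]
  push_cast
  ring

section

variable {K L : Type} [Field K] [Field L] [Algebra K L]

theorem mem_Lv {κ : ℕ} {m : Fin κ → ℕ} (x : ∀ i, Fin (m i + 1) → L) {i : ℕ} (l : Fin κ)
    (hl : l.val < i) (b : Fin (m l + 1)) : x l b ∈ Lv K x i :=
  IntermediateField.subset_adjoin _ _ ⟨l, hl, b, rfl⟩

theorem Lv_map {κ : ℕ} {m : Fin κ → ℕ} (K' : IntermediateField K L) (x' : ∀ i, Fin (m i + 1) → K')
    (i : ℕ) : (Lv K x' i).map K'.val = Lv K (fun i b => (x' i b : L)) i := by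
  unfold Lv
  rw [IntermediateField.adjoin_map]
  congr 1
  ext z
  constructor
  · rintro ⟨w, ⟨l, hl, b, rfl⟩, rfl⟩
    exact ⟨l, hl, b, rfl⟩
  · rintro ⟨l, hl, b, rfl⟩
    exact ⟨x' l b, ⟨l, hl, b, rfl⟩, rfl⟩

theorem finrank_Lv {κ : ℕ} {m : Fin κ → ℕ} (K' : IntermediateField K L)
    (x' : ∀ i, Fin (m i + 1) → K') (i : ℕ) :
    finrank K (Lv K x' i) = finrank K (Lv K (fun i b => (x' i b : L)) i) := by
  rw [← Lv_map]
  exact LinearEquiv.finrank_eq (IntermediateField.equivMap (Lv K x' i) K'.val).toLinearEquiv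

/-- the first `κ` of `κ + 1` families generate the same fields -/
theorem Lv_castSucc {κ : ℕ} {m : Fin (κ + 1) → ℕ} (x : ∀ i, Fin (m i + 1) → L) {i : ℕ}
    (hi : i ≤ κ) :
    Lv K (fun (l : Fin κ) (b : Fin (m l.castSucc + 1)) => x l.castSucc b) i = Lv K x i := by
  have h1 : {z | ∃ l : Fin κ, l.val < i ∧
      z ∈ Set.range (fun (b : Fin (m l.castSucc + 1)) => x l.castSucc b)} =
      {z | ∃ l : Fin (κ + 1), l.val < i ∧ z ∈ Set.range (x l)} := by
    apply Set.ext
    intro z
    constructor
    · rintro ⟨l, hl, b, rfl⟩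
      exact ⟨l.castSucc, hl, b, rfl⟩
    · rintro ⟨l, hl, b, rfl⟩
      have hlκ : l.val < κ := lt_of_lt_of_le hl hi
      exact ⟨⟨l.val, hlκ⟩, hl, b, rfl⟩
  unfold Lv
  rw [h1]

/-- the last step -/
theorem adjoin_last {κ : ℕ} {m : Fin (κ + 1) → ℕ} (x : ∀ i, Fin (m i + 1) → L)
    (h : Lv K x (κ + 1) = ⊤) :
    IntermediateField.adjoin (Lv K x κ) (Set.range (x (Fin.last κ))) = ⊤ := by
  rw [eq_top_iff]
  intro z _
  have h1 : z ∈ Lv K x (κ + 1) := by rw [h]; trivial
  have h2 : Lv K x (κ + 1) ≤ (IntermediateField.adjoin (Lv K x κ)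
      (Set.range (x (Fin.last κ)))).restrictScalars K := by
    unfold Lv
    rw [IntermediateField.adjoin_le_iff]
    rintro _ ⟨l, hl, b, rfl⟩
    refine Fin.lastCases (fun b => ?_) (fun l b => ?_) l b
    · exact IntermediateField.subset_adjoin _ _ ⟨b, rfl⟩
    · exact (IntermediateField.adjoin (Lv K x κ) (Set.range (x (Fin.last κ)))).algebraMap_mem
        ⟨x l.castSucc b, mem_Lv x l.castSucc l.isLt b⟩
  exact h2 h1

end

/-- **The norm principle in towers.** -/
theorem tower {k : Type} [Field k] [CharZero k] {n : ℕ} : ∀ (κ : ℕ) {K L : Type} [Field K]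
    [Field L] [Algebra k K] [Algebra k L] [Algebra K L] [IsScalarTower k K L]
    [FiniteDimensional K L] [Algebra.EssFiniteType k K] [Algebra.EssFiniteType k L]
    (_ : Algebra.trdeg k K = n) (BK : Place k K → Prop) (BL : Place k L → Prop)
    (_ : ∀ (P : Place k K) (Q : Place k L) (e : ℕ), Over Q P e → BL Q → BK P)
    (m : Fin κ → ℕ) (x : ∀ i, Fin (m i + 1) → L) (_ : ∀ i, x i 0 = 1) (_ : Lv K x κ = ⊤)
    (N : ℕ) (M : Fin κ → ℕ) (_ : ∀ i : Fin κ,
      2 * (finrank K (Lv K x (i + 1)) - finrank K (Lv K x i)) * N ≤ M i * finrank K (Lv K x i))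
    (h : ℕ) (W : Fin (h + 1) → (Fin n → Derivation k L L) → L) (_ : ∀ l, IsPluri N (W l))
    (_ : ∀ l f, LogSec k L n N BL (fun D => mlt x M f * W l D))
    (D0 : Fin n → Derivation k L L) (_ : W 0 D0 ≠ 0)
    (_ : AlgebraicIndependent k fun i : Fin h => W i.succ D0 / W 0 D0),
    ∃ N' : ℕ, (0 < N → 0 < N') ∧ ∃ η : Fin (h + 1) → (Fin n → Derivation k K K) → K,
      (∀ l, LogSec k K n N' BK (η l)) ∧
      ∃ E, η 0 E ≠ 0 ∧ AlgebraicIndependent k fun i : Fin h => η i.succ E / η 0 E := by
  intro κ
  induction κ with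
  | zero =>
    intro K L _ _ _ _ _ _ _ _ _ hn BK BL hB m x hx0 hgen N M hM h W hW hsec D0 h0 hind
    have hbot : (⊥ : IntermediateField K L) = ⊤ := by
      rw [← hgen]
      unfold Lv
      rw [eq_comm, IntermediateField.adjoin_eq_bot_iff]
      rintro z ⟨l, -⟩
      exact l.elim0
    have hr : finrank K L = 1 := IntermediateField.bot_eq_top_iff_finrank_eq_one.1 hbot
    have hy : IntermediateField.adjoin K (Set.range (fun _ : Fin (0 + 1) => (1 : L))) = ⊤ := by
      rw [eq_top_iff, ← hbot]
      exact bot_le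
    obtain ⟨η, hη, hη', E, hE, hEi⟩ := step_fam hn hB (κ := 0) (m := fun _ => 0)
      (fun i => i.elim0) (fun i => i.elim0) (fun _ => (1 : L)) rfl hy (N := N) (M' := 0)
      (by rw [hr]; simp) W hW (fun l f b => by
        have h1 := hsec l (fun i => i.elim0)
        have e1 : (fun D : Fin n → Derivation k L L => mlt x M (fun i => i.elim0) * W l D) =
            fun D => algebraMap K L (mlt (fun i : Fin 0 => i.elim0) (fun i => i.elim0) f) *
              (1 : L) ^ 0 * W l D := by
          funext D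
          unfold mlt
          simp
        rwa [e1] at h1) h0 hind
    refine ⟨N * finrank K L, fun hN => Nat.mul_pos hN finrank_pos, η, fun l => ?_, E, hE, hEi⟩
    have h1 := hη' l (fun i => i.elim0)
    have e1 : (fun D : Fin n → Derivation k K K =>
        mlt (fun i : Fin 0 => (i.elim0 : Fin ((fun _ => 0 : Fin 0 → ℕ) i + 1) → K))
          (fun i => (i.elim0 : ℕ) * finrank K L) (fun i => i.elim0) * η l D) = η l := by
      funext D
      unfold mlt
      simp
    rw [e1] at h1
    exact h1
  | succ κ ih =>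
    intro K L _ _ _ _ _ _ _ _ _ hn BK BL hB m x hx0 hgen N M hM h W hW hsec D0 h0 hind
    obtain ⟨K', hK'⟩ : ∃ K', K' = Lv K x κ := ⟨_, rfl⟩
    have hy := adjoin_last x hgen
    rw [← hK'] at hy
    have htw : IsScalarTower k K' L := IsScalarTower.of_algebraMap_eq fun z => rfl
    have hnK' : Algebra.trdeg k K' = n := trdeg_up (K := K) hn
    have hessK' : Algebra.EssFiniteType k K' := Algebra.EssFiniteType.comp k K K'
    let x' : ∀ i : Fin κ, Fin (m i.castSucc + 1) → K' := fun i b =>
      ⟨x i.castSucc b, by rw [hK']; exact mem_Lv x i.castSucc i.isLt b⟩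
    let BK' : Place k K' → Prop := fun Q' => ∃ (Q : Place k L) (e : ℕ), Over Q Q' e ∧ BL Q
    -- the degrees
    have hdeg : ∀ i, i ≤ κ → finrank K (Lv K x' i) = finrank K (Lv K x i) := by
      intro i hi
      rw [finrank_Lv]
      have e1 : Lv K (fun (i : Fin κ) b => ((x' i b : K') : L)) i = Lv K x i := Lv_castSucc x hi
      rw [e1]
    have hdK' : finrank K (Lv K x κ) = finrank K K' := by rw [hK']
    have hdL : finrank K (Lv K x (κ + 1)) = finrank K K' * finrank K' L := by
      rw [hgen, IntermediateField.finrank_top', finrank_mul_finrank]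
    have hKpos : 0 < finrank K K' := finrank_pos
    have hMlast : 2 * (finrank K' L - 1) * N ≤ M (Fin.last κ) := by
      have h1 := hM (Fin.last κ)
      rw [Fin.val_last, hdL, hdK'] at h1
      have h2 : finrank K K' * finrank K' L - finrank K K' = finrank K K' * (finrank K' L - 1) := by
        rw [Nat.mul_sub, mul_one]
      rw [h2] at h1
      have h3 : (2 * (finrank K' L - 1) * N) * finrank K K' ≤ M (Fin.last κ) * finrank K K' := by
        calc _ = 2 * (finrank K K' * (finrank K' L - 1)) * N := by ring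
          _ ≤ _ := h1
      exact Nat.le_of_mul_le_mul_right h3 hKpos
    obtain ⟨η, hη, hη', E, hE, hEi⟩ := step_fam (K := K') (L := L) (BK := BK') (BL := BL) hnK'
      (fun P Q e hQ hQB => ⟨Q, e, hQ, hQB⟩) (κ := κ) (m := fun i => m i.castSucc) x'
      (fun i => M i.castSucc) (x (Fin.last κ)) (hx0 _) hy hMlast W hW (fun l f b => by
        have h1 := hsec l (Fin.snoc (α := fun i => Fin (m i + 1)) f b)
        have e1 : mlt x M (Fin.snoc (α := fun i => Fin (m i + 1)) f b) =
            algebraMap K' L (mlt x' (fun i => M i.castSucc) f) *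
              x (Fin.last κ) b ^ M (Fin.last κ) := by
          unfold mlt
          rw [Fin.prod_univ_castSucc, Fin.snoc_last, map_prod]
          congr 1
          refine Finset.prod_congr rfl fun i _ => ?_
          rw [Fin.snoc_castSucc, map_pow]
          rfl
        rw [e1] at h1
        exact h1) h0 hind
    obtain ⟨N', hN', η', hη1, E', hE', hEi'⟩ := ih (K := K) (L := K') hn BK BK'
      (fun P Q' e hQ' hQB => by
        obtain ⟨Q, e', hQ, hQB'⟩ := hQB
        exact hB P Q _ (over_trans' hQ hQ') hQB')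
      (fun i => m i.castSucc) x' (fun i => Subtype.ext (hx0 _)) (by
        have hinj := IntermediateField.map_injective K'.val
        apply hinj
        rw [Lv_map]
        have e1 : Lv K (fun (i : Fin κ) b => ((x' i b : K') : L)) κ = Lv K x κ :=
          Lv_castSucc x le_rfl
        rw [e1, ← hK']
        ext z
        constructor
        · intro hz
          exact ⟨⟨z, hz⟩, trivial, rfl⟩
        · rintro ⟨w, -, rfl⟩
          exact w.2)
      (N * finrank K' L) (fun i => M i.castSucc * finrank K' L) (fun i => by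
        have h1 := hM i.castSucc
        rw [Fin.val_castSucc] at h1
        rw [hdeg _ (Nat.succ_le_of_lt i.isLt), hdeg _ (le_of_lt i.isLt)]
        calc _ = 2 * (finrank K (Lv K x (i + 1)) - finrank K (Lv K x i)) * N * finrank K' L := by
              ring
          _ ≤ M i.castSucc * finrank K (Lv K x i) * finrank K' L := Nat.mul_le_mul_right _ h1
          _ = _ := by ring) h η hη hη' E hE hEi
    exact ⟨N', fun hN => hN' (Nat.mul_pos hN finrank_pos), η', hη1, E', hE', hEi'⟩

end Run7.h72
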