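import Pool.Agent.Run7.h72.Horiz
import Pool.Agent.Run7.h72.Tower

/-!
Abundance for the images of a variety with a rational map to a variety with a very positive canonical
bundle.
-/

set_option autoImplicit false
set_option linter.overlappingInstances false
set_option linter.unusedSectionVars false
set_option maxHeartbeats 4000000
set_option synthInstance.maxHeartbeats 400000

open FF Module
open Pool.Agent.W602.GT Pool.Agent.W603.LV Pool.Agent.W619.PQ Pool.Agent.Y172
open Pool.Agent.W619.TW (IsSec HasIndep Dom NumNeg NumLe)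
open Pool.Agent.W619.Y (BdUp)

namespace Run7.h72

section

variable {k : Type} [Field k] [CharZero k]

theorem indep_pw {K : Type} [Field K] [Algebra k K] {ι : Type} {y : ι → K}
    (hy : AlgebraicIndependent k y) {n : ι → ℕ}
    (hn : ∀ i, n i ≠ 0) : AlgebraicIndependent k fun i => y i ^ n i := by
  have h1 := hy.polynomial_aeval_of_transcendental (f := fun i => (Polynomial.X : Polynomial k) ^ n i)
    fun i => (Polynomial.transcendental_X k).pow (Nat.pos_of_ne_zero (hn i))
  simpa using h1

/-- the multiplier of a single member of the families -/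
theorem mlt_update {L : Type} [Field L] {κ : ℕ} {m : Fin κ → ℕ} (x : ∀ i, Fin (m i + 1) → L)
    (hx0 : ∀ i, x i 0 = 1) (M : Fin κ → ℕ) (i : Fin κ) (b : Fin (m i + 1)) :
    mlt x M (Function.update (fun _ => 0) i b) = x i b ^ M i := by
  classical
  unfold mlt
  rw [Finset.prod_eq_single i]
  · simp only [Function.update_self]
  · intro j _ hj
    simp only [Function.update_of_ne hj, hx0, one_pow]
  · intro h
    exact absurd (Finset.mem_univ _) h

theorem mlt_zero {L : Type} [Field L] {κ : ℕ} {m : Fin κ → ℕ} (x : ∀ i, Fin (m i + 1) → L)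
    (hx0 : ∀ i, x i 0 = 1) (M : Fin κ → ℕ) : mlt x M (fun _ => 0) = 1 := by
  unfold mlt
  exact Finset.prod_eq_one (fun i _ => by rw [hx0, one_pow])

theorem mlt_pow {L : Type} [Field L] {κ : ℕ} {m : Fin κ → ℕ} (x : ∀ i, Fin (m i + 1) → L)
    (M : Fin κ → ℕ) (r : ℕ) (f : ∀ i, Fin (m i + 1)) :
    mlt x (fun i => M i * r) f = mlt x M f ^ r := by
  unfold mlt
  rw [← Finset.prod_pow]
  exact Finset.prod_congr rfl fun i _ => pow_mul _ _ _

end

section

variable {k K L : Type} [Field k] [CharZero k] [Field K] [Field L] [Algebra k K] [Algebra k L]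
  [Algebra K L] [IsScalarTower k K L] [FiniteDimensional K L]

theorem bdUp_up {K' : IntermediateField K L} (B : Place k K → Prop) :
    (BdUp (BdUp B : Place k K' → Prop) : Place k L → Prop) = BdUp B := by
  have htw : IsScalarTower k K' L := IsScalarTower.of_algebraMap_eq fun z => rfl
  funext Q
  apply propext
  constructor
  · rintro ⟨P', e, hQ, P, e', hP', hP⟩
    exact ⟨P, e * e', over_trans' hQ hP', hP⟩
  · rintro ⟨P, e, hQ, hP⟩
    obtain ⟨P', e1, hQ'⟩ := Pool.Agent.Y172.exists_below (K := K') Q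
    obtain ⟨P1, e2, hP'⟩ := Pool.Agent.Y172.exists_below (K := K) P'
    have h1 := (Pool.Agent.Y172.over_unique' (over_trans' hQ' hP') hQ).1
    rw [h1] at hP'
    exact ⟨P', e1, hQ', P, e2, hP', hP⟩

end

/-- **The main theorem.** -/
theorem abundance {k K L : Type} [Field k] [CharZero k] [IsAlgClosed k] [Field K] [Field L]
    [Algebra k K] [Algebra k L] [Algebra K L] [IsScalarTower k K L] [FiniteDimensional K L]
    {n : ℕ} [Algebra.EssFiniteType k K] (hn : Algebra.trdeg k K = n) {B : Place k K → Prop}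
    {κ : ℕ} {m : Fin κ → ℕ} (x : ∀ i, Fin (m i + 1) → L) (hx0 : ∀ i, x i 0 = 1) {N : ℕ}
    (hN : 0 < N) (M : Fin κ → ℕ)
    (hM : ∀ i : Fin κ, 2 * (finrank K (Lv K x (i + 1)) - finrank K (Lv K x i)) * N <
      M i * finrank K (Lv K x i)) {ω : (Fin n → Derivation k L L) → L} (hω0 : ∃ D, ω D ≠ 0)
    (hreg : ∀ f, LogSec k L n N (BdUp B) (fun D => mlt x M f * ω D))
    (hver : ∀ f (Q : Place k L)
      (P : Place k (IntermediateField.adjoin k {z : L | ∃ i b, z = x i b})) (q : ℕ),
      Divisorial n Q → ¬ BdUp B Q → Over Q P q → ∀ D : Fin n → Derivation k L L,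
        (∀ i, DerLog Q (D i)) → Ge Q (q * N) (mlt x M f * ω D))
    {a : ℕ} (t : Fin a → Σ i, Fin (m i + 1))
    (ht : AlgebraicIndependent k fun s => x (t s).1 (t s).2)
    (hnu : NumLe k L n (BdUp B) a) :
    NumNeg k K n B ∨ (KodGe k K n B a ∧ NumLe k K n B a) := by
  classical
  by_cases hneg : NumNeg k K n B
  · exact Or.inl hneg
  right
  have hessL : Algebra.EssFiniteType k L := Algebra.EssFiniteType.comp k K L
  have hMne : ∀ i, M i ≠ 0 := fun i h0 => by
    have h3 := hM i
    rw [h0, zero_mul] at h3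
    omega
  -- the intermediate field
  obtain ⟨K', hK'⟩ : ∃ K', K' = Lv K x κ := ⟨_, rfl⟩
  have htw : IsScalarTower k K' L := IsScalarTower.of_algebraMap_eq fun z => rfl
  have hnK' : Algebra.trdeg k K' = n := trdeg_up (K := K) hn
  have hessK' : Algebra.EssFiniteType k K' := Algebra.EssFiniteType.comp k K K'
  have hxK' : ∀ i b, x i b ∈ K' := fun i b => by
    rw [hK']
    exact mem_Lv x i i.isLt b
  let x' : ∀ i : Fin κ, Fin (m i + 1) → K' := fun i b => ⟨x i b, hxK' i b⟩
  have hx0' : ∀ i, x' i 0 = 1 := fun i => Subtype.ext (hx0 i)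
  obtain ⟨r, hr⟩ : ∃ r, r = finrank K' L := ⟨_, rfl⟩
  have hr1 : 0 < r := by rw [hr]; exact finrank_pos
  -- the field generated by the families
  obtain ⟨E, hE⟩ : ∃ E : IntermediateField k L,
      E = IntermediateField.adjoin k {z : L | ∃ i b, z = x i b} := ⟨_, rfl⟩
  have hxE : ∀ i b, x i b ∈ E := fun i b => by
    rw [hE]
    exact IntermediateField.subset_adjoin _ _ ⟨i, b, rfl⟩
  have hEK' : ∀ z ∈ E, z ∈ K' := by
    have h1 : E ≤ K'.restrictScalars k := by
      rw [hE, IntermediateField.adjoin_le_iff]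
      rintro _ ⟨i, b, rfl⟩
      exact hxK' i b
    exact fun z hz => h1 hz
  have hmltE : ∀ f, mlt x M f ∈ E := fun f => prod_mem fun i _ => pow_mem (hxE _ _) _
  have hmlt' : ∀ (M' : Fin κ → ℕ) f, algebraMap K' L (mlt x' M' f) = mlt x M' f := by
    intro M' f
    unfold mlt
    rw [map_prod]
    exact Finset.prod_congr rfl fun i _ => by rw [map_pow]; rfl
  have hωs : LogSec k L n N (BdUp B) ω := by
    have h1 := hreg fun _ => 0
    have e1 : (fun D => mlt x M (fun _ => 0) * ω D) = ω := by
      funext D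
      rw [mlt_zero x hx0, one_mul]
    rwa [e1] at h1
  have hup := bdUp_up (K' := K') B
  -- the numerical dimension
  have hle : NumLe k K n B a :=
    (Pool.Agent.W619.Y.pTRANS k K L n hn (fun _ hz => fd_basis hz) B).2.2 a hnu
  refine ⟨?_, hle⟩
  have hneg' : ¬ NumNeg k K' n (BdUp B) := fun h =>
    hneg ((Pool.Agent.W619.Y.pTRANS k K K' n hn (fun _ hz => fd_basis hz) B).2.1 h)
  -- the estimate over the intermediate field
  have hest : ∀ f (P' : Place k K') (Q : Place k L) (e : ℕ), Divisorial n P' → Over Q P' e →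
      ¬ BdUp B P' → ∀ D : Fin n → Derivation k L L, (∀ i, DerLog Q (D i)) →
        Ge Q (e * N) (mlt x M f * ω D) := by
    intro f P' Q e hP' hQ hBP' D hD
    have hBQ : ¬ BdUp B Q := by
      intro h
      rw [← hup] at h
      obtain ⟨P1, e1, hQ1, hB1⟩ := h
      rw [(Pool.Agent.Y172.over_unique' hQ1 hQ).1] at hB1
      exact hBP' hB1
    by_cases hz : ∃ z ∈ E, z ≠ 0 ∧ Q.ord z ≠ 0
    · -- vertical
      obtain ⟨z, hzE, -, hzo⟩ := hz
      rw [hE] at hzE
      obtain ⟨q, P, hQP⟩ := exists_over (K := IntermediateField.adjoin k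
        {z : L | ∃ i b, z = x i b}) (K' := L) Q ⟨⟨z, hzE⟩, hzo⟩
      refine (hver f Q P q (divisorial_up hQ hP') hBQ hQP D hD).mono ?_
      have h1 : e ∣ q := by
        obtain ⟨w, -, hw⟩ := P.surj
        have h2 := hQP.2 w
        rw [hw, mul_one] at h2
        have hwK' : (w : L) ∈ K' := hEK' _ (by rw [hE]; exact w.2)
        have h3 := hQ.2 ⟨w, hwK'⟩
        have h4 : (q : ℤ) = e * P'.ord ⟨(w : L), hwK'⟩ := by
          rw [← h2, ← h3]
          rfl
        exact_mod_cast (Dvd.intro _ h4.symm : (e : ℤ) ∣ q)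
      have h2 : e ≤ q := Nat.le_of_dvd hQP.1 h1
      have h3 : (e : ℤ) ≤ q := by exact_mod_cast h2
      exact mul_le_mul_of_nonneg_right h3 (Int.natCast_nonneg _)
    · -- horizontal
      push Not at hz
      by_cases hm0 : mlt x M f = 0
      · left; rw [hm0, zero_mul]
      by_cases hωD : ω D = 0
      · left; rw [hωD, mul_zero]
      right
      rw [Q.ord_mul hm0 hωD, hz _ (hmltE f) hm0, zero_add]
      by_contra hlt
      push Not at hlt
      refine horizontal (K := K') (L := L) (B := BdUp B) hnK' E hQ hP' hBP' hz hN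
        (ω := ω) (by rw [hup]; exact hωs) (a := a)
        (u := fun s => x (t s).1 (t s).2 ^ M (t s).1) (fun s => pow_mem (hxE _ _) _)
        (indep_pw ht (n := fun s => M (t s).1) fun s => hMne _) (fun s => ?_) hD hωD hlt hneg'
        (by rw [hup]; exact hnu)
      have h1 := hreg (Function.update (fun _ => 0) (t s).1 (t s).2)
      rw [mlt_update x hx0 M (t s).1 (t s).2] at h1
      rw [hup]
      exact h1
  -- the norm
  obtain ⟨z, E1, hz, hE1⟩ := exists_crd hnK'
  choose E1' hE1' using fun i => exists_lift (L := L) hnK' (E1 i)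
  obtain ⟨ξ, hξ⟩ : ∃ ξ, ξ = nf z E1' N ω 1 := ⟨_, rfl⟩
  have hξs : ∀ f, LogSec k K' n (N * r) (BdUp B) (fun D => mlt x' (fun i => M i * r) f * ξ D) := by
    intro f
    have hW : IsPluri N (fun D : Fin n → Derivation k L L =>
        algebraMap K' L (mlt x' M f) * ω D) := by
      intro A D
      change algebraMap K' L (mlt x' M f) * ω _ = _
      rw [hωs.1]
      ring
    have h1 := nf_section' (BK := BdUp B) hnK' hz hE1 hE1' hW
      (fun P Q e hP hQ D hD => by
        have h2 := (hreg f).2.1 Q (divisorial_up hQ hP) D hD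
        rw [hmlt']
        exact h2)
      (fun P Q e hP hQ hBP D hD => by
        rw [hmlt']
        exact hest f P Q e hP hQ hBP D hD)
    have h3 : (nf z E1' N (fun D => algebraMap K' L (mlt x' M f) * ω D) 1) =
        fun D => mlt x' (fun i => M i * r) f * ξ D := by
      funext D
      rw [nf_smul, mlt_pow, hξ, hr]
    rw [h3, ← hr] at h1
    exact h1
  have hξE : ξ E1 ≠ 0 := by
    rw [hξ, nf_lift hz hE1 hE1' hωs.1 _ hE1', mul_one]
    refine Algebra.norm_ne_zero_iff.2 fun h0 => ?_
    obtain ⟨D, hD⟩ := hω0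
    apply hD
    rw [pluri_coord (hz.algebraMap_comp (A := L)) (lift_dual hE1 hE1') hωs.1 D, h0, mul_zero]
  -- the tower below
  have hgen' : Lv K x' κ = ⊤ := by
    have hinj := IntermediateField.map_injective K'.val
    apply hinj
    rw [Lv_map]
    have e1 : Lv K (fun (i : Fin κ) b => ((x' i b : K') : L)) κ = Lv K x κ := rfl
    rw [e1, ← hK']
    ext w
    constructor
    · intro hw
      exact ⟨⟨w, hw⟩, trivial, rfl⟩
    · rintro ⟨w, -, rfl⟩
      exact w.2
  have hdeg : ∀ i, finrank K (Lv K x' i) = finrank K (Lv K x i) := fun i => finrank_Lv K' x' i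
  have hlefr : ∀ i, finrank K (Lv K x i) ≤ finrank K L := fun i =>
    Submodule.finrank_le (Subalgebra.toSubmodule (Lv K x i).toSubalgebra)
  obtain ⟨q, hq⟩ : ∃ q, q = 2 * finrank K L * N := ⟨_, rfl⟩
  -- the forms
  let F : Fin a → ∀ i, Fin (m i + 1) := fun s => Function.update (fun _ => 0) (t s).1 (t s).2
  let Fz : Fin (a + 1) → ∀ i, Fin (m i + 1) := Fin.cons (fun _ => 0) F
  let W : Fin (a + 1) → (Fin n → Derivation k K' K') → K' := fun l D =>
    ξ D ^ q * (mlt x' (fun i => M i * r) (Fz l) * ξ D)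
  have hξp : IsPluri (N * r) ξ := by
    rw [hξ, hr]
    exact nf_pluri _ _ _ _ _
  have hWs : ∀ l f, LogSec k K' n (N * r * q + N * r) (BdUp B)
      (fun D => mlt x' (fun i => M i * r * q) f * W l D) := by
    intro l f
    have h1 := logSec_mul (logSec_pow (hξs f) q) (hξs (Fz l))
    have e1 : (fun D : Fin n → Derivation k K' K' => (mlt x' (fun i => M i * r) f * ξ D) ^ q *
        (mlt x' (fun i => M i * r) (Fz l) * ξ D)) =
        fun D => mlt x' (fun i => M i * r * q) f * W l D := by
      funext D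
      have h2 : mlt x' (fun i => M i * r * q) f = mlt x' (fun i => M i * r) f ^ q :=
        mlt_pow x' (fun i => M i * r) q f
      rw [h2, mul_pow]
      change _ = _ * (ξ D ^ q * (mlt x' (fun i => M i * r) (Fz l) * ξ D))
      ring
    rw [e1] at h1
    exact h1
  have hW : ∀ l, IsPluri (N * r * q + N * r) (W l) := by
    intro l A D
    change ξ _ ^ q * (_ * ξ _) = _ * (ξ D ^ q * (_ * ξ D))
    rw [hξp, pow_add, mul_pow, ← pow_mul]
    ring
  have hW0 : W 0 E1 = ξ E1 ^ q * ξ E1 := by
    change ξ E1 ^ q * (mlt x' (fun i => M i * r) (fun _ => 0) * ξ E1) = _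
    rw [mlt_zero x' hx0', one_mul]
  have hW0' : W 0 E1 ≠ 0 := by
    rw [hW0]
    exact mul_ne_zero (pow_ne_zero _ hξE) hξE
  have hWr : (fun s : Fin a => W s.succ E1 / W 0 E1) =
      fun s => x' (t s).1 (t s).2 ^ (M (t s).1 * r) := by
    funext s
    rw [hW0]
    change ξ E1 ^ q * (mlt x' (fun i => M i * r) (F s) * ξ E1) / _ = _
    rw [mlt_update x' hx0' (fun i => M i * r) (t s).1 (t s).2]
    field_simp
  have hind : AlgebraicIndependent k fun s : Fin a => W s.succ E1 / W 0 E1 := by
    rw [hWr]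
    refine indep_pw ?_ fun s => Nat.mul_ne_zero (hMne _) hr1.ne'
    have h1 : AlgebraicIndependent k (fun s => (K'.val.restrictScalars k)
        (x' (t s).1 (t s).2)) := ht
    exact AlgebraicIndependent.of_comp (K'.val.restrictScalars k) h1
  obtain ⟨N', hN', η, hη, D', hD', hηi⟩ := tower κ (K := K) (L := K') hn B (BdUp B)
    (fun P Q e hQ hBQ => by
      obtain ⟨P1, e1, hQ1, hB1⟩ := hBQ
      rwa [(Pool.Agent.Y172.over_unique' hQ1 hQ).1] at hB1) m x' hx0' hgen'
    (N * r * q + N * r) (fun i => M i * r * q) (fun i => by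
      rw [hdeg, hdeg]
      have h1 := Nat.succ_le_of_lt (hM i)
      have h2 : finrank K (Lv K x (i + 1)) - finrank K (Lv K x i) ≤ finrank K L :=
        (Nat.sub_le _ _).trans (hlefr _)
      have h3 := Nat.mul_le_mul_right (r * q) h1
      have h4 : 2 * (finrank K (Lv K x (i + 1)) - finrank K (Lv K x i)) * (N * r) ≤ r * q := by
        rw [hq]
        calc 2 * (finrank K (Lv K x (i + 1)) - finrank K (Lv K x i)) * (N * r)
            ≤ 2 * finrank K L * (N * r) := Nat.mul_le_mul_right _ (Nat.mul_le_mul_left _ h2)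
          _ = r * (2 * finrank K L * N) := by ring
      calc 2 * (finrank K (Lv K x (i + 1)) - finrank K (Lv K x i)) * (N * r * q + N * r)
          = 2 * (finrank K (Lv K x (i + 1)) - finrank K (Lv K x i)) * (N * r) +
            2 * (finrank K (Lv K x (i + 1)) - finrank K (Lv K x i)) * N * (r * q) := by ring
        _ ≤ r * q + 2 * (finrank K (Lv K x (i + 1)) - finrank K (Lv K x i)) * N * (r * q) :=
            Nat.add_le_add_right h4 _
        _ = (2 * (finrank K (Lv K x (i + 1)) - finrank K (Lv K x i)) * N).succ * (r * q) := by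
            rw [Nat.succ_eq_add_one]; ring
        _ ≤ M i * finrank K (Lv K x i) * (r * q) := h3
        _ = M i * r * q * finrank K (Lv K x i) := by ring) a W hW hWs E1 hW0' hind
  exact ⟨N', hN' (by positivity), η, hη, D', hD', hηi⟩

end Run7.h72
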