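import Pool.Agent.N145.SX.Flat
import Pool.Agent.Y174.W4
import Pool.Agent.Run7.h72.Main

/-!
Curves of genus at most one: the numerical dimension is at most zero.
-/

set_option autoImplicit false
set_option linter.overlappingInstances false
set_option linter.unusedSectionVars false
set_option linter.unusedVariables false
set_option maxHeartbeats 4000000
set_option synthInstance.maxHeartbeats 400000

open Polynomial FF IntermediateField Module

namespace Run7.h72

open Pool.Agent.W603.LV Pool.Agent.W619.PQ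
open Pool.Agent.N145.SX (GLO flat_of_glo)
open Pool.Agent.W619.TW (NumLe IsSec HasIndep Dom)

section

variable {Λ F : Type} [Field Λ] [Field F] [Algebra Λ F] [CharZero Λ] [IsAlgClosed Λ] [IsFF Λ F]

/-- elimination of the leading terms at a place -/
theorem elim_lead (P : Place Λ F) : ∀ (N : ℕ) (c : ℤ) (f : Fin (N + 1) → F),
    LinearIndependent Λ f → (∀ l, Ge P c (f l)) →
    ∃ g ∈ Submodule.span Λ (Set.range f), g ≠ 0 ∧ Ge P (c + N) g := by
  intro N
  induction N with
  | zero =>
    intro c f hf hc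
    exact ⟨f 0, Submodule.subset_span ⟨0, rfl⟩, hf.ne_zero 0, by simpa using hc 0⟩
  | succ N ih =>
    intro c f hf hc
    obtain ⟨l0, -, hl0⟩ := Finset.exists_min_image Finset.univ (fun l => P.ord (f l))
      ⟨0, Finset.mem_univ _⟩
    have h0 : ∀ l, f l ≠ 0 := fun l => hf.ne_zero l
    have hc0 : c ≤ P.ord (f l0) := (hc l0).resolve_left (h0 l0)
    have h1 : ∀ l, ∃ a : Λ, Ge P (c + 1) (f l - a • f l0) := by
      intro l
      have h2 : Ge P 0 (f l / f l0) := by
        right
        rw [P.ord_div (h0 l) (h0 l0)]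
        have := hl0 l (Finset.mem_univ l)
        omega
      obtain ⟨a, ha⟩ := Pool.Agent.W603.LV.exists_const P h2
      refine ⟨a, ?_⟩
      have h3 : Ge P c (f l0) := Or.inr hc0
      have h4 := ha.mul h3
      rw [sub_mul, div_mul_cancel₀ _ (h0 l0), add_comm 1 c] at h4
      rwa [Algebra.smul_def]
    choose a ha using h1
    have hli : LinearIndependent Λ (fun l : Fin (N + 1) =>
        f (l0.succAbove l) - a (l0.succAbove l) • f l0) := by
      rw [Fintype.linearIndependent_iff] at hf ⊢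
      intro b hb l
      have h2 := hf (Fin.insertNth l0 (-∑ l, b l * a (l0.succAbove l)) b) (by
        rw [Fin.sum_univ_succAbove _ l0]
        simp only [Fin.insertNth_apply_same, Fin.insertNth_apply_succAbove]
        simp only [smul_sub, Finset.sum_sub_distrib] at hb
        rw [neg_smul, Finset.sum_smul]
        rw [← hb]
        simp only [smul_smul]
        ring) (l0.succAbove l)
      rwa [Fin.insertNth_apply_succAbove] at h2
    obtain ⟨g, hg, hg0, hgc⟩ := ih (c + 1) _ hli fun l => ha _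
    refine ⟨g, ?_, hg0, ?_⟩
    · have h2 : Submodule.span Λ (Set.range fun l : Fin (N + 1) =>
          f (l0.succAbove l) - a (l0.succAbove l) • f l0) ≤ Submodule.span Λ (Set.range f) := by
        rw [Submodule.span_le]
        rintro _ ⟨l, rfl⟩
        exact Submodule.sub_mem _ (Submodule.subset_span ⟨_, rfl⟩)
          (Submodule.smul_mem _ _ (Submodule.subset_span ⟨_, rfl⟩))
      exact h2 hg
    · have e : c + 1 + (N : ℤ) = c + ((N + 1 : ℕ) : ℤ) := by push_cast; ring
      rwa [e] at hgc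

/-- the dimension of a Riemann-Roch space -/
theorem dim_le {b : Place Λ F → ℤ} {T : Finset (Place Λ F)} (hb : ∀ Q, b Q ≠ 0 → Q ∈ T) {N : ℕ}
    {f : Fin N → F} (hli : LinearIndependent Λ f) (hf : ∀ l Q, Ge Q (b Q) (f l)) :
    (N : ℤ) ≤ max 0 (1 - ∑ Q ∈ T, b Q) := by
  classical
  cases N with
  | zero => simp
  | succ N =>
    by_contra hcon
    have h1 : 1 - ∑ Q ∈ T, b Q < ((N + 1 : ℕ) : ℤ) :=
      lt_of_le_of_lt (le_max_right _ _) (not_le.1 hcon)
    obtain ⟨P0, -⟩ := exists_place (k := Λ) (K := F)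
    obtain ⟨g, hg, hg0, hgc⟩ := elim_lead P0 N (b P0) f hli fun l => hf l P0
    have hgQ : ∀ Q, Ge Q (b Q) g := by
      intro Q
      have h2 : Submodule.span Λ (Set.range f) ≤
          ({ carrier := {z | Ge Q (b Q) z}
             add_mem' := fun ha hb => ha.add hb
             zero_mem' := Or.inl rfl
             smul_mem' := fun c z hz => by
              change Ge Q (b Q) (c • z)
              rw [Algebra.smul_def]
              have h3 : Ge Q 0 (algebraMap Λ F c) := Q.reg_const c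
              have h4 := h3.mul hz
              rwa [zero_add] at h4 } : Submodule Λ F) := by
        rw [Submodule.span_le]
        rintro _ ⟨l, rfl⟩
        exact hf l Q
      exact h2 hg
    obtain ⟨T', hT'⟩ : ∃ T' : Finset (Place Λ F), T' = insert P0 (T ∪
        (finite_support (k := Λ) g).toFinset) := ⟨_, rfl⟩
    have h2 := sum_ord_finset (k := Λ) g T' (fun P hP => by
      rw [hT', Finset.mem_insert, Finset.mem_union, Set.Finite.mem_toFinset]
      exact Or.inr (Or.inr hP))
    have h3 : ∑ Q ∈ T, b Q = ∑ Q ∈ T', b Q := by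
      refine Finset.sum_subset (fun Q hQ => ?_) fun Q _ hQ => ?_
      · rw [hT', Finset.mem_insert, Finset.mem_union]
        exact Or.inr (Or.inl hQ)
      · by_contra h4
        exact hQ (hb Q h4)
    have hP0 : P0 ∈ T' := by
      rw [hT']
      exact Finset.mem_insert_self _ _
    have h4 : ∑ Q ∈ T'.erase P0, b Q ≤ ∑ Q ∈ T'.erase P0, Q.ord g :=
      Finset.sum_le_sum fun Q _ => (hgQ Q).resolve_left hg0
    have h5 := Finset.add_sum_erase T' b hP0
    have h6 := Finset.add_sum_erase T' (fun Q => Q.ord g) hP0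
    have h7 : b P0 + N ≤ P0.ord g := hgc.resolve_left hg0
    rw [h2] at h6
    push_cast at h1
    linarith

/-- curves of genus at most one -/
theorem exists_vf (h : GLO Λ F) : ∃ D : Derivation Λ F F, D ≠ 0 ∧ ∀ T : Finset (Place Λ F),
    (∀ P, vo P D ≠ 0 → P ∈ T) → 0 ≤ ∑ P ∈ T, vo P D := by
  rcases flat_of_glo h with ⟨t, ht⟩ | ⟨D, hD, hvo⟩
  · refine ⟨der Λ F, der_ne, fun T hT => ?_⟩
    rw [canDeg_finset (k := Λ) der_ne T hT, canDeg_rational ht]
    norm_num
  · exact ⟨D, hD, fun T _ => Finset.sum_nonneg fun Q _ => (hvo Q).ge⟩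

/-- all places of a curve are divisorial -/
theorem div_one (Q : Place Λ F) : IsDivisorial Q 1 := by
  change ∃ y : Fin 0 → F, ∀ p : MvPolynomial (Fin 0) Λ, p ≠ 0 →
    MvPolynomial.aeval y p ≠ 0 ∧ Q.ord (MvPolynomial.aeval y p) = 0
  refine ⟨fun i => i.elim0, fun p hp => ?_⟩
  rw [MvPolynomial.eq_C_of_isEmpty p] at hp ⊢
  have hc : MvPolynomial.coeff 0 p ≠ 0 := by
    intro h
    rw [h, map_zero] at hp
    exact hp rfl
  rw [MvPolynomial.aeval_C]
  exact ⟨by simpa using hc, Q.ord_const hc⟩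

theorem pluri_smul' {m : ℕ} {ω : (Fin 1 → Derivation Λ F F) → F}
    (hω : IsPluriForm Λ F 1 m ω) (u : F) (D : Derivation Λ F F) :
    ω (fun _ => u • D) = u ^ m * ω (fun _ => D) := by
  have h1 := hω (Matrix.of fun _ _ => u) (fun _ => D)
  rw [Matrix.det_unique] at h1
  rw [← show (Matrix.of fun (_ _ : Fin 1) => u) default default = u from rfl, ← h1]
  congr 1
  funext j
  rw [Fin.sum_univ_one]
  rfl

/-- **Curves of genus at most one** have numerical dimension at most zero. -/
theorem curve_num (h : GLO Λ F) : NumLe Λ F 1 (fun _ => False) 0 := by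
  classical
  obtain ⟨D, hD, hvo⟩ := exists_vf h
  intro S
  obtain ⟨S', hS'⟩ : ∃ S' : Finset F, S' = S.filter (· ≠ 0) := ⟨_, rfl⟩
  obtain ⟨a, ha⟩ : ∃ a : Place Λ F → ℤ, a = fun Q => if h : S'.Nonempty then
    S'.inf' h (fun s => Q.ord s) else 0 := ⟨_, rfl⟩
  obtain ⟨T, hT⟩ : ∃ T : Finset (Place Λ F), T = (vo_finite hD).toFinset ∪
    S'.biUnion fun s => (finite_support (k := Λ) s).toFinset := ⟨_, rfl⟩
  have hvT : ∀ Q, vo Q D ≠ 0 → Q ∈ T := fun Q hQ => by
    rw [hT, Finset.mem_union, Set.Finite.mem_toFinset]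
    exact Or.inl hQ
  have haT : ∀ Q, a Q ≠ 0 → Q ∈ T := fun Q hQ => by
    rw [ha] at hQ
    beta_reduce at hQ
    split_ifs at hQ with h1
    · obtain ⟨s, hs, hs2⟩ := Finset.exists_mem_eq_inf' h1 (fun s => Q.ord s)
      rw [hs2] at hQ
      rw [hT, Finset.mem_union, Finset.mem_biUnion]
      exact Or.inr ⟨s, hs, by rw [Set.Finite.mem_toFinset]; exact hQ⟩
    · exact absurd rfl hQ
  have hdom : ∀ (Q : Place Λ F) (f : F), Dom Q S 1 f → Ge Q (a Q) f := by
    rintro Q f (hf | ⟨s, hs, hs0, hle⟩)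
    · exact Or.inl hf
    · right
      have h1 : s ∈ S' := by
        rw [hS']
        exact Finset.mem_filter.2 ⟨hs, hs0⟩
      have h2 : a Q = S'.inf' ⟨s, h1⟩ (fun s => Q.ord s) := by
        rw [ha]
        beta_reduce
        rw [dif_pos ⟨s, h1⟩]
      rw [h2]
      refine (Finset.inf'_le _ h1).trans ?_
      simpa using hle
  have hfrm : ∀ G : Fin 1 → Derivation Λ F F, ∃ u : F, G = fun _ => u • D := by
    intro G
    obtain ⟨u, hu⟩ := der_smul (D' := G 0) hD
    exact ⟨u, funext fun i => by rw [Subsingleton.elim i 0, hu]⟩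
  refine ⟨(max 0 (1 - ∑ Q ∈ T, a Q)).toNat, fun m N hm hI => ?_⟩
  obtain ⟨ω, hli, hω⟩ := hI
  have hli' : LinearIndependent Λ (fun l => ω l (fun _ => D)) := by
    rw [Fintype.linearIndependent_iff] at hli ⊢
    intro c hc
    apply hli
    funext G
    obtain ⟨u, rfl⟩ := hfrm G
    rw [Finset.sum_apply]
    simp only [Pi.smul_apply, Pi.zero_apply]
    have h1 : ∀ l, c l • ω l (fun _ => u • D) = u ^ m * (c l • ω l (fun _ => D)) := by
      intro l
      rw [pluri_smul' (hω l).1, mul_smul_comm]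
    rw [Finset.sum_congr rfl fun l _ => h1 l, ← Finset.mul_sum, hc, mul_zero]
  have hge : ∀ l Q, Ge Q ((m : ℤ) * vo Q D + a Q) (ω l (fun _ => D)) := by
    intro l Q
    have hπ := ord_unif Q
    have h0 := der_pi_ne_zero hD Q hπ
    obtain ⟨D1, hD1⟩ : ∃ D1, D1 = (D (unif Q))⁻¹ • D := ⟨_, rfl⟩
    have h1 : D1 (unif Q) = 1 := by
      rw [hD1]
      simp [h0]
    have h2 : D = D (unif Q) • D1 := by
      rw [hD1, smul_smul, mul_inv_cancel₀ h0, one_smul]
    have h3 := (hω l).2.1 Q (div_one Q) (fun h => h) (fun _ => D1) fun _ f hf =>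
      der_reg Q hπ D1 h1 hf
    have h4 : ω l (fun _ => D) = D (unif Q) ^ m * ω l (fun _ => D1) := by
      conv_lhs => rw [h2]
      exact pluri_smul' (hω l).1 _ _
    rw [h4]
    have h6 : Ge Q (vo Q D) (D (unif Q)) := Or.inr le_rfl
    exact (h6.pow m).mul (hdom Q _ h3)
  have h1 := dim_le (b := fun Q => (m : ℤ) * vo Q D + a Q) (T := T) (fun Q hQ => by
    by_contra hQT
    have h2 : vo Q D = 0 := by
      by_contra h3
      exact hQT (hvT Q h3)
    have h3 : a Q = 0 := by
      by_contra h3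
      exact hQT (haT Q h3)
    apply hQ
    rw [h2, h3, mul_zero, add_zero]) hli' hge
  rw [pow_zero, mul_one]
  have h2 : ∑ Q ∈ T, ((m : ℤ) * vo Q D + a Q) = m * ∑ Q ∈ T, vo Q D + ∑ Q ∈ T, a Q := by
    rw [Finset.sum_add_distrib, Finset.mul_sum]
  rw [h2] at h1
  have h3 : (0 : ℤ) ≤ m * ∑ Q ∈ T, vo Q D := mul_nonneg (Int.natCast_nonneg _) (hvo T hvT)
  have h4 : (N : ℤ) ≤ max 0 (1 - ∑ Q ∈ T, a Q) := h1.trans (max_le_max le_rfl (by linarith))
  have h5 : 0 ≤ max 0 (1 - ∑ Q ∈ T, a Q) := le_max_left _ _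
  omega

end

end Run7.h72
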