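import Pool.Agent.N145.PC.Str3
import Pool.Agent.Run7.h72.Corr

/-!
Degrees of towers under base change, and correspondences in an ambient field.
-/

set_option autoImplicit false
set_option linter.overlappingInstances false
set_option linter.unusedSectionVars false
set_option linter.unusedVariables false
set_option maxHeartbeats 4000000
set_option synthInstance.maxHeartbeats 400000

open Polynomial FF IntermediateField Module

namespace Run7.h72

open Pool.Agent.W603.LV Pool.Agent.W619.PQ Pool.Agent.Y172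
open Pool.Agent.N145.PC (adj_le finrank_le_of_disj)
open Pool.Agent.W602.GT (Divisorial RegAt IsPluri DerReg DerLog LogAt KodGe LogSec)
open Pool.Agent.W619.Y (BdUp)

section

variable {K0 L0 R Ω : Type} [Field K0] [Field L0] [Field R] [Field Ω] [Algebra K0 L0]
  [Algebra R Ω] {κ : ℕ} {m : Fin κ → ℕ}

theorem Lv_mono (x : ∀ i, Fin (m i + 1) → L0) {i j : ℕ} (h : i ≤ j) : Lv K0 x i ≤ Lv K0 x j := by
  unfold Lv
  refine IntermediateField.adjoin.mono K0 _ _ ?_
  rintro z ⟨l, hl, hz⟩
  exact ⟨l, lt_of_lt_of_le hl h, hz⟩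

/-- images of the fields of the tower -/
theorem Lv_im (τ : L0 →+* Ω)
    (hτ : ∀ a : K0, τ (algebraMap K0 L0 a) ∈ Set.range (algebraMap R Ω))
    (x : ∀ i, Fin (m i + 1) → L0) (i : ℕ) {z : L0} (hz : z ∈ Lv K0 x i) :
    τ z ∈ Lv R (fun i b => τ (x i b)) i := by
  let T : IntermediateField K0 L0 :=
    { carrier := {y | τ y ∈ Lv R (fun i b => τ (x i b)) i}
      mul_mem' := fun {a b} ha hb => by
        change τ (a * b) ∈ Lv R (fun i b => τ (x i b)) i
        rw [map_mul]
        exact mul_mem ha hb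
      add_mem' := fun {a b} ha hb => by
        change τ (a + b) ∈ Lv R (fun i b => τ (x i b)) i
        rw [map_add]
        exact add_mem ha hb
      algebraMap_mem' := fun r => by
        change τ (algebraMap K0 L0 r) ∈ Lv R (fun i b => τ (x i b)) i
        obtain ⟨r', hr'⟩ := hτ r
        rw [← hr']
        exact (Lv R (fun i b => τ (x i b)) i).algebraMap_mem r'
      inv_mem' := fun a ha => by
        change τ a⁻¹ ∈ Lv R (fun i b => τ (x i b)) i
        rw [map_inv₀]
        exact inv_mem ha }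
  have h1 : Lv K0 x i ≤ T := by
    unfold Lv
    rw [IntermediateField.adjoin_le_iff]
    rintro _ ⟨l, hl, b, rfl⟩
    exact mem_Lv (K := R) (fun i b => τ (x i b)) l hl b
  exact h1 hz

variable [FiniteDimensional K0 L0]

theorem finite_Lv (τ : L0 →+* Ω)
    (hτ : ∀ a : K0, τ (algebraMap K0 L0 a) ∈ Set.range (algebraMap R Ω))
    (x : ∀ i, Fin (m i + 1) → L0) (i : ℕ) :
    FiniteDimensional R (Lv R (fun i b => τ (x i b)) i) := by
  obtain ⟨h1, -⟩ := adj_le (A0 := K0) (A := L0) (R := R) τ hτ
  have hle : Lv R (fun i b => τ (x i b)) i ≤ IntermediateField.adjoin R (Set.range τ) := by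
    unfold Lv
    refine IntermediateField.adjoin.mono R _ _ ?_
    rintro _ ⟨l, hl, b, rfl⟩
    exact ⟨_, rfl⟩
  exact FiniteDimensional.of_injective (IntermediateField.inclusion hle).toLinearMap
    (IntermediateField.inclusion hle).injective

/-- the degrees of the steps do not grow under base change -/
theorem ratio_le (τ : L0 →+* Ω)
    (hτ : ∀ a : K0, τ (algebraMap K0 L0 a) ∈ Set.range (algebraMap R Ω))
    (x : ∀ i, Fin (m i + 1) → L0) (i : ℕ) :
    finrank R (Lv R (fun i b => τ (x i b)) (i + 1)) * finrank K0 (Lv K0 x i) ≤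
      finrank K0 (Lv K0 x (i + 1)) * finrank R (Lv R (fun i b => τ (x i b)) i) := by
  have hF : Lv K0 x i ≤ Lv K0 x (i + 1) := Lv_mono x (Nat.le_succ i)
  have hG : Lv R (fun i b => τ (x i b)) i ≤ Lv R (fun i b => τ (x i b)) (i + 1) :=
    Lv_mono _ (Nat.le_succ i)
  have hfin : FiniteDimensional (Lv K0 x i) (extendScalars hF) := inferInstance
  obtain ⟨h1, h2⟩ := adj_le (A0 := Lv K0 x i) (A := extendScalars hF)
    (R := Lv R (fun i b => τ (x i b)) i) (τ.comp (algebraMap (extendScalars hF) L0)) (fun a =>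
      ⟨⟨τ a, Lv_im τ hτ x i a.2⟩, rfl⟩)
  have hle : extendScalars hG ≤ IntermediateField.adjoin (Lv R (fun i b => τ (x i b)) i)
      (Set.range (τ.comp (algebraMap (extendScalars hF) L0))) := by
    intro z hz
    have h3 : Lv R (fun i b => τ (x i b)) (i + 1) ≤
        (IntermediateField.adjoin (Lv R (fun i b => τ (x i b)) i)
          (Set.range (τ.comp (algebraMap (extendScalars hF) L0)))).restrictScalars R := by
      conv_lhs => unfold Lv
      rw [IntermediateField.adjoin_le_iff]
      rintro _ ⟨l, hl, b, rfl⟩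
      have hxl : x l b ∈ extendScalars hF := (mem_extendScalars hF).2 (mem_Lv x l hl b)
      have hmem : τ (x l b) ∈ Set.range (τ.comp (algebraMap (extendScalars hF) L0)) :=
        ⟨⟨x l b, hxl⟩, rfl⟩
      rw [SetLike.mem_coe, IntermediateField.mem_restrictScalars]
      exact IntermediateField.subset_adjoin _ _ hmem
    exact h3 hz
  have h3 : finrank (Lv R (fun i b => τ (x i b)) i) (extendScalars hG) ≤
      finrank (Lv K0 x i) (extendScalars hF) :=
    (IntermediateField.finrank_le_of_le_right hle).trans h2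
  rw [← relfinrank_eq_finrank_of_le, ← relfinrank_eq_finrank_of_le] at h3
  rw [← finrank_bot_mul_relfinrank hG, ← finrank_bot_mul_relfinrank hF]
  calc _ = (finrank R (Lv R (fun i b => τ (x i b)) i) * finrank K0 (Lv K0 x i)) *
        relfinrank (Lv R (fun i b => τ (x i b)) i) (Lv R (fun i b => τ (x i b)) (i + 1)) := by ring
    _ ≤ (finrank R (Lv R (fun i b => τ (x i b)) i) * finrank K0 (Lv K0 x i)) *
        relfinrank (Lv K0 x i) (Lv K0 x (i + 1)) := Nat.mul_le_mul_left _ h3
    _ = _ := by ring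

theorem cond_le {f1 f2 g1 g2 w M : ℕ} (h12 : g1 ≤ g2) (hf : f1 ≤ f2) (hf1 : 0 < f1) (hg1 : 0 < g1)
    (h : g2 * f1 ≤ f2 * g1) (hM : 2 * (f2 - f1) * w < M * f1) : 2 * (g2 - g1) * w < M * g1 := by
  obtain ⟨a, rfl⟩ := Nat.exists_eq_add_of_le h12
  obtain ⟨b, rfl⟩ := Nat.exists_eq_add_of_le hf
  rw [Nat.add_sub_cancel_left] at hM ⊢
  have h1 : a * f1 ≤ b * g1 := by
    rw [Nat.add_mul, Nat.add_mul, Nat.mul_comm g1 f1] at h
    exact Nat.le_of_add_le_add_left h
  by_contra hcon
  push Not at hcon
  have h2 : M * g1 * f1 ≤ 2 * a * w * f1 := Nat.mul_le_mul_right _ hcon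
  have h3 : 2 * a * w * f1 ≤ 2 * b * w * g1 := by
    calc 2 * a * w * f1 = 2 * w * (a * f1) := by ring
      _ ≤ 2 * w * (b * g1) := Nat.mul_le_mul_left _ h1
      _ = 2 * b * w * g1 := by ring
  have h4 : 2 * b * w * g1 < M * f1 * g1 := Nat.mul_lt_mul_of_pos_right hM hg1
  have h5 : M * f1 * g1 = M * g1 * f1 := by ring
  omega

end

section

variable {N L E K : Type} [Field N] [Field L] [Field E] [Field K] [Algebra N L] [Algebra N E]
  [Algebra L K] [Algebra E K] [Algebra N K] [IsScalarTower N L K] [IsScalarTower N E K]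
  [FiniteDimensional N E] [FiniteDimensional L K] [CharZero N] {κ : ℕ} {m : Fin κ → ℕ}

/-- the degrees of towers over linearly disjoint fields -/
theorem disj_Lv (hcl : ∀ x : L, IsIntegral N x → ∃ y : N, algebraMap N L y = x)
    (x : ∀ i, Fin (m i + 1) → E) (i : ℕ) :
    finrank N (Lv N x i) = finrank L (Lv L (fun i b => algebraMap E K (x i b)) i) := by
  have hτ : ∀ a : N, algebraMap E K (algebraMap N E a) ∈ Set.range (algebraMap L K) := fun a =>
    ⟨algebraMap N L a, by
      rw [← IsScalarTower.algebraMap_apply N L K, ← IsScalarTower.algebraMap_apply N E K]⟩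
  have htw : IsScalarTower N (Lv N x i) K := IsScalarTower.of_algebraMap_eq fun a => by
    rw [IsScalarTower.algebraMap_apply N E K]
    rfl
  apply le_antisymm
  · exact finrank_le_of_disj (N := N) (L := L) (A := Lv N x i) (K := K) hcl _ fun a =>
      Lv_im (R := L) (algebraMap E K) hτ x i a.2
  · obtain ⟨h1, h2⟩ := adj_le (A0 := N) (A := Lv N x i) (R := L) (Ω := K)
      ((algebraMap E K).comp (algebraMap (Lv N x i) E)) (fun a => hτ a)
    refine le_trans (IntermediateField.finrank_le_of_le_right ?_) h2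
    conv_lhs => unfold Lv
    rw [IntermediateField.adjoin_le_iff]
    rintro _ ⟨l, hl, b, rfl⟩
    exact IntermediateField.subset_adjoin _ _ ⟨⟨x l b, mem_Lv x l hl b⟩, rfl⟩

theorem disj_top (hcl : ∀ x : L, IsIntegral N x → ∃ y : N, algebraMap N L y = x)
    (x : ∀ i, Fin (m i + 1) → E)
    (hgen : ∀ z : E, algebraMap E K z ∈ Lv L (fun i b => algebraMap E K (x i b)) κ) :
    Lv N x κ = ⊤ := by
  have h1 : finrank N E ≤ finrank L (Lv L (fun i b => algebraMap E K (x i b)) κ) :=
    finrank_le_of_disj (N := N) (L := L) (A := E) (K := K) hcl _ hgen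
  rw [← disj_Lv hcl x κ] at h1
  have h2 : Subalgebra.toSubmodule (Lv N x κ).toSubalgebra = ⊤ :=
    Submodule.eq_top_of_finrank_eq (le_antisymm (Submodule.finrank_le _) h1)
  rw [eq_top_iff]
  intro z _
  have h3 : z ∈ Subalgebra.toSubmodule (Lv N x κ).toSubalgebra := by
    rw [h2]
    trivial
  exact h3

end


end Run7.h72
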