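import Pool.Agent.W619.PQ.Tr

/-!
The derivative of the minimal polynomial at an integral generator, at a ramified place.
-/

set_option autoImplicit false
set_option linter.overlappingInstances false
set_option linter.unusedSectionVars false

open Polynomial FF IsDedekindDomain

namespace Run7.h72

open Pool.Agent.W603.LV Pool.Agent.W619.PQ

section

variable {k K F : Type*} [Field k] [Field K] [Field F] [Algebra k K] [Algebra k F] [Algebra K F]
  [IsScalarTower k K F]

/-- an integral element is regular -/
theorem reg_of_isIntegral {q : Place k K} {w : Place k F} {e : ℕ} (h : Over w q e) (z : F)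
    (hz : letI := algO (F := F) q; IsIntegral q.O z) : w.Reg z := by
  let iA : Algebra q.O F := algO q
  by_cases hz0 : z = 0
  · exact Or.inl hz0
  refine (w.reg_iff hz0).2 ?_
  by_contra hneg
  push Not at hneg
  obtain ⟨p, hp, hpz⟩ := hz
  -- the leading term dominates
  have key : ∀ n : ℕ, p.natDegree = n → False := by
    intro n hn
    have h1 : eval₂ (algebraMap q.O F) z p = 0 := hpz
    rw [eval₂_eq_sum_range, Finset.sum_range_succ, hn] at h1
    have h2 : p.coeff n = 1 := by rw [← hn]; exact hp
    rw [h2, map_one, one_mul] at h1
    have h3 : Ge w (n * w.ord z + 1)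
        (∑ x ∈ Finset.range n, (algebraMap q.O F) (p.coeff x) * z ^ x) := by
      have : ∀ s : Finset ℕ, (∀ x ∈ s, x < n) → Ge w (n * w.ord z + 1)
          (∑ x ∈ s, (algebraMap q.O F) (p.coeff x) * z ^ x) := by
        classical
        intro s
        induction s using Finset.induction_on with
        | empty => intro _; rw [Finset.sum_empty]; exact Ge.zero
        | insert a s ha ih =>
          intro hs
          rw [Finset.sum_insert ha]
          refine Ge.add ?_ (ih fun x hx => hs x (Finset.mem_insert_of_mem hx))
          have hlt := hs a (Finset.mem_insert_self a s)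
          have g1 : Ge w 0 ((algebraMap q.O F) (p.coeff a)) := h.reg.2 (p.coeff a).2
          have g2 : Ge w (a * w.ord z) (z ^ a) := by
            right; rw [w.ord_pow]
          refine (g1.mul g2).mono ?_
          have : (a : ℤ) + 1 ≤ n := by exact_mod_cast hlt
          nlinarith
      exact this _ fun x hx => Finset.mem_range.1 hx
    have h4 : z ^ n = -∑ x ∈ Finset.range n, (algebraMap q.O F) (p.coeff x) * z ^ x := by
      linear_combination h1
    have h5 := h3.neg
    rw [← h4] at h5
    have h6 := h5.resolve_left (pow_ne_zero _ hz0)
    rw [w.ord_pow] at h6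
    omega
  exact key _ rfl

/-- powers of the prime of a place -/
theorem placeOf_ge_iff {B : Type*} [CommRing B] [IsDedekindDomain B] [Algebra k B]
    [Algebra B F] [IsFractionRing B F] [IsScalarTower k B F] (P : HeightOneSpectrum B) (b : B)
    (n : ℕ) : Ge (placeOf (k := k) (L := F) P) n (algebraMap B F b) ↔ b ∈ P.asIdeal ^ n := by
  by_cases hb : b = 0
  · subst hb
    simp [Ge]
  have hb' : algebraMap B F b ≠ 0 := by simpa using hb
  have hv : P.valuation F (algebraMap B F b) ≠ 0 := (Valuation.ne_zero_iff _).2 hb'
  unfold Ge
  simp only [hb', false_or]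
  rw [placeOf_ord, le_neg, WithZero.log_le_iff_le_exp hv, HeightOneSpectrum.valuation_of_algebraMap,
    HeightOneSpectrum.intValuation_le_pow_iff_mem]

/-- **The different.** If `s` is regular at all places over `q` and generates the extension, then the
derivative of its minimal polynomial at `s` vanishes to order at least `e - 1` at a place of
ramification index `e`. -/
theorem ge_derivative [CharZero k] [FiniteDimensional K F] (q : Place k K) (s : F)
    (hs : ∀ (w : Place k F) (e : ℕ), Over w q e → Ge w 0 s) (hgen : Algebra.adjoin K {s} = ⊤)
    (w : Place k F) (e : ℕ) (h : Over w q e) :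
    Ge w ((e : ℤ) - 1) (aeval s (derivative (minpoly K s))) := by
  classical
  let iA : Algebra q.O F := algO q
  let ik : Algebra k q.O := algk q
  obtain ⟨t, ht0, ht⟩ := q.surj
  have htr : q.Reg t := Or.inr (by omega)
  have : IsDiscreteValuationRing q.O := q.isDVR
  have : CharZero K := charZero_of_injective_algebraMap (algebraMap k K).injective
  have : IsScalarTower q.O K F := IsScalarTower.of_algebraMap_eq fun _ => rfl
  have : IsScalarTower k q.O F := IsScalarTower.of_algebraMap_eq fun c => by
    rw [IsScalarTower.algebraMap_apply k K F]
    rfl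
  let B := integralClosure q.O F
  have : IsDedekindDomain B := integralClosure.isDedekindDomain q.O K F
  have : IsFractionRing B F := integralClosure.isFractionRing_of_finite_extension K F
  have hfin : Module.Finite q.O B := IsIntegralClosure.finite q.O K F B
  have hsc : IsScalarTower k B F := by
    refine IsScalarTower.of_algebraMap_eq fun c => ?_
    rw [IsScalarTower.algebraMap_apply k q.O B, ← IsScalarTower.algebraMap_apply q.O B F,
      ← IsScalarTower.algebraMap_apply k q.O F]
  have hinj : Function.Injective (algebraMap q.O F) := by
    rw [IsScalarTower.algebraMap_eq q.O K F]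
    exact (algebraMap K F).injective.comp (IsFractionRing.injective q.O K)
  have htf : Module.IsTorsionFree q.O B := by
    have hinj' : Function.Injective (algebraMap q.O B) := by
      intro a b h
      apply hinj
      rw [IsScalarTower.algebraMap_apply q.O B F, IsScalarTower.algebraMap_apply q.O B F, h]
    exact Module.isTorsionFree_iff_algebraMap_injective.2 hinj'
  have hsB : IsIntegral q.O s := isIntegral_of_reg q s hs
  let sB : B := ⟨s, hsB⟩
  -- the prime of the place
  obtain ⟨P, hP⟩ := exists_placeOf_eq (k := k) (L := F) (B := B) w fun b =>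
    reg_of_isIntegral h _ ((mem_integralClosure_iff q.O F).1 b.2)
  have hmem : aeval sB (derivative (minpoly q.O sB)) ∈ differentIdeal q.O B :=
    aeval_derivative_mem_differentIdeal q.O K F sB hgen
  have hmax := P.isMaximal
  have hdvd : P.asIdeal ^ (e - 1) ∣ differentIdeal q.O B := by
    refine pow_sub_one_dvd_differentIdeal_aux q.O K F P.asIdeal
      (p := IsLocalRing.maximalIdeal q.O) (e := e) h.1.ne' ?_ ?_
    · exact IsDiscreteValuationRing.not_a_field q.O
    · rw [Ideal.dvd_iff_le, ← maximalIdeal_eq q ht0 ht htr, Ideal.map_span, Set.image_singleton,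
        Ideal.span_singleton_le_iff_mem, ← placeOf_ge_iff (k := k) (F := F), hP]
      right
      have h1 : w.ord (algebraMap K F t) = e * q.ord t := h.2 t
      rw [ht, mul_one] at h1
      exact h1.ge
  have h2 : aeval sB (derivative (minpoly q.O sB)) ∈ P.asIdeal ^ (e - 1) :=
    Ideal.dvd_iff_le.1 hdvd hmem
  rw [← placeOf_ge_iff (k := k) (F := F), hP] at h2
  have h3 : algebraMap B F (aeval sB (derivative (minpoly q.O sB))) =
      aeval s (derivative (minpoly K s)) := by
    have h4 : minpoly K s = (minpoly q.O sB).map (algebraMap q.O K) :=
      minpoly.isIntegrallyClosed_eq_field_fractions K F (IsIntegralClosure.isIntegral q.O F sB)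
    rw [h4, derivative_map, aeval_map_algebraMap]
    exact (aeval_algebraMap_apply F sB _).symm
  rw [h3] at h2
  refine h2.mono ?_
  have := h.1
  omega

end

end Run7.h72
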