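import Mathlib

/-!
Upper limits along multiples.
-/

set_option autoImplicit false

open Filter Topology

namespace Run7.h72

theorem tendsto_mulR {R : ℕ} (hR : 1 ≤ R) : Tendsto (fun m : ℕ => R * m) atTop atTop :=
  tendsto_atTop_mono (fun m => Nat.le_mul_of_pos_left m hR) tendsto_id

theorem lim_pow {f g : ℕ → ENNReal} {R : ℕ} (hR : 1 ≤ R) (h : ∀ m, 1 ≤ m → f m ≤ g (R * m))
    (j : ℕ) (hf : 0 < limsup (fun m : ℕ => f m / (m : ENNReal) ^ j) atTop) :
    0 < limsup (fun m : ℕ => g m / (m : ENNReal) ^ j) atTop := by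
  by_contra hcon
  have h0 : limsup (fun m : ℕ => g m / (m : ENNReal) ^ j) atTop = 0 := by
    exact le_antisymm (not_lt.1 hcon) bot_le
  have hRt : ((R : ENNReal) ^ j) ≠ ⊤ := ENNReal.pow_ne_top (ENNReal.natCast_ne_top R)
  have h1 : limsup (fun m : ℕ => f m / (m : ENNReal) ^ j) atTop ≤
      limsup (fun m : ℕ => (R : ENNReal) ^ j * (g (R * m) / ((R * m : ℕ) : ENNReal) ^ j)) atTop := by
    refine limsup_le_limsup ?_
    filter_upwards [eventually_ge_atTop 1] with m hm
    have hR0 : (R : ENNReal) ≠ 0 := by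
      have : R ≠ 0 := by omega
      exact_mod_cast this
    have e1 : (R : ENNReal) ^ j * (g (R * m) / ((R * m : ℕ) : ENNReal) ^ j) =
        g (R * m) / (m : ENNReal) ^ j := by
      rw [Nat.cast_mul, mul_pow, div_eq_mul_inv, div_eq_mul_inv, ENNReal.mul_inv
        (Or.inl (pow_ne_zero _ hR0)) (Or.inl hRt)]
      calc (R : ENNReal) ^ j * (g (R * m) * (((R : ENNReal) ^ j)⁻¹ * ((m : ENNReal) ^ j)⁻¹))
          = ((R : ENNReal) ^ j * ((R : ENNReal) ^ j)⁻¹) * (g (R * m) * ((m : ENNReal) ^ j)⁻¹) := by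
            ring
        _ = _ := by rw [ENNReal.mul_inv_cancel (pow_ne_zero _ hR0) hRt, one_mul]
    rw [e1]
    exact ENNReal.div_le_div_right (h m hm) _
  rw [ENNReal.limsup_const_mul_of_ne_top hRt] at h1
  have h2 : limsup (fun m : ℕ => g (R * m) / ((R * m : ℕ) : ENNReal) ^ j) atTop ≤
      limsup (fun m : ℕ => g m / (m : ENNReal) ^ j) atTop := by
    have h3 : limsup (fun m : ℕ => g (R * m) / ((R * m : ℕ) : ENNReal) ^ j) atTop =
        limsup (fun m : ℕ => g m / (m : ENNReal) ^ j) (map (fun m : ℕ => R * m) atTop) := rfl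
    rw [h3]
    exact limsup_le_limsup_of_le (tendsto_mulR hR)
  rw [h0] at h2
  rw [le_antisymm h2 bot_le, mul_zero] at h1
  exact absurd hf (not_lt.2 h1)

theorem lim_log {f g : ℕ → ENNReal} {R : ℕ} (hR : 1 ≤ R) (h : ∀ m, 1 ≤ m → f m ≤ g (R * m))
    (hg : ∀ m, g m = 0 ∨ 1 ≤ g m) :
    limsup (fun m : ℕ => ENNReal.log (f m) / (Real.log m : EReal)) atTop ≤
      limsup (fun m : ℕ => ENNReal.log (g m) / (Real.log m : EReal)) atTop := by
  refine le_of_forall_gt_imp_ge_of_dense fun c hc => ?_
  obtain ⟨x, hx1, hx2⟩ := EReal.lt_iff_exists_real_btwn.1 hc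
  obtain ⟨x', hx3, hx4⟩ := EReal.lt_iff_exists_real_btwn.1 hx2
  have hxx : x < x' := by exact_mod_cast hx3
  have h1 : ∀ᶠ m : ℕ in atTop, ENNReal.log (g m) / (Real.log m : EReal) < x :=
    eventually_lt_of_limsup_lt hx1
  have h2 : ∀ᶠ m : ℕ in atTop, ENNReal.log (g (R * m)) / (Real.log (R * m : ℕ) : EReal) < x :=
    (tendsto_mulR hR).eventually h1
  have h3 : Tendsto (fun m : ℕ => x + x * Real.log R / Real.log m) atTop (𝓝 x) := by
    have h4 : Tendsto (fun m : ℕ => x * Real.log R / Real.log m) atTop (𝓝 0) :=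
      Tendsto.const_div_atTop (Real.tendsto_log_atTop.comp tendsto_natCast_atTop_atTop) _
    simpa using h4.const_add x
  have h4 : ∀ᶠ m : ℕ in atTop, x + x * Real.log R / Real.log m < x' :=
    h3.eventually (gt_mem_nhds hxx)
  have h5 : ∀ᶠ m : ℕ in atTop, ENNReal.log (f m) / (Real.log m : EReal) ≤ c := by
    filter_upwards [h2, h4, eventually_ge_atTop 2] with m hm2 hm4 hm
    have hm1 : (1 : ℝ) < m := by exact_mod_cast hm
    have hlog : 0 < Real.log m := Real.log_pos hm1
    have hlogE : (0 : EReal) < (Real.log m : EReal) := by exact_mod_cast hlog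
    have hR1 : (1 : ℝ) ≤ R := by exact_mod_cast hR
    have hRm : Real.log (R * m : ℕ) = Real.log R + Real.log m := by
      push_cast
      exact Real.log_mul (by positivity) (by positivity)
    have hlogR : 0 ≤ Real.log R := Real.log_nonneg hR1
    have hlogRm : 0 < Real.log (R * m : ℕ) := by rw [hRm]; linarith
    have hlogRmE : (0 : EReal) < (Real.log (R * m : ℕ) : EReal) := by exact_mod_cast hlogRm
    rcases hg (R * m) with hg0 | hg1
    · have hf0 : f m = 0 := le_antisymm (by rw [← hg0]; exact h m (by omega)) bot_le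
      rw [hf0, ENNReal.log_zero, EReal.bot_div_of_pos_ne_top hlogE (EReal.coe_ne_top _)]
      exact bot_le
    · rw [EReal.div_lt_iff hlogRmE (EReal.coe_ne_top _)] at hm2
      have hx0 : 0 < x := by
        by_contra hneg
        push Not at hneg
        have h6 : (0 : EReal) ≤ ENNReal.log (g (R * m)) := ENNReal.zero_le_log_iff.2 hg1
        have h7 : ((x * Real.log (R * m : ℕ) : ℝ) : EReal) ≤ 0 := by
          exact_mod_cast mul_nonpos_of_nonpos_of_nonneg hneg hlogRm.le
        rw [EReal.coe_mul] at h7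
        exact absurd (h6.trans_lt (hm2.trans_le h7)) (lt_irrefl _)
      have h6 : ENNReal.log (f m) ≤ ENNReal.log (g (R * m)) :=
        ENNReal.log_monotone (h m (by omega))
      have h7 : ENNReal.log (f m) ≤ (Real.log m : EReal) * (x' : EReal) := by
        refine (h6.trans hm2.le).trans ?_
        rw [← EReal.coe_mul, ← EReal.coe_mul]
        have h8 : x * Real.log (R * m : ℕ) ≤ Real.log m * x' := by
          rw [hRm]
          have h9 : x * (Real.log R + Real.log m) =
              (x + x * Real.log R / Real.log m) * Real.log m := by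
            field_simp
            ring
          rw [h9, mul_comm (Real.log m)]
          exact mul_le_mul_of_nonneg_right hm4.le hlog.le
        exact_mod_cast h8
      have h8 := (EReal.div_le_iff_le_mul hlogE (EReal.coe_ne_top _)).2 h7
      exact h8.trans hx4.le
  exact limsup_le_of_le ⟨⊥, fun _ _ => bot_le⟩ h5

end Run7.h72
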