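import Pool.Agent.Run7.h72.Pair
import Pool.Agent.Run7.h72.Lims
import Pool.Agent.Y172.Grow

/-!
The Kodaira dimension and the numerical dimension under finite extensions of small degree.
-/

set_option autoImplicit false
set_option linter.overlappingInstances false
set_option linter.unusedSectionVars false
set_option maxHeartbeats 4000000
set_option synthInstance.maxHeartbeats 400000

open FF Polynomial Module Filter
open Pool.Agent.W602.GT Pool.Agent.W603.LV Pool.Agent.W619.PQ Pool.Agent.Y172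

namespace Run7.h72

theorem enat_cases (a : ℕ∞) : ((a : ℕ∞) : ENNReal) = 0 ∨ 1 ≤ ((a : ℕ∞) : ENNReal) := by
  by_cases h : a = 0
  · left
    rw [h]
    simp
  · right
    have h1 : (1 : ℕ∞) ≤ a := Order.one_le_iff_pos.2 (pos_iff_ne_zero.2 h)
    have h2 := ENat.toENNReal_le.2 h1
    simpa using h2

section

variable {k K K' : Type} [Field k] [Field K] [Field K'] [Algebra k K] [Algebra k K'] {n : ℕ}

theorem kap_le {X : Set (Place k K)} {Y : Set (Place k K')} {Δ : Place k K → ℚ}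
    {Γ : Place k K' → ℚ} {R : ℕ} (hR : 1 ≤ R)
    (h : ∀ m, hz X n m (m • Δ) ≤ hz Y n (R * m) ((R * m) • Γ)) : kap X n Δ ≤ kap Y n Γ := by
  classical
  unfold kap
  by_cases h0 : ∀ m : ℕ, 1 ≤ m → hz Y n m (m • Γ) = 0
  · have h1 : ∀ m : ℕ, 1 ≤ m → hz X n m (m • Δ) = 0 := fun m hm =>
      le_antisymm ((h m).trans (h0 (R * m) (Nat.mul_pos hR hm)).le) bot_le
    rw [if_pos h0, if_pos h1]
  · rw [if_neg h0]
    split_ifs with h1
    · exact bot_le
    · refine WithBot.coe_le_coe.2 (iSup₂_le fun j hj => ?_)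
      have h2 := lim_pow (f := fun m => ((hz X n m (m • Δ) : ℕ∞) : ENNReal))
        (g := fun m => ((hz Y n m (m • Γ) : ℕ∞) : ENNReal)) hR
        (fun m _ => ENat.toENNReal_le.2 (h m)) j hj
      exact le_iSup₂_of_le (f := fun (j : ℕ) (_ : 0 < limsup (fun m : ℕ =>
        ((hz Y n m (m • Γ) : ℕ∞) : ENNReal) / (m : ENNReal) ^ j) atTop) => (j : ℕ∞)) j h2 le_rfl

theorem nu_le {X : Set (Place k K)} {Y : Set (Place k K')} {Δ : Place k K → ℚ}
    {Γ : Place k K' → ℚ} {R : ℕ} (hR : 1 ≤ R)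
    (h : ∀ A, Eff X A → ∃ B, Eff Y B ∧
      ∀ m, hz X n m (m • Δ + A) ≤ hz Y n (R * m) ((R * m) • Γ + B)) : nu X n Δ ≤ nu Y n Γ := by
  unfold nu
  refine iSup₂_le fun A hA => ?_
  obtain ⟨B, hB, hAB⟩ := h A hA
  refine le_trans ?_ (le_iSup₂_of_le (f := fun (A : Place k K' → ℚ) (_ : Eff Y A) =>
    limsup (fun m : ℕ => ENNReal.log ((hz Y n m (m • Γ + A) : ℕ∞) : ENNReal) /
      (Real.log m : EReal)) atTop) B hB le_rfl)
  exact lim_log (f := fun m => ((hz X n m (m • Δ + A) : ℕ∞) : ENNReal))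
    (g := fun m => ((hz Y n m (m • Γ + B) : ℕ∞) : ENNReal)) hR
    (fun m _ => ENat.toENNReal_le.2 (hAB m)) fun m => enat_cases _

end

section

variable {k K L : Type} [Field k] [CharZero k] [Field K] [Field L] [Algebra k K]
  [Algebra k L] [Algebra K L] [IsScalarTower k K L] [FiniteDimensional K L] {n : ℕ}

/-- pull-back of divisors -/
theorem exists_pull {X : Set (Place k K)} {A : Place k K → ℚ} (hA : Eff X A) :
    ∃ B : Place k L → ℚ, Eff (Ov L X) B ∧
      ∀ P ∈ X, ∀ (Q : Place k L) (e : ℕ), Over Q P e → B Q = e * A P := by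
  classical
  have hch : CharZero K := charZero_of_injective_algebraMap (algebraMap k K).injective
  have h1 : ∃ B : Place k L → ℚ,
      ∀ P ∈ X, ∀ (Q : Place k L) (e : ℕ), Over Q P e → B Q = e * A P := by
    refine ⟨fun Q => if h : ∃ p : Place k K × ℕ, p.1 ∈ X ∧ Over Q p.1 p.2 then
      h.choose.2 * A h.choose.1 else 0, fun P hP Q e hQ => ?_⟩
    have h1 : ∃ p : Place k K × ℕ, p.1 ∈ X ∧ Over Q p.1 p.2 := ⟨(P, e), hP, hQ⟩
    beta_reduce
    rw [dif_pos h1]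
    obtain ⟨h2, h3⟩ := Pool.Agent.Y172.over_unique' h1.choose_spec.2 hQ
    rw [h2, h3]
  obtain ⟨B, hB⟩ := h1
  refine ⟨B, ⟨?_, ?_⟩, hB⟩
  · rintro Q ⟨P, hP, e, hQ⟩
    rw [hB P hP Q e hQ]
    exact mul_nonneg (by positivity) (hA.1 P hP)
  · refine (hA.2.biUnion (t := fun P => {Q : Place k L | ∃ e, Over Q P e})
      fun P _ => finite_over (K' := L) P).subset ?_
    rintro Q ⟨⟨P, hP, e, hQ⟩, hQ0⟩
    rw [hB P hP Q e hQ] at hQ0
    rw [Set.mem_iUnion₂]
    exact ⟨P, ⟨hP, right_ne_zero_of_mul hQ0⟩, e, hQ⟩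

/-- push-forward of divisors -/
theorem exists_push {X : Set (Place k K)} {B : Place k L → ℚ} (hB : Eff (Ov L X) B) (r : ℕ) :
    ∃ A : Place k K → ℚ, Eff X (r • A) ∧
      ∀ P ∈ X, ∀ (Q : Place k L) (e : ℕ), Over Q P e → B Q ≤ e * A P := by
  classical
  have hch : CharZero K := charZero_of_injective_algebraMap (algebraMap k K).injective
  have hfin : ∀ P : Place k K, {Q : Place k L | ∃ e, Over Q P e}.Finite := fun P =>
    finite_over (K' := L) P
  choose pl ee hpl using fun Q : Place k L => Pool.Agent.Y172.exists_below (K := K) Q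
  obtain ⟨A, hAdef⟩ : ∃ A : Place k K → ℚ, A = fun P => ∑ Q ∈ (hfin P).toFinset, B Q := ⟨_, rfl⟩
  have hnn : ∀ P ∈ X, ∀ Q ∈ (hfin P).toFinset, 0 ≤ B Q := by
    intro P hP Q hQ
    rw [Set.Finite.mem_toFinset] at hQ
    obtain ⟨e, hQ⟩ := hQ
    exact hB.1 Q ⟨P, hP, e, hQ⟩
  have hA0 : ∀ P ∈ X, 0 ≤ A P := by
    intro P hP
    rw [hAdef]
    exact Finset.sum_nonneg (hnn P hP)
  refine ⟨A, ⟨fun P hP => ?_, ?_⟩, fun P hP Q e hQ => ?_⟩
  · rw [sb]
    exact mul_nonneg (by positivity) (hA0 P hP)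
  · refine (hB.2.image pl).subset ?_
    rintro P ⟨hP, hP0⟩
    rw [sb] at hP0
    have h1 := right_ne_zero_of_mul hP0
    rw [hAdef] at h1
    obtain ⟨Q, hQ, hQ0⟩ := Finset.exists_ne_zero_of_sum_ne_zero h1
    rw [Set.Finite.mem_toFinset] at hQ
    obtain ⟨e, hQ⟩ := hQ
    exact ⟨Q, ⟨⟨P, hP, e, hQ⟩, hQ0⟩, (Pool.Agent.Y172.over_unique' (hpl Q) hQ).1⟩
  · have h1 : B Q ≤ A P := by
      rw [hAdef]
      exact Finset.single_le_sum (hnn P hP) (by
        rw [Set.Finite.mem_toFinset]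
        exact ⟨e, hQ⟩)
    have h2 : (1 : ℚ) ≤ e := by exact_mod_cast hQ.1
    nlinarith [hA0 P hP]

end

/-- **The Kodaira dimension and the numerical dimension of the image.** -/
theorem dims_eq {k K L : Type} [Field k] [CharZero k] [IsAlgClosed k] [Field K] [Field L]
    [Algebra k K] [Algebra k L] [Algebra K L] [IsScalarTower k K L] [FiniteDimensional K L]
    {n : ℕ} [Algebra.EssFiniteType k K]
    (hn : Algebra.trdeg k K = n)
    {X : Set (Place k K)} (hX : ∀ P ∈ X, Divisorial n P) {Δ : Place k K → ℚ}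
    {Γ : Place k L → ℚ}
    (hΓ1 : ∀ P ∈ X, ∀ (Q : Place k L) (e : ℕ), Over Q P e → 1 - e * (1 - Δ P) ≤ Γ Q)
    (hΓ2 : ∀ P ∈ X, ∀ (Q : Place k L) (e : ℕ), Over Q P e → Γ Q ≤ e * Δ P)
    {κ : ℕ} {m : Fin κ → ℕ} (x : ∀ i, Fin (m i + 1) → L) (hx0 : ∀ i, x i 0 = 1)
    (hgen : Lv K x κ = ⊤) {N : ℕ} (M : Fin κ → ℕ)
    (hM : ∀ i : Fin κ, 2 * (finrank K (Lv K x (i + 1)) - finrank K (Lv K x i)) * N <
      M i * finrank K (Lv K x i)) {η : (Fin n → Derivation k L L) → L}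
    (hη : ∀ f, Sec (Ov L X) n N (N • Γ) (fun D => mlt x M f * η D)) (hη0 : ∃ D, η D ≠ 0) :
    kap X n Δ = kap (Ov L X) n Γ ∧ nu X n Δ = nu (Ov L X) n Γ := by
  have hess : Algebra.EssFiniteType k L := Algebra.EssFiniteType.comp k K L
  obtain ⟨R, hR⟩ : ∃ R, R = finrank K L * (1 + 2 * finrank K L * N) := ⟨_, rfl⟩
  have hfr : 0 < finrank K L := finrank_pos
  have hR1 : 1 ≤ R := by
    rw [hR]
    exact Nat.mul_pos hfr (by omega)
  refine ⟨le_antisymm ?_ ?_, le_antisymm ?_ ?_⟩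
  · refine kap_le (R := 1) le_rfl fun m => hz_le fun r hr => ?_
    rw [one_mul]
    have h1 := hasSec_up (L := L) hn hX (A := 0) (B := 0) hΓ1 (by simp) (m := m) (r := r) (by
      rw [add_zero]; exact hr)
    rwa [add_zero] at h1
  · refine kap_le hR1 fun m => hz_le fun r hr => ?_
    have h1 := hasSec_down hn hX (A := 0) (B := 0) hΓ2 (by simp) x hx0 hgen M hM hη hη0
      (j := m) (r := r) (by rw [add_zero]; exact hr)
    rw [smul_zero, add_zero, ← hR] at h1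
    exact h1
  · refine nu_le (R := 1) le_rfl fun A hA => ?_
    obtain ⟨B, hB, hAB⟩ := exists_pull (L := L) hA
    refine ⟨B, hB, fun m => hz_le fun r hr => ?_⟩
    rw [one_mul]
    exact hasSec_up hn hX hΓ1 (fun P hP Q e hQ => (hAB P hP Q e hQ).ge) hr
  · refine nu_le hR1 fun B hB => ?_
    obtain ⟨A, hA, hAB⟩ := exists_push (K := K) hB (finrank K L)
    refine ⟨_, hA, fun m => hz_le fun r hr => ?_⟩
    have h1 := hasSec_down hn hX hΓ2 hAB x hx0 hgen M hM hη hη0 (j := m) (r := r) hr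
    rw [← hR] at h1
    exact h1

end Run7.h72
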