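import Pool.Agent.Y190.BV.Trn

/-!
Norms with algebraically independent ratios, and linear primitive elements.
-/

set_option autoImplicit false
set_option linter.overlappingInstances false
set_option linter.unusedSectionVars false
set_option maxHeartbeats 4000000
set_option synthInstance.maxHeartbeats 400000

open Polynomial Module

namespace Run7.h72

section ratio

variable {k K L : Type} [Field k] [Infinite k] [Field K] [Field L] [Algebra k K] [Algebra k L]
  [Algebra K L] [IsScalarTower k K L] [FiniteDimensional K L]

/-- **Norms with algebraically independent ratios.** -/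
theorem ratio {h : ℕ} (u : Fin h → L) (hu : AlgebraicIndependent k u) :
    ∃ (a : Fin h → Fin h) (c : Fin h → k), AlgebraicIndependent k fun i =>
      Algebra.norm K (u (a i) - algebraMap k L (c i)) := by
  classical
  let S : Set K := Set.range fun p : Fin h × k => Algebra.norm K (u p.1 - algebraMap k L p.2)
  let F0 := IntermediateField.adjoin k S
  have h1 : ∀ i, IsAlgebraic F0 (u i) := fun i =>
    Pool.Agent.Y190.BV.alg_norms F0 (u i) fun y =>
      IntermediateField.subset_adjoin k S ⟨(i, y), rfl⟩
  let F1 : IntermediateField F0 L := algebraicClosure F0 L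
  have h3 : Algebra.IsAlgebraic F0 F1 := algebraicClosure.isAlgebraic F0 L
  -- the generators inside `F0`
  let S0 : Set F0 := {x | (x : K) ∈ S}
  have hS0 : IntermediateField.adjoin k S0 = ⊤ := by
    have hinj : Function.Injective (IntermediateField.map (F0.val)) :=
      IntermediateField.map_injective F0.val
    apply hinj
    rw [IntermediateField.adjoin_map]
    have e1 : (F0.val '' S0) = S := by
      ext x
      constructor
      · rintro ⟨y, hy, rfl⟩
        exact hy
      · intro hx
        exact ⟨⟨x, IntermediateField.subset_adjoin k S hx⟩, hx, rfl⟩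
    rw [e1]
    ext x
    constructor
    · intro hx
      exact ⟨⟨x, hx⟩, trivial, rfl⟩
    · rintro ⟨y, -, rfl⟩
      exact y.2
  have h6 : Algebra.IsAlgebraic (Algebra.adjoin k S0) F0 := by
    apply IntermediateField.isAlgebraic_adjoin_iff_top.1
    rw [hS0]
    infer_instance
  obtain ⟨T, hTS, hT⟩ := exists_isTranscendenceBasis_subset (R := k) (A := F0) S0
  -- the cardinality
  have hcard : (h : Cardinal) ≤ Cardinal.mk T := by
    have e1 : Algebra.trdeg k F0 = Cardinal.mk T := hT.cardinalMk_eq_trdeg.symm
    have e2 : Algebra.trdeg k F1 = Algebra.trdeg k F0 :=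
      Pool.Agent.Y190.BV.trdeg_ext (k := k) (K := F0) (L := F1)
    let u' : Fin h → F1 := fun i => ⟨u i, mem_algebraicClosure_iff.2 (h1 i)⟩
    have e3 : AlgebraicIndependent k u' := by
      have e4 : AlgebraicIndependent k (fun i => (F1.val.restrictScalars k) (u' i)) := hu
      exact AlgebraicIndependent.of_comp (F1.val.restrictScalars k) e4
    have e5 := e3.lift_cardinalMk_le_trdeg
    rw [← e1, ← e2]
    simpa using e5
  obtain ⟨f⟩ : Nonempty (Fin h ↪ T) := by
    have := hcard
    rw [← Cardinal.mk_fin h] at this
    exact Cardinal.le_def _ _ |>.1 this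
  have hS : ∀ i, ∃ p : Fin h × k, Algebra.norm K (u p.1 - algebraMap k L p.2) =
      (((f i : T) : F0) : K) := fun i => hTS (f i).2
  choose p hp using hS
  refine ⟨fun i => (p i).1, fun i => (p i).2, ?_⟩
  have e1 : (fun i => Algebra.norm K (u (p i).1 - algebraMap k L (p i).2)) =
      fun i => F0.val ((f i : T) : F0) := by
    funext i
    exact hp i
  rw [e1]
  exact (hT.1.comp f f.injective).map' (f := F0.val) F0.val.injective

end ratio

section prim

variable {k K L : Type} [Field k] [Infinite k] [Field K] [Field L] [Algebra k K] [Algebra k L]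
  [Algebra K L] [IsScalarTower k K L] [FiniteDimensional K L] [Algebra.IsSeparable K L]

/-- **Linear primitive elements.** -/
theorem exists_prim {m : ℕ} (y : Fin m → L) (hy : IntermediateField.adjoin K (Set.range y) = ⊤) :
    ∃ c : Fin m → k, Algebra.adjoin K {∑ l, algebraMap k L (c l) * y l} = ⊤ := by
  classical
  have hfin : Finite (IntermediateField K L) :=
    Field.finite_intermediateField_of_exists_primitive_element K L
      (Field.exists_primitive_element K L)
  -- the linear map
  let φ : (Fin m → k) →ₗ[k] L :=
    { toFun := fun c => ∑ l, algebraMap k L (c l) * y l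
      map_add' := fun a b => by
        simp only [Pi.add_apply, map_add, add_mul, Finset.sum_add_distrib]
      map_smul' := fun a b => by
        simp only [Pi.smul_apply, smul_eq_mul, map_mul, RingHom.id_apply, Algebra.smul_def,
          Finset.mul_sum, mul_assoc] }
  let V : {F : IntermediateField K L // F ≠ ⊤} → Submodule k (Fin m → k) := fun F =>
    ((F.1.restrictScalars k).toSubalgebra.toSubmodule).comap φ
  by_contra hcon
  push Not at hcon
  have hcover : ⋃ F, (V F : Set (Fin m → k)) = Set.univ := by
    rw [Set.eq_univ_iff_forall]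
    intro c
    rw [Set.mem_iUnion]
    refine ⟨⟨IntermediateField.adjoin K {φ c}, fun h => hcon c ?_⟩, ?_⟩
    · change Algebra.adjoin K {φ c} = ⊤
      rw [← IntermediateField.adjoin_simple_toSubalgebra_of_isAlgebraic
        (Algebra.IsAlgebraic.isAlgebraic (R := K) (φ c)), h]
      rfl
    · change φ c ∈ IntermediateField.adjoin K {φ c}
      exact IntermediateField.mem_adjoin_simple_self K _
  obtain ⟨F, hF⟩ := Subspace.exists_eq_top_of_iUnion_eq_univ hcover
  obtain ⟨F, hFt⟩ := F
  apply hFt
  rw [eq_top_iff]
  refine le_trans hy.ge ?_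
  rw [IntermediateField.adjoin_le_iff]
  rintro _ ⟨l, rfl⟩
  have h1 : (Pi.single l 1 : Fin m → k) ∈ V ⟨F, hFt⟩ := by rw [hF]; trivial
  have h2 : φ (Pi.single l 1) ∈ F := h1
  have h3 : φ (Pi.single l 1) = y l := by
    change ∑ l', algebraMap k L ((Pi.single l 1 : Fin m → k) l') * y l' = y l
    rw [Finset.sum_eq_single l]
    · rw [Pi.single_eq_same, map_one, one_mul]
    · intro b _ hb
      rw [Pi.single_eq_of_ne hb, map_zero, zero_mul]
    · intro h
      exact absurd (Finset.mem_univ l) h
  rwa [h3] at h2

end prim

end Run7.h72
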