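import Pool.Agent.Run7.h72.Step
import Pool.Agent.Run7.h72.Ratio

/-!
The norm principle for several forms with algebraically independent ratios and families of
multipliers.
-/

set_option autoImplicit false
set_option linter.overlappingInstances false
set_option linter.unusedSectionVars false
set_option maxHeartbeats 4000000
set_option synthInstance.maxHeartbeats 400000

open FF Polynomial Module
open Pool.Agent.W602.GT Pool.Agent.W603.LV Pool.Agent.W619.PQ Pool.Agent.Y172

namespace Run7.h72

section

variable {k L : Type} [Field k] [Field L] [Algebra k L] {n : ℕ}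

theorem ge_smul {Q : Place k L} {v : L} {a : ℤ} (c : k) (h : Ge Q a v) :
    Ge Q a (algebraMap k L c * v) := by
  have h1 := (Ge.const (P := Q) c).mul h
  rwa [zero_add] at h1

theorem ge_sum {ι : Type*} {Q : Place k L} {a : ℤ} (s : Finset ι) (v : ι → L)
    (h : ∀ i ∈ s, Ge Q a (v i)) : Ge Q a (∑ i ∈ s, v i) := by
  classical
  induction s using Finset.induction_on with
  | empty => rw [Finset.sum_empty]; exact Ge.zero
  | insert b s hb ih =>
    rw [Finset.sum_insert hb]
    exact (h b (Finset.mem_insert_self b s)).add (ih fun i hi => h i (Finset.mem_insert_of_mem hi))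

/-- powers of a linear combination of the members of a family -/
theorem ge_tpow {Q : Place k L} {m' M' : ℕ} {y : Fin (m' + 1) → L} (hy0 : y 0 = 1)
    (c : Fin (m' + 1) → k) {v : L} (h : ∀ b, Ge Q 0 (y b ^ M' * v)) {j : ℕ} (hj : j ≤ M') :
    Ge Q 0 ((∑ b, algebraMap k L (c b) * y b) ^ j * v) := by
  classical
  by_cases hv : v = 0
  · rw [hv, mul_zero]; exact Ge.zero
  -- the element of minimal order
  obtain ⟨b0, hb0, hmin⟩ := Finset.exists_min_image
    (Finset.univ.filter fun b => y b ≠ 0) (fun b => Q.ord (y b))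
    ⟨0, by rw [Finset.mem_filter]; exact ⟨Finset.mem_univ _, by rw [hy0]; exact one_ne_zero⟩⟩
  rw [Finset.mem_filter] at hb0
  have ho : Q.ord (y b0) ≤ 0 := by
    have h1 := hmin 0 (by rw [Finset.mem_filter]; exact ⟨Finset.mem_univ _, by
      rw [hy0]; exact one_ne_zero⟩)
    rwa [hy0, Q.ord_one] at h1
  have h1 : Ge Q (Q.ord (y b0)) (∑ b, algebraMap k L (c b) * y b) := by
    refine ge_sum _ _ fun b _ => ge_smul _ ?_
    by_cases hb : y b = 0
    · exact Or.inl hb
    · exact Or.inr (hmin b (by rw [Finset.mem_filter]; exact ⟨Finset.mem_univ _, hb⟩))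
  have h2 := (h b0).resolve_left (mul_ne_zero (pow_ne_zero _ hb0.2) hv)
  rw [Q.ord_mul (pow_ne_zero _ hb0.2) hv, Q.ord_pow] at h2
  have h3 := (h1.pow j).mul (ge_ord Q v)
  refine h3.mono ?_
  have h4 : (j : ℤ) ≤ M' := by exact_mod_cast hj
  nlinarith

variable (k L)

theorem logSec_sub {N : ℕ} {B : Place k L → Prop} {ω ω' : (Fin n → Derivation k L L) → L} (c : k)
    (h : LogSec k L n N B ω) (h' : LogSec k L n N B ω') :
    LogSec k L n N B (fun D => ω D - algebraMap k L c * ω' D) := by
  refine ⟨fun A D => ?_, fun P hP D hD => ?_, fun P hP hB D hD => ?_⟩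
  · change ω _ - algebraMap k L c * ω' _ = _
    rw [h.1, h'.1]
    ring
  · exact Ge.sub (h.2.1 P hP D hD) (ge_smul c (h'.2.1 P hP D hD))
  · exact Ge.sub (h.2.2 P hP hB D hD) (ge_smul c (h'.2.2 P hP hB D hD))

variable {k L}

/-- the multiplier with exponents `M i` given by the choice `f` of members of the families `x i` -/
noncomputable def mlt {κ : ℕ} {m : Fin κ → ℕ} (x : ∀ i, Fin (m i + 1) → L) (M : Fin κ → ℕ)
    (f : ∀ i, Fin (m i + 1)) : L := ∏ i, x i (f i) ^ M i

end

section

variable {k K L : Type} [Field k] [CharZero k] [Field K] [Field L] [Algebra k K] [Algebra k L]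
  [Algebra K L] [IsScalarTower k K L] [FiniteDimensional K L] {n : ℕ}

/-- **One step.** -/
theorem step_fam [Algebra.EssFiniteType k K] [Algebra.EssFiniteType k L]
    (hn : Algebra.trdeg k K = n) {BK : Place k K → Prop} {BL : Place k L → Prop}
    (hB : ∀ (P : Place k K) (Q : Place k L) (e : ℕ), Over Q P e → BL Q → BK P) {κ : ℕ}
    {m : Fin κ → ℕ} (x : ∀ i, Fin (m i + 1) → K) (M : Fin κ → ℕ) {m' : ℕ} (y : Fin (m' + 1) → L)
    (hy0 : y 0 = 1) (hy : IntermediateField.adjoin K (Set.range y) = ⊤) {N M' : ℕ}
    (hM' : 2 * (finrank K L - 1) * N ≤ M') {h : ℕ}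
    (W : Fin (h + 1) → (Fin n → Derivation k L L) → L) (hW : ∀ l, IsPluri N (W l))
    (hsec : ∀ l f b, LogSec k L n N BL
      (fun D => algebraMap K L (mlt x M f) * y b ^ M' * W l D))
    {D0 : Fin n → Derivation k L L} (h0 : W 0 D0 ≠ 0)
    (hind : AlgebraicIndependent k fun i : Fin h => W i.succ D0 / W 0 D0) :
    ∃ η : Fin (h + 1) → (Fin n → Derivation k K K) → K,
      (∀ l, IsPluri (N * finrank K L) (η l)) ∧
      (∀ l f, LogSec k K n (N * finrank K L) BK
        (fun D => mlt x (fun i => M i * finrank K L) f * η l D)) ∧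
      ∃ E, η 0 E ≠ 0 ∧ AlgebraicIndependent k fun i : Fin h => η i.succ E / η 0 E := by
  classical
  have hchK : CharZero K := charZero_of_injective_algebraMap (algebraMap k K).injective
  obtain ⟨c, hc⟩ := exists_prim (k := k) y hy
  obtain ⟨t, htdef⟩ : ∃ t, t = ∑ b, algebraMap k L (c b) * y b := ⟨_, rfl⟩
  rw [← htdef] at hc
  obtain ⟨z, E, hz, hE⟩ := exists_crd hn
  choose E' hE' using fun i => exists_lift (L := L) hn (E i)
  obtain ⟨F', hF'⟩ : ∃ F', F' = aeval t (derivative (minpoly K t)) := ⟨_, rfl⟩
  have hF0 : F' ≠ 0 := by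
    rw [hF']
    exact (Algebra.IsSeparable.isSeparable K t).aeval_derivative_ne_zero (minpoly.aeval _ _)
  -- sections from combinations
  have key : ∀ V : (Fin n → Derivation k L L) → L, IsPluri N V →
      (∀ f b, LogSec k L n N BL (fun D => algebraMap K L (mlt x M f) * y b ^ M' * V D)) →
      ∀ f, LogSec k K n (N * finrank K L) BK
        (fun D => mlt x (fun i => M i * finrank K L) f * nf z E' N V (F' ^ N) D) := by
    intro V hV hVs f
    have h1 : ∀ j ≤ 2 * (finrank K L - 1) * N, LogSec k L n N BL
        (fun D => t ^ j * (algebraMap K L (mlt x M f) * V D)) := by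
      intro j hj
      have hjM : j ≤ M' := hj.trans hM'
      refine ⟨fun A D => ?_, fun P hP D hD => ?_, fun P hP hPB D hD => ?_⟩
      · change t ^ j * (algebraMap K L (mlt x M f) * V _) = _
        rw [hV]
        ring
      · change Ge P 0 _
        rw [htdef]
        refine ge_tpow hy0 c (M' := M') (fun b => ?_) hjM
        have h2 := (hVs f b).2.1 P hP D hD
        have e1 : y b ^ M' * (algebraMap K L (mlt x M f) * V D) =
          algebraMap K L (mlt x M f) * y b ^ M' * V D := by ring
        rw [e1]
        exact h2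
      · change Ge P 0 _
        rw [htdef]
        refine ge_tpow hy0 c (M' := M') (fun b => ?_) hjM
        have h2 := (hVs f b).2.2 P hP hPB D hD
        have e1 : y b ^ M' * (algebraMap K L (mlt x M f) * V D) =
          algebraMap K L (mlt x M f) * y b ^ M' * V D := by ring
        rw [e1]
        exact h2
    have hV' : IsPluri N (fun D => algebraMap K L (mlt x M f) * V D) := by
      intro A D
      change algebraMap K L (mlt x M f) * V _ = _
      rw [hV]
      ring
    have h2 := nf_section hn hz hE hE' hc hB hV' h1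
    rw [← hF'] at h2
    have h3 : (nf z E' N (fun D => algebraMap K L (mlt x M f) * V D) (F' ^ N)) =
        fun D => mlt x (fun i => M i * finrank K L) f * nf z E' N V (F' ^ N) D := by
      funext D
      rw [nf_smul]
      congr 1
      unfold mlt
      rw [← Finset.prod_pow]
      exact Finset.prod_congr rfl fun i _ => (pow_mul _ _ _).symm
    rwa [h3] at h2
  -- the values on the frame
  have hnL : Algebra.trdeg k L = n := trdeg_up (K := K) hn
  have hval : ∀ l, W l D0 = (Matrix.of fun i j => D0 i (algebraMap K L (z j))).det ^ N * W l E' :=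
    fun l => pluri_coord (hz.algebraMap_comp (A := L)) (lift_dual hE hE') (hW l) D0
  have hd0 : (Matrix.of fun i j => D0 i (algebraMap K L (z j))).det ^ N ≠ 0 := by
    intro h1
    apply h0
    rw [hval, h1, zero_mul]
  have hW0 : W 0 E' ≠ 0 := by
    intro h1
    apply h0
    rw [hval, h1, mul_zero]
  have hind' : AlgebraicIndependent k (fun i : Fin h => W i.succ E' / W 0 E') := by
    have e1 : (fun i : Fin h => W i.succ D0 / W 0 D0) = fun i : Fin h => W i.succ E' / W 0 E' := by
      funext i
      rw [hval i.succ, hval 0, mul_div_mul_left _ _ hd0]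
    rwa [e1] at hind
  obtain ⟨a, b, hab⟩ := ratio (K := K) _ hind'
  -- the new forms
  let V : Fin (h + 1) → (Fin n → Derivation k L L) → L :=
    Fin.cons (W 0) (fun i D => W (a i).succ D - algebraMap k L (b i) * W 0 D)
  have hV : ∀ l, IsPluri N (V l) := by
    intro l
    refine Fin.cases (hW 0) (fun i => ?_) l
    intro A D
    change W (a i).succ _ - algebraMap k L (b i) * W 0 _ = _ * (W (a i).succ _ - _ * W 0 _)
    rw [hW, hW]
    ring
  have hVs : ∀ l f b, LogSec k L n N BL
      (fun D => algebraMap K L (mlt x M f) * y b ^ M' * V l D) := by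
    intro l f d
    refine Fin.cases (hsec 0 f d) (fun i => ?_) l
    have h1 := logSec_sub k L (b i) (hsec (a i).succ f d) (hsec 0 f d)
    have e1 : (fun D : Fin n → Derivation k L L =>
        algebraMap K L (mlt x M f) * y d ^ M' * W (a i).succ D -
        algebraMap k L (b i) * (algebraMap K L (mlt x M f) * y d ^ M' * W 0 D)) =
        (fun D => algebraMap K L (mlt x M f) * y d ^ M' * V i.succ D) := by
      funext D
      change _ = algebraMap K L (mlt x M f) * y d ^ M' *
        (W (a i).succ D - algebraMap k L (b i) * W 0 D)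
      ring
    rwa [e1] at h1
  refine ⟨fun l => nf z E' N (V l) (F' ^ N), fun l => nf_pluri _ _ _ _ _,
    fun l f => key (V l) (hV l) (hVs l) f, E, ?_, ?_⟩
  · change nf z E' N (V 0) (F' ^ N) E ≠ 0
    rw [nf_lift hz hE hE' (hV 0) _ hE']
    exact Algebra.norm_ne_zero_iff.2 (mul_ne_zero hW0 (pow_ne_zero _ hF0))
  · have e1 : (fun i : Fin h => nf z E' N (V i.succ) (F' ^ N) E / nf z E' N (V 0) (F' ^ N) E) =
        fun i => Algebra.norm K (W (a i).succ E' / W 0 E' - algebraMap k L (b i)) := by
      funext i
      rw [nf_lift hz hE hE' (hV i.succ) _ hE', nf_lift hz hE hE' (hV 0) _ hE']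
      change Algebra.norm K ((W (a i).succ E' - algebraMap k L (b i) * W 0 E') * F' ^ N) /
        Algebra.norm K (W 0 E' * F' ^ N) = _
      rw [div_eq_iff (Algebra.norm_ne_zero_iff.2 (mul_ne_zero hW0 (pow_ne_zero _ hF0))),
        ← map_mul]
      congr 1
      field_simp
    rw [e1]
    exact hab

end

end Run7.h72
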