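import Pool.Agent.Run7.h72.Main2


/-!
Varieties dominated by the product of a variety with a very positive canonical bundle and a curve: the
theorems.
-/

set_option autoImplicit false
set_option linter.overlappingInstances false
set_option linter.unusedSectionVars false
set_option linter.unusedVariables false
set_option maxHeartbeats 4000000
set_option synthInstance.maxHeartbeats 400000

open Polynomial FF IntermediateField Module

namespace Run7.h72

open Pool.Agent.W603.LV Pool.Agent.Y172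
open Pool.Agent.W602.GT (Divisorial RegAt IsPluri DerReg DerLog LogAt KodGe LogSec Psef GeneralType)
open Pool.Agent.W619.TW (NumLe)
open Pool.Agent.W619.PQ (IsUniruled)
open Pool.Agent.N145.SX (zz BdX closed erase basis_zz geo cov GLO GeoFib Cov1 kodGe_iff
  not_gt_of_cov1 cov1_of_fib unir_of_fib)
open Pool.Agent.N145.PL (HL exists_xB)
open Pool.Agent.N145.PC (exists_D closed_comap alg_of_const to_ratfunc)
open Pool.Agent.Y184.NT (trForm trForm_pluri)

theorem kodGe_mono {k K : Type} [Field k] [Field K] [Algebra k K] {n : ℕ} {Bd : Place k K → Prop}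
    {a b : ℕ} (hab : a ≤ b) (h : KodGe k K n Bd b) : KodGe k K n Bd a := by
  obtain ⟨N, hN, ω, hω, D, hD, hind⟩ := h
  refine ⟨N, hN, fun i => ω (Fin.castLE (Nat.succ_le_succ hab) i), fun i => hω _, D, hD, ?_⟩
  exact hind.comp (Fin.castLE hab) (Fin.castLE_injective hab)

section

variable {K : Type} [Field K] [Algebra ℂ K] [hessK : Algebra.EssFiniteType ℂ K] {n : ℕ}
  {E C : IntermediateField ℂ K} [Algebra.EssFiniteType ℂ E] [IsFF ℂ C] {L : Type} [Field L]
  [Algebra ℂ L] [Algebra L K] [IsScalarTower ℂ L K] [FiniteDimensional L K] {κ : ℕ}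
  {m : Fin κ → ℕ}

/-- **Non-vanishing.** -/
theorem nonvan (hsup : E ⊔ C = ⊤) (hE : Algebra.trdeg ℂ E = n)
    (hK : Algebra.trdeg ℂ K = (n + 1 : ℕ)) (x : ∀ i, Fin (m i + 1) → E) (hx0 : ∀ i, x i 0 = 1)
    (hgen : Lv L (fun i b => (x i b : K)) κ = IntermediateField.adjoin L (E : Set K)) {w : ℕ}
    (hw : 0 < w) (M : Fin κ → ℕ)
    (hM : ∀ i : Fin κ, 2 * (finrank L (Lv L (fun i b => (x i b : K)) (i + 1)) -
      finrank L (Lv L (fun i b => (x i b : K)) i)) * w <
      M i * finrank L (Lv L (fun i b => (x i b : K)) i))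
    {ψ : (Fin n → Derivation ℂ E E) → E} (hψ0 : ∃ D, ψ D ≠ 0)
    (hψ : ∀ f, LogSec ℂ E n w (fun _ => False) (fun D => mlt x M f * ψ D)) {a : ℕ}
    (s : Fin a → Σ i, Fin (m i + 1)) (hs : AlgebraicIndependent ℂ fun l => x (s l).1 (s l).2) :
    [¬ KodGe ℂ L (n + 1) (fun _ => False) 0, ¬ Psef ℂ L (n + 1) (fun _ => False),
      IsUniruled ℂ L (n + 1),
      FibR E L n (finrank L (IntermediateField.adjoin L (E : Set K))) a].TFAE ∧
    (KodGe ℂ L (n + 1) (fun _ => False) 0 → KodGe ℂ L (n + 1) (fun _ => False) a) := by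
  have hL : Algebra.trdeg ℂ L = (n + 1 : ℕ) := Pool.Agent.Y184.NT.trdeg_below (K := K) hK
  have hessL : Algebra.EssFiniteType ℂ L := Pool.Agent.TH466.QG.ess_below (K := K)
  obtain ⟨hna, -, hcl⟩ := closed K n E C hsup hE hK
  have hBd : ∀ Q : Place ℂ K, ¬ BdX (K := K) (E := E) (C := C) (fun _ => False)
      (∅ : Set (Place ℂ C)) Q := by
    rintro Q (⟨_, _, h3, -⟩ | ⟨_, h3, -⟩)
    · exact h3
    · exact h3
  have hMne : ∀ i, M i ≠ 0 := fun i h0 => by
    have h3 := hM i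
    rw [h0, zero_mul] at h3
    omega
  obtain ⟨v, hv, t, ht, D0, hD0, -, h, hval, hcase⟩ := core hsup hE hK (BX := fun _ => False)
    (B := (∅ : Set (Place ℂ C))) Set.finite_empty (L := L) (BL := fun _ => False)
    (fun P Q e h1 => ⟨fun h => absurd h id, fun h => absurd h (hBd Q)⟩) x hx0 hgen hw M hM hψ0 hψ
    s hs
  have hfib : FibR E L n (finrank L (IntermediateField.adjoin L (E : Set K))) a ∨
      KodGe ℂ L (n + 1) (fun _ => False) a := by
    rcases hcase with h1 | h1 | ⟨h1, -⟩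
    · left
      obtain ⟨hfirst, s', hs', hsL⟩ :=
        zero_case hsup hE hK x hx0 hgen hw M hM hψ0 hψ hv ht hD0 hval h1
      obtain ⟨h2, h3, h4, h5⟩ := base_kod E hE hcl x hx0 hgen hw M hM hψ0 hψ hfirst
        (kod_X x hx0 hw M hMne hψ0 hψ s hs)
      refine ⟨_, fun z hz => closed_comap _ hcl hz, h2, ?_, h3, h4, h5,
        to_ratfunc _ hs' hsL hfirst⟩
      rintro _ ⟨z, hz, rfl⟩
      exact hz
    · exact Or.inr (kodGe_mono (Nat.le_succ a) h1)
    · exact Or.inr h1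
  have h43 : FibR E L n (finrank L (IntermediateField.adjoin L (E : Set K))) a →
      IsUniruled ℂ L (n + 1) := by
    rintro ⟨N, -, hN, -, -, -, -, M, i1, i2, i3, ⟨φ⟩⟩
    exact unir_of_fib hL hN φ
  have h32 : IsUniruled ℂ L (n + 1) → ¬ Psef ℂ L (n + 1) (fun _ => False) := fun h' h =>
    (Pool.Agent.W619.Y.uniruled_neg (n + 1) hL h').1 ((Pool.Agent.TH466.QG.psef_iff (n + 1)).1 h)
  have h21 : ¬ Psef ℂ L (n + 1) (fun _ => False) → ¬ KodGe ℂ L (n + 1) (fun _ => False) 0 :=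
    fun h1 h2 => h1 (Pool.Agent.N145.PL.psef_of_kodGe' h2)
  refine ⟨?_, fun h0 => ?_⟩
  · tfae_have 1 → 4 := fun h1 => hfib.resolve_right fun h2 => h1 (kodGe_mono (Nat.zero_le a) h2)
    tfae_have 4 → 3 := h43
    tfae_have 3 → 2 := h32
    tfae_have 2 → 1 := h21
    tfae_finish
  · exact hfib.resolve_left fun h1 => h21 (h32 (h43 h1)) h0

/-- **The classification.** -/
theorem tri (hsup : E ⊔ C = ⊤) (hE : Algebra.trdeg ℂ E = n)
    (hK : Algebra.trdeg ℂ K = (n + 1 : ℕ)) (x : ∀ i, Fin (m i + 1) → E) (hx0 : ∀ i, x i 0 = 1)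
    (hgen : Lv L (fun i b => (x i b : K)) κ = IntermediateField.adjoin L (E : Set K)) {w : ℕ}
    (hw : 0 < w) (M : Fin κ → ℕ)
    (hM : ∀ i : Fin κ, 2 * (finrank L (Lv L (fun i b => (x i b : K)) (i + 1)) -
      finrank L (Lv L (fun i b => (x i b : K)) i)) * w <
      M i * finrank L (Lv L (fun i b => (x i b : K)) i))
    {ψ : (Fin n → Derivation ℂ E E) → E} (hψ0 : ∃ D, ψ D ≠ 0)
    (hψ : ∀ f, LogSec ℂ E n w (fun _ => False) (fun D => mlt x M f * ψ D))
    (s : Fin n → Σ i, Fin (m i + 1)) (hs : AlgebraicIndependent ℂ fun l => x (s l).1 (s l).2) :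
    KodGe ℂ L (n + 1) (fun _ => False) (n + 1) ∨
    (FibE E L n (finrank L (IntermediateField.adjoin L (E : Set K))) n ∧
      NumLe ℂ L (n + 1) (fun _ => False) n ∧
      ((IsUniruled ℂ L (n + 1) ∧
        FibR E L n (finrank L (IntermediateField.adjoin L (E : Set K))) n) ∨
        KodGe ℂ L (n + 1) (fun _ => False) n)) := by
  have hL : Algebra.trdeg ℂ L = (n + 1 : ℕ) := Pool.Agent.Y184.NT.trdeg_below (K := K) hK
  have hessL : Algebra.EssFiniteType ℂ L := Pool.Agent.TH466.QG.ess_below (K := K)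
  obtain ⟨hna, -, hcl⟩ := closed K n E C hsup hE hK
  have hBd : ∀ Q : Place ℂ K, ¬ BdX (K := K) (E := E) (C := C) (fun _ => False)
      (∅ : Set (Place ℂ C)) Q := by
    rintro Q (⟨_, _, h3, -⟩ | ⟨_, h3, -⟩)
    · exact h3
    · exact h3
  obtain ⟨v, hv, t, ht, D0, hD0, -, h, hval, hcase⟩ := core hsup hE hK (BX := fun _ => False)
    (B := (∅ : Set (Place ℂ C))) Set.finite_empty (L := L) (BL := fun _ => False)
    (fun P Q e h1 => ⟨fun h => absurd h id, fun h => absurd h (hBd Q)⟩) x hx0 hgen hw M hM hψ0 hψ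
    s hs
  have hnum : FibE E L n (finrank L (IntermediateField.adjoin L (E : Set K))) n →
      NumLe ℂ L (n + 1) (fun _ => False) n := by
    rintro ⟨N, h1, h2, -, -, -, -, h3⟩
    exact num_of_fib hL h1 h2 h3
  have hT := (nonvan hsup hE hK x hx0 hgen hw M hM hψ0 hψ s hs).1
  have hU : IsUniruled ℂ L (n + 1) → IsUniruled ℂ L (n + 1) ∧
        FibR E L n (finrank L (IntermediateField.adjoin L (E : Set K))) n := fun h =>
    ⟨h, (hT.out 2 3).1 h⟩
  have hN := (nonvan hsup hE hK x hx0 hgen hw M hM hψ0 hψ s hs).2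
  have hlast : (IsUniruled ℂ L (n + 1) ∧
        FibR E L n (finrank L (IntermediateField.adjoin L (E : Set K))) n) ∨
        KodGe ℂ L (n + 1) (fun _ => False) n := by
    by_cases h0 : KodGe ℂ L (n + 1) (fun _ => False) 0
    · exact Or.inr (hN h0)
    · exact Or.inl (hU ((hT.out 0 2).1 h0))
  rcases hcase with h1 | h1 | ⟨h1, S0, hS0, -, h2⟩
  · right
    have h3 := one_case hsup hE hK x hx0 hgen hw M hM hψ0 hψ s hs hv ht hD0 hval (S0 := 0)
      fun φ hφ => ⟨0, by rw [h1 φ hφ]; simp⟩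
    exact ⟨h3, hnum h3, hlast⟩
  · exact Or.inl h1
  · right
    have h3 := one_case hsup hE hK x hx0 hgen hw M hM hψ0 hψ s hs hv ht hD0 hval h2
    exact ⟨h3, hnum h3, hlast⟩

/-- **General type and coverings.** -/
theorem lang (hsup : E ⊔ C = ⊤) (hE : Algebra.trdeg ℂ E = n)
    (hK : Algebra.trdeg ℂ K = (n + 1 : ℕ)) (x : ∀ i, Fin (m i + 1) → E) (hx0 : ∀ i, x i 0 = 1)
    (hgen : Lv L (fun i b => (x i b : K)) κ = IntermediateField.adjoin L (E : Set K)) {w : ℕ}
    (hw : 0 < w) (M : Fin κ → ℕ)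
    (hM : ∀ i : Fin κ, 2 * (finrank L (Lv L (fun i b => (x i b : K)) (i + 1)) -
      finrank L (Lv L (fun i b => (x i b : K)) i)) * w <
      M i * finrank L (Lv L (fun i b => (x i b : K)) i))
    {ψ : (Fin n → Derivation ℂ E E) → E} (hψ0 : ∃ D, ψ D ≠ 0)
    (hψ : ∀ f, LogSec ℂ E n w (fun _ => False) (fun D => mlt x M f * ψ D))
    (s : Fin n → Σ i, Fin (m i + 1)) (hs : AlgebraicIndependent ℂ fun l => x (s l).1 (s l).2) :
    [KodGe ℂ L (n + 1) (fun _ => False) (n + 1), ¬ Cov1 L n,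
      ¬ FibE E L n (finrank L (IntermediateField.adjoin L (E : Set K))) n].TFAE := by
  have hL : Algebra.trdeg ℂ L = (n + 1 : ℕ) := Pool.Agent.Y184.NT.trdeg_below (K := K) hK
  have hessL : Algebra.EssFiniteType ℂ L := Pool.Agent.TH466.QG.ess_below (K := K)
  tfae_have 1 → 2 := fun h hc => not_gt_of_cov1 hL hc h
  tfae_have 2 → 3 := fun h hf => by
    obtain ⟨N, -, hN, -, -, -, -, hG⟩ := hf
    exact h (cov1_of_fib hN hG)
  tfae_have 3 → 1 := fun h => by
    rcases tri hsup hE hK x hx0 hgen hw M hM hψ0 hψ s hs with h1 | ⟨h1, -⟩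
    · exact h1
    · exact absurd h1 h
  tfae_finish

end

end Run7.h72
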