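import Pool.Agent.Run7.h72.Norm
import Pool.Agent.W602.GT.KDefs

/-!
Norms of pluricanonical forms: regularity at the prime divisors of the base.
-/

set_option autoImplicit false
set_option linter.overlappingInstances false
set_option linter.unusedSectionVars false

open FF Polynomial Module
open Pool.Agent.W602.GT Pool.Agent.W603.LV Pool.Agent.W619.PQ Pool.Agent.Y172

namespace Run7.h72

section

variable {k K L : Type} [Field k] [CharZero k] [Field K] [Field L] [Algebra k K] [Algebra k L]
  [Algebra K L] [IsScalarTower k K L] [FiniteDimensional K L] {n : ℕ}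

/-- The norm of the `N`-canonical form `W` times `x`: the values on the vector fields `E i` are
computed with the lifts `E' i`; `z` are the coordinates dual to `E`. -/
noncomputable def nf (z : Fin n → K) (E' : Fin n → Derivation k L L) (N : ℕ)
    (W : (Fin n → Derivation k L L) → L) (x : L) (D : Fin n → Derivation k K K) : K :=
  (Matrix.of fun i j => D i (z j)).det ^ (N * finrank K L) * Algebra.norm K (W E' * x)

theorem sum_smul_app (A : Fin n → K) (D : Fin n → Derivation k K K) (f : K) :
    (∑ j, A j • D j) f = ∑ j, A j * D j f := by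
  have h1 : (∑ j, A j • D j) f = ∑ j, (A j • D j) f :=
    congrFun (map_sum Derivation.coeFnAddMonoidHom (fun j => A j • D j) Finset.univ |>.trans
      rfl) f |>.trans (Finset.sum_apply _ _ _)
  rw [h1]
  rfl

theorem nf_pluri (z : Fin n → K) (E' : Fin n → Derivation k L L) (N : ℕ)
    (W : (Fin n → Derivation k L L) → L) (x : L) :
    IsPluri (N * finrank K L) (nf z E' N W x) := by
  intro A D
  have e1 : (Matrix.of fun a b => (∑ j, A a j • D j) (z b)) =
      A * Matrix.of fun a b => D a (z b) := by
    ext a b
    rw [Matrix.of_apply, Matrix.mul_apply, sum_smul_app]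
    rfl
  change (Matrix.of fun a b => (∑ j, A a j • D j) (z b)).det ^ (N * finrank K L) * _ = _
  rw [e1, Matrix.det_mul, mul_pow, mul_assoc]
  rfl

/-- The value on vector fields with arbitrary lifts. -/
theorem nf_lift {z : Fin n → K} (hz : IsTranscendenceBasis k z) {E : Fin n → Derivation k K K}
    (hE : ∀ i j, E i (z j) = if i = j then 1 else 0) {E' : Fin n → Derivation k L L}
    (hE' : ∀ i f, E' i (algebraMap K L f) = algebraMap K L (E i f)) {N : ℕ}
    {W : (Fin n → Derivation k L L) → L} (hW : IsPluri N W) (x : L)
    {D : Fin n → Derivation k K K} {D' : Fin n → Derivation k L L}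
    (hD' : ∀ i f, D' i (algebraMap K L f) = algebraMap K L (D i f)) :
    nf z E' N W x D = Algebra.norm K (W D' * x) := by
  have h1 := pluri_coord (hz.algebraMap_comp (A := L)) (lift_dual hE hE') hW D'
  have h2 : (Matrix.of fun i j => D' i ((algebraMap K L ∘ z) j)).det =
      algebraMap K L (Matrix.of fun i j => D i (z j)).det := by
    rw [RingHom.map_det]
    congr 1
    ext i j
    rw [Matrix.of_apply, RingHom.mapMatrix_apply, Matrix.map_apply, Matrix.of_apply]
    exact hD' i (z j)
  have h3 : (Matrix.of fun i j => D' i (algebraMap K L (z j))).det =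
      (Matrix.of fun i j => D' i ((algebraMap K L ∘ z) j)).det := rfl
  rw [h1, h2, mul_assoc, map_mul, ← map_pow, Algebra.norm_algebraMap, ← pow_mul]
  rfl

/-- linear in the form: multiples by elements of the base field -/
theorem nf_smul (z : Fin n → K) (E' : Fin n → Derivation k L L) (N : ℕ)
    (W : (Fin n → Derivation k L L) → L) (x : L) (g : K) (D : Fin n → Derivation k K K) :
    nf z E' N (fun D => algebraMap K L g * W D) x D = g ^ finrank K L * nf z E' N W x D := by
  unfold nf
  rw [mul_assoc, map_mul, Algebra.norm_algebraMap]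
  ring

/-- **Regularity criterion.** -/
theorem nf_regAt {P : Place k K} {y : Fin n → K} {EP : Fin n → Derivation k K K} {i0 : Fin n}
    (hl : Loc P y EP i0) {EP' : Fin n → Derivation k L L}
    (hEP' : ∀ i f, EP' i (algebraMap K L f) = algebraMap K L (EP i f))
    {z : Fin n → K} (hz : IsTranscendenceBasis k z) {E : Fin n → Derivation k K K}
    (hE : ∀ i j, E i (z j) = if i = j then 1 else 0) {E' : Fin n → Derivation k L L}
    (hE' : ∀ i f, E' i (algebraMap K L f) = algebraMap K L (E i f)) {N : ℕ}
    {W : (Fin n → Derivation k L L) → L} (hW : IsPluri N W) {x : L}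
    (h : P.Reg (Algebra.norm K (W EP' * x))) : RegAt P (nf z E' N W x) := by
  intro D hD
  have h1 := pluri_coord hl.bas hl.dual (nf_pluri z E' N W x) D
  rw [h1, nf_lift hz hE hE' hW x hEP']
  refine P.reg_mul ?_ h
  have h2 : Ge P 0 (Matrix.of fun i j => D i (y j)).det :=
    Pool.Agent.W619.PQ.ge_det P _ fun a b => hD a _ (hl.reg b)
  have h3 := h2.pow (N * finrank K L)
  rw [mul_zero] at h3
  exact h3

/-- **Criterion for logarithmic poles.** -/
theorem nf_logAt {P : Place k K} {y : Fin n → K} {EP : Fin n → Derivation k K K} {i0 : Fin n}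
    (hl : Loc P y EP i0) {EP' : Fin n → Derivation k L L}
    (hEP' : ∀ i f, EP' i (algebraMap K L f) = algebraMap K L (EP i f))
    {z : Fin n → K} (hz : IsTranscendenceBasis k z) {E : Fin n → Derivation k K K}
    (hE : ∀ i j, E i (z j) = if i = j then 1 else 0) {E' : Fin n → Derivation k L L}
    (hE' : ∀ i f, E' i (algebraMap K L f) = algebraMap K L (E i f)) {N : ℕ}
    {W : (Fin n → Derivation k L L) → L} (hW : IsPluri N W) {x : L}
    (h : P.Reg (Algebra.norm K (W (fun i => algebraMap K L (lc y i0 i) • EP' i) * x))) :
    LogAt P (nf z E' N W x) := by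
  classical
  intro D hD
  have h1 := pluri_coord hl.bas hl.dual (nf_pluri z E' N W x) D
  have h2 : nf z E' N W x (fun i => lc y i0 i • EP i) =
      Algebra.norm K (W (fun i => algebraMap K L (lc y i0 i) • EP' i) * x) := by
    refine nf_lift hz hE hE' hW x fun i f => ?_
    change algebraMap K L (lc y i0 i) * EP' i (algebraMap K L f) =
      algebraMap K L (lc y i0 i * EP i f)
    rw [hEP', map_mul]
  have h3 := pluri_diag (nf_pluri z E' N W x) (lc y i0) EP
  rw [prod_lc, h2] at h3
  -- the determinant vanishes
  have h4 : Ge P 1 (Matrix.of fun i j => D i (y j)).det := by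
    rw [← Matrix.det_transpose]
    refine Pool.Agent.W603.LV.ge_det P _ 1 (fun a _ => if a = i0 then 1 else 0) (fun a b => ?_)
      fun σ => ?_
    · change Ge P (if a = i0 then 1 else 0) (D b (y a))
      split_ifs with ha
      · rw [ha]
        exact DerLog.ge (hD b) (Or.inr (by rw [hl.unif]))
      · exact DerLog.ge (hD b) (hl.reg a)
    · have h3 : ∑ i, (if σ i = i0 then (1 : ℤ) else 0) = 1 := by
        rw [Finset.sum_eq_single (σ.symm i0)]
        · simp
        · intro i _ hi
          rw [if_neg]
          intro h
          exact hi (by rw [← h]; simp)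
        · intro h
          exact absurd (Finset.mem_univ _) h
      exact h3.ge
  rw [h1]
  have h5 : nf z E' N W x EP = (y i0)⁻¹ ^ (N * finrank K L) *
      Algebra.norm K (W (fun i => algebraMap K L (lc y i0 i) • EP' i) * x) := by
    rw [h3, ← mul_assoc, ← mul_pow, inv_mul_cancel₀ hl.ne, one_pow, one_mul]
  rw [h5, ← mul_assoc, ← mul_pow]
  refine P.reg_mul ?_ h
  have h6 : Ge P (-1) (y i0)⁻¹ := Or.inr (by rw [P.ord_inv, hl.unif])
  have h7 := (h4.mul h6).pow (N * finrank K L)
  rw [add_neg_cancel, mul_zero] at h7
  exact h7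

end

end Run7.h72
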