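import Pool.Agent.N145.SX.All3
import Pool.Agent.N545.SX.GEO

/-!
Curves of genus at most one from proportional traces. After `Pool.Agent.N459.SX.COV`.
-/

set_option autoImplicit false
set_option linter.overlappingInstances false
set_option linter.unusedSectionVars false
set_option linter.unusedVariables false

open Polynomial FF IntermediateField Module

namespace Run7.h72

open Pool.Agent.W603.LV Pool.Agent.W619.PQ Pool.Agent.N145.PC Pool.Agent.N145.PL
open Pool.Agent.Y184.NT (trForm)
open Pool.Agent.N145.SX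
open Pool.Agent.N459.SX (trace_eq_of_mem)

set_option synthInstance.maxHeartbeats 400000 in
set_option maxHeartbeats 4000000 in
/-- **Curves of genus at most one.** -/
theorem geo1 (K : Type) [Field K] [Algebra ℂ K] [hess : Algebra.EssFiniteType ℂ K] (n : ℕ)
    (E C : IntermediateField ℂ K) [IsFF ℂ C] (hsup : E ⊔ C = ⊤) (hE : Algebra.trdeg ℂ E = n)
    (hK : Algebra.trdeg ℂ K = (n + 1 : ℕ)) (x : Fin n → E) (hx : IsTranscendenceBasis ℂ x)
    (τ : C) (hτ : Transcendental ℂ τ) (D0 : Derivation ℂ C C) (hD0 : D0 τ = 1)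
    (L : Type) [Field L] [Algebra ℂ L] [Algebra L K] [IsScalarTower ℂ L K]
    [FiniteDimensional L K] (h : K)
    (hval : ∀ (M : IntermediateField L K) (g : K) (D : Fin (n + 1) → Derivation ℂ M M)
      (D' : Fin (n + 1) → Derivation ℂ K K),
      (∀ i z, D' i (algebraMap M K z) = algebraMap M K (D i z)) →
      ∃ a : M, trForm (zz K x τ) g D' = algebraMap M K a * (h * g)) (S0 : K)
    (htr : ∀ φ ∈ HL D0 (∅ : Set (Place ℂ C)), ∃ c : E,
      ((Algebra.trace (IntermediateField.adjoin L (E : Set K)) K (h * (φ : K)) :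
        IntermediateField.adjoin L (E : Set K)) : K) = (c : K) * S0) :
    ∃ (R : Type) (_ : Field R) (_ : Algebra (algebraicClosure E (AlgebraicClosure K)) R)
      (_ : Algebra R (AlgebraicClosure K))
      (_ : IsScalarTower (algebraicClosure E (AlgebraicClosure K)) R (AlgebraicClosure K))
      (_ : IsFF (algebraicClosure E (AlgebraicClosure K)) R),
      GLO (algebraicClosure E (AlgebraicClosure K)) R ∧
      ∀ z : L, algebraMap K (AlgebraicClosure K) (algebraMap L K z) ∈
        Set.range (algebraMap R (AlgebraicClosure K)) := by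
  classical
  have hfib1 : S_FIB1 := Pool.Agent.N273.SX.FIB1 closed
  obtain ⟨hcl1, -, hcl3⟩ := closed K n E C hsup hE hK
  -- the image in the product with the other factor
  obtain ⟨M, hM⟩ : ∃ M, M = IntermediateField.adjoin L (E : Set K) := ⟨_, rfl⟩
  have hle : E ≤ M.restrictScalars ℂ := by
    intro y hy
    rw [mem_restrictScalars, hM]
    exact IntermediateField.subset_adjoin L _ hy
  have hfinM : FiniteDimensional (M.restrictScalars ℂ : IntermediateField ℂ K) K := by
    have h1 : FiniteDimensional M K := inferInstance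
    exact h1
  obtain ⟨E', hE'⟩ : ∃ E' : IntermediateField E K,
      E' = IntermediateField.extendScalars hle := ⟨_, rfl⟩
  have hE'm : ∀ z : K, z ∈ M ↔ z ∈ E' := by
    intro z
    rw [hE', IntermediateField.mem_extendScalars, mem_restrictScalars]
  have hfinE : FiniteDimensional E' K := by
    have h1 : FiniteDimensional M K := inferInstance
    rw [hE']
    exact h1
  obtain ⟨t, ξ, ht, hξM, hξ, hZ, DE, Ef, hlift, hEfB, hEf⟩ :=
    exists_frame hK E hE (M.restrictScalars ℂ) hle
  -- the determinant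
  have hzb : IsTranscendenceBasis ℂ (zz K x τ) :=
    Pool.Agent.N603.SX.basis_zz hE hK hx (hcl1 τ hτ)
  have hzc : ∀ j : Fin n, zz K x τ j.castSucc = (x j : K) := fun j =>
    Fin.snoc_castSucc (α := fun _ => K) _ _ _
  have hzl : zz K x τ (Fin.last n) = (τ : K) := Fin.snoc_last (α := fun _ => K) _ _
  obtain ⟨A, hA⟩ : ∃ A, A = (Matrix.of fun i j => Ef i (zz K x τ j) :
    Matrix (Fin (n + 1)) (Fin (n + 1)) K) := ⟨_, rfl⟩
  have hAij : ∀ i j, A i j = Ef i (zz K x τ j) := by
    intro i j
    rw [hA, Matrix.of_apply]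
  have hform : ∀ g : K, trForm (zz K x τ) g Ef = A.det * g := by
    intro g
    rw [hA]
    rfl
  have hdt0 : A.det ≠ 0 := by
    obtain ⟨D1, hD1⟩ := Pool.Agent.W636.PG.exists_duals ℂ K (n + 1) _ hzb
    intro h0
    have h1 := Pool.Agent.Y172.pluri_coord hZ hEf (Pool.Agent.Y184.NT.trForm_pluri (zz K x τ) 1) D1
    rw [hform, h0, zero_mul, mul_zero] at h1
    have h2 : (Matrix.of fun i j => D1 i (zz K x τ j) : Matrix (Fin (n + 1)) (Fin (n + 1)) K) =
        1 := by
      ext i j
      rw [Matrix.of_apply, hD1, Matrix.one_apply]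
    change (Matrix.of fun i j => D1 i (zz K x τ j) :
      Matrix (Fin (n + 1)) (Fin (n + 1)) K).det * 1 = 0 at h1
    rw [h2, Matrix.det_one, mul_one] at h1
    exact one_ne_zero h1
  obtain ⟨ε, hε0, hε⟩ := Pool.Agent.N145.PC.det_one (A := A) (i0 := Fin.last n) (by
    intro j hj
    obtain ⟨l, rfl⟩ := Fin.exists_castSucc_eq.2 hj
    rw [hAij, hzc]
    exact hEfB _ (x l).2)
  rw [hAij, hzl] at hε
  obtain ⟨mi, hmi⟩ : ∃ mi, mi = (A.submatrix Fin.castSucc (Fin.last n).succAbove).det := ⟨_, rfl⟩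
  rw [← hmi] at hε
  have hmi0 : mi ≠ 0 := by
    intro h1
    apply hdt0
    rw [hε, h1, mul_zero]
  have hmiM : mi ∈ M := by
    rw [hmi, Matrix.det_apply]
    refine sum_mem fun σ _ => ?_
    rw [Units.smul_def, zsmul_eq_mul]
    refine mul_mem (intCast_mem _ _) (prod_mem fun j _ => ?_)
    rw [Matrix.submatrix_apply, hAij, Fin.succAbove_last, hzc]
    have h3 : (x j : K) ∈ M.restrictScalars ℂ := hle (x j).2
    have h4 := hlift (σ j).castSucc ⟨_, h3⟩
    change Ef (σ j).castSucc (x j : K) = _ at h4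
    rw [h4]
    exact (DE (σ j).castSucc ⟨_, h3⟩).2
  -- the value
  obtain ⟨a, ha⟩ := hval M 1 (fun i => (DE i : Derivation ℂ M M)) Ef (fun i g => hlift i g)
  rw [hform, hε, mul_one, mul_one] at ha
  have hc : ((ε : K) * mi) ∈ M := mul_mem (intCast_mem _ _) hmiM
  have hc0 : (ε : K) * mi ≠ 0 := by
    intro h6
    rcases mul_eq_zero.1 h6 with h7 | h7
    · have : CharZero K := charZero_of_injective_algebraMap (algebraMap ℂ K).injective
      exact hε0 (by exact_mod_cast h7)
    · exact hmi0 h7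
  obtain ⟨v, hv⟩ : ∃ v : M, v = a / ⟨(ε : K) * mi, hc⟩ := ⟨_, rfl⟩
  have hvK : (v : K) = (a : K) / ((ε : K) * mi) := by
    rw [hv]
    rfl
  have hEv : Ef (Fin.last n) (τ : K) = (v : K) * h := by
    rw [hvK]
    have ha' : (ε : K) * Ef (Fin.last n) (τ : K) * mi = (a : K) * h := ha
    rw [div_mul_eq_mul_div, eq_div_iff hc0]
    linear_combination ha'
  have hfin : ∀ φ ∈ HL D0 (∅ : Set (Place ℂ C)), ∃ c : E,
      ((Algebra.trace E' K (Ef (Fin.last n) (τ : K) * (φ : K)) : E') : K) =
        (c : K) * ((v : K) * S0) := by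
    intro φ hφ
    obtain ⟨c, hcc⟩ := htr φ hφ
    refine ⟨c, ?_⟩
    rw [trace_eq_of_mem M E' hE'm, hEv, mul_assoc]
    have h3 : ((Algebra.trace M K (h * (φ : K)) : M) : K) = (c : K) * S0 := by
      subst hM
      exact hcc
    have h4 : (v : K) * (h * (φ : K)) = v • (h * (φ : K)) := rfl
    rw [h4, map_smul, smul_eq_mul]
    change (v : K) * ((Algebra.trace M K (h * (φ : K)) : M) : K) = _
    rw [h3]
    ring
  -- the fibre
  let Ω := AlgebraicClosure K
  let Λ : IntermediateField E Ω := algebraicClosure E Ω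
  have hΛ : IsAlgClosed Λ := (algebraicClosure.isAlgClosure E Ω).isAlgClosed
  have hΛalg : Algebra.IsAlgebraic E Λ := inferInstance
  let FF : IntermediateField Λ Ω := IntermediateField.adjoin Λ (Set.range (algebraMap K Ω))
  have hTL : IsScalarTower ℂ E Ω := IsScalarTower.of_algebraMap_eq fun z => by
    rw [IsScalarTower.algebraMap_apply ℂ K Ω]
    rfl
  have hTΛ : IsScalarTower ℂ Λ Ω := IsScalarTower.of_algebraMap_eq fun z => by
    rw [IsScalarTower.algebraMap_apply ℂ E Ω]
    rfl
  let φ0 : K →+* FF :=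
    { toFun := fun z => ⟨algebraMap K Ω z, IntermediateField.subset_adjoin _ _ ⟨z, rfl⟩⟩
      map_one' := Subtype.ext (map_one _)
      map_mul' := fun a b => Subtype.ext (map_mul _ _ _)
      map_zero' := Subtype.ext (map_zero _)
      map_add' := fun a b => Subtype.ext (map_add _ _ _) }
  let iKF : Algebra K FF := φ0.toAlgebra
  have hKF : ∀ z : K, ((algebraMap K FF z : FF) : Ω) = algebraMap K Ω z := fun z => rfl
  have hT2 : IsScalarTower ℂ K FF := IsScalarTower.of_algebraMap_eq fun z => by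
    apply Subtype.ext
    rw [hKF, ← IsScalarTower.algebraMap_apply ℂ K Ω]
    rfl
  have hT5 : IsScalarTower ℂ Λ FF := inferInstance
  have hgenF : IntermediateField.adjoin Λ (Set.range (algebraMap K FF)) = ⊤ := by
    have h1 : (IntermediateField.adjoin Λ (Set.range (algebraMap K FF))).map FF.val =
        (⊤ : IntermediateField Λ FF).map FF.val := by
      rw [IntermediateField.adjoin_map, ← AlgHom.fieldRange_eq_map,
        IntermediateField.fieldRange_val]
      congr 1
      ext z
      simp only [Set.mem_image, Set.mem_range]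
      constructor
      · rintro ⟨_, ⟨y, rfl⟩, rfl⟩
        exact ⟨y, rfl⟩
      · rintro ⟨y, rfl⟩
        exact ⟨_, ⟨y, rfl⟩, rfl⟩
    exact IntermediateField.map_injective _ h1
  have hT4 : IsScalarTower E Λ FF := IsScalarTower.of_algebraMap_eq fun z =>
    Subtype.ext rfl
  have hLK : Algebra.trdeg E K = (1 : ℕ) := Pool.Agent.Y174.trdeg_LK (r := 1) hE hK
  have htrF : Algebra.trdeg Λ FF = (1 : ℕ) :=
    Pool.Agent.Y174.trdeg_F (L := E) (K := K) hLK hgenF
  have hessF : Algebra.EssFiniteType Λ FF := Pool.Agent.Y174.ess_F (k := ℂ) (K := K) hess hgenF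
  have hFF : IsFF Λ FF := ⟨hessF, by rw [htrF]; simp⟩
  obtain ⟨hres1, hres2⟩ := hfib1 K n E C hsup hE hK τ hτ D0 hD0 E' t ht ξ
    ((hE'm ξ).1 hξM) hξ hZ Ef hEf ((v : K) * S0) hfin Λ FF (fun z hz => Subtype.ext rfl) hgenF
    (IntermediateField.adjoin Λ (algebraMap K FF '' (E' : Set K))) rfl
  obtain ⟨FE, hFE⟩ : ∃ FE : IntermediateField Λ FF,
    FE = IntermediateField.adjoin Λ (algebraMap K FF '' (E' : Set K)) := ⟨_, rfl⟩
  rw [← hFE] at hres1 hres2
  let iR : Algebra FE Ω := ((algebraMap FF Ω).comp (algebraMap FE FF)).toAlgebra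
  have hTR : IsScalarTower Λ FE Ω := IsScalarTower.of_algebraMap_eq fun z => rfl
  refine ⟨FE, inferInstance, inferInstance, iR, hTR, hres1, hres2, fun z => ?_⟩
  have hz : algebraMap L K z ∈ E' := (hE'm _).1 (M.algebraMap_mem z)
  have hz2 : algebraMap K FF (algebraMap L K z) ∈ FE := by
    rw [hFE]
    exact IntermediateField.subset_adjoin _ _ ⟨_, hz, rfl⟩
  exact ⟨⟨_, hz2⟩, rfl⟩

end Run7.h72
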