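import Pool.Agent.Run7.h72.Up
import Pool.Agent.Y172.Rel

/-!
Horizontal divisors: if the order of a form along a horizontal divisor is too small and the image has
sections, then there are too many sections upstairs.
-/

set_option autoImplicit false
set_option linter.overlappingInstances false
set_option linter.unusedSectionVars false
set_option maxHeartbeats 4000000
set_option synthInstance.maxHeartbeats 400000

open FF Module
open Pool.Agent.W602.GT Pool.Agent.W603.LV Pool.Agent.W619.PQ Pool.Agent.Y172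
open Pool.Agent.W619.TW (IsSec HasIndep Dom NumNeg NumLe)
open Pool.Agent.W619.Y (BdUp)

namespace Run7.h72

section

variable {k L : Type} [Field k] [CharZero k] [Field L] [Algebra k L] {n : ℕ}

/-- elements with distinct orders -/
theorem distinct_sum {Q : Place k L} {M : ℕ} {g e : Fin M → L}
    (hg : StrictMono fun i => Q.ord (g i)) (hg0 : ∀ i, g i ≠ 0)
    (he : ∀ i, e i = 0 ∨ (e i ≠ 0 ∧ Q.ord (e i) = 0)) (h : ∑ i, e i * g i = 0) (i : Fin M) :
    e i = 0 := by
  classical
  by_contra hi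
  obtain ⟨i0, hi0, hmin⟩ := Finset.exists_min_image (Finset.univ.filter fun i => e i ≠ 0)
    (fun i => i) ⟨i, by rw [Finset.mem_filter]; exact ⟨Finset.mem_univ _, hi⟩⟩
  rw [Finset.mem_filter] at hi0
  rw [← Finset.add_sum_erase _ _ (Finset.mem_univ i0)] at h
  have h1 : Ge Q (Q.ord (g i0) + 1) (∑ i ∈ Finset.univ.erase i0, e i * g i) := by
    refine ge_sum _ _ fun j hj => ?_
    rcases he j with h2 | ⟨h2, h3⟩
    · left; rw [h2, zero_mul]
    right
    rw [Q.ord_mul h2 (hg0 j), h3, zero_add]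
    have h4 : i0 ≤ j := hmin j (by rw [Finset.mem_filter]; exact ⟨Finset.mem_univ _, h2⟩)
    have h5 : i0 < j := lt_of_le_of_ne h4 (Ne.symm (Finset.ne_of_mem_erase hj))
    exact hg h5
  have h2 : e i0 * g i0 = -(∑ i ∈ Finset.univ.erase i0, e i * g i) := eq_neg_of_add_eq_zero_left h
  have h3 := h1.neg
  rw [← h2] at h3
  have h4 := h3.resolve_left (mul_ne_zero hi0.2 (hg0 i0))
  rw [Q.ord_mul hi0.2 (hg0 i0), ((he i0).resolve_left hi0.2).2] at h4
  omega

/-- products of elements with distinct orders and monomials in a trivially valued field -/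
theorem indep_E (E : IntermediateField k L) {Q : Place k L}
    (htriv : ∀ z ∈ E, z ≠ 0 → Q.ord z = 0) {a p M : ℕ} {u : Fin a → L} (huE : ∀ s, u s ∈ E)
    (hu : AlgebraicIndependent k u) {g : Fin M → L} (hg : StrictMono fun i => Q.ord (g i))
    (hg0 : ∀ i, g i ≠ 0) :
    LinearIndependent k fun q : Fin M × (Fin a → Fin p) =>
      g q.1 * ∏ s, u s ^ (q.2 s : ℕ) := by
  classical
  have hmono : LinearIndependent k fun α : Fin a → Fin p => ∏ s, u s ^ (α s : ℕ) :=
    (Pool.Agent.Y172.mono_indep hu).comp (fun (α : Fin a → Fin p) s => (α s : ℕ)) (by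
      intro α α' h
      funext s
      exact Fin.ext (congrFun h s))
  rw [Fintype.linearIndependent_iff] at hmono ⊢
  intro c hc
  let e : Fin M → L := fun i => ∑ α : Fin a → Fin p, c (i, α) • ∏ s, u s ^ (α s : ℕ)
  have heE : ∀ i, e i ∈ E := fun i => by
    refine sum_mem fun α _ => ?_
    rw [Algebra.smul_def]
    exact mul_mem (E.algebraMap_mem _) (prod_mem fun s _ => pow_mem (huE s) _)
  have h1 : ∑ i, e i * g i = 0 := by
    rw [← hc, Fintype.sum_prod_type]
    refine Finset.sum_congr rfl fun i _ => ?_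
    rw [Finset.sum_mul]
    refine Finset.sum_congr rfl fun α _ => ?_
    rw [Algebra.smul_def, Algebra.smul_def]
    ring
  have h2 := distinct_sum hg hg0 (fun i => by
    by_cases h : e i = 0
    · exact Or.inl h
    · exact Or.inr ⟨h, htriv _ (heE i) h⟩) h1
  rintro ⟨i, α⟩
  exact hmono (fun α => c (i, α)) (h2 i) α

theorem dom_mul {v : Place k L} {S : Finset L} {f g : L} (h : Dom v S 1 f) (hg : v.Reg g) :
    Dom v S 1 (f * g) := by
  by_cases hf : f = 0
  · left; rw [hf, zero_mul]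
  by_cases hg0 : g = 0
  · left; rw [hg0, mul_zero]
  right
  obtain ⟨s, hs, hs0, hsf⟩ := h.resolve_left hf
  refine ⟨s, hs, hs0, ?_⟩
  rw [v.ord_mul hf hg0]
  have := hg.resolve_left hg0
  linarith

open scoped Classical in
theorem dom_pow {v : Place k L} {S : Finset L} {f : L} (h : Dom v S 1 f) {N : ℕ} (hN : 0 < N) :
    Dom v (S.image fun s => s ^ N) 1 (f ^ N) := by
  by_cases hf : f = 0
  · left; rw [hf, zero_pow hN.ne']
  right
  obtain ⟨s, hs, hs0, hsf⟩ := h.resolve_left hf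
  refine ⟨s ^ N, Finset.mem_image_of_mem _ hs, pow_ne_zero _ hs0, ?_⟩
  rw [v.ord_pow, v.ord_pow]
  have h1 : v.ord s ≤ v.ord f := by simpa using hsf
  have h2 : (0 : ℤ) ≤ N := Int.natCast_nonneg _
  have := mul_le_mul_of_nonneg_left h1 h2
  simpa using this

theorem logSec_mul {m m' : ℕ} {B : Place k L → Prop} {ω ω' : (Fin n → Derivation k L L) → L}
    (h : LogSec k L n m B ω) (h' : LogSec k L n m' B ω') :
    LogSec k L n (m + m') B (fun D => ω D * ω' D) :=
  ⟨pluri_mul h.1 h'.1, fun P hP D hD => P.reg_mul (h.2.1 P hP D hD) (h'.2.1 P hP D hD),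
    fun P hP hB D hD => P.reg_mul (h.2.2 P hP hB D hD) (h'.2.2 P hP hB D hD)⟩

theorem reg_pow {P : Place k L} {f : L} (h : P.Reg f) (r : ℕ) : P.Reg (f ^ r) := by
  have h1 : Ge P 0 (f ^ r) := by
    have := Ge.pow (P := P) (N := 0) h r
    simpa using this
  exact h1

theorem logSec_pow {m : ℕ} {B : Place k L → Prop} {ω : (Fin n → Derivation k L L) → L}
    (h : LogSec k L n m B ω) (r : ℕ) :
    LogSec k L n (m * r) B (fun D => ω D ^ r) :=
  ⟨pluri_pow h.1 r, fun P hP D hD => reg_pow (h.2.1 P hP D hD) r,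
    fun P hP hB D hD => reg_pow (h.2.2 P hP hB D hD) r⟩

theorem logSec_prod {m : ℕ} {B : Place k L → Prop} {a : ℕ}
    {ω : Fin a → (Fin n → Derivation k L L) → L} (h : ∀ s, LogSec k L n m B (ω s))
    (b : Fin a → ℕ) : LogSec k L n (m * ∑ s, b s) B (fun G => ∏ s, ω s G ^ b s) := by
  classical
  induction a with
  | zero =>
    refine ⟨fun A G => by simp, fun P _ G _ => ?_, fun P _ _ G _ => ?_⟩
    · beta_reduce
      rw [Fin.prod_univ_zero]
      exact P.reg_one
    · beta_reduce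
      rw [Fin.prod_univ_zero]
      exact P.reg_one
  | succ a ih =>
    have h1 := logSec_mul (ih (fun s => h s.castSucc) fun s => b s.castSucc)
      (logSec_pow (h (Fin.last a)) (b (Fin.last a)))
    have e1 : m * ∑ s : Fin a, b s.castSucc + m * b (Fin.last a) = m * ∑ s, b s := by
      rw [Fin.sum_univ_castSucc]
      ring
    rw [e1] at h1
    have e3 : (fun G => (∏ s : Fin a, ω s.castSucc G ^ b s.castSucc) *
        ω (Fin.last a) G ^ b (Fin.last a)) = fun G => ∏ s, ω s G ^ b s := by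
      funext G
      rw [Fin.prod_univ_castSucc]
    rw [e3] at h1
    exact h1

theorem isSec_mul {m m' : ℕ} {B : Place k L → Prop} {S : Finset L}
    {ω ω' : (Fin n → Derivation k L L) → L}
    (h : IsSec k L n B S m 1 ω) (h' : LogSec k L n m' B ω') :
    IsSec k L n B S (m + m') 1 (fun D => ω D * ω' D) :=
  ⟨pluri_mul h.1 h'.1, fun P hP hB D hD => dom_mul (h.2.1 P hP hB D hD) (h'.2.2 P hP hB D hD),
    fun P hP hB D hD => dom_mul (h.2.2 P hP hB D hD) (h'.2.1 P hP D hD)⟩

open scoped Classical in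
theorem isSec_pow {m : ℕ} {B : Place k L → Prop} {S : Finset L}
    {ω : (Fin n → Derivation k L L) → L}
    (h : IsSec k L n B S m 1 ω) {N : ℕ} (hN : 0 < N) :
    IsSec k L n B (S.image fun s => s ^ N) (m * N) 1 (fun D => ω D ^ N) :=
  ⟨pluri_pow h.1 N, fun P hP hB D hD => dom_pow (h.2.1 P hP hB D hD) hN,
    fun P hP hB D hD => dom_pow (h.2.2 P hP hB D hD) hN⟩

end

section

variable {k K L : Type} [Field k] [CharZero k] [Field K] [Field L] [Algebra k K] [Algebra k L]
  [Algebra K L] [IsScalarTower k K L] [FiniteDimensional K L] {n : ℕ}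

/-- pull-back in two coordinate systems -/
theorem pull_coord (hn : Algebra.trdeg k K = n) {z y : Fin n → K}
    (hz : IsTranscendenceBasis k z) {E : Fin n → Derivation k K K}
    (hE : ∀ i j, E i (z j) = if i = j then 1 else 0) (hy : IsTranscendenceBasis k y)
    {EP : Fin n → Derivation k K K} (hEP : ∀ i j, EP i (y j) = if i = j then 1 else 0) {m : ℕ}
    {ω : (Fin n → Derivation k K K) → K} (hω : IsPluri m ω) (D : Fin n → Derivation k L L) :
    (Matrix.of fun a b => D a (algebraMap K L (z b))).det ^ m * algebraMap K L (ω E) =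
      (Matrix.of fun a b => D a (algebraMap K L (y b))).det ^ m * algebraMap K L (ω EP) := by
  choose EP' hEP' using fun i => exists_lift (L := L) hn (EP i)
  have hplu : IsPluri m (fun D : Fin n → Derivation k L L =>
      (Matrix.of fun a b => D a (algebraMap K L (z b))).det ^ m * algebraMap K L (ω E)) := by
    intro A D
    have e1 : (Matrix.of fun a b => (∑ j, A a j • D j) (algebraMap K L (z b))) =
        A * Matrix.of fun a b => D a (algebraMap K L (z b)) := by
      ext a b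
      rw [Matrix.of_apply, Matrix.mul_apply, sum_smul_app]
      rfl
    change (Matrix.of fun a b => (∑ j, A a j • D j) (algebraMap K L (z b))).det ^ m * _ = _
    rw [e1, Matrix.det_mul, mul_pow, mul_assoc]
  have h1 := pluri_coord (hy.algebraMap_comp (A := L)) (lift_dual hEP hEP') hplu D
  have h2 : (Matrix.of fun a b => EP' a (algebraMap K L (z b))).det ^ m * algebraMap K L (ω E) =
      algebraMap K L (ω EP) := by
    rw [pluri_coord hz hE hω EP, map_mul, map_pow, RingHom.map_det]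
    congr 3
    ext a b
    rw [Matrix.of_apply, hEP']
    rfl
  rw [h2] at h1
  exact h1

/-- **Horizontal divisors.** -/
theorem horizontal [Algebra.EssFiniteType k K] (hn : Algebra.trdeg k K = n)
    {B : Place k K → Prop} (E : IntermediateField k L) {P0 : Place k K} {Q0 : Place k L} {e0 : ℕ}
    (hQ0 : Over Q0 P0 e0) (hP0 : Divisorial n P0) (hB0 : ¬ B P0)
    (htriv : ∀ z ∈ E, z ≠ 0 → Q0.ord z = 0) {N : ℕ} (hN : 0 < N)
    {ω : (Fin n → Derivation k L L) → L} (hω : LogSec k L n N (BdUp B) ω) {a : ℕ}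
    {u : Fin a → L} (huE : ∀ s, u s ∈ E) (hu : AlgebraicIndependent k u)
    (huω : ∀ s, LogSec k L n N (BdUp B) (fun D => u s * ω D))
    {D0 : Fin n → Derivation k L L} (hD0 : ∀ i, DerLog Q0 (D0 i)) (hω0 : ω D0 ≠ 0)
    (hord : Q0.ord (ω D0) < e0 * N) (hneg : ¬ NumNeg k K n B) : ¬ NumLe k L n (BdUp B) a := by
  classical
  intro hle
  unfold NumNeg at hneg
  push Not at hneg
  obtain ⟨S, hS⟩ := hneg
  obtain ⟨z, E1, hz, hE1⟩ := exists_crd hn
  choose E1' hE1' using fun i => exists_lift (L := L) hn (E1 i)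
  let Φ : ℕ → ((Fin n → Derivation k K K) → K) → (Fin n → Derivation k L L) → L :=
    fun m η D => (Matrix.of fun a b => D a (algebraMap K L (z b))).det ^ m *
      algebraMap K L (η E1)
  have hΦ : ∀ m η, IsSec k K n B S m 1 η →
      IsSec k L n (BdUp B) (S.image (algebraMap K L)) m 1 (Φ m η) := fun m η hη =>
    pull_sec hn B S m 1 hz hE1 η hη
  have hdet : (Matrix.of fun a b => D0 a (algebraMap K L (z b))).det ≠ 0 := by
    intro h0
    apply hω0
    rw [pluri_coord (hz.algebraMap_comp (A := L)) (lift_dual hE1 hE1') hω.1 D0]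
    have h1 : (Matrix.of fun i j => D0 i ((algebraMap K L ∘ z) j)).det = 0 := h0
    rw [h1, zero_pow hN.ne', zero_mul]
  -- the bound for the divisor
  obtain ⟨C, hC⟩ : ∃ C : ℕ, ∀ s ∈ S, s ≠ 0 → -(C : ℤ) ≤ P0.ord s := by
    refine ⟨∑ s ∈ S, (P0.ord s).natAbs, fun s hs _ => ?_⟩
    have h1 : (P0.ord s).natAbs ≤ ∑ s ∈ S, (P0.ord s).natAbs :=
      Finset.single_le_sum (f := fun s => (P0.ord s).natAbs) (fun _ _ => Nat.zero_le _) hs
    have h2 : ((P0.ord s).natAbs : ℤ) ≤ (∑ s ∈ S, (P0.ord s).natAbs : ℕ) := by exact_mod_cast h1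
    omega
  obtain ⟨y, EP, i0, hl⟩ := exists_loc hn hP0
  have hest : ∀ (m : ℕ) η, IsSec k K n B S m 1 η → Ge Q0 (e0 * ((m : ℤ) - C)) (Φ m η D0) := by
    intro m η hη
    have h1 : Ge P0 ((m : ℤ) - C) (η fun i => lc y i0 i • EP i) := by
      rw [pluri_diag hη.1 (lc y i0) EP, prod_lc]
      rcases hη.2.1 P0 hP0 hB0 EP (fun l f hf => hl.pres l f hf) with h2 | ⟨s, hs, hs0, h2⟩
      · left; rw [h2, mul_zero]
      by_cases h3 : η EP = 0
      · left; rw [h3, mul_zero]
      right
      rw [P0.ord_mul (pow_ne_zero _ hl.ne) h3, P0.ord_pow, hl.unif]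
      have h4 := hC s hs hs0
      have h5 : P0.ord s ≤ P0.ord (η EP) := by simpa using h2
      linarith
    have h2 := pull_log hQ0 hl hD0 hη.1 h1
    change Ge Q0 _ ((Matrix.of fun a b => D0 a (algebraMap K L (z b))).det ^ m *
      algebraMap K L (η E1))
    rw [pull_coord hn hz hE1 hl.bas hl.dual hη.1 D0]
    exact h2
  -- sections with large orders
  let gg : ℕ → ((Fin n → Derivation k K K) → K) → L := fun m η => Φ m η D0 ^ N / ω D0 ^ m
  have key : ∀ b : ℤ, ∃ (m : ℕ) (η : (Fin n → Derivation k K K) → K),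
      IsSec k K n B S m 1 η ∧ Φ m η D0 ≠ 0 ∧ b < Q0.ord (gg m η) := by
    intro b
    obtain ⟨m, hm, η, hli, hη⟩ := hS (b + N * e0 * C + 1).toNat
    have hη0 : η 0 ≠ 0 := hli.ne_zero 0
    have hηE : η 0 E1 ≠ 0 := by
      intro h0
      apply hη0
      funext D
      rw [pluri_coord hz hE1 (hη 0).1 D, h0, mul_zero]
      rfl
    have hΦ0 : Φ m (η 0) D0 ≠ 0 :=
      mul_ne_zero (pow_ne_zero _ hdet) (by rw [Ne, map_eq_zero]; exact hηE)
    refine ⟨m, η 0, hη 0, hΦ0, ?_⟩
    have h1 := (hest m (η 0) (hη 0)).resolve_left hΦ0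
    change b < Q0.ord (Φ m (η 0) D0 ^ N / ω D0 ^ m)
    rw [Q0.ord_div (pow_ne_zero _ hΦ0) (pow_ne_zero _ hω0), Q0.ord_pow, Q0.ord_pow]
    have h2 : b + N * e0 * C + 1 ≤ m := by
      have := Int.self_le_toNat (b + N * e0 * C + 1)
      omega
    have h3 : (N : ℤ) * (e0 * ((m : ℤ) - C)) ≤ N * Q0.ord (Φ m (η 0) D0) :=
      mul_le_mul_of_nonneg_left h1 (Int.natCast_nonneg _)
    have h4 : (m : ℤ) * Q0.ord (ω D0) ≤ m * (e0 * N - 1) :=
      mul_le_mul_of_nonneg_left (by omega) (Int.natCast_nonneg _)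
    nlinarith
  choose mm ηη hsec hne hbig using key
  let sq : ℕ → ℤ := fun i => Nat.rec 0 (fun _ b => Q0.ord (gg (mm b) (ηη b))) i
  have hsq : ∀ i, sq (i + 1) = Q0.ord (gg (mm (sq i)) (ηη (sq i))) := fun i => rfl
  have hsqm : StrictMono sq := strictMono_nat_of_lt_succ fun i => by
    rw [hsq]
    exact hbig _
  -- counting
  obtain ⟨C', hC'⟩ := hle ((S.image (algebraMap K L)).image fun s => s ^ N)
  obtain ⟨M, hM⟩ : ∃ M, M = C' * (N * (1 + a)) ^ a + 1 := ⟨_, rfl⟩
  obtain ⟨p, hp⟩ : ∃ p, p = (∑ i : Fin M, mm (sq i)) + 1 := ⟨_, rfl⟩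
  have hple : ∀ i : Fin M, mm (sq i) ≤ p := by
    intro i
    rw [hp]
    exact (Finset.single_le_sum (f := fun i : Fin M => mm (sq i)) (fun _ _ => Nat.zero_le _)
      (Finset.mem_univ i)).trans (Nat.le_succ _)
  have hp1 : 1 ≤ p := by omega
  have hαle : ∀ α : Fin a → Fin p, ∑ s, (α s : ℕ) ≤ a * p := by
    intro α
    have h1 : ∑ s, (α s : ℕ) ≤ ∑ _s : Fin a, p := Finset.sum_le_sum fun s _ => (α s).2.le
    rwa [Finset.sum_const, Finset.card_univ, Fintype.card_fin, smul_eq_mul] at h1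
  let σ : Fin M × (Fin a → Fin p) → (Fin n → Derivation k L L) → L := fun q D =>
    Φ (mm (sq q.1)) (ηη (sq q.1)) D ^ N * (ω D ^ (p - mm (sq q.1)) *
      ((∏ s, (u s * ω D) ^ (q.2 s : ℕ)) * ω D ^ (a * p - ∑ s, (q.2 s : ℕ))))
  have hσ : ∀ q, IsSec k L n (BdUp B) ((S.image (algebraMap K L)).image fun s => s ^ N)
      (N * (1 + a) * p) 1 (σ q) := by
    intro q
    have h1 := isSec_pow (hΦ _ _ (hsec (sq q.1))) hN
    have h2 := isSec_mul h1 (logSec_mul (logSec_pow hω (p - mm (sq q.1)))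
      (logSec_mul (logSec_prod huω fun s => (q.2 s : ℕ))
        (logSec_pow hω (a * p - ∑ s, (q.2 s : ℕ)))))
    have e1 : mm (sq q.1) * N + (N * (p - mm (sq q.1)) + (N * ∑ s, (q.2 s : ℕ) +
        N * (a * p - ∑ s, (q.2 s : ℕ)))) = N * (1 + a) * p := by
      rw [← mul_add N (∑ s, (q.2 s : ℕ)), Nat.add_sub_cancel' (hαle q.2), mul_comm _ N,
        ← mul_add, ← mul_add, ← add_assoc, Nat.add_sub_cancel' (hple q.1)]
      ring
    rw [e1] at h2
    exact h2
  have hind : LinearIndependent k σ := by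
    have h1 : LinearIndependent k fun q : Fin M × (Fin a → Fin p) =>
        gg (mm (sq q.1)) (ηη (sq q.1)) * ∏ s, u s ^ (q.2 s : ℕ) := by
      refine indep_E (p := p) E (Q := Q0) htriv huE hu (M := M)
        (g := fun i : Fin M => gg (mm (sq i)) (ηη (sq i))) ?_ ?_
      · intro i j hij
        change Q0.ord (gg (mm (sq i)) (ηη (sq i))) < Q0.ord (gg (mm (sq j)) (ηη (sq j)))
        rw [← hsq, ← hsq]
        exact hsqm (Nat.succ_lt_succ hij)
      · intro i
        exact div_ne_zero (pow_ne_zero _ (hne _)) (pow_ne_zero _ hω0)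
    have h2 : LinearIndependent k fun q => σ q D0 := by
      have h3 := h1.map' (LinearMap.mulLeft k (ω D0 ^ ((1 + a) * p))) (by
        rw [LinearMap.ker_eq_bot]
        exact fun a b hab => mul_left_cancel₀ (pow_ne_zero _ hω0) hab)
      have h4 : (fun q => σ q D0) = (LinearMap.mulLeft k (ω D0 ^ ((1 + a) * p))) ∘
          fun q : Fin M × (Fin a → Fin p) =>
            gg (mm (sq q.1)) (ηη (sq q.1)) * ∏ s, u s ^ (q.2 s : ℕ) := by
        funext q
        change Φ (mm (sq q.1)) (ηη (sq q.1)) D0 ^ N * (ω D0 ^ (p - mm (sq q.1)) *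
          ((∏ s, (u s * ω D0) ^ (q.2 s : ℕ)) * ω D0 ^ (a * p - ∑ s, (q.2 s : ℕ)))) =
          ω D0 ^ ((1 + a) * p) * (Φ (mm (sq q.1)) (ηη (sq q.1)) D0 ^ N / ω D0 ^ mm (sq q.1) *
            ∏ s, u s ^ (q.2 s : ℕ))
        have e1 : ω D0 ^ ((1 + a) * p) = ω D0 ^ mm (sq q.1) * ω D0 ^ (p - mm (sq q.1)) *
            ((∏ s, ω D0 ^ (q.2 s : ℕ)) * ω D0 ^ (a * p - ∑ s, (q.2 s : ℕ))) := by
          rw [Finset.prod_pow_eq_pow_sum, ← pow_add, ← pow_add, ← pow_add,
            Nat.add_sub_cancel' (hαle q.2), Nat.add_sub_cancel' (hple q.1)]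
          congr 1
          ring
        rw [e1]
        simp only [mul_pow, Finset.prod_mul_distrib]
        field_simp
      rw [h4]
      exact h3
    exact LinearIndependent.of_comp (LinearMap.proj D0) h2
  have hcard : Fintype.card (Fin M × (Fin a → Fin p)) = M * p ^ a := by
    rw [Fintype.card_prod, Fintype.card_fun, Fintype.card_fin, Fintype.card_fin, Fintype.card_fin]
  let eq : Fin (M * p ^ a) ≃ (Fin M × (Fin a → Fin p)) := (Fintype.equivFinOfCardEq hcard).symm
  have h1 := hC' (N * (1 + a) * p) (M * p ^ a)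
    (Nat.mul_pos (Nat.mul_pos hN (by omega)) hp1)
    ⟨fun l => σ (eq l), hind.comp eq eq.injective, fun l => hσ _⟩
  have h2 : C' * (N * (1 + a) * p) ^ a = C' * (N * (1 + a)) ^ a * p ^ a := by
    rw [mul_pow (N * (1 + a)) p]
    ring
  rw [h2] at h1
  have h3 := Nat.le_of_mul_le_mul_right h1 (pow_pos hp1 a)
  omega

end

end Run7.h72
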