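import Pool.Agent.W619.TW.NDefs
import Pool.Agent.Y172.Rel
import Pool.Agent.Y172.Cov2
import Pool.Agent.W602.GT.KDefs

/-!
The Kodaira dimension is at most the numerical dimension.
-/

set_option autoImplicit false
set_option linter.overlappingInstances false
set_option linter.unusedSectionVars false
set_option linter.unusedVariables false
set_option maxHeartbeats 4000000
set_option synthInstance.maxHeartbeats 400000

open FF

namespace Run7.h72

open Pool.Agent.Y172
open Pool.Agent.W602.GT (Divisorial RegAt IsPluri DerReg DerLog LogAt KodGe LogSec)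
open Pool.Agent.W619.TW (NumLe HasIndep IsSec Dom)

section

variable {k K : Type} [Field k] [CharZero k] [Field K] [Algebra k K] {n : ℕ}

theorem pluri_prod {m : ℕ} {a : ℕ} {ω : Fin a → (Fin n → Derivation k K K) → K}
    (h : ∀ s, IsPluri m (ω s)) (b : Fin a → ℕ) :
    IsPluri (m * ∑ s, b s) (fun D => ∏ s, ω s D ^ b s) := by
  induction a with
  | zero =>
    intro A D
    simp
  | succ a ih =>
    have h1 := pluri_mul (ih (fun s => h s.castSucc) fun s => b s.castSucc)
      (pluri_pow (h (Fin.last a)) (b (Fin.last a)))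
    have e1 : m * ∑ s : Fin a, b s.castSucc + m * b (Fin.last a) = m * ∑ s, b s := by
      rw [Fin.sum_univ_castSucc]
      ring
    rw [e1] at h1
    have e3 : (fun D => (∏ s : Fin a, ω s.castSucc D ^ b s.castSucc) *
        ω (Fin.last a) D ^ b (Fin.last a)) = fun D => ∏ s, ω s D ^ b s := by
      funext D
      rw [Fin.prod_univ_castSucc]
    rw [e3] at h1
    exact h1

theorem reg_prod (P : Place k K) {a : ℕ} {f : Fin a → K} (h : ∀ s, P.Reg (f s)) (b : Fin a → ℕ) :
    P.Reg (∏ s, f s ^ b s) := by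
  have hpow : ∀ (g : K), P.Reg g → ∀ r : ℕ, P.Reg (g ^ r) := by
    intro g hg r
    induction r with
    | zero =>
      rw [pow_zero]
      right
      rw [P.ord_one]
    | succ r ih =>
      rw [pow_succ]
      exact P.reg_mul ih hg
  induction a with
  | zero =>
    rw [Finset.univ_eq_empty, Finset.prod_empty]
    right
    rw [P.ord_one]
  | succ a ih =>
    rw [Fin.prod_univ_castSucc]
    exact P.reg_mul (ih (fun s => h s.castSucc) fun s => b s.castSucc) (hpow _ (h _) _)

/-- **The Kodaira dimension is at most the numerical dimension.** -/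
theorem kod_le_num {a b : ℕ} (h : KodGe k K n (fun _ => False) a)
    (hn : NumLe k K n (fun _ => False) b) : a ≤ b := by
  classical
  obtain ⟨N, hN, ω, hω, D0, hD0, hind⟩ := h
  by_contra hab
  push Not at hab
  have ha : 0 < a := by omega
  obtain ⟨C, hC⟩ := hn {1}
  -- the forms
  let v : (j : ℕ) → (Fin a → Fin j) → (Fin n → Derivation k K K) → K := fun j α G =>
    (∏ s, (ω (Fin.succ s) G) ^ (α s : ℕ)) * ω 0 G ^ (a * j - ∑ s, (α s : ℕ))
  have hle : ∀ (j : ℕ) (α : Fin a → Fin j), ∑ s, (α s : ℕ) ≤ a * j := by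
    intro j α
    have h1 : ∑ s, (α s : ℕ) ≤ ∑ _s : Fin a, j := Finset.sum_le_sum fun s _ => (α s).2.le
    rwa [Finset.sum_const, Finset.card_univ, Fintype.card_fin, smul_eq_mul] at h1
  have hv : ∀ (j : ℕ) (α : Fin a → Fin j),
      IsSec k K n (fun _ => False) {1} (N * (a * j)) 1 (v j α) := by
    intro j α
    refine ⟨?_, fun P hP _ D hD => ?_, fun P _ h => h.elim⟩
    · have h1 := pluri_mul (pluri_prod (fun s => (hω (Fin.succ s)).1) fun s => (α s : ℕ))
        (pluri_pow (hω 0).1 (a * j - ∑ s, (α s : ℕ)))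
      have e1 : N * ∑ s, (α s : ℕ) + N * (a * j - ∑ s, (α s : ℕ)) = N * (a * j) := by
        rw [← mul_add, Nat.add_sub_cancel' (hle j α)]
      rw [e1] at h1
      exact h1
    · have hr : ∀ i, P.Reg (ω i D) := fun i => (hω i).2.2 P hP (fun h => h) D hD
      have h1 : P.Reg (v j α D) := P.reg_mul (reg_prod P (fun s => hr _) _) (by
        have h2 := reg_prod P (a := 1) (f := fun _ => ω 0 D) (fun _ => hr 0)
          fun _ => a * j - ∑ s, (α s : ℕ)
        simpa using h2)
      rcases h1 with h1 | h1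
      · exact Or.inl h1
      · exact Or.inr ⟨1, by simp, one_ne_zero, by rw [P.ord_one, mul_zero]; exact h1⟩
  have hvE : ∀ (j : ℕ) (α : Fin a → Fin j), v j α D0 = ω 0 D0 ^ (a * j) *
      ∏ s, (ω (Fin.succ s) D0 / ω 0 D0) ^ (α s : ℕ) := by
    intro j α
    change (∏ s, (ω (Fin.succ s) D0) ^ (α s : ℕ)) * ω 0 D0 ^ (a * j - ∑ s, (α s : ℕ)) = _
    have h1 : ω 0 D0 ^ (a * j) = (∏ s, ω 0 D0 ^ (α s : ℕ)) *
        ω 0 D0 ^ (a * j - ∑ s, (α s : ℕ)) := by
      rw [Finset.prod_pow_eq_pow_sum, ← pow_add, Nat.add_sub_cancel' (hle j α)]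
    have h2 : ∏ s, (ω (Fin.succ s) D0) ^ (α s : ℕ) = (∏ s, ω 0 D0 ^ (α s : ℕ)) *
        ∏ s, (ω (Fin.succ s) D0 / ω 0 D0) ^ (α s : ℕ) := by
      rw [← Finset.prod_mul_distrib]
      refine Finset.prod_congr rfl fun s _ => ?_
      rw [← mul_pow, mul_div_cancel₀ _ hD0]
    rw [h1, h2]
    ring
  have hindv : ∀ j : ℕ, LinearIndependent k (v j) := by
    intro j
    have h1 : LinearIndependent k fun α : Fin a → Fin j =>
        ∏ s, (ω (Fin.succ s) D0 / ω 0 D0) ^ (α s : ℕ) :=
      (mono_indep hind).comp (fun (α : Fin a → Fin j) s => (α s : ℕ)) (by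
          intro α α' h
          funext s
          exact Fin.ext (congrFun h s))
    have h2 : LinearIndependent k fun α => v j α D0 := by
      have h3 := h1.map' (LinearMap.mulLeft k (ω 0 D0 ^ (a * j))) (by
        rw [LinearMap.ker_eq_bot]
        exact fun a b hab => mul_left_cancel₀ (pow_ne_zero _ hD0) hab)
      have h4 : (fun α => v j α D0) = (LinearMap.mulLeft k (ω 0 D0 ^ (a * j))) ∘
          fun α : Fin a → Fin j => ∏ s, (ω (Fin.succ s) D0 / ω 0 D0) ^ (α s : ℕ) := by
        funext α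
        exact hvE j α
      rw [h4]
      exact h3
    exact LinearIndependent.of_comp (LinearMap.proj D0) h2
  have hcount : ∀ j : ℕ, 1 ≤ j → j ^ a ≤ C * (N * (a * j)) ^ b := by
    intro j hj
    have hcard : Fintype.card (Fin a → Fin j) = j ^ a := by
      rw [Fintype.card_fun, Fintype.card_fin, Fintype.card_fin]
    let eq : Fin (j ^ a) ≃ (Fin a → Fin j) := (Fintype.equivFinOfCardEq hcard).symm
    refine hC (N * (a * j)) (j ^ a) (Nat.mul_pos hN (Nat.mul_pos ha hj))
      ⟨fun l => v j (eq l), (hindv j).comp eq eq.injective, fun l => hv j _⟩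
  obtain ⟨j, hj⟩ : ∃ j, j = C * (N * a) ^ b + 1 := ⟨_, rfl⟩
  have h1 := hcount j (by omega)
  have h2 : j ^ (b + 1) ≤ j ^ a := Nat.pow_le_pow_right (by omega) (by omega)
  have h3 : C * (N * (a * j)) ^ b = C * (N * a) ^ b * j ^ b := by
    rw [← mul_assoc N a j, mul_pow (N * a) j b]
    ring
  rw [h3] at h1
  have h4 : j ^ (b + 1) = j * j ^ b := by ring
  have h5 : 0 < j ^ b := Nat.pos_of_ne_zero (pow_ne_zero _ (by omega))
  have h6 : j * j ^ b ≤ C * (N * a) ^ b * j ^ b := by
    rw [← h4]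
    exact h2.trans h1
  have h7 := Nat.le_of_mul_le_mul_right h6 h5
  omega

end

end Run7.h72
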