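import Pool.Agent.Run7.h72.Final
import Pool.Agent.Run7.h72.NumKod
import Pool.Agent.R882.UC

/-!
Fibrations of varieties which are covered by curves of genus at most one.
-/

set_option autoImplicit false
set_option linter.overlappingInstances false
set_option linter.unusedSectionVars false
set_option linter.unusedVariables false
set_option maxHeartbeats 4000000
set_option synthInstance.maxHeartbeats 400000

open Polynomial FF IntermediateField Module

namespace Run7.h72

open Pool.Agent.W603.LV Pool.Agent.Y172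
open Pool.Agent.W602.GT (Divisorial RegAt IsPluri DerReg DerLog LogAt KodGe LogSec Psef)
open Pool.Agent.W619.TW (NumLe)
open Pool.Agent.W619.PQ (IsUniruled)
open Pool.Agent.N145.SX (GLO GeoFib)

/-- the pluricanonical forms of a variety of general type, as multiples of one form -/
theorem pluri_ratio {k K : Type} [Field k] [CharZero k] [Field K] [Algebra k K]
    [Algebra.EssFiniteType k K] {n N : ℕ} (hn : Algebra.trdeg k K = n)
    {ω ω' : (Fin n → Derivation k K K) → K} (hω : IsPluri N ω) (hω' : IsPluri N ω')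
    {D0 : Fin n → Derivation k K K} (h0 : ω D0 ≠ 0) (D : Fin n → Derivation k K K) :
    ω' D0 / ω D0 * ω D = ω' D := by
  obtain ⟨z, E, hz, hE⟩ := exists_crd hn
  have h1 := pluri_coord hz hE hω D0
  have h2 := pluri_coord hz hE hω' D0
  have h3 := pluri_coord hz hE hω D
  have h4 := pluri_coord hz hE hω' D
  rw [h1] at h0
  have h5 := left_ne_zero_of_mul h0
  have h6 := right_ne_zero_of_mul h0
  rw [h1, h2, h3, h4, mul_div_mul_left _ _ h5]
  field_simp

/-- maps from a curve of genus at most one to a variety of general type are constant -/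
theorem const_gt {E Λ F : Type} [Field E] [Field Λ] [Field F] [Algebra ℂ E] [Algebra ℂ Λ]
    [Algebra ℂ F] [Algebra Λ F] [IsScalarTower ℂ Λ F] [Algebra E F] [IsScalarTower ℂ E F]
    [Algebra.EssFiniteType ℂ E] [IsAlgClosed Λ] [IsFF Λ F] {d N : ℕ}
    (hd : Algebra.trdeg ℂ E = d) (hN : Algebra.trdeg ℂ Λ = N)
    (hE : KodGe ℂ E d (fun _ => False) d) (hglo : GLO Λ F) (z : E) :
    ∃ c : Λ, algebraMap Λ F c = algebraMap E F z := by
  classical
  have hΛ0 : CharZero Λ := charZero_of_injective_algebraMap (algebraMap ℂ Λ).injective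
  obtain ⟨w, hw, ω, hω, D0, hD0, hind⟩ := hE
  let y : Fin d → E := fun i => ω i.succ D0 / ω 0 D0
  let x : ∀ _ : Fin 1, Fin (d + 1) → E := fun _ => Fin.cons 1 y
  have hx0 : ∀ i, x i 0 = 1 := fun i => rfl
  have hψ : ∀ f : ∀ _ : Fin 1, Fin (d + 1),
      LogSec ℂ E d w (fun _ => False) (fun D => mlt x (fun _ => 1) f * ω 0 D) := by
    intro f
    have e1 : mlt x (fun _ => 1) f = x 0 (f 0) := by
      unfold mlt
      rw [Fin.prod_univ_one, pow_one]
    rw [e1]
    rcases Fin.eq_zero_or_eq_succ (f 0) with h1 | ⟨j, h1⟩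
    · have e2 : (fun D => x 0 (f 0) * ω 0 D) = ω 0 := by
        funext D
        rw [h1, hx0 0, one_mul]
      rw [e2]
      exact hω 0
    · have e2 : (fun D => x 0 (f 0) * ω 0 D) = ω j.succ := by
        funext D
        rw [h1]
        exact pluri_ratio hd (hω 0).1 (hω _).1 hD0 D
      rw [e2]
      exact hω _
  have htop : ∀ S : IntermediateField F F, S = ⊤ := by
    intro S
    rw [eq_top_iff]
    intro z _
    exact S.algebraMap_mem z
  have hdeg : ∀ j, finrank F (Lv F (fun (i : Fin 1) b => algebraMap E F (x i b)) j) = 1 := by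
    intro j
    rw [htop (Lv F (fun (i : Fin 1) b => algebraMap E F (x i b)) j),
      IntermediateField.finrank_top', Module.finrank_self]
  have halg : ∀ z : E, IsAlgebraic Λ (algebraMap E F z) := by
    rcases corr (E := E) (Λ := Λ) (R := F) (Ξ := F) hd hN x hx0 hw (fun _ => 1) ⟨D0, hD0⟩ hψ
      (htop _) (fun i => by
        rw [hdeg, hdeg]
        omega) with h1 | ⟨-, h1⟩
    · exact h1
    · have h2 : ∀ i, IsAlgebraic Λ (algebraMap E F (y i)) := by
        intro i
        by_contra h3
        exact not_kod_glo hglo (h1 0 i.succ h3)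
      have hb : IsTranscendenceBasis ℂ y := by
        refine hind.isTranscendenceBasis_of_lift_trdeg_le_of_finite ?_
        rw [hd]
        simp
      intro z
      obtain ⟨p, hp0, hp⟩ := hb.isAlgebraic.isAlgebraic z
      have hmem : ∀ a : Algebra.adjoin ℂ (Set.range y),
          algebraMap E F a ∈ algebraicClosure Λ F := by
        rintro ⟨a, ha⟩
        induction ha using Algebra.adjoin_induction with
        | mem a ha =>
          obtain ⟨i, rfl⟩ := ha
          exact mem_algebraicClosure_iff.2 (h2 i)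
        | algebraMap c =>
          change algebraMap E F (algebraMap ℂ E c) ∈ _
          rw [← IsScalarTower.algebraMap_apply ℂ E F, IsScalarTower.algebraMap_apply ℂ Λ F]
          exact IntermediateField.algebraMap_mem _ _
        | add a b ha hb iha ihb =>
          change algebraMap E F (a + b) ∈ _
          rw [map_add]
          exact add_mem iha ihb
        | mul a b ha hb iha ihb =>
          change algebraMap E F (a * b) ∈ _
          rw [map_mul]
          exact mul_mem iha ihb
      let f : Algebra.adjoin ℂ (Set.range y) →+* algebraicClosure Λ F :=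
        { toFun := fun a => ⟨algebraMap E F a, hmem a⟩
          map_one' := Subtype.ext (map_one (algebraMap E F))
          map_mul' := fun a b => Subtype.ext (map_mul (algebraMap E F) _ _)
          map_zero' := Subtype.ext (map_zero (algebraMap E F))
          map_add' := fun a b => Subtype.ext (map_add (algebraMap E F) _ _) }
      have hf : Function.Injective f := fun a b hab => by
        have h3 : algebraMap E F a = algebraMap E F b := congrArg Subtype.val hab
        exact Subtype.ext ((algebraMap E F).injective h3)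
      have h4 : IsAlgebraic (algebraicClosure Λ F) (algebraMap E F z) := by
        refine ⟨p.map f, (Polynomial.map_ne_zero_iff hf).2 hp0, ?_⟩
        rw [Polynomial.aeval_def, Polynomial.eval₂_map]
        rw [Polynomial.aeval_def] at hp
        have h4 := congrArg (algebraMap E F) hp
        rw [map_zero, Polynomial.hom_eval₂] at h4
        exact h4
      exact h4.restrictScalars Λ
  have h5 : algebraMap E F z ∈ algebraicClosure Λ F := mem_algebraicClosure_iff.2 (halg z)
  rw [IntermediateField.eq_bot_of_isAlgClosed_of_isAlgebraic (algebraicClosure Λ F)] at h5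
  obtain ⟨c, hc⟩ := IntermediateField.mem_bot.1 h5
  exact ⟨c, hc⟩

/-- the numerical dimension of a fibration in curves of genus at most one -/
theorem num_aux' {k N L Λ F : Type} [Field k] [CharZero k] [Field N] [Field L] [Field Λ] [Field F]
    [Algebra k N] [Algebra k L] [Algebra N L] [IsScalarTower k N L]
    (hN0 : Algebra.EssFiniteType k N) (hL0 : Algebra.EssFiniteType k L) [Algebra N Λ]
    [Algebra N F] [Algebra Λ F] [IsScalarTower N Λ F]
    [IsAlgClosed Λ] [Algebra.IsAlgebraic N Λ] [IsFF Λ F] (ψ : L →ₐ[N] F) {n : ℕ}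
    (hgen : IntermediateField.adjoin Λ (Set.range ψ) = ⊤) (hglo : GLO Λ F)
    (hcl : ∀ x : L, IsIntegral N x → ∃ y : N, algebraMap N L y = x)
    (hL : Algebra.trdeg k L = (n + 1 : ℕ)) (hN : Algebra.trdeg k N = n) :
    NumLe k L (n + 1) (fun _ => False) n := by
  let a1 : Algebra k Λ := ((algebraMap N Λ).comp (algebraMap k N)).toAlgebra
  let a2 : Algebra k F := ((algebraMap Λ F).comp (algebraMap k Λ)).toAlgebra
  let a3 : Algebra L F := ψ.toRingHom.toAlgebra
  have t1 : IsScalarTower k Λ F := IsScalarTower.of_algebraMap_eq fun c => rfl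
  have t2 : IsScalarTower k N Λ := IsScalarTower.of_algebraMap_eq fun c => rfl
  have t3 : IsScalarTower N L F := IsScalarTower.of_algebraMap_eq fun c => (ψ.commutes c).symm
  have t4 : IsScalarTower k L F := IsScalarTower.of_algebraMap_eq fun c => by
    have h1 := ψ.commutes (algebraMap k N c)
    change _ = ψ (algebraMap k L c)
    rw [IsScalarTower.algebraMap_apply k N L, h1, IsScalarTower.algebraMap_apply N Λ F]
    rfl
  have hΛ0 : CharZero Λ := charZero_of_injective_algebraMap (algebraMap k Λ).injective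
  have h1 : NumLe Λ F (0 + 1) (fun _ => False) 0 := curve_num hglo
  exact Pool.Agent.Y174.easy_add (k := k) (L := N) (K := L) (Λ := Λ) (F := F) hN0
    hL0 hgen hcl hN (r := 0) hL h1

/-- **Fibrations.** If the variety has a fibration in curves of genus at most one then there is no
fibration over a variety of general type whose fibres are of general type. -/
theorem not_both {L : Type} [Field L] [Algebra ℂ L] [Algebra.EssFiniteType ℂ L] {n : ℕ}
    (hL : Algebra.trdeg ℂ L = (n + 1 : ℕ)) {N : IntermediateField ℂ L}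
    (hcl : ∀ z : L, IsAlgebraic N z → z ∈ N) (hN : Algebra.trdeg ℂ N = n) (h : GeoFib L N)
    (E : IntermediateField ℂ L) [Algebra.EssFiniteType ℂ E] {d f : ℕ} (hd : Algebra.trdeg ℂ E = d)
    (hf : Algebra.trdeg E L = f) (hY : KodGe ℂ E d (fun _ => False) d)
    (hF : KodGe E L f (fun _ => False) f) : False := by
  have hdf : d + f = n + 1 := by
    have h3 := trdeg_add_eq ℂ E (A := L)
    rw [hd, hf, hL] at h3
    exact_mod_cast h3
  obtain ⟨Λ, F, iΛ, iF, iNΛ, iNF, iΛF, iT, iC, ialg, iFF, ψ, hgen, hglo⟩ := h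
  have hessN : Algebra.EssFiniteType ℂ N := Pool.Agent.N999.SX.FG ℂ L N
  -- the base is below the base of the fibration in curves
  have hle : E ≤ N := by
    let a1 : Algebra ℂ Λ := ((algebraMap N Λ).comp (algebraMap ℂ N)).toAlgebra
    let a2 : Algebra ℂ F := ((algebraMap Λ F).comp (algebraMap ℂ Λ)).toAlgebra
    have t1 : IsScalarTower ℂ Λ F := IsScalarTower.of_algebraMap_eq fun c => rfl
    have t2 : IsScalarTower ℂ N Λ := IsScalarTower.of_algebraMap_eq fun c => rfl
    let a4 : Algebra E F := (ψ.toRingHom.comp (algebraMap E L)).toAlgebra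
    have t4 : IsScalarTower ℂ E F := IsScalarTower.of_algebraMap_eq fun c => by
      have h1 := ψ.commutes (algebraMap ℂ N c)
      change _ = ψ (algebraMap E L (algebraMap ℂ E c))
      rw [← IsScalarTower.algebraMap_apply ℂ E L, IsScalarTower.algebraMap_apply ℂ N L, h1,
        IsScalarTower.algebraMap_apply N Λ F]
      rfl
    have hΛ : Algebra.trdeg ℂ Λ = n := by
      rw [← trdeg_add_eq ℂ N (A := Λ), trdeg_eq_zero (R := N) (A := Λ), hN, add_zero]
    intro z hz
    obtain ⟨c, hc⟩ := const_gt (E := E) (Λ := Λ) (F := F) hd hΛ hY hglo ⟨z, hz⟩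
    apply hcl
    have h1 : IsAlgebraic N c := Algebra.IsAlgebraic.isAlgebraic c
    have h2 : IsAlgebraic N (algebraMap Λ F c) := h1.algebraMap
    rw [hc] at h2
    change IsAlgebraic N (ψ z) at h2
    exact (isAlgebraic_algHom_iff ψ ψ.toRingHom.injective).1 h2
  have hle2 : d ≤ n := by
    have h1 : Algebra.trdeg ℂ E ≤ Algebra.trdeg ℂ N :=
      trdeg_le_of_injective (inclusion hle) (inclusion hle).toRingHom.injective
    rw [hd, hN] at h1
    exact_mod_cast h1
  obtain ⟨r, hr⟩ : ∃ r, f = r + 1 := ⟨f - 1, by omega⟩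
  subst hr
  -- the fibration over `E`
  let b1 : Algebra E N := (inclusion hle).toRingHom.toAlgebra
  have s1 : IsScalarTower E N L := IsScalarTower.of_algebraMap_eq fun z => rfl
  have s2 : IsScalarTower ℂ E N := IsScalarTower.of_algebraMap_eq fun z => rfl
  have hEN : Algebra.trdeg E N = r := by
    have h3 := trdeg_add_eq ℂ E (A := N)
    rw [hd, hN] at h3
    have h4 : Algebra.trdeg E N < Cardinal.aleph0 := by
      refine lt_of_le_of_lt (self_le_add_left _ (d : Cardinal)) ?_
      rw [h3]
      exact Cardinal.natCast_lt_aleph0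
    obtain ⟨e, he⟩ := Cardinal.lt_aleph0.1 h4
    rw [he] at h3 ⊢
    have h5 : d + e = n := by exact_mod_cast h3
    have h6 : e = r := by omega
    rw [h6]
  have hE0 : CharZero E := charZero_of_injective_algebraMap (algebraMap ℂ E).injective
  have hess1 : Algebra.EssFiniteType E N := Algebra.EssFiniteType.of_comp ℂ E N
  have hess2 : Algebra.EssFiniteType E L := Algebra.EssFiniteType.of_comp ℂ E L
  have h1 := num_aux' (k := E) hess1 hess2 ψ hgen hglo
    (fun y hy => ⟨⟨y, hcl y hy.isAlgebraic⟩, rfl⟩) hf hEN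
  have h2 := kod_le_num hF h1
  omega

section

variable {K : Type} [Field K] [Algebra ℂ K] [hessK : Algebra.EssFiniteType ℂ K] {n : ℕ}
  {E C : IntermediateField ℂ K} [Algebra.EssFiniteType ℂ E] [IsFF ℂ C] {L : Type} [Field L]
  [Algebra ℂ L] [Algebra L K] [IsScalarTower ℂ L K] [FiniteDimensional L K] {κ : ℕ}
  {m : Fin κ → ℕ}

/-- fibrations with pseudo-effective canonical divisors of the fibres -/
theorem psef_fib (hsup : E ⊔ C = ⊤) (hE : Algebra.trdeg ℂ E = n)
    (hK : Algebra.trdeg ℂ K = (n + 1 : ℕ)) (x : ∀ i, Fin (m i + 1) → E) (hx0 : ∀ i, x i 0 = 1)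
    (hgen : Lv L (fun i b => (x i b : K)) κ = IntermediateField.adjoin L (E : Set K)) {w : ℕ}
    (hw : 0 < w) (M : Fin κ → ℕ)
    (hM : ∀ i : Fin κ, 2 * (finrank L (Lv L (fun i b => (x i b : K)) (i + 1)) -
      finrank L (Lv L (fun i b => (x i b : K)) i)) * w <
      M i * finrank L (Lv L (fun i b => (x i b : K)) i))
    {ψ : (Fin n → Derivation ℂ E E) → E} (hψ0 : ∃ D, ψ D ≠ 0)
    (hψ : ∀ f, LogSec ℂ E n w (fun _ => False) (fun D => mlt x M f * ψ D)) {a : ℕ}
    (s : Fin a → Σ i, Fin (m i + 1)) (hs : AlgebraicIndependent ℂ fun l => x (s l).1 (s l).2)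
    (Y : IntermediateField ℂ L) [Algebra.EssFiniteType ℂ Y] {d f : ℕ} (hd : Algebra.trdeg ℂ Y = d)
    (hf : Algebra.trdeg Y L = f) (hY : KodGe ℂ Y d (fun _ => False) 0)
    (hp : Psef Y L f (fun _ => False)) : KodGe ℂ L (n + 1) (fun _ => False) a := by
  have hL : Algebra.trdeg ℂ L = (n + 1 : ℕ) := Pool.Agent.Y184.NT.trdeg_below (K := K) hK
  have hessL : Algebra.EssFiniteType ℂ L := Pool.Agent.TH466.QG.ess_below (K := K)
  have hnu : ¬ IsUniruled ℂ L (n + 1) := fun h5 =>
    Pool.Agent.R882.UA.fib_not hL h5 Y hd hf hY hp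
  obtain ⟨h1, h2⟩ := nonvan hsup hE hK x hx0 hgen hw M hM hψ0 hψ s hs
  refine h2 ?_
  by_contra h3
  exact hnu ((h1.out 0 2).1 h3)

/-- **Fibrations of the images of `X × C`.** -/
theorem iitaka (hsup : E ⊔ C = ⊤) (hE : Algebra.trdeg ℂ E = n)
    (hK : Algebra.trdeg ℂ K = (n + 1 : ℕ)) (x : ∀ i, Fin (m i + 1) → E) (hx0 : ∀ i, x i 0 = 1)
    (hgen : Lv L (fun i b => (x i b : K)) κ = IntermediateField.adjoin L (E : Set K)) {w : ℕ}
    (hw : 0 < w) (M : Fin κ → ℕ)
    (hM : ∀ i : Fin κ, 2 * (finrank L (Lv L (fun i b => (x i b : K)) (i + 1)) -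
      finrank L (Lv L (fun i b => (x i b : K)) i)) * w <
      M i * finrank L (Lv L (fun i b => (x i b : K)) i))
    {ψ : (Fin n → Derivation ℂ E E) → E} (hψ0 : ∃ D, ψ D ≠ 0)
    (hψ : ∀ f, LogSec ℂ E n w (fun _ => False) (fun D => mlt x M f * ψ D))
    (s : Fin n → Σ i, Fin (m i + 1)) (hs : AlgebraicIndependent ℂ fun l => x (s l).1 (s l).2)
    (Y : IntermediateField ℂ L) [Algebra.EssFiniteType ℂ Y] {d f : ℕ} (hd : Algebra.trdeg ℂ Y = d)
    (hf : Algebra.trdeg Y L = f) (hY : KodGe ℂ Y d (fun _ => False) 0) :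
    (Psef Y L f (fun _ => False) → KodGe ℂ L (n + 1) (fun _ => False) n) ∧
    ∀ q r : ℕ, KodGe Y L f (fun _ => False) q → KodGe ℂ Y d (fun _ => False) r →
      KodGe ℂ L (n + 1) (fun _ => False) (q + r) := by
  have hL : Algebra.trdeg ℂ L = (n + 1 : ℕ) := Pool.Agent.Y184.NT.trdeg_below (K := K) hK
  have hessL : Algebra.EssFiniteType ℂ L := Pool.Agent.TH466.QG.ess_below (K := K)
  have hdf : d + f = n + 1 := by
    have h3 := trdeg_add_eq ℂ Y (A := L)
    rw [hd, hf, hL] at h3
    exact_mod_cast h3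
  have hY0 : CharZero Y := charZero_of_injective_algebraMap (algebraMap ℂ Y).injective
  have hT := tri hsup hE hK x hx0 hgen hw M hM hψ0 hψ s hs
  have h1 : Psef Y L f (fun _ => False) → KodGe ℂ L (n + 1) (fun _ => False) n := by
    intro hp
    have hnu : ¬ IsUniruled ℂ L (n + 1) := fun h5 =>
      Pool.Agent.R882.UA.fib_not hL h5 Y hd hf hY hp
    rcases hT with h2 | ⟨-, -, ⟨h2, -⟩ | h2⟩
    · exact kodGe_mono (Nat.le_succ n) h2
    · exact absurd h2 hnu
    · exact h2
  refine ⟨h1, fun q r hq hr => ?_⟩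
  have hqf : q ≤ f := Pool.Agent.R882.UA.kod_le_dim hf hq
  have hrd : r ≤ d := Pool.Agent.R882.UA.kod_le_dim hd hr
  have h2 : KodGe ℂ L (n + 1) (fun _ => False) n :=
    h1 (Pool.Agent.W602.GT.psef_of_kodGe (kodGe_mono (Nat.zero_le q) hq))
  by_cases hqr : q + r ≤ n
  · exact kodGe_mono hqr h2
  have e1 : q = f := by omega
  have e2 : r = d := by omega
  subst e1
  subst e2
  have e3 : q + r = n + 1 := by omega
  rw [e3]
  rcases hT with h3 | ⟨⟨N, h4, h5, -, -, -, -, h6⟩, -, -⟩
  · exact h3
  · exact (not_both hL h4 h5 h6 Y hd hf hr hq).elim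

end

end Run7.h72
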