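import Pool.Agent.Run7.h72.Final

/-!
Open varieties dominated by the product of an open variety with a very positive log canonical bundle
and an open curve.
-/

set_option autoImplicit false
set_option linter.overlappingInstances false
set_option linter.unusedSectionVars false
set_option linter.unusedVariables false
set_option maxHeartbeats 4000000
set_option synthInstance.maxHeartbeats 400000

open Polynomial FF IntermediateField Module

namespace Run7.h72

open Pool.Agent.W603.LV Pool.Agent.Y172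
open Pool.Agent.W602.GT (Divisorial RegAt IsPluri DerReg DerLog LogAt KodGe LogSec Psef)
open Pool.Agent.N145.SX (zz BdX closed erase)
open Pool.Agent.N145.PL (HL not_psef_of_a1 psef_of_kodGe')
open Pool.Agent.Y184.NT (trForm)
open Pool.Agent.W619.PL (IsA1Uniruled)

/-- **Logarithmic non-vanishing.** -/
theorem nonvan_log {K : Type} [Field K] [Algebra ℂ K] [Algebra.EssFiniteType ℂ K] {n : ℕ}
    {E C : IntermediateField ℂ K} [Algebra.EssFiniteType ℂ E] [IsFF ℂ C] (hsup : E ⊔ C = ⊤)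
    (hE : Algebra.trdeg ℂ E = n) (hK : Algebra.trdeg ℂ K = (n + 1 : ℕ)) {BX : Place ℂ E → Prop}
    {B : Set (Place ℂ C)} (hBf : B.Finite) {L : Type} [Field L] [Algebra ℂ L] [Algebra L K]
    [IsScalarTower ℂ L K] [FiniteDimensional L K] {BL : Place ℂ L → Prop}
    (hB : ∀ (P : Place ℂ L) (Q : Place ℂ K) (e : ℕ), Over Q P e → (BL P ↔ BdX BX B Q))
    {κ : ℕ} {m : Fin κ → ℕ} (x : ∀ i, Fin (m i + 1) → E) (hx0 : ∀ i, x i 0 = 1)
    (hgen : Lv L (fun i b => (x i b : K)) κ = IntermediateField.adjoin L (E : Set K)) {N : ℕ}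
    (hN : 0 < N) (M : Fin κ → ℕ)
    (hM : ∀ i : Fin κ, 2 * (finrank L (Lv L (fun i b => (x i b : K)) (i + 1)) -
      finrank L (Lv L (fun i b => (x i b : K)) i)) * N <
      M i * finrank L (Lv L (fun i b => (x i b : K)) i))
    {ψ : (Fin n → Derivation ℂ E E) → E} (hψ0 : ∃ D, ψ D ≠ 0)
    (hψ : ∀ f, LogSec ℂ E n N BX (fun D => mlt x M f * ψ D)) {a : ℕ}
    (s : Fin a → Σ i, Fin (m i + 1))
    (hs : AlgebraicIndependent ℂ fun l => x (s l).1 (s l).2) :
    [¬ KodGe ℂ L (n + 1) BL 0, ¬ Psef ℂ L (n + 1) BL, IsA1Uniruled ℂ L (n + 1) BL].TFAE ∧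
    (KodGe ℂ L (n + 1) BL 0 → KodGe ℂ L (n + 1) BL a) := by
  have hL : Algebra.trdeg ℂ L = (n + 1 : ℕ) := Pool.Agent.Y184.NT.trdeg_below (K := K) hK
  have hessL : Algebra.EssFiniteType ℂ L := Pool.Agent.TH466.QG.ess_below (K := K)
  obtain ⟨v, hv, t, ht, D0, hD0, hBt, h, hval, hcase⟩ := core hsup hE hK hBf hB x hx0 hgen hN M
    hM hψ0 hψ s hs
  have hfib : IsA1Uniruled ℂ L (n + 1) BL ∨ KodGe ℂ L (n + 1) BL a := by
    rcases hcase with h1 | h1 | ⟨h1, -⟩
    · exact Or.inl (erase K n E C hsup hE hK v hv t ht D0 hD0 BX B hBt L BL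
        (fun P Q e h1 h2 => (hB P Q e h1).1 h2) h hval h1)
    · exact Or.inr (kodGe_mono (Nat.le_succ a) h1)
    · exact Or.inr h1
  have h32 : IsA1Uniruled ℂ L (n + 1) BL → ¬ Psef ℂ L (n + 1) BL := fun h2 h1 =>
    not_psef_of_a1 hL h2 h1
  have h21 : ¬ Psef ℂ L (n + 1) BL → ¬ KodGe ℂ L (n + 1) BL 0 :=
    fun h1 h2 => h1 (psef_of_kodGe' h2)
  refine ⟨?_, fun h0 => ?_⟩
  · tfae_have 1 → 3 := fun h1 => hfib.resolve_right fun h2 => h1 (kodGe_mono (Nat.zero_le a) h2)
    tfae_have 3 → 2 := h32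
    tfae_have 2 → 1 := h21
    tfae_finish
  · exact hfib.resolve_left fun h1 => h21 (h32 h1) h0

end Run7.h72
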