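import Pool.Agent.N145.SX.Gen0
import Pool.Agent.Run7.h72.Amb

/-!
The structure of the images which are covered by curves of genus at most one.
-/

set_option autoImplicit false
set_option linter.overlappingInstances false
set_option linter.unusedSectionVars false
set_option linter.unusedVariables false
set_option maxHeartbeats 4000000
set_option synthInstance.maxHeartbeats 400000

open Polynomial FF IntermediateField Module

namespace Run7.h72

open Pool.Agent.W603.LV Pool.Agent.W619.PQ Pool.Agent.Y172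
open Pool.Agent.N145.PC (adj_le finrank_le_of_disj closed_comap alg_of_const to_ratfunc)
open Pool.Agent.W602.GT (Divisorial RegAt IsPluri DerReg DerLog LogAt KodGe LogSec)
open Pool.Agent.W619.Y (BdUp)

section

variable {K : Type} [Field K] [Algebra ℂ K] [Algebra.EssFiniteType ℂ K]
  {L : Type} [Field L] [Algebra ℂ L] [Algebra L K] [IsScalarTower ℂ L K]
  [FiniteDimensional L K]

/-- **The functions of `X` on the curves.** -/
theorem const_all {n : ℕ} (E : IntermediateField ℂ K) [hess : Algebra.EssFiniteType ℂ E]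
    (hE : Algebra.trdeg ℂ E = n) {κ : ℕ} {m : Fin κ → ℕ} (x : ∀ i, Fin (m i + 1) → E)
    (hx0 : ∀ i, x i 0 = 1)
    (hgen : Lv L (fun i b => (x i b : K)) κ = IntermediateField.adjoin L (E : Set K)) {w : ℕ}
    (hw : 0 < w) (M : Fin κ → ℕ)
    (hM : ∀ i : Fin κ, 2 * (finrank L (Lv L (fun i b => (x i b : K)) (i + 1)) -
      finrank L (Lv L (fun i b => (x i b : K)) i)) * w <
      M i * finrank L (Lv L (fun i b => (x i b : K)) i))
    {ψ : (Fin n → Derivation ℂ E E) → E} (hψ0 : ∃ D, ψ D ≠ 0)
    (hψ : ∀ f, LogSec ℂ E n w (fun _ => False) (fun D => mlt x M f * ψ D))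
    (R : Type) [Field R] [Algebra (algebraicClosure E (AlgebraicClosure K)) R]
    [Algebra R (AlgebraicClosure K)]
    [IsScalarTower (algebraicClosure E (AlgebraicClosure K)) R (AlgebraicClosure K)]
    [IsFF (algebraicClosure E (AlgebraicClosure K)) R]
    (hL : ∀ z : L, algebraMap K (AlgebraicClosure K) (algebraMap L K z) ∈
      Set.range (algebraMap R (AlgebraicClosure K)))
    (τ : K →ₐ[L] AlgebraicClosure K) :
    (∀ z ∈ E, τ z ∈ algebraicClosure E (AlgebraicClosure K)) ∨
      (KodGe (algebraicClosure E (AlgebraicClosure K)) R 1 (fun _ => False) 0 ∧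
      ∀ i b, τ (x i b) ∉ algebraicClosure E (AlgebraicClosure K) →
        KodGe (algebraicClosure E (AlgebraicClosure K)) R 1 (fun _ => False) 1) := by
  have hΛ : IsAlgClosed (algebraicClosure E (AlgebraicClosure K)) :=
    (algebraicClosure.isAlgClosure E (AlgebraicClosure K)).isAlgClosed
  have hTΛ : IsScalarTower ℂ (algebraicClosure E (AlgebraicClosure K)) (AlgebraicClosure K) :=
    IsScalarTower.of_algebraMap_eq fun z => by
      rw [IsScalarTower.algebraMap_apply ℂ K (AlgebraicClosure K)]
      rfl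
  have hTE : IsScalarTower ℂ E (algebraicClosure E (AlgebraicClosure K)) :=
    IsScalarTower.of_algebraMap_eq fun z => by
      apply Subtype.ext
      rfl
  have hΛtr : Algebra.trdeg ℂ (algebraicClosure E (AlgebraicClosure K)) = n := by
    have h1 := trdeg_add_eq ℂ E (A := (algebraicClosure E (AlgebraicClosure K)))
    have h2 : Algebra.trdeg E (algebraicClosure E (AlgebraicClosure K)) = 0 := by
      rw [trdeg_eq_zero_iff]
      infer_instance
    rw [h2, add_zero, hE] at h1
    exact h1.symm
  have hτ : ∀ a : L, (τ : K →+* AlgebraicClosure K) (algebraMap L K a) ∈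
      Set.range (algebraMap R (AlgebraicClosure K)) := by
    intro a
    obtain ⟨r, hr⟩ := hL a
    refine ⟨r, ?_⟩
    rw [hr]
    change _ = τ (algebraMap L K a)
    rw [AlgHom.commutes, IsScalarTower.algebraMap_apply L K (AlgebraicClosure K)]
  let φ : E →ₐ[ℂ] AlgebraicClosure K := (τ.restrictScalars ℂ).comp E.val
  have hfin : FiniteDimensional R (Lv R (fun i b => φ (x i b)) κ) :=
    finite_Lv (K0 := L) (R := R) (τ : K →+* AlgebraicClosure K) hτ (fun i b => (x i b : K)) κ
  have hin : ∀ z, φ z ∈ Lv R (fun i b => φ (x i b)) κ := by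
    intro z
    refine Lv_im (K0 := L) (R := R) (τ : K →+* AlgebraicClosure K) hτ (fun i b => (x i b : K)) κ
      (z := (z : K)) ?_
    rw [hgen]
    exact IntermediateField.subset_adjoin _ _ z.2
  have hfr : ∀ i, 0 < finrank L (Lv L (fun i b => (x i b : K)) i) := fun i => finrank_pos
  have hfr2 : ∀ i, 0 < finrank R (Lv R (fun i b => φ (x i b)) i) := fun i => by
    have h1 : FiniteDimensional R (Lv R (fun i b => φ (x i b)) i) :=
      finite_Lv (K0 := L) (R := R) (τ : K →+* AlgebraicClosure K) hτ (fun i b => (x i b : K)) i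
    exact finrank_pos
  have hmono2 : ∀ i : ℕ, finrank R (Lv R (fun i b => φ (x i b)) i) ≤
      finrank R (Lv R (fun i b => φ (x i b)) (i + 1)) := fun i => by
    have h1 : FiniteDimensional R (Lv R (fun i b => φ (x i b)) (i + 1)) :=
      finite_Lv (K0 := L) (R := R) (τ : K →+* AlgebraicClosure K) hτ (fun i b => (x i b : K))
        (i + 1)
    exact IntermediateField.finrank_le_of_le_right (Lv_mono _ (Nat.le_succ i))
  have hmono1 : ∀ i : ℕ, finrank L (Lv L (fun i b => (x i b : K)) i) ≤
      finrank L (Lv L (fun i b => (x i b : K)) (i + 1)) := fun i =>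
    IntermediateField.finrank_le_of_le_right (Lv_mono _ (Nat.le_succ i))
  rcases corr_amb R hE hΛtr x hx0 hw M hψ0 hψ φ hin (fun i =>
    cond_le (hmono2 i) (hmono1 i) (hfr i) (hfr2 i)
      (ratio_le (K0 := L) (R := R) (τ : K →+* AlgebraicClosure K) hτ (fun i b => (x i b : K)) i)
      (hM i)) with h | ⟨h1, h2⟩
  · left
    intro z hz
    have h1 := h ⟨z, hz⟩
    have h2 : IsAlgebraic E (τ z) := h1.restrictScalars E
    exact mem_algebraicClosure_iff.2 h2
  · right
    refine ⟨h1, fun i b hib => h2 i b fun h3 => hib ?_⟩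
    have h4 : IsAlgebraic E (τ (x i b)) := h3.restrictScalars E
    exact mem_algebraicClosure_iff.2 h4

/-- **The base of the fibration.** -/
theorem base_kod {n : ℕ} (E : IntermediateField ℂ K) [hess : Algebra.EssFiniteType ℂ E]
    (hE : Algebra.trdeg ℂ E = n) (hcl : ∀ z : K, IsAlgebraic E z → z ∈ E) {κ : ℕ}
    {m : Fin κ → ℕ} (x : ∀ i, Fin (m i + 1) → E) (hx0 : ∀ i, x i 0 = 1)
    (hgen : Lv L (fun i b => (x i b : K)) κ = IntermediateField.adjoin L (E : Set K)) {w : ℕ}
    (hw : 0 < w) (M : Fin κ → ℕ)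
    (hM : ∀ i : Fin κ, 2 * (finrank L (Lv L (fun i b => (x i b : K)) (i + 1)) -
      finrank L (Lv L (fun i b => (x i b : K)) i)) * w <
      M i * finrank L (Lv L (fun i b => (x i b : K)) i))
    {ψ : (Fin n → Derivation ℂ E E) → E} (hψ0 : ∃ D, ψ D ≠ 0)
    (hψ : ∀ f, LogSec ℂ E n w (fun _ => False) (fun D => mlt x M f * ψ D))
    (hfirst : ∀ z ∈ E, IsAlgebraic (E.comap (IsScalarTower.toAlgHom ℂ L K)) z) {a : ℕ}
    (hkod : KodGe ℂ E n (fun _ => False) a) :
    Algebra.trdeg ℂ (E.comap (IsScalarTower.toAlgHom ℂ L K)) = n ∧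
    0 < relfinrank ((E.comap (IsScalarTower.toAlgHom ℂ L K)).map
      (IsScalarTower.toAlgHom ℂ L K)) E ∧
    relfinrank ((E.comap (IsScalarTower.toAlgHom ℂ L K)).map (IsScalarTower.toAlgHom ℂ L K)) E ≤
      finrank L (IntermediateField.adjoin L (E : Set K)) ∧
    KodGe ℂ (E.comap (IsScalarTower.toAlgHom ℂ L K)) n (fun _ => False) a := by
  obtain ⟨N, hN⟩ : ∃ N, N = E.comap (IsScalarTower.toAlgHom ℂ L K) := ⟨_, rfl⟩
  have hclN : ∀ z : L, IsAlgebraic N z → z ∈ N := by
    intro z hz
    subst hN
    exact closed_comap E hcl hz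
  have hNB' : ∀ z ∈ N, algebraMap L K z ∈ E := by
    intro z hz
    rw [hN] at hz
    exact hz
  have hNB : ∀ z : N, algebraMap L K z ∈ E := fun z => hNB' z z.2
  rw [← hN] at hfirst ⊢
  let iB : Algebra N E := (RingHom.mk ⟨⟨fun z => ⟨algebraMap L K z, hNB z⟩,
    Subtype.ext (map_one (algebraMap L K))⟩, fun a b => Subtype.ext (map_mul (algebraMap L K) _ _)⟩
    (Subtype.ext (map_zero (algebraMap L K))) (fun a b => Subtype.ext (map_add (algebraMap L K) _ _))
    : N →+* E).toAlgebra
  have hBK : IsScalarTower N E K := IsScalarTower.of_algebraMap_eq fun _ => rfl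
  have hCB : IsScalarTower ℂ N E := IsScalarTower.of_algebraMap_eq fun c =>
    Subtype.ext (IsScalarTower.algebraMap_apply ℂ L K c)
  have hBalg : Algebra.IsAlgebraic N E := by
    constructor
    intro b
    exact (isAlgebraic_algebraMap_iff (R := N) (algebraMap E K).injective).1 (hfirst _ b.2)
  have hBess' : Algebra.EssFiniteType N E := Algebra.EssFiniteType.of_comp ℂ N E
  have hBfin : FiniteDimensional N E := Algebra.finite_of_essFiniteType_of_isAlgebraic
  have hNtr : Algebra.trdeg ℂ N = n := Pool.Agent.Y184.NT.trdeg_below (K := E) hE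
  have hessN : Algebra.EssFiniteType ℂ N := Pool.Agent.TH466.QG.ess_below (K := E)
  have hclN' : ∀ x : L, IsIntegral N x → ∃ y : N, algebraMap N L y = x := fun x hx =>
    ⟨⟨x, hclN x hx.isAlgebraic⟩, rfl⟩
  have hchN : CharZero N := charZero_of_injective_algebraMap (algebraMap ℂ N).injective
  have e1 : finrank N E ≤ finrank L (IntermediateField.adjoin L (E : Set K)) :=
    finrank_le_of_disj (N := N) (L := L) (A := E) (K := K) hclN'
      (IntermediateField.adjoin L (E : Set K)) fun a => IntermediateField.subset_adjoin _ _ a.2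
  have hle : N.map (IsScalarTower.toAlgHom ℂ L K) ≤ E := by
    rintro _ ⟨z, hz, rfl⟩
    exact hNB' z hz
  have e2 : relfinrank (N.map (IsScalarTower.toAlgHom ℂ L K)) E = finrank N E := by
    rw [relfinrank_eq_finrank_of_le hle]
    let j : E ≃+* extendScalars hle :=
      { toFun := fun z => ⟨z.1, z.2⟩
        invFun := fun z => ⟨z.1, z.2⟩
        left_inv := fun _ => rfl
        right_inv := fun _ => rfl
        map_mul' := fun _ _ => rfl
        map_add' := fun _ _ => rfl }
    refine (Algebra.finrank_eq_of_equiv_equiv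
      (N.equivMap (IsScalarTower.toAlgHom ℂ L K)).toRingEquiv j ?_).symm
    ext z
    rfl
  refine ⟨hNtr, ?_, ?_, ?_⟩
  · rw [e2]
    exact finrank_pos
  · rw [e2]
    exact e1
  · have hdeg : ∀ i, finrank N (Lv N x i) = finrank L (Lv L (fun i b => (x i b : K)) i) :=
      fun i => disj_Lv (N := N) (L := L) (E := E) (K := K) hclN' x i
    have htop : Lv N x κ = ⊤ := disj_top (N := N) (L := L) (E := E) (K := K) hclN' x fun z => by
      have h1 : (z : K) ∈ Lv L (fun i b => (x i b : K)) κ := by
        rw [hgen]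
        exact IntermediateField.subset_adjoin _ _ z.2
      exact h1
    have hbd : (BdUp (fun _ : Place ℂ N => False) : Place ℂ E → Prop) = fun _ => False := by
      funext Q
      apply propext
      constructor
      · rintro ⟨_, _, _, h⟩
        exact h
      · exact fun h => h.elim
    have hψ1 : ∀ f, LogSec ℂ E n w (BdUp (fun _ : Place ℂ N => False))
        (fun D => mlt x M f * ψ D) := by
      rw [hbd]
      exact hψ
    refine kodGe_down (K := N) (L := E) (B := fun _ => False) hNtr x hx0 htop hw M (fun i => ?_)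
      hψ0 hψ1 ?_
    · rw [hdeg, hdeg]
      exact hM i
    · rw [hbd]
      exact hkod

end

end Run7.h72
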