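import Pool.Agent.Run7.h72.Core
import Pool.Agent.Run7.h72.Struct
import Pool.Agent.Run7.h72.Geo1
import Pool.Agent.Run7.h72.CurveNum

/-!
Varieties dominated by the product of a variety with a very positive canonical bundle and a curve.
-/

set_option autoImplicit false
set_option linter.overlappingInstances false
set_option linter.unusedSectionVars false
set_option linter.unusedVariables false
set_option maxHeartbeats 4000000
set_option synthInstance.maxHeartbeats 400000

open Polynomial FF IntermediateField Module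

namespace Run7.h72

open Pool.Agent.W603.LV Pool.Agent.Y172
open Pool.Agent.W602.GT (Divisorial RegAt IsPluri DerReg DerLog LogAt KodGe LogSec Psef)
open Pool.Agent.W619.TW (NumLe)
open Pool.Agent.W619.PQ (IsUniruled)
open Pool.Agent.N145.SX (zz BdX closed erase basis_zz geo cov GLO GeoFib Cov1)
open Pool.Agent.N145.PL (HL exists_xB)
open Pool.Agent.N145.PC (exists_D isFF_adj closed_comap alg_of_const to_ratfunc)
open Pool.Agent.Y184.NT (trForm trForm_pluri)

/-- the forms on `X` -/
theorem kod_X {E : Type} [Field E] [Algebra ℂ E] {n κ : ℕ} {m : Fin κ → ℕ}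
    (x : ∀ i, Fin (m i + 1) → E) (hx0 : ∀ i, x i 0 = 1) {w : ℕ} (hw : 0 < w) (M : Fin κ → ℕ)
    (hM : ∀ i, M i ≠ 0) {BX : Place ℂ E → Prop} {ψ : (Fin n → Derivation ℂ E E) → E}
    (hψ0 : ∃ D, ψ D ≠ 0) (hψ : ∀ f, LogSec ℂ E n w BX (fun D => mlt x M f * ψ D)) {a : ℕ}
    (s : Fin a → Σ i, Fin (m i + 1)) (hs : AlgebraicIndependent ℂ fun l => x (s l).1 (s l).2) :
    KodGe ℂ E n BX a := by
  classical
  obtain ⟨D, hD⟩ := hψ0
  let F : Fin a → ∀ i, Fin (m i + 1) := fun l => Function.update (fun _ => 0) (s l).1 (s l).2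
  have hFm : ∀ l, mlt x M (F l) = x (s l).1 (s l).2 ^ M (s l).1 := fun l =>
    mlt_update x hx0 M (s l).1 (s l).2
  let Fz : Fin (a + 1) → ∀ i, Fin (m i + 1) := Fin.cons (fun _ => 0) F
  have hFz0 : mlt x M (Fz 0) = 1 := mlt_zero x hx0 M
  refine ⟨w, hw, fun l D => mlt x M (Fz l) * ψ D, fun l => hψ (Fz l), D, ?_, ?_⟩
  · change mlt x M (Fz 0) * ψ D ≠ 0
    rw [hFz0, one_mul]
    exact hD
  · have e1 : (fun l : Fin a => mlt x M (Fz l.succ) * ψ D / (mlt x M (Fz 0) * ψ D)) =
        fun l => x (s l).1 (s l).2 ^ M (s l).1 := by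
      funext l
      rw [hFz0, one_mul, mul_div_assoc, div_self hD, mul_one]
      exact hFm l
    rw [e1]
    exact indep_pw hs (n := fun l => M (s l).1) fun l => hM _

section

variable {K : Type} [Field K] [Algebra ℂ K]

/-- the fibration with rational fibres -/
def FibR (E : IntermediateField ℂ K) (L : Type) [Field L] [Algebra ℂ L] [Algebra L K]
    [IsScalarTower ℂ L K] (n d a : ℕ) : Prop :=
  ∃ N : IntermediateField ℂ L, (∀ z : L, IsAlgebraic N z → z ∈ N) ∧ Algebra.trdeg ℂ N = n ∧
    N.map (IsScalarTower.toAlgHom ℂ L K) ≤ E ∧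
    0 < relfinrank (N.map (IsScalarTower.toAlgHom ℂ L K)) E ∧
    relfinrank (N.map (IsScalarTower.toAlgHom ℂ L K)) E ≤ d ∧ KodGe ℂ N n (fun _ => False) a ∧
    ∃ (M : Type) (_ : Field M) (_ : Algebra N M),
      Algebra.IsAlgebraic N M ∧ Nonempty (L →ₐ[N] RatFunc M)

/-- the fibration with fibres of genus at most one -/
def FibE (E : IntermediateField ℂ K) (L : Type) [Field L] [Algebra ℂ L] [Algebra L K]
    [IsScalarTower ℂ L K] (n d a : ℕ) : Prop :=
  ∃ N : IntermediateField ℂ L, (∀ z : L, IsAlgebraic N z → z ∈ N) ∧ Algebra.trdeg ℂ N = n ∧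
    N.map (IsScalarTower.toAlgHom ℂ L K) ≤ E ∧
    0 < relfinrank (N.map (IsScalarTower.toAlgHom ℂ L K)) E ∧
    relfinrank (N.map (IsScalarTower.toAlgHom ℂ L K)) E ≤ d ∧ KodGe ℂ N n (fun _ => False) a ∧
    GeoFib L N

/-- the numerical dimension of a fibration in curves of genus at most one -/
theorem num_aux {N L Λ F : Type} [Field N] [Field L] [Field Λ] [Field F] [Algebra ℂ N]
    [Algebra ℂ L] [Algebra N L] [IsScalarTower ℂ N L] [Algebra.EssFiniteType ℂ N]
    [Algebra.EssFiniteType ℂ L] [Algebra N Λ] [Algebra N F] [Algebra Λ F] [IsScalarTower N Λ F]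
    [IsAlgClosed Λ] [Algebra.IsAlgebraic N Λ] [IsFF Λ F] (ψ : L →ₐ[N] F) {n : ℕ}
    (hgen : IntermediateField.adjoin Λ (Set.range ψ) = ⊤) (hglo : GLO Λ F)
    (hcl : ∀ x : L, IsIntegral N x → ∃ y : N, algebraMap N L y = x)
    (hL : Algebra.trdeg ℂ L = (n + 1 : ℕ)) (hN : Algebra.trdeg ℂ N = n) :
    NumLe ℂ L (n + 1) (fun _ => False) n := by
  let a1 : Algebra ℂ Λ := ((algebraMap N Λ).comp (algebraMap ℂ N)).toAlgebra
  let a2 : Algebra ℂ F := ((algebraMap Λ F).comp (algebraMap ℂ Λ)).toAlgebra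
  let a3 : Algebra L F := ψ.toRingHom.toAlgebra
  have t1 : IsScalarTower ℂ Λ F := IsScalarTower.of_algebraMap_eq fun c => rfl
  have t2 : IsScalarTower ℂ N Λ := IsScalarTower.of_algebraMap_eq fun c => rfl
  have t3 : IsScalarTower N L F := IsScalarTower.of_algebraMap_eq fun c => (ψ.commutes c).symm
  have t4 : IsScalarTower ℂ L F := IsScalarTower.of_algebraMap_eq fun c => by
    have h1 := ψ.commutes (algebraMap ℂ N c)
    change _ = ψ (algebraMap ℂ L c)
    rw [IsScalarTower.algebraMap_apply ℂ N L, h1, IsScalarTower.algebraMap_apply N Λ F]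
    rfl
  have hΛ0 : CharZero Λ := charZero_of_injective_algebraMap (algebraMap ℂ Λ).injective
  have h1 : NumLe Λ F (0 + 1) (fun _ => False) 0 := curve_num hglo
  exact Pool.Agent.Y174.easy_add (k := ℂ) (L := N) (K := L) (Λ := Λ) (F := F) inferInstance
    inferInstance hgen hcl hN (r := 0) hL h1

theorem num_of_fib {L : Type} [Field L] [Algebra ℂ L] [Algebra.EssFiniteType ℂ L] {n : ℕ}
    (hL : Algebra.trdeg ℂ L = (n + 1 : ℕ)) {N : IntermediateField ℂ L}
    (hcl : ∀ z : L, IsAlgebraic N z → z ∈ N) (hN : Algebra.trdeg ℂ N = n) (h : GeoFib L N) :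
    NumLe ℂ L (n + 1) (fun _ => False) n := by
  obtain ⟨Λ, F, iΛ, iF, iNΛ, iNF, iΛF, iT, iC, ialg, iFF, ψ, hgen, hglo⟩ := h
  have hessN : Algebra.EssFiniteType ℂ N := Pool.Agent.N999.SX.FG ℂ L N
  exact num_aux ψ hgen hglo (fun y hy => ⟨⟨y, hcl y hy.isAlgebraic⟩, rfl⟩) hL hN

variable [hessK : Algebra.EssFiniteType ℂ K] {n : ℕ} {E C : IntermediateField ℂ K}
  [Algebra.EssFiniteType ℂ E] [IsFF ℂ C] {L : Type} [Field L] [Algebra ℂ L] [Algebra L K]
  [IsScalarTower ℂ L K] [FiniteDimensional L K] {κ : ℕ} {m : Fin κ → ℕ}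

/-- the first case: the functions of `X` are constant on the rational curves -/
theorem zero_case (hsup : E ⊔ C = ⊤) (hE : Algebra.trdeg ℂ E = n)
    (hK : Algebra.trdeg ℂ K = (n + 1 : ℕ)) (x : ∀ i, Fin (m i + 1) → E) (hx0 : ∀ i, x i 0 = 1)
    (hgen : Lv L (fun i b => (x i b : K)) κ = IntermediateField.adjoin L (E : Set K)) {w : ℕ}
    (hw : 0 < w) (M : Fin κ → ℕ)
    (hM : ∀ i : Fin κ, 2 * (finrank L (Lv L (fun i b => (x i b : K)) (i + 1)) -
      finrank L (Lv L (fun i b => (x i b : K)) i)) * w <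
      M i * finrank L (Lv L (fun i b => (x i b : K)) i))
    {ψ : (Fin n → Derivation ℂ E E) → E} (hψ0 : ∃ D, ψ D ≠ 0)
    (hψ : ∀ f, LogSec ℂ E n w (fun _ => False) (fun D => mlt x M f * ψ D))
    {v : Fin n → E} (hv : IsTranscendenceBasis ℂ v) {t : C} (ht : Transcendental ℂ t)
    {D0 : Derivation ℂ C C} (hD0 : D0 t = 1) {h : K}
    (hval : ∀ (M : IntermediateField L K) (g : K) (D : Fin (n + 1) → Derivation ℂ M M)
      (D' : Fin (n + 1) → Derivation ℂ K K),
      (∀ i z, D' i (algebraMap M K z) = algebraMap M K (D i z)) →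
      ∃ a : M, trForm (zz K v t) g D' = algebraMap M K a * (h * g))
    (hz : ∀ φ ∈ HL D0 (∅ : Set (Place ℂ C)),
      Algebra.trace (IntermediateField.adjoin L (E : Set K)) K (h * (φ : K)) = 0) :
    (∀ z ∈ E, IsAlgebraic (E.comap (IsScalarTower.toAlgHom ℂ L K)) z) ∧
    ∃ s : AlgebraicClosure K, Transcendental (algebraicClosure E (AlgebraicClosure K)) s ∧
      ∀ z : L, algebraMap K (AlgebraicClosure K) (algebraMap L K z) ∈
        IntermediateField.adjoin (algebraicClosure E (AlgebraicClosure K)) {s} := by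
  obtain ⟨hna, -, hcl⟩ := closed K n E C hsup hE hK
  obtain ⟨s, hs, hsL⟩ := geo K n E C hsup hE hK v hv t ht D0 hD0 L h hval hz
  have hΛ : IsAlgClosed (algebraicClosure E (AlgebraicClosure K)) :=
    (algebraicClosure.isAlgClosure E (AlgebraicClosure K)).isAlgClosed
  have hΛ0 : CharZero (algebraicClosure E (AlgebraicClosure K)) :=
    charZero_of_injective_algebraMap
      (algebraMap ℂ (algebraicClosure E (AlgebraicClosure K))).injective
  obtain ⟨ss, hss⟩ : ∃ ss : IntermediateField.adjoin (algebraicClosure E (AlgebraicClosure K))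
    {s}, ss = ⟨s, mem_adjoin_simple_self _ s⟩ := ⟨_, rfl⟩
  have htop : IntermediateField.adjoin (algebraicClosure E (AlgebraicClosure K)) {ss} = ⊤ := by
    rw [hss]
    apply IntermediateField.lift_injective
      (IntermediateField.adjoin (algebraicClosure E (AlgebraicClosure K)) {s})
    rw [IntermediateField.lift_adjoin_simple, IntermediateField.lift_top]
  have hsst : Transcendental (algebraicClosure E (AlgebraicClosure K)) ss := by
    intro h'
    apply hs
    have h2 := h'.algebraMap (A := AlgebraicClosure K)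
    rw [hss] at h2
    exact h2
  have hFF : IsFF (algebraicClosure E (AlgebraicClosure K))
      (IntermediateField.adjoin (algebraicClosure E (AlgebraicClosure K)) {s}) := by
    refine IsFF.of_finite hsst ?_
    rw [htop]
    exact FiniteDimensional.of_finrank_eq_succ (n := 0) (by
      rw [IntermediateField.finrank_top])
  have hconst : ∀ τ : K →ₐ[L] AlgebraicClosure K, ∀ z ∈ E,
      τ z ∈ algebraicClosure E (AlgebraicClosure K) := by
    intro τ
    rcases const_all E hE x hx0 hgen hw M hM hψ0 hψ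
      (IntermediateField.adjoin (algebraicClosure E (AlgebraicClosure K)) {s})
      (fun z => ⟨⟨_, hsL z⟩, rfl⟩) τ with h1 | ⟨h1, -⟩
    · exact h1
    · exact absurd h1 (not_kod_rational htop)
  exact ⟨fun z hz => alg_of_const E hcl fun τ => hconst τ z hz, s, hs, hsL⟩

/-- functions which are algebraic over constant ones -/
theorem alg_indep_const (hE : Algebra.trdeg ℂ E = n) {y : Fin n → E}
    (hy : AlgebraicIndependent ℂ y) (τ : K →ₐ[L] AlgebraicClosure K)
    (h : ∀ i, τ (y i) ∈ algebraicClosure E (AlgebraicClosure K)) :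
    ∀ z ∈ E, τ z ∈ algebraicClosure E (AlgebraicClosure K) := by
  intro z hz
  have hb : IsTranscendenceBasis ℂ y := by
    refine hy.isTranscendenceBasis_of_lift_trdeg_le_of_finite ?_
    rw [hE]
    simp
  have h1 := hb.isAlgebraic
  have h2 : IsAlgebraic (Algebra.adjoin ℂ (Set.range y)) (⟨z, hz⟩ : E) :=
    Algebra.IsAlgebraic.isAlgebraic _
  let φ : E →ₐ[ℂ] AlgebraicClosure K := (τ.restrictScalars ℂ).comp E.val
  have hmem : ∀ a : Algebra.adjoin ℂ (Set.range y),
      φ a ∈ algebraicClosure E (AlgebraicClosure K) := by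
    rintro ⟨a, ha⟩
    induction ha using Algebra.adjoin_induction with
    | mem a ha =>
      obtain ⟨i, rfl⟩ := ha
      exact h i
    | algebraMap c =>
      change φ (algebraMap ℂ E c) ∈ _
      rw [AlgHom.commutes, IsScalarTower.algebraMap_apply ℂ K (AlgebraicClosure K)]
      have h3 : algebraMap K (AlgebraicClosure K) (algebraMap ℂ K c) =
        algebraMap E (AlgebraicClosure K) (algebraMap ℂ E c) := rfl
      rw [h3]
      exact IntermediateField.algebraMap_mem _ _
    | add a b ha hb iha ihb =>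
      change φ (a + b) ∈ _
      rw [map_add]
      exact add_mem iha ihb
    | mul a b ha hb iha ihb =>
      change φ (a * b) ∈ _
      rw [map_mul]
      exact mul_mem iha ihb
  let f : Algebra.adjoin ℂ (Set.range y) →+* algebraicClosure E (AlgebraicClosure K) :=
    { toFun := fun a => ⟨φ a, hmem a⟩
      map_one' := Subtype.ext (map_one φ)
      map_mul' := fun a b => Subtype.ext (map_mul φ _ _)
      map_zero' := Subtype.ext (map_zero φ)
      map_add' := fun a b => Subtype.ext (map_add φ _ _) }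
  have hf : Function.Injective f := fun a b hab => by
    have h3 : φ a = φ b := congrArg Subtype.val hab
    exact Subtype.ext (φ.injective h3)
  obtain ⟨p, hp0, hp⟩ := h2
  have h3 : IsAlgebraic (algebraicClosure E (AlgebraicClosure K)) (τ z) := by
    refine ⟨p.map f, (Polynomial.map_ne_zero_iff hf).2 hp0, ?_⟩
    rw [Polynomial.aeval_def, Polynomial.eval₂_map]
    rw [Polynomial.aeval_def] at hp
    have h4 := congrArg φ hp
    rw [map_zero] at h4
    have h5 := Polynomial.hom_eval₂ p (algebraMap (Algebra.adjoin ℂ (Set.range y)) E)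
      (φ : E →+* AlgebraicClosure K) ⟨z, hz⟩
    have h6 : (φ : E →+* AlgebraicClosure K) (eval₂ (algebraMap (Algebra.adjoin ℂ (Set.range y)) E)
      ⟨z, hz⟩ p) = 0 := h4
    rw [h6] at h5
    exact h5.symm
  have h4 : IsAlgebraic E (τ z) := h3.restrictScalars E
  exact mem_algebraicClosure_iff.2 h4

/-- the second case: the functions of `X` are constant on the curves of genus one -/
theorem one_case (hsup : E ⊔ C = ⊤) (hE : Algebra.trdeg ℂ E = n)
    (hK : Algebra.trdeg ℂ K = (n + 1 : ℕ)) (x : ∀ i, Fin (m i + 1) → E) (hx0 : ∀ i, x i 0 = 1)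
    (hgen : Lv L (fun i b => (x i b : K)) κ = IntermediateField.adjoin L (E : Set K)) {w : ℕ}
    (hw : 0 < w) (M : Fin κ → ℕ)
    (hM : ∀ i : Fin κ, 2 * (finrank L (Lv L (fun i b => (x i b : K)) (i + 1)) -
      finrank L (Lv L (fun i b => (x i b : K)) i)) * w <
      M i * finrank L (Lv L (fun i b => (x i b : K)) i))
    {ψ : (Fin n → Derivation ℂ E E) → E} (hψ0 : ∃ D, ψ D ≠ 0)
    (hψ : ∀ f, LogSec ℂ E n w (fun _ => False) (fun D => mlt x M f * ψ D))
    (s : Fin n → Σ i, Fin (m i + 1)) (hs : AlgebraicIndependent ℂ fun l => x (s l).1 (s l).2)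
    {v : Fin n → E} (hv : IsTranscendenceBasis ℂ v) {t : C} (ht : Transcendental ℂ t)
    {D0 : Derivation ℂ C C} (hD0 : D0 t = 1) {h : K}
    (hval : ∀ (M : IntermediateField L K) (g : K) (D : Fin (n + 1) → Derivation ℂ M M)
      (D' : Fin (n + 1) → Derivation ℂ K K),
      (∀ i z, D' i (algebraMap M K z) = algebraMap M K (D i z)) →
      ∃ a : M, trForm (zz K v t) g D' = algebraMap M K a * (h * g)) {S0 : K}
    (hz : ∀ φ ∈ HL D0 (∅ : Set (Place ℂ C)), ∃ c : E,
        ((Algebra.trace (IntermediateField.adjoin L (E : Set K)) K (h * (φ : K)) :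
        IntermediateField.adjoin L (E : Set K)) : K) = (c : K) * S0) :
    FibE E L n (finrank L (IntermediateField.adjoin L (E : Set K))) n := by
  obtain ⟨hna, -, hcl⟩ := closed K n E C hsup hE hK
  obtain ⟨R, i1, i2, i3, i4, i5, hglo, hRL⟩ :=
    geo1 K n E C hsup hE hK v hv t ht D0 hD0 L h hval S0 hz
  have hΛ : IsAlgClosed (algebraicClosure E (AlgebraicClosure K)) :=
    (algebraicClosure.isAlgClosure E (AlgebraicClosure K)).isAlgClosed
  have hΛ0 : CharZero (algebraicClosure E (AlgebraicClosure K)) :=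
    charZero_of_injective_algebraMap
      (algebraMap ℂ (algebraicClosure E (AlgebraicClosure K))).injective
  have hconst : ∀ τ : K →ₐ[L] AlgebraicClosure K, ∀ z ∈ E,
      τ z ∈ algebraicClosure E (AlgebraicClosure K) := by
    intro τ
    rcases const_all E hE x hx0 hgen hw M hM hψ0 hψ R hRL τ with h1 | ⟨-, h1⟩
    · exact h1
    · refine alg_indep_const hE hs τ fun i => ?_
      by_contra hcon
      exact not_kod_glo hglo (h1 _ _ hcon)
  have hfirst : ∀ z ∈ E, IsAlgebraic (E.comap (IsScalarTower.toAlgHom ℂ L K)) z := fun z hz =>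
    alg_of_const E hcl fun τ => hconst τ z hz
  have hMne : ∀ i, M i ≠ 0 := fun i h0 => by
    have h3 := hM i
    rw [h0, zero_mul] at h3
    omega
  obtain ⟨h2, h3, h4, h5⟩ := base_kod E hE hcl x hx0 hgen hw M hM hψ0 hψ hfirst
    (kod_X x hx0 hw M hMne hψ0 hψ s hs)
  refine ⟨_, fun z hz => closed_comap _ hcl hz, h2, ?_, h3, h4, h5, ?_⟩
  · rintro _ ⟨z, hz, rfl⟩
    exact hz
  · exact cov K n E C hsup hE hK v hv t ht D0 hD0 L h hval S0 hz _
      (fun z hz => isAlgebraic_algebraMap (⟨algebraMap L K z, hz⟩ : E)) hfirst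

end

end Run7.h72
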