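import Pool.Agent.Y172.Cov3
import Pool.Agent.Run7.h72.Diff
import Pool.Agent.Run7.h72.Mob

/-!
Norms of pluricanonical forms in a finite extension, corrected by the derivative of the minimal
polynomial of a generator.
-/

set_option autoImplicit false
set_option linter.overlappingInstances false
set_option linter.unusedSectionVars false

open FF Polynomial Module
open Pool.Agent.W602.GT Pool.Agent.W603.LV Pool.Agent.W619.PQ Pool.Agent.Y172

namespace Run7.h72

section

variable {k K L : Type} [Field k] [CharZero k] [Field K] [Field L] [Algebra k K] [Algebra k L]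
  [Algebra K L] [IsScalarTower k K L] [FiniteDimensional K L]

/-- the norm of an element which is regular at all places over `q` is regular -/
theorem norm_reg (q : Place k K) (z : L)
    (hz : ∀ (w : Place k L) (e : ℕ), Over w q e → Ge w 0 z) : q.Reg (Algebra.norm K z) := by
  let iA : Algebra q.O L := algO q
  have h1 : IsIntegral q.O z := isIntegral_of_reg q z hz
  have : IsScalarTower q.O K L := IsScalarTower.of_algebraMap_eq fun _ => rfl
  have h2 : IsIntegral q.O (Algebra.norm K z) := Algebra.isIntegral_norm K h1
  obtain ⟨a, ha⟩ := IsIntegrallyClosed.isIntegral_iff.1 h2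
  rw [← ha]
  exact a.2

/-- a constant which is different from the values of `t` at all places over `q` -/
theorem exists_const (q : Place k K) (t : L) :
    ∃ c : k, t - algebraMap k L c ≠ 0 ∧
      ∀ (w : Place k L) (e : ℕ), Over w q e → Ge w 0 (t - algebraMap k L c)⁻¹ := by
  classical
  have hinf : Infinite k := inferInstance
  have : CharZero K := charZero_of_injective_algebraMap (algebraMap k K).injective
  have hfin : {w : Place k L | ∃ e, Over w q e}.Finite := finite_over (K' := L) q
  -- the excluded constants
  let S : Set k := {c | t = algebraMap k L c} ∪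
    ⋃ w ∈ {w : Place k L | ∃ e, Over w q e}, {c | Ge w 1 (t - algebraMap k L c)}
  have hS : S.Finite := by
    refine Set.Finite.union ?_ (hfin.biUnion fun w _ => ?_)
    · refine Set.Subsingleton.finite fun a ha b hb => ?_
      exact (algebraMap k L).injective (ha.symm.trans hb)
    · refine Set.Subsingleton.finite fun a ha b hb => ?_
      by_contra hab
      have h1 : Ge w 1 (algebraMap k L (a - b)) := by
        have h2 := Ge.sub hb ha
        have h3 : t - algebraMap k L b - (t - algebraMap k L a) = algebraMap k L (a - b) := by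
          rw [map_sub]; ring
        rwa [h3] at h2
      rcases h1 with h1 | h1
      · rw [map_eq_zero, sub_eq_zero] at h1
        exact hab h1
      · rw [w.ord_const (sub_ne_zero.2 hab)] at h1
        omega
  obtain ⟨c, hc⟩ := hS.exists_notMem
  have hc1 : t - algebraMap k L c ≠ 0 := fun h => hc (Or.inl (sub_eq_zero.1 h))
  refine ⟨c, hc1, fun w e hw => ?_⟩
  right
  rw [w.ord_inv]
  by_contra hneg
  push Not at hneg
  apply hc
  right
  rw [Set.mem_iUnion₂]
  refine ⟨w, ⟨e, hw⟩, Or.inr ?_⟩
  omega

/-- **The norm of a twisted element.** If `t ^ j y` vanishes, for `j ≤ 2 (r - 1) N`, to order at least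
`- N (e - 1)` at all places over `q`, then the norm of `y` times the `N`-th power of the derivative of
the minimal polynomial of `t` is regular at `q`. -/
theorem norm_twist (q : Place k K) {t : L} (ht : Algebra.adjoin K {t} = ⊤) (N : ℕ) (y : L)
    (hy : ∀ (w : Place k L) (e : ℕ), Over w q e → ∀ j ≤ 2 * (finrank K L - 1) * N,
      Ge w (-(N * ((e : ℤ) - 1))) (t ^ j * y)) :
    q.Reg (Algebra.norm K (y * aeval t (derivative (minpoly K t)) ^ N)) := by
  obtain ⟨c, hc, hcw⟩ := exists_const (K := K) q t
  obtain ⟨u, hu⟩ : ∃ u, u = t - algebraMap k L c := ⟨_, rfl⟩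
  rw [← hu] at hc hcw
  have hcK : algebraMap k L c = algebraMap K L (algebraMap k K c) :=
    IsScalarTower.algebraMap_apply k K L c
  have hugen : Algebra.adjoin K {u} = ⊤ := by
    rw [eq_top_iff, ← ht, Algebra.adjoin_le_iff, Set.singleton_subset_iff]
    have h1 : t = u + algebraMap K L (algebraMap k K c) := by rw [hu, hcK]; ring
    rw [h1]
    exact add_mem (Algebra.self_mem_adjoin_singleton K u) (Subalgebra.algebraMap_mem _ _)
  have hsgen : Algebra.adjoin K {u⁻¹} = ⊤ := by
    rw [← gen_iff, eq_top_iff, ← gen_iff.2 hugen, IntermediateField.adjoin_simple_le_iff]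
    have := IntermediateField.mem_adjoin_simple_self K u⁻¹
    simpa using inv_mem this
  obtain ⟨ε, hε, hnorm⟩ := norm_deriv_inv hc hugen
  have hder : aeval u (derivative (minpoly K u)) = aeval t (derivative (minpoly K t)) := by
    rw [hu, hcK]
    exact deriv_sub t _
  rw [hder] at hnorm
  -- the integral element
  have hint : q.Reg (Algebra.norm K (y * (u ^ (2 * (finrank K L - 1)) *
      aeval u⁻¹ (derivative (minpoly K u⁻¹))) ^ N)) := by
    refine norm_reg q _ fun w e hw => ?_
    have h1 := ge_derivative q u⁻¹ hcw hsgen w e hw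
    have h2 : Ge w (-(N * ((e : ℤ) - 1))) (y * u ^ (2 * (finrank K L - 1) * N)) := by
      have h3 : y * u ^ (2 * (finrank K L - 1) * N) =
          ∑ j ∈ Finset.range (2 * (finrank K L - 1) * N + 1),
            algebraMap k L ((-c) ^ (2 * (finrank K L - 1) * N - j) *
              ((2 * (finrank K L - 1) * N).choose j : k)) * (t ^ j * y) := by
        rw [hu, sub_eq_add_neg, add_pow, Finset.mul_sum]
        refine Finset.sum_congr rfl fun j _ => ?_
        rw [map_mul, map_pow, map_neg, map_natCast]
        ring
      rw [h3]
      have h4 : ∀ s : Finset ℕ, (∀ j ∈ s, j ≤ 2 * (finrank K L - 1) * N) →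
          Ge w (-(N * ((e : ℤ) - 1))) (∑ j ∈ s,
            algebraMap k L ((-c) ^ (2 * (finrank K L - 1) * N - j) *
              ((2 * (finrank K L - 1) * N).choose j : k)) * (t ^ j * y)) := by
        classical
        intro s
        induction s using Finset.induction_on with
        | empty => intro _; rw [Finset.sum_empty]; exact Ge.zero
        | insert a s ha ih =>
          intro hs
          rw [Finset.sum_insert ha]
          refine Ge.add ?_ (ih fun x hx => hs x (Finset.mem_insert_of_mem hx))
          have h5 := (Ge.const (P := w) ((-c) ^ (2 * (finrank K L - 1) * N - a) *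
            ((2 * (finrank K L - 1) * N).choose a : k))).mul
            (hy w e hw a (hs a (Finset.mem_insert_self a s)))
          rwa [zero_add] at h5
      exact h4 _ fun j hj => Nat.lt_succ_iff.1 (Finset.mem_range.1 hj)
    have h3 := h2.mul (h1.pow N)
    have h4 : y * u ^ (2 * (finrank K L - 1) * N) *
        aeval u⁻¹ (derivative (minpoly K u⁻¹)) ^ N = y * (u ^ (2 * (finrank K L - 1)) *
      aeval u⁻¹ (derivative (minpoly K u⁻¹))) ^ N := by
      rw [mul_pow, ← pow_mul, mul_assoc]
    rw [h4] at h3
    refine h3.mono ?_
    simp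
  have hfin : Algebra.norm K (y * aeval t (derivative (minpoly K t)) ^ N) =
      ε ^ N * Algebra.norm K (y * (u ^ (2 * (finrank K L - 1)) *
      aeval u⁻¹ (derivative (minpoly K u⁻¹))) ^ N) := by
    rw [map_mul, map_pow, hnorm, map_mul _ y, map_pow]
    ring
  rw [hfin]
  refine q.reg_mul ?_ hint
  -- the sign
  have h5 : ε = 1 ∨ ε = -1 := by
    have h6 : (ε - 1) * (ε + 1) = 0 := by linear_combination hε
    rcases mul_eq_zero.1 h6 with h | h
    · exact Or.inl (sub_eq_zero.1 h)
    · exact Or.inr (eq_neg_of_add_eq_zero_left h)
  rcases h5 with rfl | rfl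
  · rw [one_pow]
    exact q.reg_one
  · have h6 : Ge q 0 ((-1 : K) ^ N) := by
      have := (Ge.neg (Ge.one (P := q))).pow N
      simpa using this
    exact h6

end

end Run7.h72
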