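import Pool.Agent.Run7.h72.Norm

/-!
The polarisation of the norm of a finite extension, and generic linear combinations at finitely many
places.
-/

set_option autoImplicit false
set_option linter.overlappingInstances false
set_option linter.unusedSectionVars false

open FF Polynomial Module
open Pool.Agent.W602.GT Pool.Agent.W603.LV Pool.Agent.W619.PQ Pool.Agent.Y172

namespace Run7.h72

section

variable {K L : Type} [Field K] [CharZero K] [Field L] [Algebra K L] [FiniteDimensional K L]

open scoped Classical in
/-- the sum over the enumerations of the embeddings -/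
noncomputable def prm (K : Type) {L : Type} [Field K] [Field L] [Algebra K L]
    [FiniteDimensional K L] (a : Fin (finrank K L) → L) : AlgebraicClosure L :=
  ∑ e : (Fin (finrank K L) ≃ (L →ₐ[K] AlgebraicClosure L)), ∏ j, e j (a j)

open scoped Classical in
/-- the polarisation of the norm, with values in the algebraic closure -/
noncomputable def polC (K L : Type) [Field K] [Field L] [Algebra K L] [FiniteDimensional K L] :
    MultilinearMap K (fun _ : Fin (finrank K L) => L) (AlgebraicClosure L) :=
  ∑ e : (Fin (finrank K L) ≃ (L →ₐ[K] AlgebraicClosure L)),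
    (MultilinearMap.mkPiAlgebra K (Fin (finrank K L)) (AlgebraicClosure L)).compLinearMap
      fun j => (e j).toLinearMap

theorem polC_apply (a : Fin (finrank K L) → L) : polC K L a = prm K a := by
  unfold polC prm
  rw [sum_apply]
  refine Finset.sum_congr rfl fun e _ => ?_
  rw [MultilinearMap.compLinearMap_apply, MultilinearMap.mkPiAlgebra_apply]
  rfl

theorem polC_mem (a : Fin (finrank K L) → L) :
    polC K L a ∈ LinearMap.range (Algebra.linearMap K (AlgebraicClosure L)) := by
  classical
  have halg : Algebra.IsAlgebraic K (AlgebraicClosure L) :=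
    Algebra.IsAlgebraic.trans K L (AlgebraicClosure L)
  have hcl : IsAlgClosure K (AlgebraicClosure L) := ⟨inferInstance, halg⟩
  have hnorm : Normal K (AlgebraicClosure L) := IsAlgClosure.normal K _
  have hgal : IsGalois K (AlgebraicClosure L) := IsGalois.mk
  have h1 : polC K L a ∈ Set.range (algebraMap K (AlgebraicClosure L)) := by
    rw [InfiniteGalois.mem_range_algebraMap_iff_fixed]
    intro g
    let s : (L →ₐ[K] AlgebraicClosure L) ≃ (L →ₐ[K] AlgebraicClosure L) :=
      { toFun := fun σ => (g : AlgebraicClosure L →ₐ[K] AlgebraicClosure L).comp σ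
        invFun := fun σ => (g.symm : AlgebraicClosure L →ₐ[K] AlgebraicClosure L).comp σ
        left_inv := fun σ => by
          ext x
          simp
        right_inv := fun σ => by
          ext x
          simp }
    rw [polC_apply]
    unfold prm
    rw [map_sum]
    refine Fintype.sum_equiv
      (⟨fun e => e.trans s, fun e => e.trans s.symm, fun e => by ext; simp, fun e => by ext; simp⟩ :
        (Fin (finrank K L) ≃ (L →ₐ[K] AlgebraicClosure L)) ≃
        (Fin (finrank K L) ≃ (L →ₐ[K] AlgebraicClosure L))) _ _ fun e => ?_
    rw [map_prod]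
    refine Finset.prod_congr rfl fun j _ => ?_
    rfl
  obtain ⟨z, hz⟩ := h1
  exact ⟨z, hz⟩

/-- **The polarisation of the norm.** -/
theorem exists_pol : ∃ p : MultilinearMap K (fun _ : Fin (finrank K L) => L) K,
    ∀ a, algebraMap K (AlgebraicClosure L) (p a) = prm K a := by
  have hinj : Function.Injective (Algebra.linearMap K (AlgebraicClosure L)) :=
    (algebraMap K (AlgebraicClosure L)).injective
  refine ⟨((LinearEquiv.ofInjective _ hinj).symm.toLinearMap).compMultilinearMap
    ((polC K L).codRestrict _ polC_mem), fun a => ?_⟩
  rw [← polC_apply]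
  have h1 := (LinearEquiv.ofInjective _ hinj).apply_symm_apply
    (⟨polC K L a, polC_mem a⟩ : LinearMap.range (Algebra.linearMap K (AlgebraicClosure L)))
  exact congrArg Subtype.val h1

variable {p : MultilinearMap K (fun _ : Fin (finrank K L) => L) K}
  (hp : ∀ a, algebraMap K (AlgebraicClosure L) (p a) = prm K a)

include hp

theorem pol_mul (c : L) (a : Fin (finrank K L) → L) :
    p (fun j => c * a j) = Algebra.norm K c * p a := by
  apply (algebraMap K (AlgebraicClosure L)).injective
  rw [hp, map_mul, hp, Algebra.norm_eq_prod_embeddings K (AlgebraicClosure L) c]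
  unfold prm
  rw [Finset.mul_sum]
  refine Finset.sum_congr rfl fun e _ => ?_
  rw [← Equiv.prod_comp e, ← Finset.prod_mul_distrib]
  exact Finset.prod_congr rfl fun j _ => map_mul _ _ _

theorem pol_diag (a : L) :
    p (fun _ => a) = ((finrank K L).factorial : K) * Algebra.norm K a := by
  classical
  apply (algebraMap K (AlgebraicClosure L)).injective
  rw [hp, map_mul, Algebra.norm_eq_prod_embeddings K (AlgebraicClosure L) a, map_natCast]
  have h1 : ∀ e : (Fin (finrank K L) ≃ (L →ₐ[K] AlgebraicClosure L)),
      ∏ j, e j a = ∏ σ : L →ₐ[K] AlgebraicClosure L, σ a := fun e =>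
    Equiv.prod_comp e fun σ : L →ₐ[K] AlgebraicClosure L => σ a
  unfold prm
  rw [Finset.sum_congr rfl fun e _ => h1 e, Finset.sum_const, nsmul_eq_mul]
  congr 2
  rw [Finset.card_univ]
  have h2 : Fintype.card (Fin (finrank K L)) = Fintype.card (L →ₐ[K] AlgebraicClosure L) := by
    rw [Fintype.card_fin, AlgHom.card]
  have h3 := Fintype.card_equiv (Fintype.equivOfCardEq h2)
  rw [Fintype.card_fin] at h3
  rw [← h3]

end

section

variable {k K L : Type} [Field k] [CharZero k] [Field K] [Field L] [Algebra k K] [Algebra k L]
  [Algebra K L] [IsScalarTower k K L] [FiniteDimensional K L]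

/-- the polarisation of the norm takes integral elements to integral elements -/
theorem pol_reg {p : MultilinearMap K (fun _ : Fin (finrank K L) => L) K}
    (hp : ∀ a, algebraMap K (AlgebraicClosure L) (p a) = prm K a) (q : Place k K)
    (a : Fin (finrank K L) → L)
    (ha : ∀ j (w : Place k L) (e : ℕ), Over w q e → Ge w 0 (a j)) : q.Reg (p a) := by
  let iA : Algebra q.O L := algO q
  have t1 : IsScalarTower q.O K L := IsScalarTower.of_algebraMap_eq fun _ => rfl
  have t2 : IsScalarTower q.O K (AlgebraicClosure L) := inferInstance
  have h2 : IsIntegral q.O (algebraMap K (AlgebraicClosure L) (p a)) := by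
    rw [hp]
    unfold prm
    refine IsIntegral.sum _ fun e _ => IsIntegral.prod _ fun j _ => ?_
    exact (isIntegral_of_reg q (a j) (ha j)).map ((e j).restrictScalars q.O)
  have h3 : IsIntegral q.O (p a) :=
    (isIntegral_algebraMap_iff (algebraMap K (AlgebraicClosure L)).injective).1 h2
  obtain ⟨b, hb⟩ := IsIntegrallyClosed.isIntegral_iff.1 h3
  rw [← hb]
  exact b.2

/-- **Generic linear combinations** have the smallest order at finitely many places. -/
theorem exists_comb {S : Set (Place k L)} (hS : S.Finite) {ι : Type} (s : Finset ι) (f : ι → L)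
    (h : ∃ i ∈ s, f i ≠ 0) : ∃ c : ι → k, ∑ i ∈ s, algebraMap k L (c i) * f i ≠ 0 ∧
      ∀ Q ∈ S, ∀ i ∈ s, Ge Q (Q.ord (∑ i ∈ s, algebraMap k L (c i) * f i)) (f i) := by
  classical
  have hinf : Infinite k := inferInstance
  induction s using Finset.induction_on with
  | empty =>
    obtain ⟨i, hi, -⟩ := h
    exact absurd hi (Finset.notMem_empty i)
  | insert a s ha ih =>
    have hupd : ∀ (c : ι → k) (t : k), ∑ i ∈ insert a s,
        algebraMap k L (Function.update c a t i) * f i =
        algebraMap k L t * f a + ∑ i ∈ s, algebraMap k L (c i) * f i := by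
      intro c t
      rw [Finset.sum_insert ha, Function.update_self]
      congr 1
      refine Finset.sum_congr rfl fun i hi => ?_
      rw [Function.update_of_ne]
      rintro rfl
      exact ha hi
    by_cases hs : ∃ i ∈ s, f i ≠ 0
    · obtain ⟨c, hc, hcQ⟩ := ih hs
      obtain ⟨y, hy⟩ : ∃ y, y = ∑ i ∈ s, algebraMap k L (c i) * f i := ⟨_, rfl⟩
      rw [← hy] at hc hcQ
      by_cases hfa : f a = 0
      · refine ⟨Function.update c a 0, ?_, fun Q hQ i hi => ?_⟩
        · rw [hupd, hfa, mul_zero, zero_add, ← hy]
          exact hc
        · rw [hupd, hfa, mul_zero, zero_add, ← hy]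
          rcases Finset.mem_insert.1 hi with rfl | hi
          · exact Or.inl hfa
          · exact hcQ Q hQ i hi
      -- the excluded constants
      obtain ⟨m, hm⟩ : ∃ m : Place k L → ℤ, m = fun Q => min (Q.ord y) (Q.ord (f a)) := ⟨_, rfl⟩
      let T : Set k := {t | algebraMap k L t * f a + y = 0} ∪
        ⋃ Q ∈ S, {t | Ge Q (m Q + 1) (algebraMap k L t * f a + y)}
      have hT : T.Finite := by
        refine Set.Finite.union ?_ (hS.biUnion fun Q _ => ?_)
        · refine Set.Subsingleton.finite fun t ht t' ht' => ?_
          have h1 : algebraMap k L t * f a = algebraMap k L t' * f a := by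
            have e1 : algebraMap k L t * f a + y = 0 := ht
            have e2 : algebraMap k L t' * f a + y = 0 := ht'
            exact add_right_cancel (e1.trans e2.symm)
          exact (algebraMap k L).injective (mul_right_cancel₀ hfa h1)
        · refine Set.Subsingleton.finite fun t ht t' ht' => ?_
          by_contra hne
          have h1 : Ge Q (m Q + 1) (algebraMap k L (t - t') * f a) := by
            have h2 := Ge.sub ht ht'
            have h3 : algebraMap k L t * f a + y - (algebraMap k L t' * f a + y) =
                algebraMap k L (t - t') * f a := by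
              rw [map_sub]
              ring
            rwa [h3] at h2
          have hc0 : algebraMap k L (t - t') ≠ 0 := by
            rw [Ne, map_eq_zero]
            exact sub_ne_zero.2 hne
          have h4 : m Q + 1 ≤ Q.ord (f a) := by
            have h5 := h1.resolve_left (mul_ne_zero hc0 hfa)
            rwa [Q.ord_mul hc0 hfa, Q.ord_const (sub_ne_zero.2 hne), zero_add] at h5
          have h6 : Ge Q (m Q + 1) (algebraMap k L t * f a) := by
            have h7 := (Ge.const (P := Q) t).mul (Or.inr h4 : Ge Q (m Q + 1) (f a))
            rwa [zero_add] at h7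
          have h8 : Ge Q (m Q + 1) y := by
            have h9 := Ge.sub ht h6
            have h10 : algebraMap k L t * f a + y - algebraMap k L t * f a = y := by ring
            rwa [h10] at h9
          have h11 := h8.resolve_left hc
          rw [hm] at h4 h11
          beta_reduce at h4 h11
          omega
      obtain ⟨t, ht⟩ := hT.exists_notMem
      have ht0 : algebraMap k L t * f a + y ≠ 0 := fun h => ht (Or.inl h)
      refine ⟨Function.update c a t, ?_, fun Q hQ i hi => ?_⟩
      · rw [hupd, ← hy]
        exact ht0
      · rw [hupd, ← hy]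
        have h1 : Q.ord (algebraMap k L t * f a + y) ≤ m Q := by
          by_contra hlt
          push Not at hlt
          apply ht
          right
          rw [Set.mem_iUnion₂]
          exact ⟨Q, hQ, Or.inr (by omega)⟩
        rw [hm] at h1
        beta_reduce at h1
        rcases Finset.mem_insert.1 hi with rfl | hi
        · exact Or.inr (by omega)
        · rcases hcQ Q hQ i hi with h2 | h2
          · exact Or.inl h2
          · exact Or.inr (by omega)
    · push Not at hs
      have hfa : f a ≠ 0 := by
        obtain ⟨i, hi, hi0⟩ := h
        rcases Finset.mem_insert.1 hi with rfl | hi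
        · exact hi0
        · exact absurd (hs i hi) hi0
      have h1 : ∑ i ∈ s, algebraMap k L ((fun _ => 0 : ι → k) i) * f i = 0 :=
        Finset.sum_eq_zero fun i _ => by rw [map_zero, zero_mul]
      refine ⟨Function.update (fun _ => 0) a 1, ?_, fun Q hQ i hi => ?_⟩
      · rw [hupd, h1, map_one, one_mul, add_zero]
        exact hfa
      · rw [hupd, h1, map_one, one_mul, add_zero]
        rcases Finset.mem_insert.1 hi with rfl | hi
        · exact ge_ord Q _
        · exact Or.inl (hs i hi)

end

end Run7.h72
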