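import Pool.Agent.Run7.h72.QTheta
import Pool.Agent.Run7.h72.Core

/-!
Pairs dominated by the product of a pair with a very positive log canonical divisor and a curve.
-/

set_option autoImplicit false
set_option linter.overlappingInstances false
set_option linter.unusedSectionVars false
set_option linter.unusedVariables false
set_option maxHeartbeats 4000000
set_option synthInstance.maxHeartbeats 400000

open Polynomial FF IntermediateField Module

namespace Run7.h72

open Pool.Agent.W603.LV Pool.Agent.Y172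
open Pool.Agent.W602.GT (Divisorial RegAt IsPluri DerReg DerLog LogAt KodGe LogSec)
open Pool.Agent.N145.SX (zz BdX closed basis_zz)
open Pool.Agent.N145.PL (HL exists_xB)
open Pool.Agent.N145.PC (exists_D)
open Pool.Agent.Y184.NT (trForm trForm_pluri)
open Pool.Agent.W619.PL (IsA1Uniruled)
open Pool.Agent.W619.Y (BdUp)

/-- **The alternatives.** -/
theorem coreQ {K : Type} [Field K] [Algebra ℂ K] [Algebra.EssFiniteType ℂ K] {n : ℕ}
    {E C : IntermediateField ℂ K} [Algebra.EssFiniteType ℂ E] [IsFF ℂ C] (hsup : E ⊔ C = ⊤)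
    (hE : Algebra.trdeg ℂ E = n) (hK : Algebra.trdeg ℂ K = (n + 1 : ℕ)) {γ : Place ℂ E → ℚ}
    (hγ : ∀ p, γ p ≤ 1)
    {B : Set (Place ℂ C)} (hBf : B.Finite) {L : Type} [Field L] [Algebra ℂ L] [Algebra L K]
    [IsScalarTower ℂ L K] [FiniteDimensional L K] {X : Set (Place ℂ L)}
    (hX : ∀ P ∈ X, Divisorial (n + 1) P) {Δ : Place ℂ L → ℚ} (hΔ0 : ∀ P ∈ X, 0 ≤ Δ P)
    (hΔ1 : ∀ P ∈ X, ∀ (Q : Place ℂ K) (e : ℕ), Over Q P e → ∀ (p : Place ℂ E) (e' : ℕ),
      Over Q p e' → 1 ≤ Δ P ∨ e' * γ p ≤ e * Δ P)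
    (hΔ2 : ∀ P ∈ X, ∀ (Q : Place ℂ K) (e : ℕ), Over Q P e → ∀ q ∈ B, ∀ e' : ℕ,
      Over Q q e' → 1 ≤ Δ P)
    {κ : ℕ} {m : Fin κ → ℕ} (x : ∀ i, Fin (m i + 1) → E) (hx0 : ∀ i, x i 0 = 1)
    (hgen : Lv L (fun i b => (x i b : K)) κ = IntermediateField.adjoin L (E : Set K)) {N : ℕ}
    (hN : 0 < N) (M : Fin κ → ℕ)
    (hM : ∀ i : Fin κ, 2 * (finrank L (Lv L (fun i b => (x i b : K)) (i + 1)) -
      finrank L (Lv L (fun i b => (x i b : K)) i)) * N <
      M i * finrank L (Lv L (fun i b => (x i b : K)) i))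
    {ψ : (Fin n → Derivation ℂ E E) → E} (hψ0 : ∃ D, ψ D ≠ 0) (hψp : IsPluri N ψ)
    (hψ : ∀ f p, Divisorial n p → OGe p (fun D => mlt x M f * ψ D) (-(N * γ p))) {a : ℕ}
    (s : Fin a → Σ i, Fin (m i + 1))
    (hs : AlgebraicIndependent ℂ fun l => x (s l).1 (s l).2) :
    ∃ (v : Fin n → E) (_ : IsTranscendenceBasis ℂ v) (t : C)
      (_ : Transcendental ℂ t) (D0 : Derivation ℂ C C) (_ : D0 t = 1)
      (_ : ∀ P ∈ B, P.ord t < 0) (h : K),
      (∀ (M : IntermediateField L K) (g : K) (D : Fin (n + 1) → Derivation ℂ M M)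
        (D' : Fin (n + 1) → Derivation ℂ K K),
        (∀ i z, D' i (algebraMap M K z) = algebraMap M K (D i z)) →
        ∃ a : M, trForm (zz K v t) g D' = algebraMap M K a * (h * g)) ∧
      ((∀ φ ∈ HL D0 B, Algebra.trace (IntermediateField.adjoin L (E : Set K)) K (h * (φ : K)) = 0) ∨
      KodQ X (n + 1) Δ (a + 1) ∨
      (KodQ X (n + 1) Δ a ∧ ∃ S0 : K, S0 ≠ 0 ∧
      (∃ φ ∈ HL D0 B, ((Algebra.trace (IntermediateField.adjoin L (E : Set K)) K (h * (φ : K)) :
        IntermediateField.adjoin L (E : Set K)) : K) = S0) ∧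
      ∀ φ ∈ HL D0 B, ∃ c : E,
        ((Algebra.trace (IntermediateField.adjoin L (E : Set K)) K (h * (φ : K)) :
        IntermediateField.adjoin L (E : Set K)) : K) = (c : K) * S0)) := by
  classical
  have hL : Algebra.trdeg ℂ L = (n + 1 : ℕ) := Pool.Agent.Y184.NT.trdeg_below (K := K) hK
  have hessL : Algebra.EssFiniteType ℂ L := Pool.Agent.TH466.QG.ess_below (K := K)
  obtain ⟨t, ht, hBt⟩ := exists_xB hBf
  obtain ⟨D0, hD0⟩ := exists_D ht
  obtain ⟨hna, -, hcl⟩ := closed K n E C hsup hE hK
  obtain ⟨v, Dv, hv, hDv⟩ := exists_crd hE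
  have hzb : IsTranscendenceBasis ℂ (zz K v t) := basis_zz hK hv (hna t ht)
  -- the field of the image in the product
  obtain ⟨T, hTdef⟩ : ∃ T, T = IntermediateField.adjoin L (E : Set K) := ⟨_, rfl⟩
  have htw : IsScalarTower ℂ T K := IsScalarTower.of_algebraMap_eq fun z => rfl
  have hT : Algebra.trdeg ℂ T = (n + 1 : ℕ) := trdeg_up (K := L) hL
  have hessT : Algebra.EssFiniteType ℂ T := Algebra.EssFiniteType.comp ℂ L T
  have hET : ∀ z : E, (z : K) ∈ T := fun z => by
    rw [hTdef]
    exact IntermediateField.subset_adjoin L _ z.2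
  let φET : E →+* T :=
    { toFun := fun z => ⟨(z : K), hET z⟩
      map_one' := rfl
      map_mul' := fun _ _ => rfl
      map_zero' := rfl
      map_add' := fun _ _ => rfl }
  let iET : Algebra E T := φET.toAlgebra
  have hETK : IsScalarTower E T K := IsScalarTower.of_algebraMap_eq fun z => rfl
  have hCET : IsScalarTower ℂ E T := IsScalarTower.of_algebraMap_eq fun z => by
    apply (algebraMap T K).injective
    rw [← IsScalarTower.algebraMap_apply ℂ T K]
    rfl
  -- the coordinates
  obtain ⟨y0, G0, hy0, hG0⟩ := exists_crd hL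
  choose G hG using fun i => exists_lift (L := T) hL (G0 i)
  choose G' hG' using fun i => exists_lift (L := K) hT (G i)
  obtain ⟨y, hydef⟩ : ∃ y : Fin (n + 1) → T, y = fun j => algebraMap L T (y0 j) := ⟨_, rfl⟩
  have hy : IsTranscendenceBasis ℂ y := by
    rw [hydef]
    exact hy0.algebraMap_comp
  have hGd : ∀ i j, G i (y j) = if i = j then 1 else 0 := by
    rw [hydef]
    exact lift_dual hG0 hG
  have hyK : IsTranscendenceBasis ℂ (fun j => algebraMap T K (y j)) := hy.algebraMap_comp
  have hGK := lift_dual hGd hG'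
  obtain ⟨h, hdef⟩ : ∃ h, h = (Matrix.of fun i j => G' i (zz K v t j) :
    Matrix (Fin (n + 1)) (Fin (n + 1)) K).det := ⟨_, rfl⟩
  have hvl : ∀ g : K, trForm (zz K v t) g G' = h * g := by
    intro g
    rw [trForm, hdef]
  have hval0 : ∀ (g : K) (D' : Fin (n + 1) → Derivation ℂ K K), trForm (zz K v t) g D' =
      (Matrix.of fun i j => D' i (algebraMap T K (y j)) :
        Matrix (Fin (n + 1)) (Fin (n + 1)) K).det * (h * g) := by
    intro g D'
    rw [pluri_coord hyK hGK (trForm_pluri (zz K v t) g) D', hvl, pow_one]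
  have hval : ∀ (M : IntermediateField L K) (g : K) (D : Fin (n + 1) → Derivation ℂ M M)
      (D' : Fin (n + 1) → Derivation ℂ K K),
      (∀ i z, D' i (algebraMap M K z) = algebraMap M K (D i z)) →
      ∃ a : M, trForm (zz K v t) g D' = algebraMap M K a * (h * g) := by
    intro M g D D' hD
    rw [hval0]
    refine ⟨(Matrix.of fun i j => D i (algebraMap L M (y0 j)) :
      Matrix (Fin (n + 1)) (Fin (n + 1)) M).det, ?_⟩
    rw [RingHom.map_det]
    congr 2
    ext i j
    rw [RingHom.mapMatrix_apply, Matrix.map_apply, Matrix.of_apply, Matrix.of_apply]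
    rw [← hD, hydef]
    rfl
  refine ⟨v, hv, t, ht, D0, hD0, hBt, h, hval, ?_⟩
  rw [← hTdef] at hgen ⊢
  by_cases h0 : ∀ φ ∈ HL D0 B, Algebra.trace T K (h * (φ : K)) = 0
  · exact Or.inl h0
  right
  push Not at h0
  obtain ⟨φ, hφ, hφ0⟩ := h0
  -- the families on `T`
  let x' : ∀ i, Fin (m i + 1) → T := fun i b => algebraMap E T (x i b)
  have hx0' : ∀ i, x' i 0 = 1 := fun i => by
    change algebraMap E T (x i 0) = 1
    rw [hx0, map_one]
  have hmlt : ∀ f, mlt x' M f = algebraMap E T (mlt x M f) := by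
    intro f
    unfold mlt
    rw [map_prod]
    exact Finset.prod_congr rfl fun i _ => by rw [map_pow]
  have hN0 : (0 : ℚ) < N := by exact_mod_cast hN
  have hθ : ∀ φ' ∈ HL D0 B, ∀ f, SU X (fun P => N * Δ P)
      (fun D : Fin (n + 1) → Derivation ℂ T T => mlt x' M f *
      (phi v t (algebraMap C K φ') y G' D ^ N * algebraMap E T (ψ Dv))) := by
    intro φ' hφ' f P0 hP0 P e hP
    have hPd : Divisorial (n + 1) P := divisorial_up hP (hX P0 hP0)
    obtain ⟨h1, h2, h3⟩ := theta_q (T := T) (γ := γ) hE hT ht hD0 hφ' hv hDv hy hGd hG' hψp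
      (hψ f) hPd
    rw [hmlt]
    have he : (1 : ℚ) ≤ e := by exact_mod_cast hP.1
    by_cases htriv : ∃ g : E, P.ord (algebraMap E T g) ≠ 0
    · obtain ⟨e', p, hp⟩ := exists_over P htriv
      have he' : (1 : ℚ) ≤ e' := by exact_mod_cast hp.1
      refine (h1 p e' hp).mono ?_
      obtain ⟨Q, ε, hQ⟩ := Pool.Agent.Y172.exists_above (L := K) P
      have hε : (0 : ℚ) < ε := by exact_mod_cast hQ.1
      have hQ0 : Over Q P0 (ε * e) := over_trans' hQ hP
      have hQp : Over Q p (ε * e') := over_trans' hQ hp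
      rcases hΔ1 P0 hP0 Q _ hQ0 p _ hQp with h4 | h4
      · have h5 : (e' : ℚ) * (1 - γ p) ≥ 0 := mul_nonneg (by linarith) (by linarith [hγ p])
        have h6 : (1 : ℚ) ≤ e * Δ P0 := by nlinarith
        nlinarith
      · push_cast at h4
        have h5 : (e' : ℚ) * γ p ≤ e * Δ P0 := by
          have h6 : (ε : ℚ) * (e' * γ p) ≤ ε * (e * Δ P0) := by linarith
          exact le_of_mul_le_mul_left h6 hε
        have h6 : (0 : ℚ) ≤ e * Δ P0 - (1 - e' * (1 - γ p)) := by linarith
        have h7 := mul_nonneg hN0.le h6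
        linarith
    · push Not at htriv
      by_cases hBQ : ∀ (Q : Place ℂ K) (e : ℕ), Over Q P e → ∀ q ∈ B, ∀ e1 : ℕ, ¬ Over Q q e1
      · refine (h3 htriv hBQ).mono ?_
        have h4 : (0 : ℚ) ≤ e * (N * Δ P0) :=
          mul_nonneg (by linarith) (mul_nonneg hN0.le (hΔ0 P0 hP0))
        linarith
      · push Not at hBQ
        obtain ⟨Q, ε, hQ, q, hq, e1, h4⟩ := hBQ
        refine (h2 htriv).mono ?_
        have h5 := hΔ2 P0 hP0 Q _ (over_trans' hQ hP) q hq e1 h4
        have h6 : (1 : ℚ) ≤ e * Δ P0 := by nlinarith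
        nlinarith
  have hθp : ∀ φ' : C, IsPluri N (fun D : Fin (n + 1) → Derivation ℂ T T =>
      phi v t (algebraMap C K φ') y G' D ^ N * algebraMap E T (ψ Dv)) := by
    intro φ' A D
    change trForm y _ _ ^ N * _ = _ * (trForm y _ _ ^ N * _)
    rw [trForm_pluri y _ A D]
    ring
  have hψE : ψ Dv ≠ 0 := by
    intro h1
    obtain ⟨D, hD⟩ := hψ0
    apply hD
    rw [pluri_coord hv hDv hψp D, h1, mul_zero]
  have hphi : ∀ φ' : C, phi v t (algebraMap C K φ') y G' G = Algebra.trace T K (h * (φ' : K)) := by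
    intro φ'
    unfold phi
    rw [hvl]
    have h1 : (Matrix.of fun i j => G i (y j) : Matrix (Fin (n + 1)) (Fin (n + 1)) T) = 1 := by
      ext i j
      rw [Matrix.of_apply, hGd, Matrix.one_apply]
    rw [trForm, h1, Matrix.det_one, one_mul]
    rfl
  obtain ⟨ξ, hξ⟩ : ∃ ξ : (Fin (n + 1) → Derivation ℂ T T) → T, ξ = fun D =>
    phi v t (algebraMap C K φ) y G' D ^ N * algebraMap E T (ψ Dv) := ⟨_, rfl⟩
  have hξs : ∀ f, SU X (fun P => N * Δ P) (fun D => mlt x' M f * ξ D) := by
    intro f
    rw [hξ]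
    exact hθ φ hφ f
  have hξp : IsPluri N ξ := by
    rw [hξ]
    exact hθp φ
  have hmp : ∀ f, IsPluri N (fun D => mlt x' M f * ξ D) := by
    intro f A D
    change mlt x' M f * ξ _ = _ * (mlt x' M f * ξ D)
    rw [hξp]
    ring
  have hψT : algebraMap E T (ψ Dv) ≠ 0 := by simpa using hψE
  have hξG : ξ G ≠ 0 := by
    rw [hξ]
    refine mul_ne_zero (pow_ne_zero _ ?_) hψT
    rw [hphi]
    exact hφ0
  have hxT : ∀ i b, ((x' i b : T) : K) = (x i b : K) := fun i b => rfl
  have hgen' : Lv L x' κ = ⊤ := by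
    have hinj := IntermediateField.map_injective T.val
    apply hinj
    rw [Lv_map]
    have e1 : Lv L (fun (i : Fin κ) b => ((x' i b : T) : K)) κ =
      Lv L (fun i b => (x i b : K)) κ := rfl
    rw [e1, hgen]
    ext w
    constructor
    · intro hw
      exact ⟨⟨w, hw⟩, trivial, rfl⟩
    · rintro ⟨w, -, rfl⟩
      exact w.2
  have hdeg : ∀ i, finrank L (Lv L x' i) = finrank L (Lv L (fun i b => (x i b : K)) i) :=
    fun i => finrank_Lv T x' i
  have hM' : ∀ i : Fin κ, 2 * (finrank L (Lv L x' (i + 1)) - finrank L (Lv L x' i)) * N <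
      M i * finrank L (Lv L x' i) := by
    intro i
    rw [hdeg, hdeg]
    exact hM i
  have hMne : ∀ i, M i ≠ 0 := fun i h0 => by
    have h3 := hM i
    rw [h0, zero_mul] at h3
    omega
  have hdown : ∀ b : ℕ, KodU (L := T) X (n + 1) Δ b → KodQ X (n + 1) Δ b := fun b hb =>
    kodQ_down hL hX x' hx0' hgen' hN M hM' ⟨G, hξG⟩ hξp hξs hb
  -- the forms
  let F : Fin a → ∀ i, Fin (m i + 1) := fun l => Function.update (fun _ => 0) (s l).1 (s l).2
  have hFm : ∀ l, mlt x' M (F l) = x' (s l).1 (s l).2 ^ M (s l).1 := fun l =>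
    mlt_update x' hx0' M (s l).1 (s l).2
  let Fz : Fin (a + 1) → ∀ i, Fin (m i + 1) := Fin.cons (fun _ => 0) F
  have hindE : AlgebraicIndependent ℂ fun l => x (s l).1 (s l).2 ^ M (s l).1 :=
    indep_pw hs (n := fun l => M (s l).1) fun l => hMne _
  have hFz0 : mlt x' M (Fz 0) = 1 := mlt_zero x' hx0' M
  have hkod : KodU (L := T) X (n + 1) Δ a := by
    refine ⟨N, hN, fun l D => mlt x' M (Fz l) * ξ D, fun l => ⟨hmp (Fz l), hξs (Fz l)⟩, G, ?_, ?_⟩
    · change mlt x' M (Fz 0) * ξ G ≠ 0
      rw [hFz0, one_mul]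
      exact hξG
    · have e1 : (fun l : Fin a => mlt x' M (Fz l.succ) * ξ G / (mlt x' M (Fz 0) * ξ G)) =
          fun l => algebraMap E T (x (s l).1 (s l).2 ^ M (s l).1) := by
        funext l
        rw [hFz0, one_mul, mul_div_assoc, div_self hξG, mul_one]
        have h1 : Fz l.succ = F l := rfl
        rw [h1, hFm, map_pow]
      rw [e1]
      exact hindE.map' (f := IsScalarTower.toAlgHom ℂ E T) (algebraMap E T).injective
  by_cases hpr : ∀ φ' ∈ HL D0 B, ∃ c : E, ((Algebra.trace T K (h * (φ' : K)) : T) : K) =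
      (c : K) * ((Algebra.trace T K (h * (φ : K)) : T) : K)
  · right
    refine ⟨hdown a hkod, _, ?_, ⟨φ, hφ, rfl⟩, hpr⟩
    intro h1
    apply hφ0
    exact Subtype.ext h1
  · left
    push Not at hpr
    obtain ⟨φ2, hφ2, hc⟩ := hpr
    refine hdown (a + 1) ?_
    obtain ⟨u, hu⟩ : ∃ u : T, u = Algebra.trace T K (h * (φ2 : K)) / Algebra.trace T K (h * (φ : K)) :=
      ⟨_, rfl⟩
    have huK : ¬ IsAlgebraic E (u : K) := by
      intro h1
      have h2 : (u : K) ∈ E := hcl _ h1
      refine hc ⟨(u : K), h2⟩ ?_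
      change ((Algebra.trace T K (h * (φ2 : K)) : T) : K) = (u : K) * _
      rw [hu]
      change _ = ((Algebra.trace T K (h * (φ2 : K)) : T) : K) /
        ((Algebra.trace T K (h * (φ : K)) : T) : K) * _
      rw [div_mul_cancel₀]
      intro h3
      exact hφ0 (Subtype.ext h3)
    let ζ : Fin (a + 1 + 1) → (Fin (n + 1) → Derivation ℂ T T) → T := Fin.snoc
      (α := fun _ => (Fin (n + 1) → Derivation ℂ T T) → T) (fun l D => mlt x' M (Fz l) * ξ D)
      (fun D => phi v t (algebraMap C K φ2) y G' D ^ N * algebraMap E T (ψ Dv))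
    have hζ0 : ζ 0 = fun D => mlt x' M (Fz 0) * ξ D := by
      have h1 : (0 : Fin (a + 1 + 1)) = Fin.castSucc (0 : Fin (a + 1)) := rfl
      change Fin.snoc (α := fun _ => (Fin (n + 1) → Derivation ℂ T T) → T) _ _ _ = _
      rw [h1, Fin.snoc_castSucc]
    refine ⟨N, hN, ζ, fun l => ?_, G, ?_, ?_⟩
    · induction l using Fin.lastCases with
      | last =>
        change IsPluri N (Fin.snoc (α := fun _ =>
          (Fin (n + 1) → Derivation ℂ T T) → T) _ _ _) ∧ SU X (fun P => N * Δ P) (Fin.snoc
          (α := fun _ => (Fin (n + 1) → Derivation ℂ T T) → T) _ _ _)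
        rw [Fin.snoc_last]
        refine ⟨hθp φ2, ?_⟩
        have h1 := hθ φ2 hφ2 fun _ => 0
        have e1 : (fun D => mlt x' M (fun _ => 0) *
            (phi v t (algebraMap C K φ2) y G' D ^ N * algebraMap E T (ψ Dv))) =
            fun D => phi v t (algebraMap C K φ2) y G' D ^ N * algebraMap E T (ψ Dv) := by
          funext D
          rw [mlt_zero x' hx0', one_mul]
        rwa [e1] at h1
      | cast l =>
        change IsPluri N (Fin.snoc (α := fun _ =>
          (Fin (n + 1) → Derivation ℂ T T) → T) _ _ _) ∧ SU X (fun P => N * Δ P) (Fin.snoc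
          (α := fun _ => (Fin (n + 1) → Derivation ℂ T T) → T) _ _ _)
        rw [Fin.snoc_castSucc]
        exact ⟨hmp (Fz l), hξs (Fz l)⟩
    · rw [hζ0]
      change mlt x' M (Fz 0) * ξ G ≠ 0
      rw [hFz0, one_mul]
      exact hξG
    · have hind2 : AlgebraicIndependent ℂ (Fin.snoc (α := fun _ => T)
          (fun l : Fin a => algebraMap E T (x (s l).1 (s l).2 ^ M (s l).1)) (u ^ N) :
          Fin (a + 1) → T) := by
        have h1 : AlgebraicIndependent E (fun _ : Fin 1 => u ^ N) := by
          rw [algebraicIndependent_unique_type_iff]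
          intro h2
          apply huK
          have h3 : IsAlgebraic E u := IsAlgebraic.of_pow hN h2
          exact h3.algebraMap (A := K)
        have h2 := hindE.sumElim_comp h1
        let e : Fin (a + 1) → Fin 1 ⊕ Fin a := Fin.lastCases (Sum.inl 0) Sum.inr
        have he1 : e (Fin.last a) = Sum.inl 0 := Fin.lastCases_last
        have he2 : ∀ i : Fin a, e i.castSucc = Sum.inr i := fun i => Fin.lastCases_castSucc _
        have he : Function.Injective e := by
          intro p q hpq
          induction p using Fin.lastCases with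
          | last =>
            induction q using Fin.lastCases with
            | last => rfl
            | cast j =>
              rw [he1, he2] at hpq
              cases hpq
          | cast i =>
            induction q using Fin.lastCases with
            | last =>
              rw [he1, he2] at hpq
              cases hpq
            | cast j =>
              rw [he2, he2] at hpq
              rw [Sum.inr_injective hpq]
        have h3 := h2.comp e he
        have h4 : (Sum.elim (fun _ : Fin 1 => u ^ N)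
            (algebraMap E T ∘ fun l : Fin a => x (s l).1 (s l).2 ^ M (s l).1)) ∘ e =
            Fin.snoc (α := fun _ => T)
              (fun l : Fin a => algebraMap E T (x (s l).1 (s l).2 ^ M (s l).1)) (u ^ N) := by
          funext i
          rw [Function.comp_apply]
          induction i using Fin.lastCases with
          | last =>
            rw [he1, Fin.snoc_last]
            rfl
          | cast i =>
            rw [he2, Fin.snoc_castSucc]
            rfl
        rwa [h4] at h3
      have e1 : (fun l : Fin (a + 1) => ζ l.succ G / ζ 0 G) = Fin.snoc (α := fun _ => T)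
          (fun l : Fin a => algebraMap E T (x (s l).1 (s l).2 ^ M (s l).1)) (u ^ N) := by
        funext l
        rw [hζ0]
        change _ / (mlt x' M (Fz 0) * ξ G) = _
        rw [hFz0, one_mul]
        induction l using Fin.lastCases with
        | last =>
          rw [Fin.snoc_last]
          have h1 : (Fin.last a).succ = Fin.last (a + 1) := rfl
          rw [h1]
          change (Fin.snoc (α := fun _ => (Fin (n + 1) → Derivation ℂ T T) → T) _ _
            (Fin.last (a + 1)) : _) G / _ = _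
          rw [Fin.snoc_last, hphi, hξ]
          change _ / (phi v t (algebraMap C K φ) y G' G ^ N * algebraMap E T (ψ Dv)) = _
          rw [hphi, mul_div_mul_right _ _ hψT, hu, div_pow]
        | cast l =>
          rw [Fin.snoc_castSucc]
          have h1 : l.castSucc.succ = Fin.castSucc l.succ := rfl
          rw [h1]
          change (Fin.snoc (α := fun _ => (Fin (n + 1) → Derivation ℂ T T) → T) _ _
            (Fin.castSucc l.succ) : _) G / _ = _
          rw [Fin.snoc_castSucc]
          change mlt x' M (F l) * ξ G / ξ G = _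
          rw [mul_div_assoc, div_self hξG, mul_one, hFm, map_pow]
      rw [e1]
      exact hind2

end Run7.h72
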