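import Pool.Agent.Run7.h72.QCore
import Pool.Agent.Run7.h72.Log
import Pool.Agent.Y172.Dim3
import Pool.Agent.Y172.Dim4
import Pool.Agent.Y191.Disc
import Pool.Agent.R887.Frm

/-!
Projective log canonical pairs dominated by the product of a pair and a curve.
-/

set_option autoImplicit false
set_option linter.overlappingInstances false
set_option linter.unusedSectionVars false
set_option linter.unusedVariables false
set_option maxHeartbeats 4000000
set_option synthInstance.maxHeartbeats 400000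

open Polynomial FF IntermediateField Module

namespace Run7.h72

open Pool.Agent.W603.LV Pool.Agent.Y172
open Pool.Agent.W602.GT (Divisorial RegAt IsPluri DerReg DerLog LogAt KodGe LogSec Psef TwSec TwReg)
open Pool.Agent.N145.SX (zz BdX closed erase)
open Pool.Agent.N145.PL (HL not_psef_of_a1)
open Pool.Agent.Y184.NT (trForm)
open Pool.Agent.W619.PL (IsA1Uniruled)
open Pool.Agent.Y191 (LogDisc)

section

variable {K : Type} [Field K] [Algebra ℂ K] {n N : ℕ} {y : Fin (N + 1) → K}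

/-- the places with negative discrepancy -/
def NegDisc (y : Fin (N + 1) → K) (n : ℕ) (Δ : Place ℂ K → ℚ) (Q : Place ℂ K) : Prop :=
  Divisorial n Q ∧ ¬ LogDisc y n Δ Q 1

theorem lc_disc0 {Δ : Place ℂ K → ℚ} (hLC : LogCanonical y n Δ) {Q : Place ℂ K}
    (hQ : Divisorial n Q) : LogDisc y n Δ Q 0 := by
  obtain ⟨r, hr, η, hη, h1, h2⟩ := hLC Q hQ
  refine Or.inr ⟨r, hr, η, hη, h1, ?_⟩
  have e : (r : ℚ) * (0 - 1) = -r := by ring
  rw [e]
  exact h2

theorem frame_ex (hn : Algebra.trdeg ℂ K = n) :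
    ∃ D : Fin n → Derivation ℂ K K, IsFrame D := by
  obtain ⟨x, E, hx, hE⟩ := exists_crd (k := ℂ) (K := K) hn
  refine ⟨E, fun F => ⟨fun j => F (x j), ?_⟩⟩
  refine Pool.Agent.W602.GT.der_ext x hx fun a => ?_
  rw [Pool.Agent.Y172.sum_smul_apply, Finset.sum_eq_single a]
  · rw [hE, if_pos rfl, mul_one]
  · intro b _ hb
    rw [hE, if_neg hb, mul_zero]
  · intro h
    exact absurd (Finset.mem_univ _) h

theorem pluri_mulc {w m : ℕ} {ω : (Fin w → Derivation ℂ K K) → K} (hω : IsPluri m ω) (a : K) :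
    IsPluri m (fun D => a * ω D) := by
  intro A D
  have h1 := hω A D
  change a * ω _ = _ * (a * ω D)
  rw [h1]
  ring

/-- **Log canonical pairs with `A¹`-uniruled complement.** -/
theorem lc_not_psef (hy : NormalModel y) (hn : Algebra.trdeg ℂ K = n) {Δ : Place ℂ K → ℚ}
    (hLC : LogCanonical y n Δ) (h1 : IsA1Uniruled ℂ K n (NegDisc y n Δ))
    {A : Place ℂ K → ℚ} (hA : Effective y A) :
    kodairaDim y n Δ = ⊥ ∧ numericalDim y n Δ A = ⊥ := by
  classical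
  have hess := hy.ess
  refine Pool.Agent.Y172.not_psef hA fun hcon => not_psef_of_a1 hn h1 ?_
  obtain ⟨D, hD⟩ := frame_ex (K := K) hn
  choose s hs hs0 hsQ using fun j : Fin (N + 1) =>
    Pool.Agent.Y191.disc_bound (Δ := Δ) hy hA hD j
  refine ⟨insert 1 (Finset.univ.image fun j => (s j)⁻¹), fun w => ?_⟩
  obtain ⟨m, hm, ω, hω, hω0⟩ := hcon (w + 1)
  have hm1 : 1 ≤ m := by omega
  have hmem : ∀ j, (s j)⁻¹ ∈ insert 1 (Finset.univ.image fun j => (s j)⁻¹) := fun j =>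
    Finset.mem_insert_of_mem (Finset.mem_image_of_mem _ (Finset.mem_univ j))
  have key : ∀ (Q : Place ℂ K) (j : Fin (N + 1)), Centred y j Q → ∀ f : K,
      (f = 0 ∨ -(Q.ord (s j)) ≤ Q.ord f) →
      TwReg Q (insert 1 (Finset.univ.image fun j => (s j)⁻¹)) m (f ^ w) := by
    intro Q j hj f hf
    have h2 : 0 ≤ Q.ord (s j) := (hj.reg _ (hs j)).resolve_left (hs0 j)
    by_cases hf0 : f ^ w = 0
    · exact Or.inl hf0
    refine Or.inr ⟨(s j)⁻¹, hmem j, inv_ne_zero (hs0 j), ?_⟩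
    rw [Q.ord_inv, Q.ord_pow]
    by_cases hw : w = 0
    · rw [hw]
      push_cast
      nlinarith
    have hfn : f ≠ 0 := fun h => hf0 (by rw [h, zero_pow hw])
    have h3 := hf.resolve_left hfn
    have h4 : (w : ℤ) ≤ m := by exact_mod_cast (by omega : w ≤ m)
    have h5 : (0 : ℤ) ≤ w := by positivity
    nlinarith
  refine ⟨m, hm1, fun D => ω D ^ w, ⟨pluri_pow hω.1 w, fun Q hQ E hE => ?_,
    fun Q hQ hQB E hE => ?_⟩, ?_⟩
  · obtain ⟨j, hj⟩ := Pool.Agent.Y172.exists_centred hy Q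
    refine key Q j hj _ ?_
    have h2 := hsQ j Q hj 0 (lc_disc0 hLC hQ) m hm1 ω hω
    have h3 := Pool.Agent.Y172.log_ge hn hQ (pluri_mulc hω.1 (s j)) (fun F hF => by
      rcases h2 F hF with h3 | h3
      · exact Or.inl (by rw [h3, mul_zero])
      by_cases h4 : ω F = 0
      · exact Or.inl (by rw [h4, mul_zero])
      right
      rw [Q.ord_mul (hs0 j) h4]
      push_cast at h3 ⊢
      linarith) hE
    by_cases h4 : ω E = 0
    · exact Or.inl h4
    right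
    have h5 := h3.resolve_left (mul_ne_zero (hs0 j) h4)
    rw [Q.ord_mul (hs0 j) h4] at h5
    linarith
  · obtain ⟨j, hj⟩ := Pool.Agent.Y172.exists_centred hy Q
    refine key Q j hj _ ?_
    have hd : LogDisc y n Δ Q 1 := by
      by_contra hcon2
      exact hQB ⟨hQ, hcon2⟩
    rcases hsQ j Q hj 1 hd m hm1 ω hω E hE with h3 | h3
    · exact Or.inl h3
    right
    have h4 : (-(Q.ord (s j) : ℤ) : ℚ) ≤ Q.ord (ω E) := by
      have e1 : (m : ℚ) * (1 - 1) - (Q.ord (s j) : ℤ) = -(Q.ord (s j) : ℤ) := by ring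
      rw [e1] at h3
      exact h3
    exact_mod_cast h4
  · by_contra hcon2
    push Not at hcon2
    apply hω0
    funext E
    by_cases hw : w = 0
    · exfalso
      have h3 := hcon2 D
      rw [hw, pow_zero] at h3
      exact one_ne_zero h3
    · exact (pow_eq_zero_iff hw).1 (hcon2 E)

end

/-- **Pairs dominated by products with a curve.** -/
theorem pair_dich {K : Type} [Field K] [Algebra ℂ K] [Algebra.EssFiniteType ℂ K] {n : ℕ}
    {E C : IntermediateField ℂ K} [Algebra.EssFiniteType ℂ E] [IsFF ℂ C] (hsup : E ⊔ C = ⊤)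
    (hE : Algebra.trdeg ℂ E = n) (hK : Algebra.trdeg ℂ K = (n + 1 : ℕ)) {γ : Place ℂ E → ℚ}
    (hγ : ∀ p, γ p ≤ 1)
    {B : Set (Place ℂ C)} (hBf : B.Finite) {L : Type} [Field L] [Algebra ℂ L] [Algebra L K]
    [IsScalarTower ℂ L K] [FiniteDimensional L K] {N₀ : ℕ} {y : Fin (N₀ + 1) → L}
    (hy : NormalModel y) {Δ : Place ℂ L → ℚ} (hΔ : Effective y Δ)
    (hLC : LogCanonical y (n + 1) Δ)
    (hΔ1 : ∀ P, IsPrimeDivisor y P → ∀ (Q : Place ℂ K) (e : ℕ), Over Q P e →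
      ∀ (p : Place ℂ E) (e' : ℕ), Over Q p e' → 1 ≤ Δ P ∨ e' * γ p ≤ e * Δ P)
    (hΔ2 : ∀ P, IsPrimeDivisor y P → ∀ (Q : Place ℂ K) (e : ℕ), Over Q P e → ∀ q ∈ B,
      ∀ e' : ℕ, Over Q q e' → 1 ≤ Δ P)
    (hΔ3 : ∀ P, Divisorial (n + 1) P → LogDisc y (n + 1) Δ P 1 ∨
      ∀ (Q : Place ℂ K) (e : ℕ), Over Q P e → BdX (fun p => 0 < γ p) B Q)
    {κ : ℕ} {m : Fin κ → ℕ} (x : ∀ i, Fin (m i + 1) → E) (hx0 : ∀ i, x i 0 = 1)
    (hgen : Lv L (fun i b => (x i b : K)) κ = IntermediateField.adjoin L (E : Set K)) {N : ℕ}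
    (hN : 0 < N) (M : Fin κ → ℕ)
    (hM : ∀ i : Fin κ, 2 * (finrank L (Lv L (fun i b => (x i b : K)) (i + 1)) -
      finrank L (Lv L (fun i b => (x i b : K)) i)) * N <
      M i * finrank L (Lv L (fun i b => (x i b : K)) i))
    {ψ : (Fin n → Derivation ℂ E E) → E} (hψ0 : ∃ D, ψ D ≠ 0) (hψp : IsPluri N ψ)
    (hψ : ∀ f p, Divisorial n p → OGe p (fun D => mlt x M f * ψ D) (-(N * γ p))) {a : ℕ}
    (s : Fin a → Σ i, Fin (m i + 1))
    (hs : AlgebraicIndependent ℂ fun l => x (s l).1 (s l).2) :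
    (kodairaDim y (n + 1) Δ = ⊥ ∧ (∀ A, Effective y A → numericalDim y (n + 1) Δ A = ⊥) ∧
      IsA1Uniruled ℂ L (n + 1) (NegDisc y (n + 1) Δ)) ∨
    (¬ IsA1Uniruled ℂ L (n + 1) (NegDisc y (n + 1) Δ) ∧ ∃ d : ℕ, a ≤ d ∧
      kodairaDim y (n + 1) Δ = (d : WithBot ℕ) ∧
      ∀ A, Effective y A → Integral y A → (d : EReal) ≤ numericalDim y (n + 1) Δ A ∧
        numericalDim y (n + 1) Δ A ≤ ((n + 1 : ℕ) : EReal)) := by
  have hL : Algebra.trdeg ℂ L = (n + 1 : ℕ) := Pool.Agent.Y184.NT.trdeg_below (K := K) hK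
  have hessL : Algebra.EssFiniteType ℂ L := hy.ess
  obtain ⟨D0', hD0'⟩ := frame_ex (K := L) hL
  have hz : Effective y (0 : Place ℂ L → ℚ) :=
    ⟨fun _ _ => le_rfl, Set.finite_empty.subset (by rintro P ⟨-, h⟩; exact h rfl)⟩
  have hfin : ∀ b : ℕ, KodQ {P | IsPrimeDivisor y P} (n + 1) Δ b → ∃ d : ℕ, b ≤ d ∧
      kodairaDim y (n + 1) Δ = (d : WithBot ℕ) ∧
      ∀ A, Effective y A → Integral y A → (d : EReal) ≤ numericalDim y (n + 1) Δ A ∧
        numericalDim y (n + 1) Δ A ≤ ((n + 1 : ℕ) : EReal) := by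
    rintro b ⟨w, hw, ω, hω, D, hD, hind⟩
    exact Pool.Agent.Y172.dims2 hΔ hD0' (fun A hA =>
      Pool.Agent.R887.sec_growth hy hL hΔ hA D0') (Nat.succ_le_of_lt hw) hω hD hind
  obtain ⟨v, hv, t, ht, D0, hD0, hBt, h, hval, hcase⟩ := coreQ hsup hE hK hγ hBf
    (X := {P | IsPrimeDivisor y P}) (fun P hP => IsPrimeDivisor.divisorial hy hL hP)
    (Δ := Δ) (fun P hP => hΔ.1 P hP) hΔ1 hΔ2 x hx0 hgen hN M hM hψ0 hψp hψ s hs
  have hcase' : IsA1Uniruled ℂ L (n + 1) (NegDisc y (n + 1) Δ) ∨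
      KodQ {P | IsPrimeDivisor y P} (n + 1) Δ a := by
    rcases hcase with h1 | h1 | ⟨h1, -⟩
    · left
      exact erase K n E C hsup hE hK v hv t ht D0 hD0 (fun p => 0 < γ p) B hBt L
        (NegDisc y (n + 1) Δ)
        (fun P Q e h1 h2 => (hΔ3 P h2.1).resolve_left h2.2 Q e h1) h hval h1
    · right
      obtain ⟨w, hw, ω, hω, D, hD, hind⟩ := h1
      exact ⟨w, hw, fun i => ω (Fin.castLE (by omega) i), fun i => hω _, D, hD,
        hind.comp (Fin.castLE (Nat.le_succ a)) (Fin.castLE_injective _)⟩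
    · exact Or.inr h1
  rcases hcase' with h1 | h1
  · left
    exact ⟨(lc_not_psef hy hL hLC h1 hz).1, fun A hA => (lc_not_psef hy hL hLC h1 hA).2, h1⟩
  · right
    obtain ⟨d, h2, h3, h4⟩ := hfin a h1
    refine ⟨fun h5 => ?_, d, h2, h3, h4⟩
    have h6 := (lc_not_psef hy hL hLC h5 hz).1
    rw [h3] at h6
    exact WithBot.coe_ne_bot h6

end Run7.h72
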