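import Pool.Agent.Run7.h72.Pair
import Pool.Agent.Run7.h72.Main

/-!
The norm principle in towers for pairs, for forms with algebraically independent ratios.
-/

set_option autoImplicit false
set_option linter.overlappingInstances false
set_option linter.unusedSectionVars false
set_option maxHeartbeats 4000000
set_option synthInstance.maxHeartbeats 400000

open FF Polynomial Module
open Pool.Agent.W602.GT Pool.Agent.W603.LV Pool.Agent.W619.PQ Pool.Agent.Y172

namespace Run7.h72

section

variable {k K L : Type} [Field k] [CharZero k] [IsAlgClosed k] [Field K] [Field L] [Algebra k K]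
  [Algebra k L] [Algebra K L] [IsScalarTower k K L] [FiniteDimensional K L] {n : ℕ}

/-- **One step**, for forms with algebraically independent ratios. -/
theorem step_famQ [Algebra.EssFiniteType k K] [Algebra.EssFiniteType k L]
    (hn : Algebra.trdeg k K = n) {X : Set (Place k K)} (hX : ∀ P ∈ X, Divisorial n P)
    (Δ : Place k K → ℚ) {κ : ℕ}
    {m : Fin κ → ℕ} (x : ∀ i, Fin (m i + 1) → K) (M : Fin κ → ℕ) {m' : ℕ} (y : Fin (m' + 1) → L)
    (hy0 : y 0 = 1) (hy : IntermediateField.adjoin K (Set.range y) = ⊤) {N M' : ℕ}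
    (hM' : 2 * (finrank K L - 1) * N ≤ M') {h : ℕ}
    (W : Fin (h + 1) → (Fin n → Derivation k L L) → L) (hW : ∀ l, IsPluri N (W l))
    (hsec : ∀ l f b, SU X Δ (fun D => algebraMap K L (mlt x M f) * y b ^ M' * W l D))
    {D0 : Fin n → Derivation k L L} (h0 : W 0 D0 ≠ 0)
    (hind : AlgebraicIndependent k fun i : Fin h => W i.succ D0 / W 0 D0) :
    ∃ η : Fin (h + 1) → (Fin n → Derivation k K K) → K,
      (∀ l, IsPluri (N * finrank K L) (η l)) ∧
      (∀ l f, ∀ P ∈ X, OGe P (fun D => mlt x (fun i => M i * finrank K L) f * η l D)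
        (-(finrank K L * Δ P))) ∧
      ∃ E, η 0 E ≠ 0 ∧ AlgebraicIndependent k fun i : Fin h => η i.succ E / η 0 E := by
  classical
  have hchK : CharZero K := charZero_of_injective_algebraMap (algebraMap k K).injective
  obtain ⟨c, hc⟩ := exists_prim (k := k) y hy
  obtain ⟨t, htdef⟩ : ∃ t, t = ∑ b, algebraMap k L (c b) * y b := ⟨_, rfl⟩
  rw [← htdef] at hc
  obtain ⟨z, E, hz, hE⟩ := exists_crd hn
  choose E' hE' using fun i => exists_lift (L := L) hn (E i)
  obtain ⟨F', hF'⟩ : ∃ F', F' = aeval t (derivative (minpoly K t)) := ⟨_, rfl⟩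
  have hF0 : F' ≠ 0 := by
    rw [hF']
    exact (Algebra.IsSeparable.isSeparable K t).aeval_derivative_ne_zero (minpoly.aeval _ _)
  -- sections from combinations
  have key : ∀ V : (Fin n → Derivation k L L) → L, IsPluri N V →
      (∀ f b, SU X Δ (fun D => algebraMap K L (mlt x M f) * y b ^ M' * V D)) →
      ∀ f, ∀ P ∈ X, OGe P (fun D => mlt x (fun i => M i * finrank K L) f *
        nf z E' N V (F' ^ N) D) (-(finrank K L * Δ P)) := by
    intro V hV hVs f P hP
    have hV' : IsPluri N (fun D => algebraMap K L (mlt x M f) * V D) := by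
      intro A D
      change algebraMap K L (mlt x M f) * V _ = _
      rw [hV]
      ring
    have h2 := step_local hn hz hE hE' hc hV' (hX P hP) (Δ P) fun Q e hQ j hj => by
      intro G hG
      change Qe Q _ _
      rw [htdef]
      refine qe_tpow hy0 c (M' := M') (fun b => ?_) (hj.trans hM')
      have e1 : y b ^ M' * (algebraMap K L (mlt x M f) * V G) =
          algebraMap K L (mlt x M f) * y b ^ M' * V G := by ring
      rw [e1]
      exact hVs f b P hP Q e hQ G hG
    rw [← hF'] at h2
    have h3 : (nf z E' N (fun D => algebraMap K L (mlt x M f) * V D) (F' ^ N)) =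
        fun D => mlt x (fun i => M i * finrank K L) f * nf z E' N V (F' ^ N) D := by
      funext D
      rw [nf_smul]
      congr 1
      unfold mlt
      rw [← Finset.prod_pow]
      exact Finset.prod_congr rfl fun i _ => (pow_mul _ _ _).symm
    rwa [h3] at h2
  -- the values on the frame
  have hval : ∀ l, W l D0 = (Matrix.of fun i j => D0 i (algebraMap K L (z j))).det ^ N * W l E' :=
    fun l => pluri_coord (hz.algebraMap_comp (A := L)) (lift_dual hE hE') (hW l) D0
  have hd0 : (Matrix.of fun i j => D0 i (algebraMap K L (z j))).det ^ N ≠ 0 := by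
    intro h1
    apply h0
    rw [hval, h1, zero_mul]
  have hW0 : W 0 E' ≠ 0 := by
    intro h1
    apply h0
    rw [hval, h1, mul_zero]
  have hind' : AlgebraicIndependent k (fun i : Fin h => W i.succ E' / W 0 E') := by
    have e1 : (fun i : Fin h => W i.succ D0 / W 0 D0) = fun i : Fin h => W i.succ E' / W 0 E' := by
      funext i
      rw [hval i.succ, hval 0, mul_div_mul_left _ _ hd0]
    rwa [e1] at hind
  obtain ⟨a, b, hab⟩ := ratio (K := K) _ hind'
  -- the new forms
  let V : Fin (h + 1) → (Fin n → Derivation k L L) → L :=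
    Fin.cons (W 0) (fun i D => W (a i).succ D - algebraMap k L (b i) * W 0 D)
  have hV : ∀ l, IsPluri N (V l) := by
    intro l
    refine Fin.cases (hW 0) (fun i => ?_) l
    intro A D
    change W (a i).succ _ - algebraMap k L (b i) * W 0 _ = _ * (W (a i).succ _ - _ * W 0 _)
    rw [hW, hW]
    ring
  have hVs : ∀ l f b, SU X Δ (fun D => algebraMap K L (mlt x M f) * y b ^ M' * V l D) := by
    intro l f d
    refine Fin.cases (hsec 0 f d) (fun i => ?_) l
    intro P hP Q e hQ G hG
    have h1 := hsec (a i).succ f d P hP Q e hQ G hG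
    have h2 := Qe.smul (-(b i)) (hsec 0 f d P hP Q e hQ G hG)
    have h3 := Qe.add h1 h2
    have e1 : algebraMap K L (mlt x M f) * y d ^ M' * W (a i).succ G +
        algebraMap k L (-(b i)) * (algebraMap K L (mlt x M f) * y d ^ M' * W 0 G) =
        algebraMap K L (mlt x M f) * y d ^ M' * V i.succ G := by
      change _ = algebraMap K L (mlt x M f) * y d ^ M' *
        (W (a i).succ G - algebraMap k L (b i) * W 0 G)
      rw [map_neg]
      ring
    rw [e1] at h3
    exact h3
  refine ⟨fun l => nf z E' N (V l) (F' ^ N), fun l => nf_pluri _ _ _ _ _,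
    fun l f P hP => key (V l) (hV l) (hVs l) f P hP, E, ?_, ?_⟩
  · change nf z E' N (V 0) (F' ^ N) E ≠ 0
    rw [nf_lift hz hE hE' (hV 0) _ hE']
    exact Algebra.norm_ne_zero_iff.2 (mul_ne_zero hW0 (pow_ne_zero _ hF0))
  · have e1 : (fun i : Fin h => nf z E' N (V i.succ) (F' ^ N) E / nf z E' N (V 0) (F' ^ N) E) =
        fun i => Algebra.norm K (W (a i).succ E' / W 0 E' - algebraMap k L (b i)) := by
      funext i
      rw [nf_lift hz hE hE' (hV i.succ) _ hE', nf_lift hz hE hE' (hV 0) _ hE']
      change Algebra.norm K ((W (a i).succ E' - algebraMap k L (b i) * W 0 E') * F' ^ N) /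
        Algebra.norm K (W 0 E' * F' ^ N) = _
      rw [div_eq_iff (Algebra.norm_ne_zero_iff.2 (mul_ne_zero hW0 (pow_ne_zero _ hF0))),
        ← map_mul]
      congr 1
      field_simp
    rw [e1]
    exact hab

end

/-- **The norm principle in towers, for pairs.** -/
theorem towerQ {k : Type} [Field k] [CharZero k] [IsAlgClosed k] {n : ℕ} : ∀ (κ : ℕ)
    {K L : Type} [Field K]
    [Field L] [Algebra k K] [Algebra k L] [Algebra K L] [IsScalarTower k K L]
    [FiniteDimensional K L] [Algebra.EssFiniteType k K] [Algebra.EssFiniteType k L]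
    (_ : Algebra.trdeg k K = n) (X : Set (Place k K)) (_ : ∀ P ∈ X, Divisorial n P)
    (D : Place k K → ℚ)
    (m : Fin κ → ℕ) (x : ∀ i, Fin (m i + 1) → L) (_ : ∀ i, x i 0 = 1) (_ : Lv K x κ = ⊤)
    (N : ℕ) (M : Fin κ → ℕ) (_ : ∀ i : Fin κ,
      2 * (finrank K (Lv K x (i + 1)) - finrank K (Lv K x i)) * N ≤ M i * finrank K (Lv K x i))
    (h : ℕ) (W : Fin (h + 1) → (Fin n → Derivation k L L) → L) (_ : ∀ l, IsPluri N (W l))
    (_ : ∀ l f, SU X D (fun G => mlt x M f * W l G))
    (D0 : Fin n → Derivation k L L) (_ : W 0 D0 ≠ 0)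
    (_ : AlgebraicIndependent k fun i : Fin h => W i.succ D0 / W 0 D0),
    ∃ η : Fin (h + 1) → (Fin n → Derivation k K K) → K,
      (∀ l, IsPluri (N * finrank K L) (η l)) ∧
      (∀ l, ∀ P ∈ X, OGe P (η l) (-(finrank K L * D P))) ∧
      ∃ E, η 0 E ≠ 0 ∧ AlgebraicIndependent k fun i : Fin h => η i.succ E / η 0 E := by
  intro κ
  induction κ with
  | zero =>
    intro K L _ _ _ _ _ _ _ _ _ hn X hX D m x hx0 hgen N M hM h W hW hsec D0 h0 hind
    have hbot : (⊥ : IntermediateField K L) = ⊤ := by
      rw [← hgen]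
      unfold Lv
      rw [eq_comm, IntermediateField.adjoin_eq_bot_iff]
      rintro z ⟨l, -⟩
      exact l.elim0
    have hr : finrank K L = 1 := IntermediateField.bot_eq_top_iff_finrank_eq_one.1 hbot
    have hy : IntermediateField.adjoin K (Set.range (fun _ : Fin (0 + 1) => (1 : L))) = ⊤ := by
      rw [eq_top_iff, ← hbot]
      exact bot_le
    obtain ⟨η, hη, hη', E, hE, hEi⟩ := step_famQ hn hX D (κ := 0) (m := fun _ => 0)
      (fun i => i.elim0) (fun i => i.elim0) (fun _ => (1 : L)) rfl hy (N := N) (M' := 0)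
      (by rw [hr]; simp) W hW (fun l f b => by
        have h1 := hsec l (fun i => i.elim0)
        have e1 : (fun G : Fin n → Derivation k L L => mlt x M (fun i => i.elim0) * W l G) =
            fun G => algebraMap K L (mlt (fun i : Fin 0 => i.elim0) (fun i => i.elim0) f) *
              (1 : L) ^ 0 * W l G := by
          funext G
          unfold mlt
          simp
        rwa [e1] at h1) h0 hind
    refine ⟨η, hη, fun l P hP => ?_, E, hE, hEi⟩
    have h1 := hη' l (fun i => i.elim0) P hP
    have e1 : (fun G : Fin n → Derivation k K K =>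
        mlt (fun i : Fin 0 => (i.elim0 : Fin ((fun _ => 0 : Fin 0 → ℕ) i + 1) → K))
          (fun i => (i.elim0 : ℕ) * finrank K L) (fun i => i.elim0) * η l G) = η l := by
      funext G
      unfold mlt
      simp
    rw [e1] at h1
    exact h1
  | succ κ ih =>
    intro K L _ _ _ _ _ _ _ _ _ hn X hX D m x hx0 hgen N M hM h W hW hsec D0 h0 hind
    obtain ⟨K', hK'⟩ : ∃ K', K' = Lv K x κ := ⟨_, rfl⟩
    have hy := adjoin_last x hgen
    rw [← hK'] at hy
    have htw : IsScalarTower k K' L := IsScalarTower.of_algebraMap_eq fun z => rfl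
    have hnK' : Algebra.trdeg k K' = n := trdeg_up (K := K) hn
    have hessK' : Algebra.EssFiniteType k K' := Algebra.EssFiniteType.comp k K K'
    let x' : ∀ i : Fin κ, Fin (m i.castSucc + 1) → K' := fun i b =>
      ⟨x i.castSucc b, by rw [hK']; exact mem_Lv x i.castSucc i.isLt b⟩
    -- the degrees
    have hdeg : ∀ i, i ≤ κ → finrank K (Lv K x' i) = finrank K (Lv K x i) := by
      intro i hi
      rw [finrank_Lv]
      have e1 : Lv K (fun (i : Fin κ) b => ((x' i b : K') : L)) i = Lv K x i := Lv_castSucc x hi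
      rw [e1]
    have hdK' : finrank K (Lv K x κ) = finrank K K' := by rw [hK']
    have hdL : finrank K (Lv K x (κ + 1)) = finrank K K' * finrank K' L := by
      rw [hgen, IntermediateField.finrank_top', finrank_mul_finrank]
    have hKpos : 0 < finrank K K' := finrank_pos
    have hMlast : 2 * (finrank K' L - 1) * N ≤ M (Fin.last κ) := by
      have h1 := hM (Fin.last κ)
      rw [Fin.val_last, hdL, hdK'] at h1
      have h2 : finrank K K' * finrank K' L - finrank K K' = finrank K K' * (finrank K' L - 1) := by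
        rw [Nat.mul_sub, mul_one]
      rw [h2] at h1
      have h3 : (2 * (finrank K' L - 1) * N) * finrank K K' ≤ M (Fin.last κ) * finrank K K' := by
        calc _ = 2 * (finrank K K' * (finrank K' L - 1)) * N := by ring
          _ ≤ _ := h1
      exact Nat.le_of_mul_le_mul_right h3 hKpos
    -- the places of the intermediate field
    let X' : Set (Place k K') := {Q' | ∃ P ∈ X, ∃ e, Over Q' P e}
    have hX' : ∀ Q' ∈ X', Divisorial n Q' := by
      rintro Q' ⟨P, hP, e, hQ'⟩
      exact divisorial_up hQ' (hX P hP)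
    have hD' : ∃ D' : Place k K' → ℚ, ∀ Q' (P : Place k K) (e : ℕ), P ∈ X → Over Q' P e →
        D' Q' = e * D P := by
      classical
      refine ⟨fun Q' => if h : ∃ p : Place k K × ℕ, p.1 ∈ X ∧ Over Q' p.1 p.2 then
        h.choose.2 * D h.choose.1 else 0, fun Q' P e hP hQ' => ?_⟩
      have h1 : ∃ p : Place k K × ℕ, p.1 ∈ X ∧ Over Q' p.1 p.2 := ⟨(P, e), hP, hQ'⟩
      beta_reduce
      rw [dif_pos h1]
      obtain ⟨h2, h3⟩ := Pool.Agent.Y172.over_unique' h1.choose_spec.2 hQ'
      rw [h2, h3]
    obtain ⟨D', hD'⟩ := hD'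
    obtain ⟨η, hη, hη', E, hE, hEi⟩ := step_famQ (K := K') (L := L) hnK' hX' D'
      (κ := κ) (m := fun i => m i.castSucc) x'
      (fun i => M i.castSucc) (x (Fin.last κ)) (hx0 _) hy hMlast W hW (fun l f b => by
        rintro Q' ⟨P, hP, e', hQ'⟩ Q e hQ
        have h1 := hsec l (Fin.snoc (α := fun i => Fin (m i + 1)) f b) P hP Q (e * e')
          (over_trans' hQ hQ')
        have e1 : mlt x M (Fin.snoc (α := fun i => Fin (m i + 1)) f b) =
            algebraMap K' L (mlt x' (fun i => M i.castSucc) f) *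
              x (Fin.last κ) b ^ M (Fin.last κ) := by
          unfold mlt
          rw [Fin.prod_univ_castSucc, Fin.snoc_last, map_prod]
          congr 1
          refine Finset.prod_congr rfl fun i _ => ?_
          rw [Fin.snoc_castSucc, map_pow]
          rfl
        rw [e1] at h1
        rw [hD' Q' P e' hP hQ']
        have e2 : -(((e * e' : ℕ) : ℚ) * D P) = -((e : ℚ) * (e' * D P)) := by
          push_cast
          ring
        rw [e2] at h1
        exact h1) h0 hind
    obtain ⟨η', hη1, hη2, E', hE', hEi'⟩ := ih (K := K) (L := K') hn X hX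
      (fun P => finrank K' L * D P)
      (fun i => m i.castSucc) x' (fun i => Subtype.ext (hx0 _)) (by
        have hinj := IntermediateField.map_injective K'.val
        apply hinj
        rw [Lv_map]
        have e1 : Lv K (fun (i : Fin κ) b => ((x' i b : K') : L)) κ = Lv K x κ :=
          Lv_castSucc x le_rfl
        rw [e1, ← hK']
        ext z
        constructor
        · intro hz
          exact ⟨⟨z, hz⟩, trivial, rfl⟩
        · rintro ⟨w, -, rfl⟩
          exact w.2)
      (N * finrank K' L) (fun i => M i.castSucc * finrank K' L) (fun i => by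
        have h1 := hM i.castSucc
        rw [Fin.val_castSucc] at h1
        rw [hdeg _ (Nat.succ_le_of_lt i.isLt), hdeg _ (le_of_lt i.isLt)]
        calc _ = 2 * (finrank K (Lv K x (i + 1)) - finrank K (Lv K x i)) * N * finrank K' L := by
              ring
          _ ≤ M i.castSucc * finrank K (Lv K x i) * finrank K' L := Nat.mul_le_mul_right _ h1
          _ = _ := by ring) h η hη (fun l f => by
        intro P hP Q' e' hQ'
        have h1 := hη' l f Q' ⟨P, hP, e', hQ'⟩
        rw [hD' Q' P e' hP hQ'] at h1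
        have e2 : -((finrank K' L : ℚ) * (e' * D P)) = -((e' : ℚ) * (finrank K' L * D P)) := by
          ring
        rw [e2] at h1
        exact h1) E hE hEi
    have hfr : finrank K K' * finrank K' L = finrank K L := finrank_mul_finrank K K' L
    refine ⟨η', fun l => ?_, fun l P hP => ?_, E', hE', hEi'⟩
    · have h1 := hη1 l
      have e1 : N * finrank K' L * finrank K K' = N * finrank K L := by
        rw [← hfr]; ring
      rwa [e1] at h1
    · have h1 := hη2 l P hP
      have e1 : -((finrank K K' : ℚ) * (finrank K' L * D P)) = -((finrank K L : ℚ) * D P) := by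
        rw [← hfr]
        push_cast
        ring
      rwa [e1] at h1

/-- Sections of multiples of `K + Δ` on `X` with `h` algebraically independent ratios. -/
def KodQ {k K : Type} [Field k] [Field K] [Algebra k K] (X : Set (Place k K)) (n : ℕ)
    (Δ : Place k K → ℚ) (h : ℕ) : Prop :=
  ∃ N : ℕ, 0 < N ∧ ∃ ω : Fin (h + 1) → (Fin n → Derivation k K K) → K,
    (∀ j, Sec X n N (N • Δ) (ω j)) ∧
    ∃ D, ω 0 D ≠ 0 ∧ AlgebraicIndependent k (fun i : Fin h => ω i.succ D / ω 0 D)

/-- The same for forms on `L`, with the pull-back of the boundary. -/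
def KodU {k K L : Type} [Field k] [Field K] [Field L] [Algebra k K] [Algebra k L] [Algebra K L]
    (X : Set (Place k K)) (n : ℕ) (Δ : Place k K → ℚ) (h : ℕ) : Prop :=
  ∃ N : ℕ, 0 < N ∧ ∃ ω : Fin (h + 1) → (Fin n → Derivation k L L) → L,
    (∀ j, IsPluri N (ω j) ∧ SU X (fun P => N * Δ P) (ω j)) ∧
    ∃ D, ω 0 D ≠ 0 ∧ AlgebraicIndependent k (fun i : Fin h => ω i.succ D / ω 0 D)

/-- **Kodaira dimension goes down along maps of small degree, for pairs.** -/
theorem kodQ_down {k K L : Type} [Field k] [CharZero k] [IsAlgClosed k] [Field K] [Field L]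
    [Algebra k K] [Algebra k L] [Algebra K L] [IsScalarTower k K L] [FiniteDimensional K L]
    {n : ℕ} [Algebra.EssFiniteType k K] (hn : Algebra.trdeg k K = n) {X : Set (Place k K)}
    (hX : ∀ P ∈ X, Divisorial n P) {Δ : Place k K → ℚ}
    {κ : ℕ} {m : Fin κ → ℕ} (x : ∀ i, Fin (m i + 1) → L) (hx0 : ∀ i, x i 0 = 1)
    (hgen : Lv K x κ = ⊤) {N : ℕ}
    (hN : 0 < N) (M : Fin κ → ℕ)
    (hM : ∀ i : Fin κ, 2 * (finrank K (Lv K x (i + 1)) - finrank K (Lv K x i)) * N <
      M i * finrank K (Lv K x i)) {ξ : (Fin n → Derivation k L L) → L} (hξ0 : ∃ D, ξ D ≠ 0)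
    (hξp : IsPluri N ξ)
    (hξs : ∀ f, SU X (fun P => N * Δ P) (fun D => mlt x M f * ξ D))
    {a : ℕ} (hkod : KodU (L := L) X n Δ a) : KodQ X n Δ a := by
  classical
  have hessL : Algebra.EssFiniteType k L := Algebra.EssFiniteType.comp k K L
  obtain ⟨N1, hN1, ζ, hζ, E1, hζ0, hind⟩ := hkod
  have hnL : Algebra.trdeg k L = n := trdeg_up (K := K) hn
  -- `ξ E1 ≠ 0`
  have hξE : ξ E1 ≠ 0 := by
    obtain ⟨D, hD⟩ := hξ0
    obtain ⟨z, Z, hz, hZ⟩ := exists_crd (k := k) (K := L) hnL
    intro h0
    have h1 := pluri_coord hz hZ hξp E1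
    have h2 := pluri_coord hz hZ (hζ 0).1 E1
    have h3 := pluri_coord hz hZ hξp D
    rw [h0] at h1
    rcases mul_eq_zero.1 h1.symm with h4 | h4
    · apply hζ0
      have h5 : (Matrix.of fun i j => E1 i (z j) : Matrix (Fin n) (Fin n) L).det = 0 :=
        (pow_eq_zero_iff hN.ne').1 h4
      rw [h2, h5, zero_pow hN1.ne', zero_mul]
    · apply hD
      rw [h3, h4, mul_zero]
  have hlefr : ∀ i, finrank K (Lv K x i) ≤ finrank K L := fun i =>
    Submodule.finrank_le (Subalgebra.toSubmodule (Lv K x i).toSubalgebra)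
  obtain ⟨q, hq⟩ : ∃ q, q = 2 * finrank K L * N1 := ⟨_, rfl⟩
  let W : Fin (a + 1) → (Fin n → Derivation k L L) → L := fun l D => ξ D ^ q * ζ l D
  have hWs : ∀ l f, SU X (fun P => (N * q + N1) * Δ P)
      (fun D => mlt x (fun i => M i * q) f * W l D) := by
    intro l f P hP Q e hQ
    have h1 := ((hξs f P hP Q e hQ).pow q).mul ((hζ l).2 P hP Q e hQ)
    have e1 : (fun D : Fin n → Derivation k L L => (mlt x M f * ξ D) ^ q * ζ l D) =
        fun D => mlt x (fun i => M i * q) f * W l D := by
      funext D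
      have h2 : mlt x (fun i => M i * q) f = mlt x M f ^ q := mlt_pow x M q f
      rw [h2, mul_pow]
      change _ = _ * (ξ D ^ q * ζ l D)
      ring
    rw [e1] at h1
    refine h1.mono (le_of_eq ?_)
    ring
  have hW : ∀ l, IsPluri (N * q + N1) (W l) := by
    intro l A D
    change ξ _ ^ q * ζ l _ = _ * (ξ D ^ q * ζ l D)
    rw [hξp, (hζ l).1, pow_add, mul_pow, ← pow_mul]
    ring
  have hW0' : W 0 E1 ≠ 0 := mul_ne_zero (pow_ne_zero _ hξE) hζ0
  have hWr : (fun s : Fin a => W s.succ E1 / W 0 E1) =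
      fun s => ζ s.succ E1 / ζ 0 E1 := by
    funext s
    change ξ E1 ^ q * ζ s.succ E1 / (ξ E1 ^ q * ζ 0 E1) = _
    rw [mul_div_mul_left _ _ (pow_ne_zero _ hξE)]
  have hind' : AlgebraicIndependent k fun s : Fin a => W s.succ E1 / W 0 E1 := by
    rw [hWr]
    exact hind
  obtain ⟨η, hη, hη2, D', hD', hηi⟩ := towerQ κ (K := K) (L := L) hn X hX
    (fun P => (N * q + N1) * Δ P) m x hx0 hgen
    (N * q + N1) (fun i => M i * q) (fun i => by
      have h1 := Nat.succ_le_of_lt (hM i)
      have h2 : finrank K (Lv K x (i + 1)) - finrank K (Lv K x i) ≤ finrank K L :=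
        (Nat.sub_le _ _).trans (hlefr _)
      have h3 := Nat.mul_le_mul_right q h1
      have h4 : 2 * (finrank K (Lv K x (i + 1)) - finrank K (Lv K x i)) * N1 ≤ q := by
        rw [hq]
        exact Nat.mul_le_mul_right _ (Nat.mul_le_mul_left _ h2)
      calc 2 * (finrank K (Lv K x (i + 1)) - finrank K (Lv K x i)) * (N * q + N1)
          = 2 * (finrank K (Lv K x (i + 1)) - finrank K (Lv K x i)) * N1 +
            2 * (finrank K (Lv K x (i + 1)) - finrank K (Lv K x i)) * N * q := by ring
        _ ≤ q + 2 * (finrank K (Lv K x (i + 1)) - finrank K (Lv K x i)) * N * q :=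
            Nat.add_le_add_right h4 _
        _ = (2 * (finrank K (Lv K x (i + 1)) - finrank K (Lv K x i)) * N).succ * q := by
            rw [Nat.succ_eq_add_one]; ring
        _ ≤ M i * finrank K (Lv K x i) * q := h3
        _ = M i * q * finrank K (Lv K x i) := by ring) a W hW hWs E1 hW0' hind'
  refine ⟨(N * q + N1) * finrank K L, Nat.mul_pos (by omega) finrank_pos, η,
    fun l => ⟨hη l, fun P hP => (hη2 l P hP).mono (le_of_eq ?_)⟩, D', hD', hηi⟩
  rw [sb]
  push_cast
  ring

end Run7.h72
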