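import Pool.Agent.Run7.h72.Theta
import Pool.Agent.Run7.h72.QTower

/-!
The product of a pluricanonical form of a pair on `X` and of a power of the trace of a differential
of `C`.
-/

set_option autoImplicit false
set_option linter.overlappingInstances false
set_option linter.unusedSectionVars false
set_option linter.unusedVariables false
set_option maxHeartbeats 4000000
set_option synthInstance.maxHeartbeats 400000

open Polynomial FF IntermediateField Module

namespace Run7.h72

open Pool.Agent.W603.LV Pool.Agent.Y172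
open Pool.Agent.W602.GT (Divisorial RegAt IsPluri DerReg DerLog LogAt KodGe LogSec)
open Pool.Agent.N145.SX (zz BdX)
open Pool.Agent.N145.PL (HL)
open Pool.Agent.Y184.NT (trForm trForm_pluri)
open Pool.Agent.R882.LT (trForm_regAt trForm_logAt)
open Pool.Agent.N221.SX (expand ent_log ent_reg)

section

variable {k K : Type} [Field k] [CharZero k] [Field K] [Algebra k K] {n : ℕ}

/-- logarithmic poles are poles of order at most the weight -/
theorem oge_of_log [Algebra.EssFiniteType k K] (hn : Algebra.trdeg k K = n) {P : Place k K}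
    (hP : Divisorial n P) {m : ℕ} {ω : (Fin n → Derivation k K K) → K} (hω : IsPluri m ω)
    (h : LogAt P ω) : OGe P ω (-m) := by
  obtain ⟨y, EP, i0, hl⟩ := exists_loc hn hP
  intro D hD
  have h1 := pluri_coord hl.bas hl.dual hω D
  have h2 : Ge P 0 (Matrix.of fun i j => D i (y j)).det :=
    Pool.Agent.W619.PQ.ge_det P _ fun a b => hD a _ (hl.reg b)
  have h3 := h2.pow m
  rw [mul_zero] at h3
  have h4 : P.Reg (ω (fun i => lc y i0 i • EP i)) := h _ fun i => hl.log i
  have h5 : ω (fun i => lc y i0 i • EP i) = y i0 ^ m * ω EP := by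
    rw [pluri_diag hω (fun i => lc y i0 i) EP, prod_lc]
  rw [h5] at h4
  change Qe P (-(m : ℚ)) (ω D)
  rw [h1]
  have h6 : Qe P (-(m : ℚ)) (ω EP) := by
    by_cases h0 : ω EP = 0
    · exact Or.inl h0
    right
    have hy : y i0 ^ m ≠ 0 := pow_ne_zero _ hl.ne
    have h7 : 0 ≤ P.ord (y i0 ^ m * ω EP) := h4.resolve_left (mul_ne_zero hy h0)
    rw [P.ord_mul hy h0, P.ord_pow, hl.unif, mul_one] at h7
    have h8 : (0 : ℚ) ≤ (m : ℚ) + P.ord (ω EP) := by exact_mod_cast h7
    linarith
  have h7 := (Qe.of_ge h3).mul h6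
  rw [Int.cast_zero, zero_add] at h7
  exact h7

theorem oge_of_reg {P : Place k K} {ω : (Fin n → Derivation k K K) → K} (h : RegAt P ω) :
    OGe P ω 0 := by
  intro D hD
  rcases h D hD with h1 | h1
  · exact Or.inl h1
  · right
    exact_mod_cast h1

/-- twisting orders -/
theorem Qe.over {L : Type} [Field L] [Algebra k L] [Algebra K L] {Q : Place k L} {P : Place k K}
    {e : ℕ} (h : Over Q P e) {c : ℚ} {f : K} (hf : Qe P c f) : Qe Q (e * c) (algebraMap K L f) := by
  rcases hf with h0 | h0
  · left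
    rw [h0, map_zero]
  · right
    rw [h.2]
    push_cast
    exact mul_le_mul_of_nonneg_left h0 (by positivity)

end

section

variable {K T E C : Type} [Field K] [Field T] [Field E] [Field C] [Algebra ℂ K] [Algebra ℂ T]
  [Algebra ℂ E] [Algebra ℂ C] [Algebra E T] [Algebra T K] [Algebra E K] [IsScalarTower E T K]
  [IsScalarTower ℂ E T] [IsScalarTower ℂ T K] [IsScalarTower ℂ E K] [Algebra C K]
  [IsScalarTower ℂ C K] [IsFF ℂ C] [FiniteDimensional T K] [Algebra.EssFiniteType ℂ E]
  [Algebra.EssFiniteType ℂ T] [Algebra.EssFiniteType ℂ K] {n N : ℕ}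

/-- **The product of a pluricanonical form and of a power of a trace: orders.** -/
theorem theta_q (hE : Algebra.trdeg ℂ E = n) (hT : Algebra.trdeg ℂ T = (n + 1 : ℕ)) {t : C}
    (ht : Transcendental ℂ t) {D0 : Derivation ℂ C C} (hD0 : D0 t = 1) {B : Set (Place ℂ C)}
    {φ : C} (hφ : φ ∈ HL D0 B) {x : Fin n → E} (hx : IsTranscendenceBasis ℂ x)
    {Dx : Fin n → Derivation ℂ E E} (hDx : ∀ i j, Dx i (x j) = if i = j then 1 else 0)
    {y : Fin (n + 1) → T} (hy : IsTranscendenceBasis ℂ y)
    {G : Fin (n + 1) → Derivation ℂ T T} (hG : ∀ i j, G i (y j) = if i = j then 1 else 0)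
    {G' : Fin (n + 1) → Derivation ℂ K K}
    (hG' : ∀ i f, G' i (algebraMap T K f) = algebraMap T K (G i f))
    {ψ : (Fin n → Derivation ℂ E E) → E} {γ : Place ℂ E → ℚ} {g : E} (hψ : IsPluri N ψ)
    (hg : ∀ p, Divisorial n p → OGe p (fun D => g * ψ D) (-(N * γ p))) {P : Place ℂ T}
    (hP : Divisorial (n + 1) P) :
    (∀ p e, Over P p e → OGe P (fun D => algebraMap E T g *
      (phi x t (algebraMap C K φ) y G' D ^ N * algebraMap E T (ψ Dx)))
      (N * (e * (1 - γ p) - 1))) ∧
    ((∀ f : E, P.ord (algebraMap E T f) = 0) → OGe P (fun D => algebraMap E T g *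
      (phi x t (algebraMap C K φ) y G' D ^ N * algebraMap E T (ψ Dx))) (-N)) ∧
    ((∀ f : E, P.ord (algebraMap E T f) = 0) →
      (∀ (Q : Place ℂ K) (e : ℕ), Over Q P e → ∀ q ∈ B, ∀ e1 : ℕ, ¬ Over Q q e1) →
      OGe P (fun D => algebraMap E T g *
      (phi x t (algebraMap C K φ) y G' D ^ N * algebraMap E T (ψ Dx))) 0) := by
  classical
  refine ⟨fun p e hp => ?_, fun htriv => ?_, fun htriv hB => ?_⟩
  · have hpd : Divisorial n p := Pool.Agent.Y71.NT.t_abh E T n (n + 1) hE hT P p e hp hP
    obtain ⟨v', Dv', i0, hl⟩ := exists_loc hE hpd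
    intro D hD
    change Qe P _ _
    beta_reduce
    rw [theta_change hx hl.bas hDx hl.dual t (algebraMap C K φ) y G' D hψ]
    have hu0 : v' i0 ≠ 0 := hl.ne
    have hW : LogAt P (trForm y (Algebra.trace T K (trForm (zz K v' t)
        (algebraMap E K (v' i0)⁻¹ * algebraMap C K φ) G'))) := by
      refine trForm_logAt hT hy hG hG' _ (trForm_pluri _ _) P hP fun Q e' hQ => ?_
      refine log_w ht hD0 hφ fun D' hD' => ?_
      have hQp : Over Q p (e' * e) := over_trans' hQ hp
      have hge : Ge Q ((e' * e : ℕ) : ℤ) (Matrix.of fun a b => D' a (algebraMap E K (v' b)) :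
          Matrix (Fin n) (Fin n) K).det := by
        refine Pool.Agent.W603.LV.ge_det Q _ _
          (fun _ b => if b = i0 then ((e' * e : ℕ) : ℤ) else 0) (fun a b => ?_) fun σ => by simp
        rw [Matrix.of_apply]
        by_cases hb : b = i0
        · rw [if_pos hb, hb]
          have h2 : Ge Q 0 (D' a (algebraMap E K (v' i0)) / algebraMap E K (v' i0)) := hD' a _
          have h3 : Ge Q ((e' * e : ℕ) : ℤ) (algebraMap E K (v' i0)) :=
            Or.inr (by rw [hQp.2, hl.unif, mul_one])
          have h4 := h2.mul h3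
          rwa [div_mul_cancel₀ _ (by simpa using hu0), zero_add] at h4
        · rw [if_neg hb]
          exact derReg_of_log' (hD' a) _ (hQp.reg.2 (hl.reg b))
      have h5 : Ge Q (-((e' * e : ℕ) : ℤ)) (algebraMap E K (v' i0)⁻¹) := by
        right
        rw [hQp.2, ← one_div, p.ord_div one_ne_zero hu0, p.ord_one, hl.unif]
        simp
      have h6 := hge.mul h5
      rwa [add_neg_cancel] at h6
    have h7 : phi v' t (algebraMap C K φ) y G' D = algebraMap E T (v' i0) *
        phi v' t (algebraMap E K (v' i0)⁻¹ * algebraMap C K φ) y G' D := by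
      rw [← phi_smul, ← mul_assoc, ← map_mul, mul_inv_cancel₀ hu0, map_one, one_mul]
    rw [h7]
    have h8 : Qe P (-1) (phi v' t (algebraMap E K (v' i0)⁻¹ * algebraMap C K φ) y G' D) := by
      have h81 := oge_of_log hT hP (trForm_pluri y _) hW D hD
      have e1 : (-((1 : ℕ) : ℚ)) = -1 := by norm_num
      rw [e1] at h81
      exact h81
    have h9 : Qe p (N * (1 - γ p)) (g * (v' i0 ^ N * ψ Dv')) := by
      have h10 : Qe p (-(N * γ p)) (g * ψ Dv') := hg p hpd Dv' hl.pres
      have h11 : Qe p (N * 1) (v' i0 ^ N) := Qe.pow (Or.inr (by rw [hl.unif]; norm_num)) N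
      have h12 := h11.mul h10
      have e1 : v' i0 ^ N * (g * ψ Dv') = g * (v' i0 ^ N * ψ Dv') := by ring
      rw [e1] at h12
      refine h12.mono (le_of_eq ?_)
      ring
    have h12 := (Qe.over hp h9).mul (h8.pow N)
    have e1 : algebraMap E T g * ((algebraMap E T (v' i0) *
        phi v' t (algebraMap E K (v' i0)⁻¹ * algebraMap C K φ) y G' D) ^ N *
          algebraMap E T (ψ Dv')) =
        algebraMap E T (g * (v' i0 ^ N * ψ Dv')) *
          phi v' t (algebraMap E K (v' i0)⁻¹ * algebraMap C K φ) y G' D ^ N := by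
      rw [map_mul, map_mul, map_pow, mul_pow]
      ring
    rw [e1]
    refine h12.mono (le_of_eq ?_)
    ring
  · have hreg : ∀ f : E, Qe P 0 (algebraMap E T f) := fun f => Or.inr (by rw [htriv f]; simp)
    have hW : LogAt P (trForm y (Algebra.trace T K (trForm (zz K x t)
        (algebraMap E K 1 * algebraMap C K φ) G'))) := by
      refine trForm_logAt hT hy hG hG' _ (trForm_pluri _ _) P hP fun Q e' hQ => ?_
      refine log_w ht hD0 hφ fun D' hD' => ?_
      rw [map_one, mul_one]
      refine Pool.Agent.W619.PQ.ge_det Q _ fun a b => ?_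
      refine derReg_of_log' (hD' a) _ ?_
      rw [IsScalarTower.algebraMap_apply E T K]
      exact hQ.reg.2 (Or.inr (htriv _).ge)
    rw [map_one, one_mul] at hW
    intro D hD
    have h8 : Qe P (-1) (phi x t (algebraMap C K φ) y G' D) := by
      have h81 := oge_of_log hT hP (trForm_pluri y _) hW D hD
      have e1 : (-((1 : ℕ) : ℚ)) = -1 := by norm_num
      rw [e1] at h81
      exact h81
    have h12 := (hreg g).mul ((h8.pow N).mul (hreg (ψ Dx)))
    refine h12.mono (le_of_eq ?_)
    ring
  · have hreg : ∀ f : E, Qe P 0 (algebraMap E T f) := fun f => Or.inr (by rw [htriv f]; simp)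
    have hW : RegAt P (trForm y (Algebra.trace T K (trForm (zz K x t)
        (algebraMap C K φ) G'))) := by
      refine trForm_regAt hT hy hG hG' _ (trForm_pluri _ _) P hP fun Q e' hQ => ?_
      refine reg_w ht hD0 hφ (fun q hq e1 h1 => hB Q e' hQ q hq e1 h1) fun j => ?_
      rw [IsScalarTower.algebraMap_apply E T K]
      exact hQ.reg.2 (Or.inr (htriv _).ge)
    intro D hD
    have h8 : Qe P 0 (phi x t (algebraMap C K φ) y G' D) := oge_of_reg hW D hD
    have h12 := (hreg g).mul ((h8.pow N).mul (hreg (ψ Dx)))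
    refine h12.mono (le_of_eq ?_)
    ring

end

end Run7.h72
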