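import Pool.Agent.Run7.h72.Form

/-!
The norm principle for sections of the log canonical bundle.
-/

set_option autoImplicit false
set_option linter.overlappingInstances false
set_option linter.unusedSectionVars false

open FF Polynomial Module
open Pool.Agent.W602.GT Pool.Agent.W603.LV Pool.Agent.W619.PQ Pool.Agent.Y172

namespace Run7.h72

section

variable {k K L : Type} [Field k] [CharZero k] [Field K] [Field L] [Algebra k K] [Algebra k L]
  [Algebra K L] [IsScalarTower k K L] [FiniteDimensional K L] {n : ℕ}

/-- regular forms on lifted vector fields -/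
theorem down_ge' [Algebra.EssFiniteType k L] (hn : Algebra.trdeg k L = n) {P : Place k K}
    {Q : Place k L} {e : ℕ} {y : Fin n → K} {E : Fin n → Derivation k K K} {i0 : Fin n}
    (h : Over Q P e) (hQ : Divisorial n Q) (hl : Loc P y E i0) {E' : Fin n → Derivation k L L}
    (hE' : ∀ i f, E' i (algebraMap K L f) = algebraMap K L (E i f)) {m : ℕ}
    {W : (Fin n → Derivation k L L) → L} (hW : IsPluri m W) {c : ℤ}
    (hreg : ∀ G : Fin n → Derivation k L L, (∀ i, DerReg Q (G i)) → Ge Q c (W G)) :
    Ge Q (c + m - e * m) (W E') := by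
  have h1 := down_ge hn h hQ hl hE' hW (c := (c : ℝ)) fun G hG => by
    rcases hreg G hG with h | h
    · exact Or.inl h
    · exact Or.inr (by exact_mod_cast h)
  rcases h1 with h1 | h1
  · exact Or.inl h1
  · right
    have h2 : ((c + m - e * m : ℤ) : ℝ) ≤ (Q.ord (W E') : ℝ) := by
      push_cast
      exact h1
    exact_mod_cast h2

/-- **The norm principle.** Let `t` generate the extension, of degree `r`. If the forms `t ^ j W`,
`j ≤ 2 (r - 1) N`, are sections of `N (K + D)` upstairs, then the norm of `W`, corrected by the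
derivative of the minimal polynomial of `t`, is a section of `r N (K + D)` downstairs. -/
theorem nf_section [Algebra.EssFiniteType k K] [Algebra.EssFiniteType k L]
    (hn : Algebra.trdeg k K = n) {z : Fin n → K} (hz : IsTranscendenceBasis k z)
    {E : Fin n → Derivation k K K}
    (hE : ∀ i j, E i (z j) = if i = j then 1 else 0) {E' : Fin n → Derivation k L L}
    (hE' : ∀ i f, E' i (algebraMap K L f) = algebraMap K L (E i f)) {t : L}
    (ht : Algebra.adjoin K {t} = ⊤) {BK : Place k K → Prop} {BL : Place k L → Prop}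
    (hB : ∀ (P : Place k K) (Q : Place k L) (e : ℕ), Over Q P e → BL Q → BK P) {N : ℕ}
    {W : (Fin n → Derivation k L L) → L} (hW : IsPluri N W)
    (hsec : ∀ j ≤ 2 * (finrank K L - 1) * N, LogSec k L n N BL (fun D => t ^ j * W D)) :
    LogSec k K n (N * finrank K L) BK
      (nf z E' N W (aeval t (derivative (minpoly K t)) ^ N)) := by
  have hnL : Algebra.trdeg k L = n := trdeg_up (K := K) hn
  refine ⟨nf_pluri _ _ _ _ _, fun P hP => ?_, fun P hP hPB => ?_⟩
  · obtain ⟨y, EP, i0, hl⟩ := exists_loc hn hP
    choose EP' hEP' using fun i => exists_lift (L := L) hn (EP i)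
    refine nf_logAt hl hEP' hz hE hE' hW (norm_twist P ht N _ fun Q e hQ j hj => ?_)
    have hQd : Divisorial n Q := divisorial_up hQ hP
    have h1 : Ge Q 0 (t ^ j * W (fun i => algebraMap K L (lc y i0 i) • EP' i)) :=
      (hsec j hj).2.1 Q hQd _ fun i => lift_log hQ (hl.log i) fun f => by
        change algebraMap K L (lc y i0 i) * EP' i (algebraMap K L f) =
          algebraMap K L (lc y i0 i * EP i f)
        rw [hEP', map_mul]
    refine h1.mono ?_
    have he : (1 : ℤ) ≤ e := by exact_mod_cast hQ.1
    have : 0 ≤ (N : ℤ) * ((e : ℤ) - 1) := mul_nonneg (by positivity) (by omega)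
    omega
  · obtain ⟨y, EP, i0, hl⟩ := exists_loc hn hP
    choose EP' hEP' using fun i => exists_lift (L := L) hn (EP i)
    refine nf_regAt hl hEP' hz hE hE' hW (norm_twist P ht N _ fun Q e hQ j hj => ?_)
    have hQd : Divisorial n Q := divisorial_up hQ hP
    have hQB : ¬ BL Q := fun h => hPB (hB P Q e hQ h)
    have h1 := down_ge' hnL hQ hQd hl hEP' (hsec j hj).1 (c := 0)
      fun G hG => (hsec j hj).2.2 Q hQd hQB G hG
    refine h1.mono (le_of_eq ?_)
    ring

/-- **The norm principle without correction**: it is enough that the values on the lifts of regular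
vector fields are regular. -/
theorem nf_section' [Algebra.EssFiniteType k K] [Algebra.EssFiniteType k L]
    (hn : Algebra.trdeg k K = n) {z : Fin n → K} (hz : IsTranscendenceBasis k z)
    {E : Fin n → Derivation k K K}
    (hE : ∀ i j, E i (z j) = if i = j then 1 else 0) {E' : Fin n → Derivation k L L}
    (hE' : ∀ i f, E' i (algebraMap K L f) = algebraMap K L (E i f)) {BK : Place k K → Prop} {N : ℕ}
    {W : (Fin n → Derivation k L L) → L} (hW : IsPluri N W)
    (hlog : ∀ (P : Place k K) (Q : Place k L) (e : ℕ), Divisorial n P → Over Q P e → LogAt Q W)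
    (hreg : ∀ (P : Place k K) (Q : Place k L) (e : ℕ), Divisorial n P → Over Q P e → ¬ BK P →
      ∀ D : Fin n → Derivation k L L, (∀ i, DerLog Q (D i)) → Ge Q (e * N) (W D)) :
    LogSec k K n (N * finrank K L) BK (nf z E' N W 1) := by
  refine ⟨nf_pluri _ _ _ _ _, fun P hP => ?_, fun P hP hPB => ?_⟩
  · obtain ⟨y, EP, i0, hl⟩ := exists_loc hn hP
    choose EP' hEP' using fun i => exists_lift (L := L) hn (EP i)
    refine nf_logAt hl hEP' hz hE hE' hW (norm_reg P _ fun Q e hQ => ?_)
    rw [mul_one]
    exact hlog P Q e hP hQ _ fun i => lift_log hQ (hl.log i) fun f => by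
        change algebraMap K L (lc y i0 i) * EP' i (algebraMap K L f) =
          algebraMap K L (lc y i0 i * EP i f)
        rw [hEP', map_mul]
  · obtain ⟨y, EP, i0, hl⟩ := exists_loc hn hP
    choose EP' hEP' using fun i => exists_lift (L := L) hn (EP i)
    refine nf_regAt hl hEP' hz hE hE' hW (norm_reg P _ fun Q e hQ => ?_)
    rw [mul_one]
    have h1 := hreg P Q e hP hQ hPB (fun i => algebraMap K L (lc y i0 i) • EP' i)
      fun i => lift_log hQ (hl.log i) fun f => by
        change algebraMap K L (lc y i0 i) * EP' i (algebraMap K L f) =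
          algebraMap K L (lc y i0 i * EP i f)
        rw [hEP', map_mul]
    rw [pluri_diag hW (fun i => algebraMap K L (lc y i0 i)) EP', ← map_prod, prod_lc] at h1
    have hy0 : algebraMap K L (y i0) ≠ 0 := by
      rw [Ne, map_eq_zero]
      exact hl.ne
    by_cases h0 : W EP' = 0
    · exact Or.inl h0
    right
    have h2 := h1.resolve_left (mul_ne_zero (pow_ne_zero _ hy0) h0)
    rw [Q.ord_mul (pow_ne_zero _ hy0) h0, Q.ord_pow, hQ.2, hl.unif, mul_one] at h2
    nlinarith

end

end Run7.h72
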