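import Pool.Agent.Run7.h72.Fam
import Pool.Agent.Run7.h72.Up
import Pool.Agent.Run7.h72.Pol
import Pool.Agent.Run7.h72.Pair

/-!
Tensor differentials on lifted vector fields.
-/

set_option autoImplicit false
set_option linter.overlappingInstances false
set_option linter.unusedSectionVars false

open FF Polynomial Module
open Pool.Agent.W602.GT Pool.Agent.W603.LV Pool.Agent.W619.PQ Pool.Agent.Y172

namespace Run7.h72

section

variable {k K : Type} [Field k] [CharZero k] [Field K] [Algebra k K] {n : ℕ}

/-- vector fields which take coordinates to regular functions are regular -/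
theorem derReg_coord {Q : Place k K} {u : Fin n → K} {G : Fin n → Derivation k K K} {j0 : Fin n}
    (hl : Loc Q u G j0) {D : Derivation k K K} (h : ∀ j, Ge Q 0 (D (u j))) : DerReg Q D := by
  intro f hf
  have h1 := Pool.Agent.W73.PG.PULL.expand u hl.bas G hl.dual D
  rw [← h1, Pool.Agent.W73.PG.PULL.sum_app]
  refine ge_sum (a := 0) _ _ fun j _ => ?_
  have h2 : Ge Q 0 (G j f) := hl.pres j f hf
  have h3 := (h j).mul h2
  rwa [add_zero] at h3

end

section

variable {k K L : Type} [Field k] [CharZero k] [Field K] [Field L] [Algebra k K] [Algebra k L]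
  [Algebra K L] [IsScalarTower k K L] [FiniteDimensional K L] {n : ℕ}
  {P : Place k K} {Q : Place k L} {e : ℕ} {y : Fin n → K} {E : Fin n → Derivation k K K}
  {i0 : Fin n}

/-- the lift of the vector field which is transversal to the divisor -/
theorem pole_lift [Algebra.EssFiniteType k L] (hn : Algebra.trdeg k L = n) (h : Over Q P e)
    (hQ : Divisorial n Q) (hl : Loc P y E i0) {E' : Fin n → Derivation k L L}
    (hE' : ∀ i f, E' i (algebraMap K L f) = algebraMap K L (E i f)) :
    DerReg Q (unif Q ^ (e - 1) • E' i0) := by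
  classical
  obtain ⟨u, G, j0, hu⟩ := exists_loc hn hQ
  refine derReg_coord hu fun j => ?_
  obtain ⟨B, hB⟩ : ∃ B : Matrix (Fin n) (Fin n) L,
    B = Matrix.of fun i j => G i (algebraMap K L (y j)) := ⟨_, rfl⟩
  obtain ⟨c, hc⟩ : ∃ c : Matrix (Fin n) (Fin n) L, c = Matrix.of fun i j => E' i (u j) := ⟨_, rfl⟩
  have hcB : c * B = 1 := by
    ext i l
    rw [Matrix.mul_apply, Matrix.one_apply, ← lift_dual hl.dual hE' i l]
    have h1 := Pool.Agent.W73.PG.PULL.expand u hu.bas G hu.dual (E' i)
    conv_rhs => rw [← h1, Pool.Agent.W73.PG.PULL.sum_app]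
    refine Finset.sum_congr rfl fun j _ => ?_
    rw [hc, hB, Matrix.of_apply, Matrix.of_apply]
    rfl
  have hdet : Ge Q (1 - e) c.det := by
    have h1 := down_ge' hn h hQ hl hE' (m := 1) (det_pluri u 1 (1 : L)) (c := 0) fun G' hG' => by
        rw [mul_one, pow_one]
        exact ge_det Q _ fun a b => hG' a _ (hu.reg b)
    rw [mul_one, pow_one] at h1
    rw [hc]
    refine h1.mono (le_of_eq ?_)
    push_cast
    ring
  have hadj : c = c.det • B.adjugate := by
    have h1 : B * c = 1 := mul_eq_one_comm.1 hcB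
    have h2 : B.adjugate = B.det • c := by
      calc B.adjugate = B.adjugate * (B * c) := by rw [h1, Matrix.mul_one]
        _ = (B.adjugate * B) * c := by rw [Matrix.mul_assoc]
        _ = B.det • c := by rw [Matrix.adjugate_mul, Matrix.smul_mul, Matrix.one_mul]
    rw [h2, smul_smul, ← Matrix.det_mul, hcB, Matrix.det_one, one_smul]
  have hentry : Ge Q (1 - e) (E' i0 (u j)) := by
    have h1 : E' i0 (u j) = c.det * B.adjugate i0 j := by
      have h2 : c i0 j = (c.det • B.adjugate) i0 j := by rw [← hadj]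
      rw [Matrix.smul_apply, smul_eq_mul] at h2
      rw [← h2, hc]
      rfl
    rw [h1, Matrix.adjugate_apply]
    have h3 : Ge Q 0 (B.updateRow j (Pi.single i0 1)).det := by
      refine ge_det Q _ fun a b => ?_
      rw [Matrix.updateRow_apply]
      split_ifs with ha
      · rw [Pi.single_apply]
        split_ifs
        · exact Ge.one
        · exact Ge.zero
      · rw [hB]
        exact hu.pres a _ (h.reg.2 (hl.reg b))
    have h4 := hdet.mul h3
    rwa [add_zero] at h4
  have h5 : Ge Q ((e - 1 : ℕ) : ℤ) (unif Q ^ (e - 1)) := by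
    have h6 : Ge Q 1 (unif Q) := Or.inr (ord_unif Q).ge
    have h7 := h6.pow (e - 1)
    rwa [mul_one] at h7
  have h8 := h5.mul hentry
  have h9 := h.1
  refine h8.mono (le_of_eq ?_)
  omega

/-- **Tensor differentials on lifted vector fields.** -/
theorem tens_lift [Algebra.EssFiniteType k L] (hn : Algebra.trdeg k L = n) (h : Over Q P e)
    (hQ : Divisorial n Q) (hl : Loc P y E i0) {E' : Fin n → Derivation k L L}
    (hE' : ∀ i f, E' i (algebraMap K L f) = algebraMap K L (E i f)) {ι β : Type} [Fintype ι]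
    [Fintype β] (b : ι → β) (T : MultilinearMap L (fun _ : ι => Derivation k L L) L)
    (halt : ∀ (D : ι → Derivation k L L) (i j : ι), i ≠ j → b i = b j → D i = D j → T D = 0)
    {c : L} (hreg : ∀ G : ι → Derivation k L L, (∀ i, DerReg Q (G i)) → Ge Q 0 (c * T G))
    (J : ι → Fin n) :
    Ge Q (-((Fintype.card β : ℤ) * ((e : ℤ) - 1))) (c * T fun i => E' (J i)) := by
  classical
  have he := h.1
  by_cases hJ : ∃ i j, i ≠ j ∧ b i = b j ∧ J i = J j
  · obtain ⟨i, j, hij, hb, hJij⟩ := hJ
    rw [halt _ i j hij hb (by rw [hJij]), mul_zero]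
    exact Ge.zero
  push Not at hJ
  obtain ⟨S, hS⟩ : ∃ S, S = Finset.univ.filter fun i => J i = i0 := ⟨_, rfl⟩
  have hcard : S.card ≤ Fintype.card β := by
    rw [← Finset.card_univ (α := β)]
    refine Finset.card_le_card_of_injOn b (fun _ _ => Finset.mem_univ _) ?_
    intro i hi j hj hij
    by_contra hne
    rw [Finset.mem_coe, hS, Finset.mem_filter] at hi hj
    exact hJ i j hne hij (hi.2.trans hj.2.symm)
  have hreg' := hreg (fun i => (if J i = i0 then unif Q ^ (e - 1) else 1) • E' (J i)) fun i => by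
    split_ifs with hi
    · rw [hi]
      exact pole_lift hn h hQ hl hE'
    · rw [one_smul]
      have h1 := hl.log (J i)
      have h2 : lc y i0 (J i) = 1 := if_neg hi
      rw [h2, one_smul] at h1
      exact derReg_of_log' (lift_log h h1 (hE' (J i)))
  rw [MultilinearMap.map_smul_univ, smul_eq_mul] at hreg'
  have h3 : ∏ i, (if J i = i0 then unif Q ^ (e - 1) else 1) = unif Q ^ ((e - 1) * S.card) := by
    rw [Finset.prod_ite, Finset.prod_const_one, mul_one, Finset.prod_const, ← hS, pow_mul]
  rw [h3] at hreg'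
  have hπ := ord_unif Q
  have hπ0 : unif Q ≠ 0 := by
    intro h0
    rw [h0, Q.ord_zero] at hπ
    omega
  by_cases h0 : c * T (fun i => E' (J i)) = 0
  · exact Or.inl h0
  right
  have h4 : c * (unif Q ^ ((e - 1) * S.card) * T fun i => E' (J i)) =
      unif Q ^ ((e - 1) * S.card) * (c * T fun i => E' (J i)) := by ring
  rw [h4] at hreg'
  have h5 := hreg'.resolve_left (mul_ne_zero (pow_ne_zero _ hπ0) h0)
  rw [Q.ord_mul (pow_ne_zero _ hπ0) h0, Q.ord_pow, hπ, mul_one] at h5
  have h6 : (((e - 1) * S.card : ℕ) : ℤ) ≤ (Fintype.card β : ℤ) * ((e : ℤ) - 1) := by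
    have h7 : (e - 1) * S.card ≤ (e - 1) * Fintype.card β := Nat.mul_le_mul_left _ hcard
    have h8 : (((e - 1) * S.card : ℕ) : ℤ) ≤ (((e - 1) * Fintype.card β : ℕ) : ℤ) := by
      exact_mod_cast h7
    refine h8.trans (le_of_eq ?_)
    rw [Nat.cast_mul, Nat.cast_sub he]
    push_cast
    ring
  linarith

end

end Run7.h72
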