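import Pool.Agent.Run7.h72.TPull

/-!
Tensor differentials and correspondences.
-/

set_option autoImplicit false
set_option linter.overlappingInstances false
set_option linter.unusedSectionVars false
set_option maxHeartbeats 4000000
set_option synthInstance.maxHeartbeats 400000

open FF Polynomial Module
open Pool.Agent.W602.GT Pool.Agent.W603.LV Pool.Agent.W619.PQ Pool.Agent.Y172

namespace Run7.h72

/-- **Tensor differentials and correspondences of small degree.** -/
theorem corrT {E R L : Type} [Field E] [Field R] [Field L] [Algebra ℂ E] [Algebra ℂ R]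
    [Algebra ℂ L] [Algebra E R] [Algebra L R] [IsScalarTower ℂ E R] [IsScalarTower ℂ L R]
    [FiniteDimensional L R] [Algebra.EssFiniteType ℂ E] [Algebra.EssFiniteType ℂ L] {n w : ℕ}
    (hn : Algebra.trdeg ℂ E = n) (hw : Algebra.trdeg ℂ L = w) {c : ℕ} {m : Fin c → ℕ}
    (x : ∀ i, Fin (m i + 1) → E) (hx : ∀ i, x i 0 = 1)
    (hgen : Lv L (fun i b => algebraMap E R (x i b)) c =
      IntermediateField.adjoin L (Set.range (algebraMap E R))) {N q : ℕ} (M : Fin c → ℕ)
    (hM : ∀ i : Fin c, 2 * (finrank L (Lv L (fun i b => algebraMap E R (x i b)) (i + 1)) -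
      finrank L (Lv L (fun i b => algebraMap E R (x i b)) i)) * N ≤
      M i * finrank L (Lv L (fun i b => algebraMap E R (x i b)) i))
    (T : MultilinearMap E (fun _ : Fin N × Fin q => Derivation ℂ E E) E) (hT0 : T ≠ 0)
    (hT : BAlt Prod.fst T) (hsec : ∀ f, TSec ℂ E n (mlt x M f) T) (r : ℕ)
    (hr : r = finrank L (IntermediateField.adjoin L (Set.range (algebraMap E R))) * N) :
    ∃ T' : MultilinearMap L (fun _ : Fin r × Fin q => Derivation ℂ L L) L,
      T' ≠ 0 ∧ BAlt Prod.fst T' ∧ TSec ℂ L w 1 T' := by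
  classical
  obtain ⟨A, hA⟩ : ∃ A, A = IntermediateField.adjoin L (Set.range (algebraMap E R)) := ⟨_, rfl⟩
  have hmem : ∀ z : E, algebraMap E R z ∈ A := fun z => by
    rw [hA]
    exact IntermediateField.subset_adjoin _ _ ⟨z, rfl⟩
  let iEA : Algebra E A := ((algebraMap E R).codRestrict A hmem).toAlgebra
  have hEA : ∀ z : E, ((algebraMap E A z : A) : R) = algebraMap E R z := fun z => rfl
  have t1 : IsScalarTower ℂ E A := IsScalarTower.of_algebraMap_eq fun z => by
    apply Subtype.ext
    rw [hEA, ← IsScalarTower.algebraMap_apply ℂ E R]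
    rfl
  have t2 : IsScalarTower ℂ L A := IsScalarTower.of_algebraMap_eq fun z => by
    apply Subtype.ext
    change algebraMap ℂ R z = algebraMap L R (algebraMap ℂ L z)
    rw [← IsScalarTower.algebraMap_apply ℂ L R]
  have hessA : Algebra.EssFiniteType ℂ A := Algebra.EssFiniteType.comp ℂ L A
  have hwA : Algebra.trdeg ℂ A = w := trdeg_up (K := L) hw
  let x' : ∀ i : Fin c, Fin (m i + 1) → A := fun i b => algebraMap E A (x i b)
  have hgen' : Lv L x' c = ⊤ := by
    have hinj := IntermediateField.map_injective A.val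
    apply hinj
    rw [Lv_map]
    have e1 : Lv L (fun (i : Fin c) b => ((x' i b : A) : R)) c = A := hgen.trans hA.symm
    rw [e1]
    ext z
    constructor
    · intro hz
      exact ⟨⟨z, hz⟩, trivial, rfl⟩
    · rintro ⟨w, -, rfl⟩
      exact w.2
  have hdeg : ∀ i, finrank L (Lv L x' i) =
      finrank L (Lv L (fun i b => algebraMap E R (x i b)) i) := fun i => finrank_Lv A x' i
  have hmlt : ∀ f, mlt x' M f = algebraMap E A (mlt x M f) := by
    intro f
    unfold mlt
    rw [map_prod]
    exact Finset.prod_congr rfl fun i _ => by rw [map_pow]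
  obtain ⟨T1, hT10, hT1, hT1s⟩ := exists_tpull (R := A) hn hwA T hT0 hT
  exact towerT c (K := L) (L := A) hw m x' (fun i => by
    change algebraMap E A (x i 0) = 1
    rw [hx, map_one]) hgen' N M (fun i => by
    rw [hdeg, hdeg]
    exact hM i) T1 hT10 hT1 (fun f => by
    rw [hmlt]
    exact hT1s _ (hsec f)) r (by rw [hr, hA])

end Run7.h72
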