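import Pool.Agent.Run7.h72.TTower
import Pool.Agent.Y71.NT.Abh

/-!
Pull-backs of tensor differentials.
-/

set_option autoImplicit false
set_option linter.overlappingInstances false
set_option linter.unusedSectionVars false
set_option maxHeartbeats 4000000
set_option synthInstance.maxHeartbeats 400000

open FF Polynomial Module
open Pool.Agent.W602.GT Pool.Agent.W603.LV Pool.Agent.W619.PQ Pool.Agent.Y172

namespace Run7.h72

section

variable {k K : Type} [Field k] [CharZero k] [Field K] [Algebra k K] {ι β : Type} [DecidableEq ι]

/-- functions which are alternating in the blocks are antisymmetric in the blocks -/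
theorem balt_swap {b : ι → β} {T : MultilinearMap K (fun _ : ι => Derivation k K K) K}
    (hT : BAlt b T) {s s' : ι} (hne : s ≠ s') (hb : b s = b s') (D : ι → Derivation k K K) :
    T (fun i => D (Equiv.swap s s' i)) + T D = 0 := by
  have h1 : T (Function.update (Function.update D s (D s + D s')) s' (D s + D s')) = 0 := by
    refine hT _ s s' hne hb ?_
    rw [Function.update_self, Function.update_of_ne hne, Function.update_self]
  rw [MultilinearMap.map_update_add, Function.update_comm hne, Function.update_comm hne,
    MultilinearMap.map_update_add, MultilinearMap.map_update_add] at h1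
  have h2 : T (Function.update (Function.update D s' (D s)) s (D s)) = 0 := by
    refine hT _ s s' hne hb ?_
    rw [Function.update_self, Function.update_of_ne hne.symm, Function.update_self]
  have h3 : T (Function.update (Function.update D s' (D s')) s (D s')) = 0 := by
    refine hT _ s s' hne hb ?_
    rw [Function.update_self, Function.update_of_ne hne.symm, Function.update_self]
  have h4 : Function.update (Function.update D s' (D s)) s (D s') =
      fun i => D (Equiv.swap s s' i) := by
    funext i
    by_cases hi : i = s
    · subst hi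
      rw [Function.update_self, Equiv.swap_apply_left]
    by_cases hi' : i = s'
    · subst hi'
      rw [Function.update_of_ne hi, Function.update_self, Equiv.swap_apply_right]
    rw [Function.update_of_ne hi, Function.update_of_ne hi', Equiv.swap_apply_of_ne_of_ne hi hi']
  have h5 : Function.update (Function.update D s' (D s')) s (D s) = D := by
    rw [Function.update_eq_self, Function.update_eq_self]
  rw [h2, h3, h4, h5, zero_add, add_zero] at h1
  exact h1

end

section

variable {E R : Type} [Field E] [Field R] [Algebra ℂ E] [Algebra ℂ R] [Algebra E R]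
  [IsScalarTower ℂ E R] {n w : ℕ} {ι β : Type} [Fintype ι] [DecidableEq ι]

/-- the value of a vector field at a function -/
def evD (R : Type) [Field R] [Algebra ℂ R] (f : R) : Derivation ℂ R R →ₗ[R] R where
  toFun D := D f
  map_add' _ _ := rfl
  map_smul' _ _ := rfl

/-- the pull-back of a tensor differential in coordinates -/
noncomputable def TP (R : Type) [Field R] [Algebra ℂ R] [Algebra E R] (v : Fin n → E)
    (V : Fin n → Derivation ℂ E E) (T : MultilinearMap E (fun _ : ι => Derivation ℂ E E) E) :
    MultilinearMap R (fun _ : ι => Derivation ℂ R R) R :=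
  ∑ J : ι → Fin n, (algebraMap E R (T fun i => V (J i))) •
    (MultilinearMap.mkPiAlgebra R ι R).compLinearMap fun i => evD R (algebraMap E R (v (J i)))

theorem TP_apply (v : Fin n → E) (V : Fin n → Derivation ℂ E E)
    (T : MultilinearMap E (fun _ : ι => Derivation ℂ E E) E) (D : ι → Derivation ℂ R R) :
    TP R v V T D = ∑ J : ι → Fin n, algebraMap E R (T fun i => V (J i)) *
      ∏ i, D i (algebraMap E R (v (J i))) := by
  unfold TP
  rw [sum_apply]
  refine Finset.sum_congr rfl fun J _ => ?_
  rw [smul_apply, MultilinearMap.compLinearMap_apply,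
    MultilinearMap.mkPiAlgebra_apply]
  rfl

/-- the pull-back does not depend on the coordinates -/
theorem TP_change {v y : Fin n → E} (hv : IsTranscendenceBasis ℂ v)
    (hy : IsTranscendenceBasis ℂ y) {V Y : Fin n → Derivation ℂ E E}
    (hV : ∀ i j, V i (v j) = if i = j then 1 else 0)
    (hY : ∀ i j, Y i (y j) = if i = j then 1 else 0)
    (T : MultilinearMap E (fun _ : ι => Derivation ℂ E E) E) (D : ι → Derivation ℂ R R) :
    TP R v V T D = TP R y Y T D := by
  rw [TP_apply, TP_apply]
  have h1 : ∀ J : ι → Fin n, ∏ i, D i (algebraMap E R (v (J i))) =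
      ∑ C : ι → Fin n, (∏ i, algebraMap E R (Y (C i) (v (J i)))) *
        ∏ i, D i (algebraMap E R (y (C i))) := by
    intro J
    have h2 : ∀ i, D i (algebraMap E R (v (J i))) =
        ∑ c, D i (algebraMap E R (y c)) * algebraMap E R (Y c (v (J i))) := fun i =>
      Pool.Agent.W73.PG.PULL.chain y hy Y hY (D i) (v (J i))
    rw [Finset.prod_congr rfl fun i _ => h2 i, Finset.prod_univ_sum, Fintype.piFinset_univ]
    refine Finset.sum_congr rfl fun C _ => ?_
    rw [Finset.prod_mul_distrib, mul_comm]
  have h3 : ∀ C : ι → Fin n, (T fun i => Y (C i)) =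
      ∑ J : ι → Fin n, (∏ i, Y (C i) (v (J i))) * T fun i => V (J i) := by
    intro C
    have h4 : (fun i => Y (C i)) = fun i => ∑ c, Y (C i) (v c) • V c := by
      funext i
      exact (Pool.Agent.W73.PG.PULL.expand v hv V hV (Y (C i))).symm
    rw [h4, t_expand]
  simp only [h1, h3, map_sum, map_mul, map_prod, Finset.mul_sum, Finset.sum_mul]
  rw [Finset.sum_comm]
  refine Finset.sum_congr rfl fun C _ => Finset.sum_congr rfl fun J _ => ?_
  ring

/-- the pull-back is alternating in the blocks -/
theorem TP_alt {b : ι → β} (v : Fin n → E) (V : Fin n → Derivation ℂ E E)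
    {T : MultilinearMap E (fun _ : ι => Derivation ℂ E E) E} (hT : BAlt b T) :
    BAlt b (TP R v V T) := by
  intro D s s' hne hb hD
  rw [TP_apply]
  refine Finset.sum_involution (fun J _ => fun i => J (Equiv.swap s s' i)) ?_ ?_ ?_ ?_
  · intro J _
    have h1 := balt_swap hT hne hb fun i => V (J i)
    have h2 : ∏ i, D i (algebraMap E R (v (J (Equiv.swap s s' i)))) =
        ∏ i, D i (algebraMap E R (v (J i))) := by
      rw [← Equiv.prod_comp (Equiv.swap s s')]
      refine Finset.prod_congr rfl fun i _ => ?_
      have h3 : D (Equiv.swap s s' i) = D i := by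
        by_cases hi : i = s
        · rw [hi, Equiv.swap_apply_left, hD]
        by_cases hi' : i = s'
        · rw [hi', Equiv.swap_apply_right, hD]
        rw [Equiv.swap_apply_of_ne_of_ne hi hi']
      rw [h3, Equiv.swap_apply_self]
    rw [h2, ← add_mul, ← map_add, add_comm, h1, map_zero, zero_mul]
  · intro J _ hJ hJJ
    apply hJ
    have h1 : J s = J s' := by
      have h2 := congrFun hJJ s'
      rwa [Equiv.swap_apply_right] at h2
    have h3 : (T fun i => V (J i)) = 0 := hT _ s s' hne hb (by rw [h1])
    rw [h3, map_zero, zero_mul]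
  · intro J _
    exact Finset.mem_univ _
  · intro J _
    funext i
    change J (Equiv.swap s s' (Equiv.swap s s' i)) = J i
    rw [Equiv.swap_apply_self]

/-- **Pull-backs of holomorphic tensor differentials are holomorphic.** -/
theorem exists_tpull [Algebra.EssFiniteType ℂ E] (hn : Algebra.trdeg ℂ E = n)
    (hw : Algebra.trdeg ℂ R = w) {b : ι → β}
    (T : MultilinearMap E (fun _ : ι => Derivation ℂ E E) E) (hT0 : T ≠ 0) (hT : BAlt b T) :
    ∃ T' : MultilinearMap R (fun _ : ι => Derivation ℂ R R) R, T' ≠ 0 ∧ BAlt b T' ∧
      ∀ c : E, TSec ℂ E n c T → TSec ℂ R w (algebraMap E R c) T' := by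
  obtain ⟨v, V, hv, hV⟩ := exists_crd hn
  refine ⟨TP R v V T, ?_, TP_alt v V hT, ?_⟩
  · -- the derivations which extend the frame
    have h1 : AlgebraicIndependent ℂ fun j => algebraMap E R (v j) :=
      hv.1.map' (f := IsScalarTower.toAlgHom ℂ E R) (algebraMap E R).injective
    obtain ⟨t, hst, ht⟩ := exists_isTranscendenceBasis_superset (R := ℂ)
      (s := Set.range fun j => algebraMap E R (v j)) h1.coe_range
    have h2 : ∀ c : Fin n, ∃ D : Derivation ℂ R R, ∀ j, D (algebraMap E R (v j)) =
        if c = j then 1 else 0 := by
      intro c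
      classical
      obtain ⟨D, hD⟩ := exists_der (fun i : t => (i : R)) ht
        fun i => if (i : R) = algebraMap E R (v c) then 1 else 0
      refine ⟨D, fun j => ?_⟩
      have h3 := hD ⟨algebraMap E R (v j), hst ⟨j, rfl⟩⟩
      dsimp only at h3
      rw [h3]
      have h4 : (algebraMap E R (v j) = algebraMap E R (v c)) ↔ c = j := by
        constructor
        · intro h
          exact (h1.injective h).symm
        · rintro rfl
          rfl
      by_cases hcj : c = j
      · rw [if_pos (h4.2 hcj), if_pos hcj]
      · rw [if_neg (fun h => hcj (h4.1 h)), if_neg hcj]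
    choose W hW using h2
    intro h0
    apply hT0
    refine t_zero hv hV fun J => ?_
    have h3 : TP R v V T (fun i => W (J i)) = 0 := by
      rw [h0]
      rfl
    rw [TP_apply, Finset.sum_eq_single J] at h3
    · simp only [hW, if_true, Finset.prod_const_one, mul_one, map_eq_zero] at h3
      exact h3
    · intro C _ hC
      obtain ⟨i, hi⟩ := Function.ne_iff.1 hC
      have h4 : ∏ i, (W (J i)) (algebraMap E R (v (C i))) = 0 := by
        refine Finset.prod_eq_zero (Finset.mem_univ i) ?_
        rw [hW, if_neg (Ne.symm hi)]
      rw [h4, mul_zero]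
    · intro h
      exact absurd (Finset.mem_univ _) h
  · intro c hc Q hQ D hD
    by_cases htriv : ∃ f : E, Q.ord (algebraMap E R f) ≠ 0
    · obtain ⟨e, P, hP⟩ := exists_over Q htriv
      have hPd : Divisorial n P := Pool.Agent.Y71.NT.t_abh E R n w hn hw Q P e hP hQ
      obtain ⟨y, Y, i0, hl⟩ := exists_loc hn hPd
      rw [TP_change hv hl.bas hV hl.dual, TP_apply, Finset.mul_sum]
      refine ge_sum _ _ fun J _ => ?_
      rw [← mul_assoc, ← map_mul]
      have h1 : Ge Q 0 (algebraMap E R (c * T fun i => Y (J i))) :=
        hP.reg.2 (hc P hPd _ fun i => hl.pres (J i))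
      have h2 : Ge Q 0 (∏ i, D i (algebraMap E R (y (J i)))) :=
        Finset.prod_induction _ (fun z => Q.Reg z) (fun a b ha hb => Q.reg_mul ha hb)
          Q.reg_one fun i _ => hD i _ (hP.reg.2 (hl.reg _))
      have h3 := h1.mul h2
      rwa [add_zero] at h3
    · push Not at htriv
      have h0 : ∀ f : E, Q.Reg (algebraMap E R f) := fun f => Or.inr (htriv f).ge
      rw [TP_apply]
      refine Q.reg_mul (h0 c) ?_
      refine ge_sum _ _ fun J _ => ?_
      have h2 : Ge Q 0 (∏ i, D i (algebraMap E R (v (J i)))) :=
        Finset.prod_induction _ (fun z => Q.Reg z) (fun a b ha hb => Q.reg_mul ha hb)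
          Q.reg_one fun i _ => hD i _ (h0 _)
      have h1 : Ge Q 0 (algebraMap E R (T fun i => V (J i))) := h0 _
      have h3 := h1.mul h2
      rwa [add_zero] at h3

end

end Run7.h72
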