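import Pool.Agent.Run7.h72.TLoc

/-!
The norm principle for tensor differentials.
-/

set_option autoImplicit false
set_option linter.overlappingInstances false
set_option linter.unusedSectionVars false
set_option maxHeartbeats 4000000
set_option synthInstance.maxHeartbeats 400000

open FF Polynomial Module
open Pool.Agent.W602.GT Pool.Agent.W603.LV Pool.Agent.W619.PQ Pool.Agent.Y172

namespace Run7.h72

section

variable {k K : Type} [Field k] [CharZero k] [Field K] [Algebra k K] {ι β : Type}

/-- The function of vector fields is alternating in the blocks. -/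
def BAlt (b : ι → β) (T : MultilinearMap K (fun _ : ι => Derivation k K K) K) : Prop :=
  ∀ (D : ι → Derivation k K K) (i j : ι), i ≠ j → b i = b j → D i = D j → T D = 0

variable (k K) in
/-- The tensor differential `c T` is holomorphic. -/
def TSec (n : ℕ) (c : K) (T : MultilinearMap K (fun _ : ι => Derivation k K K) K) : Prop :=
  ∀ P : Place k K, Divisorial n P → ∀ D : ι → Derivation k K K, (∀ i, DerReg P (D i)) →
    Ge P 0 (c * T D)

/-- expansion of multilinear functions -/
theorem t_expand [Fintype ι] [DecidableEq ι] {n : ℕ} (T : MultilinearMap K (fun _ : ι => Derivation k K K) K)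
    (a : ι → Fin n → K) (G : Fin n → Derivation k K K) :
    T (fun i => ∑ c, a i c • G c) = ∑ J : ι → Fin n, (∏ i, a i (J i)) * T fun i => G (J i) := by
  classical
  rw [MultilinearMap.map_sum]
  refine Finset.sum_congr rfl fun J _ => ?_
  rw [MultilinearMap.map_smul_univ, smul_eq_mul]

/-- the frame detects tensors -/
theorem t_zero [Fintype ι] {n : ℕ} {T : MultilinearMap K (fun _ : ι => Derivation k K K) K}
    {z : Fin n → K} (hz : IsTranscendenceBasis k z) {Z : Fin n → Derivation k K K}
    (hZ : ∀ i j, Z i (z j) = if i = j then 1 else 0)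
    (h : ∀ J : ι → Fin n, (T fun i => Z (J i)) = 0) : T = 0 := by
  classical
  ext D
  have h1 : D = fun i => ∑ c, D i (z c) • Z c := by
    funext i
    exact (Pool.Agent.W73.PG.PULL.expand z hz Z hZ (D i)).symm
  rw [h1, t_expand]
  exact Finset.sum_eq_zero fun J _ => by rw [h, mul_zero]

end

section

variable {k K L : Type} [Field k] [CharZero k] [Field K] [Field L] [Algebra k K] [Algebra k L]
  [Algebra K L] [IsScalarTower k K L] [FiniteDimensional K L] {n : ℕ}

/-- the lift of vector fields as a linear map -/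
theorem exists_lft (hn : Algebra.trdeg k K = n) :
    ∃ lf : Derivation k K K →ₗ[K] Derivation k L L,
      ∀ D f, lf D (algebraMap K L f) = algebraMap K L (D f) := by
  obtain ⟨z, Z, hz, hZ⟩ := exists_crd hn
  choose Z' hZ' using fun i => exists_lift (L := L) hn (Z i)
  refine ⟨{ toFun := fun D => ∑ j, algebraMap K L (D (z j)) • Z' j
            map_add' := fun D D' => ?_
            map_smul' := fun r D => ?_ }, fun D f => ?_⟩
  · rw [← Finset.sum_add_distrib]
    refine Finset.sum_congr rfl fun j _ => ?_
    rw [Derivation.add_apply, map_add, add_smul]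
  · rw [RingHom.id_apply, Finset.smul_sum]
    refine Finset.sum_congr rfl fun j _ => ?_
    rw [Derivation.smul_apply, smul_eq_mul, map_mul, mul_smul]
    ext f
    simp only [Derivation.smul_apply, smul_eq_mul, Algebra.smul_def]
  · change (∑ j, algebraMap K L (D (z j)) • Z' j) (algebraMap K L f) = _
    rw [Pool.Agent.W73.PG.PULL.sum_app]
    conv_rhs => rw [← Pool.Agent.W73.PG.PULL.expand z hz Z hZ D,
      Pool.Agent.W73.PG.PULL.sum_app, map_sum]
    refine Finset.sum_congr rfl fun j _ => ?_
    change algebraMap K L (D (z j)) * Z' j (algebraMap K L f) = algebraMap K L (D (z j) * Z j f)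
    rw [hZ', map_mul]

variable {ι β : Type} [Fintype ι] [Fintype β]

/-- the norm of a tensor differential -/
noncomputable def NT (p : MultilinearMap K (fun _ : Fin (finrank K L) => L) K)
    (lf : Derivation k K K →ₗ[K] Derivation k L L) (g : L)
    (T : MultilinearMap L (fun _ : ι => Derivation k L L) L) :
    MultilinearMap K (fun _ : (Σ _ : Fin (finrank K L), ι) => Derivation k K K) K :=
  p.compMultilinearMap fun _ => ((g • T).restrictScalars K).compLinearMap fun _ => lf

theorem NT_apply (p : MultilinearMap K (fun _ : Fin (finrank K L) => L) K)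
    (lf : Derivation k K K →ₗ[K] Derivation k L L) (g : L)
    (T : MultilinearMap L (fun _ : ι => Derivation k L L) L)
    (D : (Σ _ : Fin (finrank K L), ι) → Derivation k K K) :
    NT p lf g T D = p fun j => g * T fun i => lf (D ⟨j, i⟩) := rfl

/-- the norm is alternating -/
theorem NT_alt (p : MultilinearMap K (fun _ : Fin (finrank K L) => L) K)
    (lf : Derivation k K K →ₗ[K] Derivation k L L) (g : L)
    {T : MultilinearMap L (fun _ : ι => Derivation k L L) L} {b : ι → β} (hT : BAlt b T) :
    BAlt (fun s : (Σ _ : Fin (finrank K L), ι) => (s.1, b s.2)) (NT p lf g T) := by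
  rintro D ⟨j, i⟩ ⟨j', i'⟩ hne hb hD
  rw [Prod.mk.injEq] at hb
  obtain ⟨h1, h2⟩ := hb
  dsimp only at h1 h2
  subst h1
  have hii : i ≠ i' := by
    rintro rfl
    exact hne rfl
  rw [NT_apply]
  refine p.map_coord_zero j ?_
  rw [hT _ i i' hii h2 (by rw [hD]), mul_zero]

variable {p : MultilinearMap K (fun _ : Fin (finrank K L) => L) K}
  (hp : ∀ a, algebraMap K (AlgebraicClosure L) (p a) = prm K a)
  {lf : Derivation k K K →ₗ[K] Derivation k L L}
  (hlf : ∀ D f, lf D (algebraMap K L f) = algebraMap K L (D f))

include hp hlf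

/-- the norm is not zero -/
theorem NT_ne (hn : Algebra.trdeg k K = n) {g : L} (hg : g ≠ 0)
    {T : MultilinearMap L (fun _ : ι => Derivation k L L) L} (hT : T ≠ 0) :
    NT p lf g T ≠ 0 := by
  have hch : CharZero K := charZero_of_injective_algebraMap (algebraMap k K).injective
  obtain ⟨z, Z, hz, hZ⟩ := exists_crd hn
  have hzL : IsTranscendenceBasis k fun j => algebraMap K L (z j) := hz.algebraMap_comp (A := L)
  have hZL : ∀ i j, lf (Z i) (algebraMap K L (z j)) = if i = j then 1 else 0 :=
    lift_dual hZ fun i f => hlf (Z i) f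
  have h1 : ∃ J : ι → Fin n, (T fun i => lf (Z (J i))) ≠ 0 := by
    by_contra hcon
    push Not at hcon
    exact hT (t_zero hzL hZL hcon)
  obtain ⟨J, hJ⟩ := h1
  intro h0
  have h2 : NT p lf g T (fun s => Z (J s.2)) = 0 := by
    rw [h0]
    rfl
  rw [NT_apply] at h2
  change (p fun _ => g * T fun i => lf (Z (J i))) = 0 at h2
  rw [pol_diag hp] at h2
  rcases mul_eq_zero.1 h2 with h3 | h3
  · exact Nat.factorial_ne_zero _ (by exact_mod_cast h3)
  · exact Algebra.norm_ne_zero_iff.2 (mul_ne_zero hg hJ) h3

/-- **The norm principle for tensor differentials.** -/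
theorem NT_sec [Algebra.EssFiniteType k K] [Algebra.EssFiniteType k L]
    (hn : Algebra.trdeg k K = n) {t : L} (ht : Algebra.adjoin K {t} = ⊤) {N : ℕ}
    (hβ : Fintype.card β = N) {T : MultilinearMap L (fun _ : ι => Derivation k L L) L}
    {b : ι → β} (hT : BAlt b T) (u : K)
    (hsec : ∀ j ≤ 2 * (finrank K L - 1) * N, TSec k L n (t ^ j * algebraMap K L u) T) :
    TSec k K n (u ^ finrank K L) (NT p lf (aeval t (derivative (minpoly K t)) ^ N) T) := by
  classical
  intro P hP D hD
  have hch : CharZero K := charZero_of_injective_algebraMap (algebraMap k K).injective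
  have hnL : Algebra.trdeg k L = n := trdeg_up (K := K) hn
  obtain ⟨y, E, i0, hl⟩ := exists_loc hn hP
  obtain ⟨f, hf⟩ : ∃ f : (ι → Fin n) → L, f = fun J => T fun i => lf (E (J i)) := ⟨_, rfl⟩
  obtain ⟨F, hF⟩ : ∃ F, F = aeval t (derivative (minpoly K t)) ^ N := ⟨_, rfl⟩
  rw [← hF]
  have hexp : ∀ D : ι → Derivation k K K, (T fun i => lf (D i)) =
      ∑ J : ι → Fin n, (∏ i, algebraMap K L (D i (y (J i)))) * f J := by
    intro D
    have h1 : (fun i => lf (D i)) = fun i => ∑ c, algebraMap K L (D i (y c)) • lf (E c) := by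
      funext i
      conv_lhs => rw [← Pool.Agent.W73.PG.PULL.expand y hl.bas E hl.dual (D i), map_sum]
      refine Finset.sum_congr rfl fun c _ => ?_
      rw [map_smul]
      ext f
      simp only [Derivation.smul_apply, smul_eq_mul, Algebra.smul_def]
    rw [h1, t_expand, hf]
  rw [NT_apply]
  by_cases h0 : ∃ J ∈ (Finset.univ : Finset (ι → Fin n)), f J ≠ 0
  · obtain ⟨c, hY, hmin⟩ := exists_comb (k := k) (finite_over (K' := L) P) Finset.univ f h0
    obtain ⟨Y, hYd⟩ : ∃ Y, Y = ∑ J, algebraMap k L (c J) * f J := ⟨_, rfl⟩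
    rw [← hYd] at hY hmin
    have hN : P.Reg (Algebra.norm K (algebraMap K L u * Y * F)) := by
      rw [hF]
      refine norm_twist P ht N (algebraMap K L u * Y) fun Q e hQ j hj => ?_
      have h1 : t ^ j * (algebraMap K L u * Y) =
          ∑ J, algebraMap k L (c J) * (t ^ j * algebraMap K L u * f J) := by
        rw [hYd, Finset.mul_sum, Finset.mul_sum]
        exact Finset.sum_congr rfl fun J _ => by ring
      rw [h1]
      refine ge_sum _ _ fun J _ => ge_smul _ ?_
      rw [hf, ← hβ]
      exact tens_lift hnL hQ (divisorial_up hQ hP) hl (E' := fun i => lf (E i))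
        (fun i f => hlf (E i) f) b T hT
        (fun G hG => hsec j hj Q (divisorial_up hQ hP) G hG) J
    have hp1 : (p fun j => F * T fun i => lf (D ⟨j, i⟩)) = Algebra.norm K (F * Y) *
        p fun j => (T fun i => lf (D ⟨j, i⟩)) / Y := by
      rw [← pol_mul hp]
      congr 1
      funext j
      field_simp
    have hp2 : P.Reg (p fun j => (T fun i => lf (D ⟨j, i⟩)) / Y) := by
      refine pol_reg hp P _ fun j Q e hQ => ?_
      rw [hexp, Finset.sum_div]
      refine ge_sum _ _ fun J _ => ?_
      rw [mul_div_assoc]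
      have h1 : Ge Q 0 (∏ i, algebraMap K L (D ⟨j, i⟩ (y (J i)))) := by
        rw [← map_prod]
        refine hQ.reg.2 ?_
        exact Finset.prod_induction _ (fun z => P.Reg z) (fun a b ha hb => P.reg_mul ha hb)
          P.reg_one fun i _ => hD ⟨j, i⟩ _ (hl.reg _)
      have h2 : Ge Q 0 (f J / Y) := by
        by_cases hfJ : f J = 0
        · rw [hfJ, zero_div]
          exact Ge.zero
        · right
          rw [Q.ord_div hfJ hY]
          have h3 := (hmin Q ⟨e, hQ⟩ J (Finset.mem_univ J)).resolve_left hfJ
          omega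
      have h3 := h1.mul h2
      rwa [add_zero] at h3
    have h4 : u ^ finrank K L * (p fun j => F * T fun i => lf (D ⟨j, i⟩)) =
        Algebra.norm K (algebraMap K L u * Y * F) *
          p fun j => (T fun i => lf (D ⟨j, i⟩)) / Y := by
      rw [hp1, ← Algebra.norm_algebraMap (S := L) u, ← mul_assoc, ← map_mul]
      congr 2
      ring
    rw [h4]
    exact P.reg_mul hN hp2
  · push Not at h0
    have h1 : ∀ D : ι → Derivation k K K, (T fun i => lf (D i)) = 0 := fun D => by
      rw [hexp]
      exact Finset.sum_eq_zero fun J hJ => by rw [h0 J hJ, mul_zero]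
    have h2 : (p fun j => F * T fun i => lf (D ⟨j, i⟩)) = 0 :=
      p.map_coord_zero ⟨0, finrank_pos⟩ (by rw [h1, mul_zero])
    rw [h2, mul_zero]
    exact Ge.zero

end

end Run7.h72
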