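import Pool.Agent.Run7.h72.TStep
import Pool.Agent.Run7.h72.Main

/-!
The norm principle for tensor differentials in towers.
-/

set_option autoImplicit false
set_option linter.overlappingInstances false
set_option linter.unusedSectionVars false
set_option maxHeartbeats 4000000
set_option synthInstance.maxHeartbeats 400000

open FF Polynomial Module
open Pool.Agent.W602.GT Pool.Agent.W603.LV Pool.Agent.W619.PQ Pool.Agent.Y172

namespace Run7.h72

section

variable {k K : Type} [Field k] [CharZero k] [Field K] [Algebra k K]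

/-- the enumeration of the arguments of the norm -/
def reix (r N q : ℕ) : (Σ _ : Fin r, Fin N × Fin q) ≃ Fin (r * N) × Fin q :=
  (Equiv.sigmaEquivProd _ _).trans ((Equiv.prodAssoc _ _ _).symm.trans
    (Equiv.prodCongr finProdFinEquiv (Equiv.refl _)))

theorem reix_fst (r N q : ℕ) (s : Σ _ : Fin r, Fin N × Fin q) :
    (reix r N q s).1 = finProdFinEquiv (s.1, s.2.1) := rfl

/-- change of the enumeration of the arguments -/
theorem exists_reix {r N q n : ℕ}
    (T : MultilinearMap K (fun _ : (Σ _ : Fin r, Fin N × Fin q) => Derivation k K K) K)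
    (hT0 : T ≠ 0) (hT : BAlt (fun s => (s.1, s.2.1)) T) :
    ∃ T' : MultilinearMap K (fun _ : Fin (r * N) × Fin q => Derivation k K K) K, T' ≠ 0 ∧
      BAlt Prod.fst T' ∧ ∀ c, TSec k K n c T → TSec k K n c T' := by
  have happ : ∀ D, T.domDomCongr (reix r N q) D = T fun i => D (reix r N q i) := fun D => rfl
  refine ⟨T.domDomCongr (reix r N q), ?_, ?_, ?_⟩
  · intro h0
    apply hT0
    ext D
    have h1 := happ fun s => D ((reix r N q).symm s)
    rw [h0] at h1
    have h2 : (fun i => D ((reix r N q).symm (reix r N q i))) = D := by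
      funext i
      rw [Equiv.symm_apply_apply]
    rw [h2] at h1
    rw [← h1]
    rfl
  · intro D s s' hne hb hD
    rw [happ]
    refine hT _ ((reix r N q).symm s) ((reix r N q).symm s') ?_ ?_ ?_
    · exact fun h => hne ((reix r N q).symm.injective h)
    · have h1 := reix_fst r N q ((reix r N q).symm s)
      have h2 := reix_fst r N q ((reix r N q).symm s')
      rw [Equiv.apply_symm_apply] at h1 h2
      rw [h1, h2] at hb
      exact finProdFinEquiv.injective hb
    · rw [Equiv.apply_symm_apply, Equiv.apply_symm_apply]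
      exact hD
  · intro c hc P hP D hD
    rw [happ]
    exact hc P hP _ fun i => hD _

end

section

variable {k K L : Type} [Field k] [CharZero k] [Field K] [Field L] [Algebra k K] [Algebra k L]
  [Algebra K L] [IsScalarTower k K L] [FiniteDimensional K L] {n : ℕ}

/-- **One step.** -/
theorem step_T [Algebra.EssFiniteType k K] [Algebra.EssFiniteType k L]
    (hn : Algebra.trdeg k K = n) {κ : ℕ} {m : Fin κ → ℕ} (x : ∀ i, Fin (m i + 1) → K)
    (M : Fin κ → ℕ) {m' : ℕ} (y : Fin (m' + 1) → L) (hy0 : y 0 = 1)
    (hy : IntermediateField.adjoin K (Set.range y) = ⊤) {N M' q : ℕ}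
    (hM' : 2 * (finrank K L - 1) * N ≤ M')
    (T : MultilinearMap L (fun _ : Fin N × Fin q => Derivation k L L) L) (hT0 : T ≠ 0)
    (hT : BAlt Prod.fst T)
    (hsec : ∀ f b, TSec k L n (algebraMap K L (mlt x M f) * y b ^ M') T) :
    ∃ T' : MultilinearMap K (fun _ : Fin (finrank K L * N) × Fin q => Derivation k K K) K,
      T' ≠ 0 ∧ BAlt Prod.fst T' ∧
      ∀ f, TSec k K n (mlt x (fun i => M i * finrank K L) f) T' := by
  classical
  have hchK : CharZero K := charZero_of_injective_algebraMap (algebraMap k K).injective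
  obtain ⟨c, hc⟩ := exists_prim (k := k) y hy
  obtain ⟨t, htdef⟩ : ∃ t, t = ∑ b, algebraMap k L (c b) * y b := ⟨_, rfl⟩
  rw [← htdef] at hc
  obtain ⟨p, hp⟩ := exists_pol (K := K) (L := L)
  obtain ⟨lf, hlf⟩ := exists_lft (L := L) hn
  have hF0 : aeval t (derivative (minpoly K t)) ≠ 0 :=
    (Algebra.IsSeparable.isSeparable K t).aeval_derivative_ne_zero (minpoly.aeval _ _)
  obtain ⟨T', hT'0, hT', hT's⟩ := exists_reix (n := n)
    (NT p lf (aeval t (derivative (minpoly K t)) ^ N) T)
    (NT_ne hp hlf hn (pow_ne_zero _ hF0) hT0) (NT_alt p lf _ hT)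
  refine ⟨T', hT'0, hT', fun f => hT's _ ?_⟩
  have h1 := NT_sec hp hlf hn hc (N := N) (by rw [Fintype.card_fin]) hT (mlt x M f)
    fun j hj P hP D hD => by
      have hjM : j ≤ M' := hj.trans hM'
      rw [mul_assoc, htdef]
      refine ge_tpow hy0 c (M' := M') (fun b => ?_) hjM
      have h2 := hsec f b P hP D hD
      have e1 : y b ^ M' * (algebraMap K L (mlt x M f) * T D) =
        algebraMap K L (mlt x M f) * y b ^ M' * T D := by ring
      rw [e1]
      exact h2
  rw [mlt_pow]
  exact h1

end

/-- **The norm principle for tensor differentials in towers.** -/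
theorem towerT {k : Type} [Field k] [CharZero k] {n q : ℕ} : ∀ (κ : ℕ) {K L : Type} [Field K]
    [Field L] [Algebra k K] [Algebra k L] [Algebra K L] [IsScalarTower k K L]
    [FiniteDimensional K L] [Algebra.EssFiniteType k K] [Algebra.EssFiniteType k L]
    (_ : Algebra.trdeg k K = n) (m : Fin κ → ℕ) (x : ∀ i, Fin (m i + 1) → L)
    (_ : ∀ i, x i 0 = 1) (_ : Lv K x κ = ⊤) (N : ℕ) (M : Fin κ → ℕ) (_ : ∀ i : Fin κ,
      2 * (finrank K (Lv K x (i + 1)) - finrank K (Lv K x i)) * N ≤ M i * finrank K (Lv K x i))
    (T : MultilinearMap L (fun _ : Fin N × Fin q => Derivation k L L) L) (_ : T ≠ 0)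
    (_ : BAlt Prod.fst T) (_ : ∀ f, TSec k L n (mlt x M f) T) (R : ℕ)
    (_ : R = finrank K L * N),
    ∃ T' : MultilinearMap K (fun _ : Fin R × Fin q => Derivation k K K) K,
      T' ≠ 0 ∧ BAlt Prod.fst T' ∧ TSec k K n 1 T' := by
  intro κ
  induction κ with
  | zero =>
    intro K L _ _ _ _ _ _ _ _ _ hn m x hx0 hgen N M hM T hT0 hT hsec R hR
    have hbot : (⊥ : IntermediateField K L) = ⊤ := by
      rw [← hgen]
      unfold Lv
      rw [eq_comm, IntermediateField.adjoin_eq_bot_iff]
      rintro z ⟨l, -⟩
      exact l.elim0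
    have hr : finrank K L = 1 := IntermediateField.bot_eq_top_iff_finrank_eq_one.1 hbot
    have hy : IntermediateField.adjoin K (Set.range (fun _ : Fin (0 + 1) => (1 : L))) = ⊤ := by
      rw [eq_top_iff, ← hbot]
      exact bot_le
    obtain ⟨T', hT'0, hT', hT's⟩ := step_T hn (κ := 0) (m := fun _ => 0)
      (fun i => i.elim0) (fun i => i.elim0) (fun _ => (1 : L)) rfl hy (N := N) (M' := 0)
      (by rw [hr]; simp) T hT0 hT (fun f b P hP D hD => by
        have h1 := hsec (fun i => i.elim0) P hP D hD
        have e1 : mlt x M (fun i => i.elim0) =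
            algebraMap K L (mlt (fun i : Fin 0 => i.elim0) (fun i => i.elim0) f) *
              (1 : L) ^ 0 := by
          unfold mlt
          simp
        rwa [e1] at h1)
    subst hR
    refine ⟨T', hT'0, hT', fun P hP D hD => ?_⟩
    have h1 := hT's (fun i => i.elim0) P hP D hD
    have e1 : mlt (fun i : Fin 0 => (i.elim0 : Fin ((fun _ => 0 : Fin 0 → ℕ) i + 1) → K))
          (fun i => (i.elim0 : ℕ) * finrank K L) (fun i => i.elim0) = 1 := by
      unfold mlt
      simp
    rw [e1] at h1
    exact h1
  | succ κ ih =>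
    intro K L _ _ _ _ _ _ _ _ _ hn m x hx0 hgen N M hM T hT0 hT hsec R hR
    obtain ⟨K', hK'⟩ : ∃ K', K' = Lv K x κ := ⟨_, rfl⟩
    have hy := adjoin_last x hgen
    rw [← hK'] at hy
    have htw : IsScalarTower k K' L := IsScalarTower.of_algebraMap_eq fun z => rfl
    have hnK' : Algebra.trdeg k K' = n := trdeg_up (K := K) hn
    have hessK' : Algebra.EssFiniteType k K' := Algebra.EssFiniteType.comp k K K'
    let x' : ∀ i : Fin κ, Fin (m i.castSucc + 1) → K' := fun i b =>
      ⟨x i.castSucc b, by rw [hK']; exact mem_Lv x i.castSucc i.isLt b⟩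
    -- the degrees
    have hdeg : ∀ i, i ≤ κ → finrank K (Lv K x' i) = finrank K (Lv K x i) := by
      intro i hi
      rw [finrank_Lv]
      have e1 : Lv K (fun (i : Fin κ) b => ((x' i b : K') : L)) i = Lv K x i := Lv_castSucc x hi
      rw [e1]
    have hdK' : finrank K (Lv K x κ) = finrank K K' := by rw [hK']
    have hdL : finrank K (Lv K x (κ + 1)) = finrank K K' * finrank K' L := by
      rw [hgen, IntermediateField.finrank_top', finrank_mul_finrank]
    have hKpos : 0 < finrank K K' := finrank_pos
    have hMlast : 2 * (finrank K' L - 1) * N ≤ M (Fin.last κ) := by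
      have h1 := hM (Fin.last κ)
      rw [Fin.val_last, hdL, hdK'] at h1
      have h2 : finrank K K' * finrank K' L - finrank K K' = finrank K K' * (finrank K' L - 1) := by
        rw [Nat.mul_sub, mul_one]
      rw [h2] at h1
      have h3 : (2 * (finrank K' L - 1) * N) * finrank K K' ≤ M (Fin.last κ) * finrank K K' := by
        calc _ = 2 * (finrank K K' * (finrank K' L - 1)) * N := by ring
          _ ≤ _ := h1
      exact Nat.le_of_mul_le_mul_right h3 hKpos
    obtain ⟨T1, hT10, hT1, hT1s⟩ := step_T (K := K') (L := L) hnK'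
      (κ := κ) (m := fun i => m i.castSucc) x'
      (fun i => M i.castSucc) (x (Fin.last κ)) (hx0 _) hy hMlast T hT0 hT
      (fun f b P hP D hD => by
        have h1 := hsec (Fin.snoc (α := fun i => Fin (m i + 1)) f b) P hP D hD
        have e1 : mlt x M (Fin.snoc (α := fun i => Fin (m i + 1)) f b) =
            algebraMap K' L (mlt x' (fun i => M i.castSucc) f) *
              x (Fin.last κ) b ^ M (Fin.last κ) := by
          unfold mlt
          rw [Fin.prod_univ_castSucc, Fin.snoc_last, map_prod]
          congr 1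
          refine Finset.prod_congr rfl fun i _ => ?_
          rw [Fin.snoc_castSucc, map_pow]
          rfl
        rw [e1] at h1
        exact h1)
    exact ih (K := K) (L := K') hn
      (fun i => m i.castSucc) x' (fun i => Subtype.ext (hx0 _)) (by
        have hinj := IntermediateField.map_injective K'.val
        apply hinj
        rw [Lv_map]
        have e1 : Lv K (fun (i : Fin κ) b => ((x' i b : K') : L)) κ = Lv K x κ :=
          Lv_castSucc x le_rfl
        rw [e1, ← hK']
        ext z
        constructor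
        · intro hz
          exact ⟨⟨z, hz⟩, trivial, rfl⟩
        · rintro ⟨w, -, rfl⟩
          exact w.2)
      (finrank K' L * N) (fun i => M i.castSucc * finrank K' L) (fun i => by
        have h1 := hM i.castSucc
        rw [Fin.val_castSucc] at h1
        rw [hdeg _ (Nat.succ_le_of_lt i.isLt), hdeg _ (le_of_lt i.isLt)]
        calc _ = 2 * (finrank K (Lv K x (i + 1)) - finrank K (Lv K x i)) * N * finrank K' L := by
              ring
          _ ≤ M i.castSucc * finrank K (Lv K x i) * finrank K' L := Nat.mul_le_mul_right _ h1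
          _ = _ := by ring) T1 hT10 hT1 hT1s R (by
        rw [hR, ← mul_assoc, finrank_mul_finrank])

end Run7.h72
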