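import Pool.Agent.N145.SX.Gen0
import Pool.Agent.Run7.h72.TowerK

/-!
The product of a pluricanonical form of `X` and of a power of the trace of a differential of `C`.
-/

set_option autoImplicit false
set_option linter.overlappingInstances false
set_option linter.unusedSectionVars false
set_option linter.unusedVariables false
set_option maxHeartbeats 4000000
set_option synthInstance.maxHeartbeats 400000

open Polynomial FF IntermediateField Module

namespace Run7.h72

open Pool.Agent.W603.LV Pool.Agent.Y172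
open Pool.Agent.W602.GT (Divisorial RegAt IsPluri DerReg DerLog LogAt KodGe LogSec)
open Pool.Agent.N145.SX (zz BdX)
open Pool.Agent.N145.PL (HL)
open Pool.Agent.Y184.NT (trForm trForm_pluri)
open Pool.Agent.R882.LT (trForm_regAt trForm_logAt)
open Pool.Agent.N221.SX (expand ent_log ent_reg)

section

variable {K E C : Type} [Field K] [Field E] [Field C] [Algebra ℂ K] [Algebra ℂ E] [Algebra ℂ C]
  [Algebra E K] [IsScalarTower ℂ E K] [Algebra C K] [IsScalarTower ℂ C K] [IsFF ℂ C] {n N : ℕ}

omit [Algebra ℂ C] [IsScalarTower ℂ C K] [IsFF ℂ C] in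
/-- change of the coordinates on `X` -/
theorem zz_change {v v' : Fin n → E} (hv : IsTranscendenceBasis ℂ v)
    (hv' : IsTranscendenceBasis ℂ v') {Dv Dv' : Fin n → Derivation ℂ E E}
    (hDv : ∀ i j, Dv i (v j) = if i = j then 1 else 0)
    (hDv' : ∀ i j, Dv' i (v' j) = if i = j then 1 else 0) (t : C) (g : K)
    (D : Fin (n + 1) → Derivation ℂ K K) :
    trForm (zz K v t) g D = algebraMap E K (Matrix.of fun i j => Dv' i (v j)).det *
      trForm (zz K v' t) g D := by
  have hm : ∀ i : Fin (n + 1),
      (Matrix.of fun a b => D (i.succAbove a) (algebraMap E K (v b)) : Matrix (Fin n) (Fin n) K).det =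
      algebraMap E K (Matrix.of fun i j => Dv' i (v j)).det *
        (Matrix.of fun a b => D (i.succAbove a) (algebraMap E K (v' b)) :
          Matrix (Fin n) (Fin n) K).det := by
    intro i
    have h1 := Pool.Agent.W73.PG.PULL.form_eq (L := K) v v' hv hv' Dv Dv' hDv hDv'
      (m := 1) (trForm v 1) (trForm_pluri v 1) (fun a => D (i.succAbove a))
    have h2 : trForm v (1 : E) Dv = 1 := by
      have h3 : (Matrix.of fun i j => Dv i (v j) : Matrix (Fin n) (Fin n) E) = 1 := by
        ext i j
        rw [Matrix.of_apply, hDv, Matrix.one_apply]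
      rw [trForm, h3, Matrix.det_one, one_mul]
    have h4 : trForm v (1 : E) Dv' = (Matrix.of fun i j => Dv' i (v j)).det := by
      rw [trForm, mul_one]
    rw [h2, h4, pow_one, pow_one, map_one, mul_one] at h1
    rw [h1, mul_comm]
  unfold trForm
  rw [Matrix.det_succ_column _ (Fin.last n), Matrix.det_succ_column _ (Fin.last n),
    Finset.sum_mul, Finset.sum_mul, Finset.mul_sum]
  refine Finset.sum_congr rfl fun i _ => ?_
  have e1 : ∀ w : Fin n → E,
      (Matrix.of fun i j => D i (zz K w t j) : Matrix (Fin (n + 1)) (Fin (n + 1)) K) i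
      (Fin.last n) = D i (algebraMap C K t) := by
    intro w
    rw [Matrix.of_apply]
    unfold zz
    rw [Fin.snoc_last]
  have e2 : ∀ w : Fin n → E,
      (Matrix.of fun i j => D i (zz K w t j) : Matrix (Fin (n + 1)) (Fin (n + 1)) K).submatrix
      i.succAbove (Fin.last n).succAbove =
      (Matrix.of fun a b => D (i.succAbove a) (algebraMap E K (w b)) : Matrix (Fin n) (Fin n) K) := by
    intro w
    ext a b
    rw [Matrix.submatrix_apply, Matrix.of_apply, Matrix.of_apply, Fin.succAbove_last]
    unfold zz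
    rw [Fin.snoc_castSucc]
  rw [e1, e1, e2, e2, hm i]
  ring

/-- regularity of the product -/
theorem reg_w {t : C} (ht : Transcendental ℂ t) {D0 : Derivation ℂ C C} (hD0 : D0 t = 1)
    {B : Set (Place ℂ C)} {φ : C} (hφ : φ ∈ HL D0 B) {Q : Place ℂ K}
    (hQB : ∀ p ∈ B, ∀ e : ℕ, ¬ Over Q p e) {v : Fin n → E}
    (hv : ∀ j, Q.Reg (algebraMap E K (v j))) :
    RegAt Q (trForm (zz K v t) (algebraMap C K φ)) := by
  intro D hD
  have h1 := expand Q v (1 : E) t φ D (fun i => ent_reg ht hD0 hφ Q hQB (hD i)) fun i => by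
    rw [map_one, mul_one]
    exact Pool.Agent.W619.PQ.ge_det Q _ fun a b => hD _ _ (hv b)
  rw [map_one, one_mul] at h1
  exact h1

/-- logarithmic poles of the product -/
theorem log_w {t : C} (ht : Transcendental ℂ t) {D0 : Derivation ℂ C C} (hD0 : D0 t = 1)
    {B : Set (Place ℂ C)} {φ : C} (hφ : φ ∈ HL D0 B) {Q : Place ℂ K} {v : Fin n → E} {f : E}
    (hv : ∀ D : Fin n → Derivation ℂ K K, (∀ i, DerLog Q (D i)) →
      Ge Q 0 ((Matrix.of fun a b => D a (algebraMap E K (v b)) :
        Matrix (Fin n) (Fin n) K).det * algebraMap E K f)) :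
    LogAt Q (trForm (zz K v t) (algebraMap E K f * algebraMap C K φ)) := by
  intro D hD
  exact expand Q v f t φ D (fun i => ent_log ht hD0 hφ Q (hD i)) fun i => hv _ fun a => hD _

end

section

variable {K T E C : Type} [Field K] [Field T] [Field E] [Field C] [Algebra ℂ K] [Algebra ℂ T]
  [Algebra ℂ E] [Algebra ℂ C] [Algebra E T] [Algebra T K] [Algebra E K] [IsScalarTower E T K]
  [IsScalarTower ℂ E T] [IsScalarTower ℂ T K] [IsScalarTower ℂ E K] [Algebra C K]
  [IsScalarTower ℂ C K] [IsFF ℂ C] [FiniteDimensional T K] [Algebra.EssFiniteType ℂ E]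
  [Algebra.EssFiniteType ℂ T] [Algebra.EssFiniteType ℂ K] {n N : ℕ}

/-- the trace form -/
noncomputable def phi (v : Fin n → E) (t : C) (g : K) (y : Fin (n + 1) → T)
    (G' : Fin (n + 1) → Derivation ℂ K K) (D : Fin (n + 1) → Derivation ℂ T T) : T :=
  trForm y (Algebra.trace T K (trForm (zz K v t) g G')) D

omit [Algebra ℂ C] [IsScalarTower ℂ C K] [IsFF ℂ C] [Algebra.EssFiniteType ℂ E]
  [Algebra.EssFiniteType ℂ T] [Algebra.EssFiniteType ℂ K] [IsScalarTower ℂ T K]
  [IsScalarTower ℂ E T] in
theorem phi_smul (v : Fin n → E) (t : C) (g : K) (y : Fin (n + 1) → T)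
    (G' : Fin (n + 1) → Derivation ℂ K K) (D : Fin (n + 1) → Derivation ℂ T T) (f : E) :
    phi v t (algebraMap E K f * g) y G' D = algebraMap E T f * phi v t g y G' D := by
  unfold phi
  have h1 : trForm (zz K v t) (algebraMap E K f * g) G' =
      algebraMap E T f • trForm (zz K v t) g G' := by
    rw [Algebra.smul_def, ← IsScalarTower.algebraMap_apply]
    unfold trForm
    ring
  rw [h1, map_smul, smul_eq_mul]
  unfold trForm
  ring

omit [Algebra ℂ C] [IsScalarTower ℂ C K] [IsFF ℂ C] [Algebra.EssFiniteType ℂ E]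
  [Algebra.EssFiniteType ℂ T] [Algebra.EssFiniteType ℂ K] [IsScalarTower ℂ T K] in
/-- change of the coordinates on `X` -/
theorem theta_change {v v' : Fin n → E} (hv : IsTranscendenceBasis ℂ v)
    (hv' : IsTranscendenceBasis ℂ v') {Dv Dv' : Fin n → Derivation ℂ E E}
    (hDv : ∀ i j, Dv i (v j) = if i = j then 1 else 0)
    (hDv' : ∀ i j, Dv' i (v' j) = if i = j then 1 else 0) (t : C) (g : K) (y : Fin (n + 1) → T)
    (G' : Fin (n + 1) → Derivation ℂ K K) (D : Fin (n + 1) → Derivation ℂ T T)
    {ψ : (Fin n → Derivation ℂ E E) → E} (hψ : IsPluri N ψ) :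
    phi v t g y G' D ^ N * algebraMap E T (ψ Dv) =
      phi v' t g y G' D ^ N * algebraMap E T (ψ Dv') := by
  have h1 : phi v t g y G' D = algebraMap E T (Matrix.of fun i j => Dv' i (v j)).det *
      phi v' t g y G' D := by
    unfold phi
    have h2 : trForm (zz K v t) g G' =
        algebraMap E T (Matrix.of fun i j => Dv' i (v j)).det • trForm (zz K v' t) g G' := by
      rw [Algebra.smul_def, ← IsScalarTower.algebraMap_apply]
      exact zz_change hv hv' hDv hDv' t g G'
    rw [h2, map_smul, smul_eq_mul]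
    unfold trForm
    ring
  have h3 := pluri_coord hv hDv hψ Dv'
  rw [h1, h3, map_mul, map_pow, mul_pow]
  ring

/-- **The product of a pluricanonical form and of a power of a trace.** -/
theorem theta_sec (hE : Algebra.trdeg ℂ E = n) (hT : Algebra.trdeg ℂ T = (n + 1 : ℕ)) {t : C}
    (ht : Transcendental ℂ t) {D0 : Derivation ℂ C C} (hD0 : D0 t = 1) {B : Set (Place ℂ C)}
    {φ : C} (hφ : φ ∈ HL D0 B) {x : Fin n → E} (hx : IsTranscendenceBasis ℂ x)
    {Dx : Fin n → Derivation ℂ E E} (hDx : ∀ i j, Dx i (x j) = if i = j then 1 else 0)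
    {y : Fin (n + 1) → T} (hy : IsTranscendenceBasis ℂ y)
    {G : Fin (n + 1) → Derivation ℂ T T} (hG : ∀ i j, G i (y j) = if i = j then 1 else 0)
    {G' : Fin (n + 1) → Derivation ℂ K K}
    (hG' : ∀ i f, G' i (algebraMap T K f) = algebraMap T K (G i f))
    {ψ : (Fin n → Derivation ℂ E E) → E} {BX : Place ℂ E → Prop} {g : E} (hψ : IsPluri N ψ)
    (hg : LogSec ℂ E n N BX (fun D => g * ψ D)) {BT : Place ℂ T → Prop}
    (hB : ∀ (P : Place ℂ T) (Q : Place ℂ K) (e : ℕ), Over Q P e → BdX BX B Q → BT P) :
    LogSec ℂ T (n + 1) N BT (fun D => algebraMap E T g *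
      (phi x t (algebraMap C K φ) y G' D ^ N * algebraMap E T (ψ Dx))) := by
  classical
  refine ⟨?_, fun P hP D hD => ?_, fun P hP hBP D hD => ?_⟩
  · intro A D
    change _ * (trForm y _ _ ^ N * _) = _ * (_ * (trForm y _ _ ^ N * _))
    rw [trForm_pluri y _ A D]
    ring
  · -- logarithmic poles
    by_cases htriv : ∃ f : E, P.ord (algebraMap E T f) ≠ 0
    · obtain ⟨e, p, hp⟩ := exists_over P htriv
      have hpd : Divisorial n p := Pool.Agent.Y71.NT.t_abh E T n (n + 1) hE hT P p e hp hP
      obtain ⟨v', Dv', i0, hl⟩ := exists_loc hE hpd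
      beta_reduce
      rw [theta_change hx hl.bas hDx hl.dual t (algebraMap C K φ) y G' D hψ]
      have hu0 : v' i0 ≠ 0 := hl.ne
      have hW : LogAt P (trForm y (Algebra.trace T K (trForm (zz K v' t)
          (algebraMap E K (v' i0)⁻¹ * algebraMap C K φ) G'))) := by
        refine trForm_logAt hT hy hG hG' _ (trForm_pluri _ _) P hP fun Q e' hQ => ?_
        refine log_w ht hD0 hφ fun D' hD' => ?_
        have hQp : Over Q p (e' * e) := over_trans' hQ hp
        have hge : Ge Q ((e' * e : ℕ) : ℤ) (Matrix.of fun a b => D' a (algebraMap E K (v' b)) :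
            Matrix (Fin n) (Fin n) K).det := by
          refine Pool.Agent.W603.LV.ge_det Q _ _
            (fun _ b => if b = i0 then ((e' * e : ℕ) : ℤ) else 0) (fun a b => ?_) fun σ => by simp
          rw [Matrix.of_apply]
          by_cases hb : b = i0
          · rw [if_pos hb, hb]
            have h2 : Ge Q 0 (D' a (algebraMap E K (v' i0)) / algebraMap E K (v' i0)) := hD' a _
            have h3 : Ge Q ((e' * e : ℕ) : ℤ) (algebraMap E K (v' i0)) :=
              Or.inr (by rw [hQp.2, hl.unif, mul_one])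
            have h4 := h2.mul h3
            rwa [div_mul_cancel₀ _ (by simpa using hu0), zero_add] at h4
          · rw [if_neg hb]
            exact derReg_of_log' (hD' a) _ (hQp.reg.2 (hl.reg b))
        have h5 : Ge Q (-((e' * e : ℕ) : ℤ)) (algebraMap E K (v' i0)⁻¹) := by
          right
          rw [hQp.2, ← one_div, p.ord_div one_ne_zero hu0, p.ord_one, hl.unif]
          simp
        have h6 := hge.mul h5
        rwa [add_neg_cancel] at h6
      have h7 : phi v' t (algebraMap C K φ) y G' D = algebraMap E T (v' i0) *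
          phi v' t (algebraMap E K (v' i0)⁻¹ * algebraMap C K φ) y G' D := by
        rw [← phi_smul, ← mul_assoc, ← map_mul, mul_inv_cancel₀ hu0, map_one, one_mul]
      rw [h7]
      have h8 : P.Reg (phi v' t (algebraMap E K (v' i0)⁻¹ * algebraMap C K φ) y G' D) := hW D hD
      have h9 : p.Reg (g * (v' i0 ^ N * ψ Dv')) := by
        have h10 := hg.2.1 p hpd (fun i => lc v' i0 i • Dv' i) fun i => hl.log i
        have h11 : ψ (fun i => lc v' i0 i • Dv' i) = v' i0 ^ N * ψ Dv' := by
          rw [pluri_diag hψ (fun i => lc v' i0 i) Dv', prod_lc]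
        beta_reduce at h10
        rwa [h11] at h10
      have h12 := P.reg_mul (hp.reg.2 h9) (reg_pow h8 N)
      have e1 : algebraMap E T g * ((algebraMap E T (v' i0) *
          phi v' t (algebraMap E K (v' i0)⁻¹ * algebraMap C K φ) y G' D) ^ N *
            algebraMap E T (ψ Dv')) =
          algebraMap E T (g * (v' i0 ^ N * ψ Dv')) *
            phi v' t (algebraMap E K (v' i0)⁻¹ * algebraMap C K φ) y G' D ^ N := by
        rw [map_mul, map_mul, map_pow, mul_pow]
        ring
      rw [e1]
      exact h12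
    · push Not at htriv
      have hreg : ∀ f : E, P.Reg (algebraMap E T f) := fun f => Or.inr (htriv f).ge
      have hW : LogAt P (trForm y (Algebra.trace T K (trForm (zz K x t)
          (algebraMap E K 1 * algebraMap C K φ) G'))) := by
        refine trForm_logAt hT hy hG hG' _ (trForm_pluri _ _) P hP fun Q e' hQ => ?_
        refine log_w ht hD0 hφ fun D' hD' => ?_
        rw [map_one, mul_one]
        refine Pool.Agent.W619.PQ.ge_det Q _ fun a b => ?_
        refine derReg_of_log' (hD' a) _ ?_
        rw [IsScalarTower.algebraMap_apply E T K]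
        exact hQ.reg.2 (hreg _)
      rw [map_one, one_mul] at hW
      exact P.reg_mul (hreg _) (P.reg_mul (reg_pow (hW D hD) N) (hreg _))
  · -- regularity
    by_cases htriv : ∃ f : E, P.ord (algebraMap E T f) ≠ 0
    · obtain ⟨e, p, hp⟩ := exists_over P htriv
      have hpd : Divisorial n p := Pool.Agent.Y71.NT.t_abh E T n (n + 1) hE hT P p e hp hP
      obtain ⟨v', Dv', i0, hl⟩ := exists_loc hE hpd
      beta_reduce
      rw [theta_change hx hl.bas hDx hl.dual t (algebraMap C K φ) y G' D hψ]
      have hBp : ¬ BX p := by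
        intro h
        obtain ⟨Q, e', hQ⟩ := Pool.Agent.Y172.exists_above (L := K) P
        exact hBP (hB P Q e' hQ (Or.inl ⟨p, _, h, over_trans' hQ hp⟩))
      have hW : RegAt P (trForm y (Algebra.trace T K (trForm (zz K v' t)
          (algebraMap C K φ) G'))) := by
        refine trForm_regAt hT hy hG hG' _ (trForm_pluri _ _) P hP fun Q e' hQ => ?_
        refine reg_w ht hD0 hφ (fun q hq e1 h1 => hBP (hB P Q e' hQ (Or.inr ⟨q, hq, e1, h1⟩)))
          fun j => ?_
        exact (over_trans' hQ hp).reg.2 (hl.reg j)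
      have h9 : p.Reg (g * ψ Dv') := hg.2.2 p hpd hBp Dv' hl.pres
      have h12 := P.reg_mul (hp.reg.2 h9) (reg_pow (hW D hD) N)
      have e1 : algebraMap E T g * (phi v' t (algebraMap C K φ) y G' D ^ N *
            algebraMap E T (ψ Dv')) =
          algebraMap E T (g * ψ Dv') * phi v' t (algebraMap C K φ) y G' D ^ N := by
        rw [map_mul]
        ring
      rw [e1]
      exact h12
    · push Not at htriv
      have hreg : ∀ f : E, P.Reg (algebraMap E T f) := fun f => Or.inr (htriv f).ge
      have hW : RegAt P (trForm y (Algebra.trace T K (trForm (zz K x t)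
          (algebraMap C K φ) G'))) := by
        refine trForm_regAt hT hy hG hG' _ (trForm_pluri _ _) P hP fun Q e' hQ => ?_
        refine reg_w ht hD0 hφ (fun q hq e1 h1 => hBP (hB P Q e' hQ (Or.inr ⟨q, hq, e1, h1⟩)))
          fun j => ?_
        rw [IsScalarTower.algebraMap_apply E T K]
        exact hQ.reg.2 (hreg _)
      exact P.reg_mul (hreg _) (P.reg_mul (reg_pow (hW D hD) N) (hreg _))

end

end Run7.h72
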