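import Pool.Agent.Run7.h72.Tower
import Pool.Agent.Run7.h72.Coef

/-!
The norm principle in towers, for linearly independent forms.
-/

set_option autoImplicit false
set_option linter.overlappingInstances false
set_option linter.unusedSectionVars false
set_option maxHeartbeats 4000000
set_option synthInstance.maxHeartbeats 400000

open FF Polynomial Module
open Pool.Agent.W602.GT Pool.Agent.W603.LV Pool.Agent.W619.PQ Pool.Agent.Y172

namespace Run7.h72

/-- **The norm principle in towers, for linearly independent forms.** -/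
theorem tower_ind {k : Type} [Field k] [CharZero k] [IsAlgClosed k] {n : ℕ} : ∀ (κ : ℕ)
    {K L : Type} [Field K]
    [Field L] [Algebra k K] [Algebra k L] [Algebra K L] [IsScalarTower k K L]
    [FiniteDimensional K L] [Algebra.EssFiniteType k K] [Algebra.EssFiniteType k L]
    (_ : Algebra.trdeg k K = n) (X : Set (Place k K)) (_ : ∀ P ∈ X, Divisorial n P)
    (D : Place k K → ℚ)
    (m : Fin κ → ℕ) (x : ∀ i, Fin (m i + 1) → L) (_ : ∀ i, x i 0 = 1) (_ : Lv K x κ = ⊤)
    (N : ℕ) (M : Fin κ → ℕ) (_ : ∀ i : Fin κ,
      2 * (finrank K (Lv K x (i + 1)) - finrank K (Lv K x i)) * N ≤ M i * finrank K (Lv K x i))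
    (h : ℕ) (W : Fin h → (Fin n → Derivation k L L) → L) (_ : ∀ l, IsPluri N (W l))
    (_ : ∀ l f, SU X D (fun G => mlt x M f * W l G)) (_ : LinearIndependent k W),
    ∃ η : Fin h → (Fin n → Derivation k K K) → K, (∀ l, IsPluri (N * finrank K L) (η l)) ∧
      (∀ l, ∀ P ∈ X, OGe P (η l) (-(finrank K L * D P))) ∧ LinearIndependent k η := by
  intro κ
  induction κ with
  | zero =>
    intro K L _ _ _ _ _ _ _ _ _ hn X hX D m x hx0 hgen N M hM h W hW hsec hli
    have hbot : (⊥ : IntermediateField K L) = ⊤ := by
      rw [← hgen]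
      unfold Lv
      rw [eq_comm, IntermediateField.adjoin_eq_bot_iff]
      rintro z ⟨l, -⟩
      exact l.elim0
    have hr : finrank K L = 1 := IntermediateField.bot_eq_top_iff_finrank_eq_one.1 hbot
    have hy : IntermediateField.adjoin K (Set.range (fun _ : Fin (0 + 1) => (1 : L))) = ⊤ := by
      rw [eq_top_iff, ← hbot]
      exact bot_le
    obtain ⟨η, hη, hη', hη''⟩ := step_ind hn hX D (κ := 0) (m := fun _ => 0)
      (fun i => i.elim0) (fun i => i.elim0) (fun _ => (1 : L)) rfl hy (N := N) (M' := 0)
      (by rw [hr]; simp) W hW (fun l f b => by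
        have h1 := hsec l (fun i => i.elim0)
        have e1 : (fun G : Fin n → Derivation k L L => mlt x M (fun i => i.elim0) * W l G) =
            fun G => algebraMap K L (mlt (fun i : Fin 0 => i.elim0) (fun i => i.elim0) f) *
              (1 : L) ^ 0 * W l G := by
          funext G
          unfold mlt
          simp
        rwa [e1] at h1) hli
    refine ⟨η, hη, fun l P hP => ?_, hη''⟩
    have h1 := hη' l (fun i => i.elim0) P hP
    have e1 : (fun G : Fin n → Derivation k K K =>
        mlt (fun i : Fin 0 => (i.elim0 : Fin ((fun _ => 0 : Fin 0 → ℕ) i + 1) → K))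
          (fun i => (i.elim0 : ℕ) * finrank K L) (fun i => i.elim0) * η l G) = η l := by
      funext G
      unfold mlt
      simp
    rw [e1] at h1
    exact h1
  | succ κ ih =>
    intro K L _ _ _ _ _ _ _ _ _ hn X hX D m x hx0 hgen N M hM h W hW hsec hli
    obtain ⟨K', hK'⟩ : ∃ K', K' = Lv K x κ := ⟨_, rfl⟩
    have hy := adjoin_last x hgen
    rw [← hK'] at hy
    have htw : IsScalarTower k K' L := IsScalarTower.of_algebraMap_eq fun z => rfl
    have hnK' : Algebra.trdeg k K' = n := trdeg_up (K := K) hn
    have hessK' : Algebra.EssFiniteType k K' := Algebra.EssFiniteType.comp k K K'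
    let x' : ∀ i : Fin κ, Fin (m i.castSucc + 1) → K' := fun i b =>
      ⟨x i.castSucc b, by rw [hK']; exact mem_Lv x i.castSucc i.isLt b⟩
    -- the degrees
    have hdeg : ∀ i, i ≤ κ → finrank K (Lv K x' i) = finrank K (Lv K x i) := by
      intro i hi
      rw [finrank_Lv]
      have e1 : Lv K (fun (i : Fin κ) b => ((x' i b : K') : L)) i = Lv K x i := Lv_castSucc x hi
      rw [e1]
    have hdK' : finrank K (Lv K x κ) = finrank K K' := by rw [hK']
    have hdL : finrank K (Lv K x (κ + 1)) = finrank K K' * finrank K' L := by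
      rw [hgen, IntermediateField.finrank_top', finrank_mul_finrank]
    have hKpos : 0 < finrank K K' := finrank_pos
    have hMlast : 2 * (finrank K' L - 1) * N ≤ M (Fin.last κ) := by
      have h1 := hM (Fin.last κ)
      rw [Fin.val_last, hdL, hdK'] at h1
      have h2 : finrank K K' * finrank K' L - finrank K K' = finrank K K' * (finrank K' L - 1) := by
        rw [Nat.mul_sub, mul_one]
      rw [h2] at h1
      have h3 : (2 * (finrank K' L - 1) * N) * finrank K K' ≤ M (Fin.last κ) * finrank K K' := by
        calc _ = 2 * (finrank K K' * (finrank K' L - 1)) * N := by ring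
          _ ≤ _ := h1
      exact Nat.le_of_mul_le_mul_right h3 hKpos
    -- the places of the intermediate field
    let X' : Set (Place k K') := {Q' | ∃ P ∈ X, ∃ e, Over Q' P e}
    have hX' : ∀ Q' ∈ X', Divisorial n Q' := by
      rintro Q' ⟨P, hP, e, hQ'⟩
      exact divisorial_up hQ' (hX P hP)
    have hD' : ∃ D' : Place k K' → ℚ, ∀ Q' (P : Place k K) (e : ℕ), P ∈ X → Over Q' P e →
        D' Q' = e * D P := by
      classical
      refine ⟨fun Q' => if h : ∃ p : Place k K × ℕ, p.1 ∈ X ∧ Over Q' p.1 p.2 then
        h.choose.2 * D h.choose.1 else 0, fun Q' P e hP hQ' => ?_⟩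
      have h1 : ∃ p : Place k K × ℕ, p.1 ∈ X ∧ Over Q' p.1 p.2 := ⟨(P, e), hP, hQ'⟩
      beta_reduce
      rw [dif_pos h1]
      obtain ⟨h2, h3⟩ := Pool.Agent.Y172.over_unique' h1.choose_spec.2 hQ'
      rw [h2, h3]
    obtain ⟨D', hD'⟩ := hD'
    obtain ⟨η, hη, hη', hηi⟩ := step_ind (K := K') (L := L) hnK' hX' D'
      (κ := κ) (m := fun i => m i.castSucc) x'
      (fun i => M i.castSucc) (x (Fin.last κ)) (hx0 _) hy hMlast W hW (fun l f b => by
        rintro Q' ⟨P, hP, e', hQ'⟩ Q e hQ
        have h1 := hsec l (Fin.snoc (α := fun i => Fin (m i + 1)) f b) P hP Q (e * e')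
          (over_trans' hQ hQ')
        have e1 : mlt x M (Fin.snoc (α := fun i => Fin (m i + 1)) f b) =
            algebraMap K' L (mlt x' (fun i => M i.castSucc) f) *
              x (Fin.last κ) b ^ M (Fin.last κ) := by
          unfold mlt
          rw [Fin.prod_univ_castSucc, Fin.snoc_last, map_prod]
          congr 1
          refine Finset.prod_congr rfl fun i _ => ?_
          rw [Fin.snoc_castSucc, map_pow]
          rfl
        rw [e1] at h1
        rw [hD' Q' P e' hP hQ']
        have e2 : -(((e * e' : ℕ) : ℚ) * D P) = -((e : ℚ) * (e' * D P)) := by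
          push_cast
          ring
        rw [e2] at h1
        exact h1) hli
    obtain ⟨η', hη1, hη2, hη3⟩ := ih (K := K) (L := K') hn X hX (fun P => finrank K' L * D P)
      (fun i => m i.castSucc) x' (fun i => Subtype.ext (hx0 _)) (by
        have hinj := IntermediateField.map_injective K'.val
        apply hinj
        rw [Lv_map]
        have e1 : Lv K (fun (i : Fin κ) b => ((x' i b : K') : L)) κ = Lv K x κ :=
          Lv_castSucc x le_rfl
        rw [e1, ← hK']
        ext z
        constructor
        · intro hz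
          exact ⟨⟨z, hz⟩, trivial, rfl⟩
        · rintro ⟨w, -, rfl⟩
          exact w.2)
      (N * finrank K' L) (fun i => M i.castSucc * finrank K' L) (fun i => by
        have h1 := hM i.castSucc
        rw [Fin.val_castSucc] at h1
        rw [hdeg _ (Nat.succ_le_of_lt i.isLt), hdeg _ (le_of_lt i.isLt)]
        calc _ = 2 * (finrank K (Lv K x (i + 1)) - finrank K (Lv K x i)) * N * finrank K' L := by
              ring
          _ ≤ M i.castSucc * finrank K (Lv K x i) * finrank K' L := Nat.mul_le_mul_right _ h1
          _ = _ := by ring) h η hη (fun l f => by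
        intro P hP Q' e' hQ'
        have h1 := hη' l f Q' ⟨P, hP, e', hQ'⟩
        rw [hD' Q' P e' hP hQ'] at h1
        have e2 : -((finrank K' L : ℚ) * (e' * D P)) = -((e' : ℚ) * (finrank K' L * D P)) := by
          ring
        rw [e2] at h1
        exact h1) hηi
    have hfr : finrank K K' * finrank K' L = finrank K L := finrank_mul_finrank K K' L
    refine ⟨η', fun l => ?_, fun l P hP => ?_, hη3⟩
    · have h1 := hη1 l
      have e1 : N * finrank K' L * finrank K K' = N * finrank K L := by
        rw [← hfr]; ring
      rwa [e1] at h1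
    · have h1 := hη2 l P hP
      have e1 : -((finrank K K' : ℚ) * (finrank K' L * D P)) = -((finrank K L : ℚ) * D P) := by
        rw [← hfr]
        push_cast
        ring
      rwa [e1] at h1

end Run7.h72
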